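import Pool.Agent.Lib.MP_36da60_lc.GenA62

/-!
# fpr-degrees: delayed copies from a computable type in a computable presentation

The types `q1`, `q2` and the relation `b` are only assumed to be computable, the self pattern may
be asymmetric.
-/

namespace Fpr62

open Nat.Partrec (Code)

theorem computable_find' {β : Type*} [Primcodable β] {f : β → ℕ → Bool} (hf : Computable₂ f)
    (hex : ∀ b, ∃ n, f b n = true) :
    ∃ s : β → ℕ, Computable s ∧ (∀ b, f b (s b) = true) ∧ ∀ b, ∀ m < s b, ¬ f b m = true := by
  classical
  have h3 := Partrec.rfind hf.partrec₂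
  refine ⟨fun b => Nat.find (hex b), ?_, fun b => Nat.find_spec (hex b),
    fun b m hm => Nat.find_min (hex b) hm⟩
  refine h3.of_eq_tot ?_
  intro b
  rw [Nat.mem_rfind]
  refine ⟨?_, ?_⟩
  · have := Nat.find_spec (hex b)
    simp [this]
  · intro m hm
    have := Nat.find_min (hex b) hm
    simp [this]

/-- a computable test for all elements of a list -/
theorem computable_all {g : ℕ → ℕ → Bool} (hg : Computable₂ g) :
    ∃ F : List ℕ → ℕ → Bool, Computable₂ F ∧
      ∀ L a, F L a = true ↔ ∀ y ∈ L, g y a = true := by
  let stp : List ℕ × ℕ → ℕ × Bool → Bool := fun q r =>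
    r.2 && Option.casesOn (q.1[r.1]?) true (fun y => g y q.2)
  let F : List ℕ → ℕ → Bool := fun L a =>
    Nat.rec (motive := fun _ => Bool) true (fun i acc => stp (L, a) (i, acc)) L.length
  refine ⟨F, ?_, ?_⟩
  · have h1 : Computable (fun q : List ℕ × ℕ => q.1.length) :=
      Computable.list_length.comp Computable.fst
    have h2 : Computable₂ stp := by
      have hget : Computable (fun z : (List ℕ × ℕ) × (ℕ × Bool) => z.1.1[z.2.1]?) :=
        Computable.list_getElem?.comp (Computable.fst.comp Computable.fst)
          (Computable.fst.comp Computable.snd)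
      have hcase : Computable (fun z : (List ℕ × ℕ) × (ℕ × Bool) =>
          (Option.casesOn (z.1.1[z.2.1]?) true (fun y => g y z.1.2) : Bool)) := by
        refine Computable.option_casesOn hget (Computable.const true) ?_
        exact hg.comp Computable.snd
          (Computable.snd.comp (Computable.fst.comp Computable.fst))
      have hand : Computable₂ (fun a b : Bool => a && b) := Primrec.and.to_comp
      exact hand.comp (Computable.snd.comp Computable.snd) hcase
    have h3 := Computable.nat_rec (f := fun q : List ℕ × ℕ => q.1.length)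
      (g := fun _ : List ℕ × ℕ => true) (h := stp) h1 (Computable.const true) h2
    exact h3
  · intro L a
    have key : ∀ n, (Nat.rec (motive := fun _ => Bool) true
        (fun i acc => stp (L, a) (i, acc)) n : Bool) = true ↔
        ∀ i < n, ∀ y, L[i]? = some y → g y a = true := by
      intro n
      induction n with
      | zero => simp
      | succ n ih =>
        have hs : (Nat.rec (motive := fun _ => Bool) true
            (fun i acc => stp (L, a) (i, acc)) (n + 1) : Bool) =
            ((Nat.rec (motive := fun _ => Bool) true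
              (fun i acc => stp (L, a) (i, acc)) n : Bool) &&
              Option.casesOn (L[n]?) true (fun y => g y a)) := rfl
        rw [hs, Bool.and_eq_true, ih]
        constructor
        · rintro ⟨h1, h2⟩ i hi y hy
          rcases Nat.lt_succ_iff_lt_or_eq.1 hi with h | h
          · exact h1 i h y hy
          · subst h
            rw [hy] at h2
            exact h2
        · intro h
          refine ⟨fun i hi => h i (by omega), ?_⟩
          cases hn : L[n]? with
          | none => rfl
          | some y => exact h n (by omega) y hn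
    refine (key L.length).trans ⟨fun h y hy => ?_, fun h i _ y hy => ?_⟩
    · obtain ⟨i, hi, rfl⟩ := List.mem_iff_getElem.1 hy
      exact h i hi _ (List.getElem?_eq_getElem hi)
    · exact h y (List.mem_of_getElem? hy)

/-- `a` realises the type `(q1, q2)` over the list `L` in the relation `b` -/
def GenC (c0 c1 c2 : Prop) (q1 q2 : ℕ → Bool) (b : ℕ → ℕ → Bool) (L : List ℕ) (a : ℕ) : Prop :=
  (∀ y ∈ L, y ≠ a ∧ b a y = q1 y ∧ b y a = q2 y) ∧ (b a a = true ↔ c0) ∧
    (q1 a = true ↔ c1) ∧ (q2 a = true ↔ c2)

/-- **The listing.**  `p (2k)` realises the computable type over all earlier values. -/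
theorem exists_listing_comp (c0 c1 c2 : Prop) {q1 q2 : ℕ → Bool} (hq1 : Computable q1)
    (hq2 : Computable q2) {b : ℕ → ℕ → Bool} (hb : Computable₂ b)
    (hgen : ∀ L : List ℕ, ∃ a, GenC c0 c1 c2 q1 q2 b L a) :
    ∃ p : ℕ → ℕ, Computable p ∧ Function.Bijective p ∧
      (∀ k, (b (p (2 * k)) (p (2 * k)) = true ↔ c0)) ∧
      (∀ k, (q1 (p (2 * k)) = true ↔ c1) ∧ (q2 (p (2 * k)) = true ↔ c2)) ∧
      ∀ k, ∀ i < 2 * k, b (p (2 * k)) (p i) = q1 (p i) ∧ b (p i) (p (2 * k)) = q2 (p i) := by
  classical
  -- the test
  have hbeq : Computable₂ (fun x y : Bool => decide (x = y)) := by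
    have : Primrec₂ (fun x y : Bool => decide (x = y)) := Primrec.eq.decide
    exact this.to_comp
  have hneq : Computable₂ (fun x y : ℕ => !decide (x = y)) := by
    have : Primrec₂ (fun x y : ℕ => !decide (x = y)) :=
      Primrec.not.comp₂ Primrec.eq.decide
    exact this.to_comp
  have hand : Computable₂ (fun a b : Bool => a && b) := Primrec.and.to_comp
  obtain ⟨F1, hF1, hF1P⟩ := computable_all (g := fun y a =>
      (!decide (y = a)) && (decide (b a y = q1 y) && decide (b y a = q2 y))) (by
    have e1 : Computable (fun z : ℕ × ℕ => !decide (z.1 = z.2)) := hneq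
    have e2 : Computable (fun z : ℕ × ℕ => decide (b z.2 z.1 = q1 z.1)) :=
      hbeq.comp (hb.comp Computable.snd Computable.fst) (hq1.comp Computable.fst)
    have e3 : Computable (fun z : ℕ × ℕ => decide (b z.1 z.2 = q2 z.1)) :=
      hbeq.comp (hb.comp Computable.fst Computable.snd) (hq2.comp Computable.fst)
    exact hand.comp e1 (hand.comp e2 e3))
  let f1 : List ℕ → ℕ → Bool := fun L a => F1 L a &&
    (decide (b a a = decide c0) && (decide (q1 a = decide c1) && decide (q2 a = decide c2)))
  have hf1 : Computable₂ f1 := by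
    have e1 : Computable (fun z : List ℕ × ℕ => decide (b z.2 z.2 = decide c0)) :=
      hbeq.comp (hb.comp Computable.snd Computable.snd) (Computable.const _)
    have e2 : Computable (fun z : List ℕ × ℕ => decide (q1 z.2 = decide c1)) :=
      hbeq.comp (hq1.comp Computable.snd) (Computable.const _)
    have e3 : Computable (fun z : List ℕ × ℕ => decide (q2 z.2 = decide c2)) :=
      hbeq.comp (hq2.comp Computable.snd) (Computable.const _)
    exact hand.comp hF1 (hand.comp e1 (hand.comp e2 e3))
  have hdec : ∀ (x : Bool) (c : Prop), (x = decide c) ↔ (x = true ↔ c) := by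
    intro x c
    by_cases hc : c <;> cases x <;> simp [hc]
  have hf1P : ∀ L a, f1 L a = true ↔ GenC c0 c1 c2 q1 q2 b L a := by
    intro L a
    simp only [f1, Bool.and_eq_true, hF1P, decide_eq_true_eq, hdec, GenC, Bool.not_eq_true',
      decide_eq_false_iff_not, ne_eq]
  obtain ⟨s1, hs1, hs1P', -⟩ := computable_find' hf1 (fun L => by
    obtain ⟨a, ha⟩ := hgen L
    exact ⟨a, (hf1P L a).2 ha⟩)
  have hs1P : ∀ L, GenC c0 c1 c2 q1 q2 b L (s1 L) := fun L => (hf1P _ _).1 (hs1P' L)
  obtain ⟨s2, hs2, hs2P, hs2m⟩ := computable_find primrec_notMem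
    (fun L => by
      obtain ⟨a, ha⟩ := Infinite.exists_notMem_finset L.toFinset
      exact ⟨a, fun h => ha (List.mem_toFinset.2 h)⟩)
  let st : ℕ → List ℕ := fun n => Nat.rec (motive := fun _ => List ℕ) []
    (fun _ L => s2 (s1 L :: L) :: s1 L :: L) n
  have hst0 : st 0 = [] := rfl
  have hsts : ∀ k, st (k + 1) = s2 (s1 (st k) :: st k) :: s1 (st k) :: st k := fun k => rfl
  have hcons : Computable (fun L : List ℕ => s1 L :: L) :=
    Computable.list_cons.comp hs1 Computable.id
  have hstep : Computable (fun L : List ℕ => s2 (s1 L :: L) :: s1 L :: L) :=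
    Computable.list_cons.comp (hs2.comp hcons) hcons
  have hst : Computable st := by
    refine Computable.nat_rec (f := fun n : ℕ => n) (g := fun _ : ℕ => ([] : List ℕ))
      (h := fun _ q => s2 (s1 q.2 :: q.2) :: s1 q.2 :: q.2) Computable.id (Computable.const _) ?_
    exact hstep.comp (Computable.snd.comp Computable.snd)
  let p : ℕ → ℕ := fun n => if n % 2 = 0 then s1 (st (n / 2)) else s2 (s1 (st (n / 2)) :: st (n / 2))
  have hp0 : ∀ k, p (2 * k) = s1 (st k) := by
    intro k
    have h1 : (2 * k) % 2 = 0 := by omega
    have h2 : (2 * k) / 2 = k := by omega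
    simp only [p, h1, h2, if_true]
  have hp1 : ∀ k, p (2 * k + 1) = s2 (s1 (st k) :: st k) := by
    intro k
    have h1 : ¬ (2 * k + 1) % 2 = 0 := by omega
    have h2 : (2 * k + 1) / 2 = k := by omega
    simp only [p, h1, h2, if_false]
  have hhalf : Computable (fun n : ℕ => n / 2) :=
    (Primrec.nat_div.comp Primrec.id (Primrec.const 2)).to_comp
  have hp : Computable p := by
    have hpar : Computable (fun n : ℕ => decide (n % 2 = 0)) := by
      have : PrimrecPred (fun n : ℕ => n % 2 = 0) :=
        Primrec.eq.comp (Primrec.nat_mod.comp Primrec.id (Primrec.const 2)) (Primrec.const 0)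
      exact this.decide.to_comp
    refine (Computable.cond hpar (hs1.comp (hst.comp hhalf))
      (hs2.comp (hcons.comp (hst.comp hhalf)))).of_eq fun n => ?_
    by_cases h : n % 2 = 0 <;> simp [p, h]
  have hmem : ∀ k y, y ∈ st k ↔ ∃ i < 2 * k, p i = y := by
    intro k
    induction k with
    | zero => intro y; simp [hst0]
    | succ k ih =>
      intro y
      rw [hsts, List.mem_cons, List.mem_cons, ih, ← hp1, ← hp0]
      constructor
      · rintro (h | h | ⟨i, hi, h⟩)
        · exact ⟨2 * k + 1, by omega, h.symm⟩
        · exact ⟨2 * k, by omega, h.symm⟩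
        · exact ⟨i, by omega, h⟩
      · rintro ⟨i, hi, h⟩
        rcases (by omega : i = 2 * k + 1 ∨ i = 2 * k ∨ i < 2 * k) with h' | h' | h'
        · left; rw [← h, h']
        · right; left; rw [← h, h']
        · right; right; exact ⟨i, h', h⟩
  have hnew : ∀ n i, i < n → p i ≠ p n := by
    intro n i hi heq
    rcases (by omega : n = 2 * (n / 2) ∨ n = 2 * (n / 2) + 1) with h | h
    · set k := n / 2
      have h1 : p i ∈ st k := (hmem k _).2 ⟨i, by omega, rfl⟩
      have h2 := ((hs1P (st k)).1 _ h1).1
      apply h2
      rw [heq, h, hp0]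
    · set k := n / 2
      have h2 := hs2P (s1 (st k) :: st k)
      apply h2
      rw [← hp1, ← h, ← heq, List.mem_cons, hmem, ← hp0]
      rcases (by omega : i = 2 * k ∨ i < 2 * k) with h' | h'
      · left; rw [h']
      · right; exact ⟨i, h', rfl⟩
  have hinj : Function.Injective p := by
    intro a b hab
    rcases lt_trichotomy a b with h | h | h
    · exact absurd hab (hnew b a h)
    · exact h
    · exact absurd hab.symm (hnew a b h)
  have hall : ∀ k, ∀ b < k, b ∈ st k := by
    intro k
    induction k with
    | zero => intro b hb; omega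
    | succ k ih =>
      intro b hb
      rw [hsts, List.mem_cons, List.mem_cons]
      by_cases hbk : b < k
      · exact Or.inr (Or.inr (ih b hbk))
      · have hbk' : b = k := by omega
        subst hbk'
        by_cases hm : b ∈ s1 (st b) :: st b
        · exact Or.inr (List.mem_cons.1 hm)
        · left
          have h1 : s2 (s1 (st b) :: st b) ≤ b := by
            by_contra hlt
            exact hs2m _ b (by omega) hm
          have h2 := hs2P (s1 (st b) :: st b)
          by_contra hne
          have h3 : s2 (s1 (st b) :: st b) < b := by omega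
          exact h2 (List.mem_cons_of_mem _ (ih _ h3))
  have hsurj : Function.Surjective p := by
    intro b
    obtain ⟨i, -, hi⟩ := (hmem (b + 1) b).1 (hall (b + 1) b (by omega))
    exact ⟨i, hi⟩
  refine ⟨p, hp, ⟨hinj, hsurj⟩, fun k => ?_, fun k => ?_, fun k i hi => ?_⟩
  · rw [hp0]; exact (hs1P (st k)).2.1
  · rw [hp0]; exact (hs1P (st k)).2.2
  · have h1 : p i ∈ st k := (hmem k _).2 ⟨i, hi, rfl⟩
    rw [hp0]
    exact ((hs1P (st k)).1 _ h1).2

end Fpr62
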