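import Pool.Agent.Lib.MP_36da60_lc.CompA25

/-!
# fpr-degrees: the delayed copy for a computable type with any self pattern
-/

namespace Fpr62

open Nat.Partrec (Code)

/-- the pattern of a sequence of generic elements: `c0` on the diagonal, `c1` from the later to the
earlier and `c2` from the earlier to the later element -/
def PatO (c0 c1 c2 : Prop) (x y : ℕ) : Prop := (x = y ∧ c0) ∨ (y < x ∧ c1) ∨ (x < y ∧ c2)

theorem primrec_PatO (c0 c1 c2 : Prop) {β : Type*} [Primcodable β] {f g : β → ℕ} (hf : Primrec f)
    (hg : Primrec g) : PrimrecPred (fun b => PatO c0 c1 c2 (f b) (g b)) := by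
  have h1 : PrimrecPred (fun b => f b = g b) := Primrec.eq.comp hf hg
  have h2 : PrimrecPred (fun b => g b < f b) := Primrec.nat_lt.comp hg hf
  have h3 : PrimrecPred (fun b => f b < g b) := Primrec.nat_lt.comp hf hg
  exact PrimrecPred.or (PrimrecPred.and h1 (primrec_const_pred c0))
    (PrimrecPred.or (PrimrecPred.and h2 (primrec_const_pred c1))
      (PrimrecPred.and h3 (primrec_const_pred c2)))

/-- **The delayed copy.**  `b` is any computable relation with a computable type `(q1, q2)`, `idx`
is the position in the listing, `R` the sparse set of delayed elements. -/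
theorem exists_delayed_comp (c0 c1 c2 : Prop) {q1 q2 : ℕ → Bool} (hq1 : Computable q1)
    (hq2 : Computable q2) {b : ℕ → ℕ → Bool} (hb : Computable₂ b)
    (hgen : ∀ L : List ℕ, ∃ a, GenC c0 c1 c2 q1 q2 b L a) (G : ℕ → ℕ) (hG : Computable G) :
    ∃ (B' : ℕ → ℕ → Prop) (g idx : ℕ → ℕ) (R : ℕ → Prop) (_ : DecidablePred R)
      (D1 D2 : ℕ → Prop), PrimrecRel B' ∧
      Function.Bijective g ∧ (∀ x y, b x y = true ↔ B' (g x) (g y)) ∧
      Function.Bijective idx ∧
      (∀ x, ¬ R x → (B' x x ↔ c0) ∧ (D1 x ↔ c1) ∧ (D2 x ↔ c2)) ∧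
      (∀ x y, ¬ R x → idx y < idx x → (B' x y ↔ D1 y) ∧ (B' y x ↔ D2 y)) ∧
      (∀ x, R x → idx x = 2 * Nat.count R x + 1) ∧
      (∀ x, ¬ R x → idx x = 2 * (x - Nat.count R x)) ∧
      ∀ n, Nat.count R (G n) ≤ n := by
  classical
  obtain ⟨p, hp, hpb, hp0, hpq, hp1⟩ := exists_listing_comp c0 c1 c2 hq1 hq2 hb hgen
  -- the table
  have hw : ∃ w : ℕ → ℕ, Computable w ∧
      ∀ z, w z = 1 ↔ b (p z.unpair.1) (p z.unpair.2) = true := by
    refine ⟨fun z => cond (b (p z.unpair.1) (p z.unpair.2)) 1 0, ?_, ?_⟩
    · refine Computable.cond ?_ (Computable.const 1) (Computable.const 0)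
      exact hb.comp (hp.comp (Computable.fst.comp Primrec.unpair.to_comp))
        (hp.comp (Computable.snd.comp Primrec.unpair.to_comp))
    · intro z
      by_cases h : b (p z.unpair.1) (p z.unpair.2) = true <;> simp [h]
  obtain ⟨w, hwc, hwB⟩ := hw
  obtain ⟨d, hd⟩ := Code.exists_code.1 (Partrec.nat_iff.1 hwc)
  have hdw : ∀ z, Code.eval d z = Part.some (w z) := by
    intro z; rw [hd]; rfl
  have hP : PrimrecRel (fun z k : ℕ => (Code.evaln k d z).isSome = true) := by
    have h1 : Primrec (fun q : ℕ × ℕ => Code.evaln q.2 d q.1) :=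
      Code.primrec_evaln.comp ((Primrec.snd.pair (Primrec.const d)).pair Primrec.fst)
    have h2 : Primrec (fun q : ℕ × ℕ => (Code.evaln q.2 d q.1).isSome) :=
      Primrec.option_isSome.comp h1
    exact Primrec.eq.comp h2 (Primrec.const true)
  obtain ⟨u, hu, huP, -⟩ := computable_find hP (fun z => by
    have h1 : w z ∈ Code.eval d z := by rw [hdw]; exact Part.mem_some _
    obtain ⟨k, hk⟩ := Code.evaln_complete.1 h1
    have h2 : Code.evaln k d z = some (w z) := hk
    exact ⟨k, by rw [h2]; rfl⟩)
  have hval : ∀ z k, u z ≤ k → val d k z = w z := by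
    intro z k hk
    obtain ⟨v, hv⟩ := Option.isSome_iff_exists.1 (huP z)
    have h1 : v ∈ Code.evaln (u z) d z := hv
    have h2 := Code.evaln_mono hk h1
    have h3 := Code.evaln_sound h1
    rw [hdw] at h3
    have h4 : v = w z := by simpa using h3
    have h5 : Code.evaln k d z = some v := h2
    unfold val
    rw [h5, h4]
    rfl
  let cum : ℕ → ℕ := fun n => Nat.rec (motive := fun _ => ℕ) 0 (fun i s => s + u i) n
  have hcum : Computable cum := by
    refine Computable.nat_rec (f := fun n : ℕ => n) (g := fun _ : ℕ => (0 : ℕ))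
      (h := fun _ q => q.2 + u q.1) Computable.id (Computable.const _) ?_
    exact Primrec.nat_add.to_comp.comp (Computable.snd.comp Computable.snd)
      (hu.comp (Computable.fst.comp Computable.snd))
  have hcums : ∀ n, cum (n + 1) = cum n + u n := fun n => rfl
  have hcumu : ∀ n i, i < n → u i ≤ cum n := by
    intro n
    induction n with
    | zero => intro i hi; omega
    | succ n ih =>
      intro i hi
      rw [hcums]
      rcases (by omega : i < n ∨ i = n) with h | h
      · have := ih i h; omega
      · rw [h]; omega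
  have hsq : Computable (fun j : ℕ => (2 * j + 3) * (2 * j + 3)) := by
    have h1 : Primrec (fun j : ℕ => 2 * j + 3) :=
      Primrec.nat_add.comp (Primrec.nat_mul.comp (Primrec.const 2) Primrec.id) (Primrec.const 3)
    exact (Primrec.nat_mul.comp h1 h1).to_comp
  have hlin : Computable (fun j : ℕ => 2 * j + 2) :=
    (Primrec.nat_add.comp (Primrec.nat_mul.comp (Primrec.const 2) Primrec.id)
      (Primrec.const 2)).to_comp
  let t : ℕ → ℕ := fun j => cum ((2 * j + 3) * (2 * j + 3)) + (G j + (2 * j + 2))
  have ht : Computable t :=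
    Primrec.nat_add.to_comp.comp (hcum.comp hsq) (Primrec.nat_add.to_comp.comp hG hlin)
  obtain ⟨e, he⟩ := Code.exists_code.1 (Partrec.nat_iff.1 ht)
  have het : ∀ j, Code.eval e j = Part.some (t j) := by
    intro j; rw [he]; rfl
  have ht1 : ∀ j, 2 * j + 2 ≤ t j := fun j => by simp only [t]; omega
  have ht2 : ∀ j, G j ≤ t j := fun j => by simp only [t]; omega
  have ht3 : ∀ j, cum ((2 * j + 3) * (2 * j + 3)) ≤ t j := fun j => by simp only [t]; omega
  have hR := RR_infinite het
  have hR' := not_RR_infinite het ht1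
  have hpb' := pos_bijective hR hR'
  have hhalt : ∀ x0 j M a c, pos e x0 = 2 * j + 1 → x0 ≤ M → a ≤ 2 * j + 2 → c ≤ 2 * j + 2 →
      (val d M (Nat.pair a c) = 1 ↔ b (p a) (p c) = true) := by
    intro x0 j M a c hx0 hM ha hb'
    have h1 : Nat.pair a c < (2 * j + 3) * (2 * j + 3) := by
      have h2 := Nat.pair_lt_max_add_one_sq a c
      have h3 : max a c + 1 ≤ 2 * j + 3 := by
        have := max_le ha hb'
        omega
      calc Nat.pair a c < (max a c + 1) ^ 2 := h2
        _ = (max a c + 1) * (max a c + 1) := sq _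
        _ ≤ (2 * j + 3) * (2 * j + 3) := Nat.mul_le_mul h3 h3
    have h2 := hcumu _ _ h1
    have h3 := ht3 j
    obtain ⟨hr, hc⟩ := pos_odd hx0
    have h4 := (RR_t het hr).2
    rw [hc] at h4
    rw [hval _ _ (by omega : u (Nat.pair a c) ≤ M)]
    have h5 := hwB (Nat.pair a c)
    rw [Nat.unpair_pair] at h5
    exact h5
  -- the copy
  let B' : ℕ → ℕ → Prop := fun x y =>
    (¬ (max (pos e x) (pos e y)) % 2 = 0 ∧ val d (max x y) (Nat.pair (pos e x) (pos e y)) = 1) ∨
    ((max (pos e x) (pos e y)) % 2 = 0 ∧
      ((pos e x % 2 = 0 ∧ pos e y % 2 = 0 ∧ PatO c0 c1 c2 (pos e x) (pos e y)) ∨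
       (pos e x % 2 = 0 ∧ ¬ pos e y % 2 = 0 ∧
          val d (max x y) (Nat.pair (pos e y + 1) (pos e y)) = 1) ∨
       (¬ pos e x % 2 = 0 ∧ pos e y % 2 = 0 ∧
          val d (max x y) (Nat.pair (pos e x) (pos e x + 1)) = 1)))
  have hB' : PrimrecRel B' := by
    have hx : Primrec (fun q : ℕ × ℕ => pos e q.1) := (primrec_pos e).comp Primrec.fst
    have hy : Primrec (fun q : ℕ × ℕ => pos e q.2) := (primrec_pos e).comp Primrec.snd
    have hpar : PrimrecPred (fun q : ℕ × ℕ => (max (pos e q.1) (pos e q.2)) % 2 = 0) :=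
      Primrec.eq.comp (Primrec.nat_mod.comp (Primrec.nat_max.comp hx hy) (Primrec.const 2))
        (Primrec.const 0)
    have hparx : PrimrecPred (fun q : ℕ × ℕ => pos e q.1 % 2 = 0) :=
      Primrec.eq.comp (Primrec.nat_mod.comp hx (Primrec.const 2)) (Primrec.const 0)
    have hpary : PrimrecPred (fun q : ℕ × ℕ => pos e q.2 % 2 = 0) :=
      Primrec.eq.comp (Primrec.nat_mod.comp hy (Primrec.const 2)) (Primrec.const 0)
    have hmax : Primrec (fun q : ℕ × ℕ => max q.1 q.2) :=
      Primrec.nat_max.comp Primrec.fst Primrec.snd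
    have hv1 : PrimrecPred (fun q : ℕ × ℕ =>
        val d (max q.1 q.2) (Nat.pair (pos e q.1) (pos e q.2)) = 1) :=
      Primrec.eq.comp ((primrec_val d).comp hmax (Primrec₂.natPair.comp hx hy)) (Primrec.const 1)
    have hv2 : PrimrecPred (fun q : ℕ × ℕ =>
        val d (max q.1 q.2) (Nat.pair (pos e q.2 + 1) (pos e q.2)) = 1) :=
      Primrec.eq.comp ((primrec_val d).comp hmax (Primrec₂.natPair.comp (Primrec.succ.comp hy) hy))
        (Primrec.const 1)
    have hv3 : PrimrecPred (fun q : ℕ × ℕ =>
        val d (max q.1 q.2) (Nat.pair (pos e q.1) (pos e q.1 + 1)) = 1) :=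
      Primrec.eq.comp ((primrec_val d).comp hmax (Primrec₂.natPair.comp hx (Primrec.succ.comp hx)))
        (Primrec.const 1)
    exact PrimrecPred.or (PrimrecPred.and (PrimrecPred.not hpar) hv1)
      (PrimrecPred.and hpar
        (PrimrecPred.or (PrimrecPred.and hparx
            (PrimrecPred.and hpary (primrec_PatO c0 c1 c2 hx hy)))
          (PrimrecPred.or (PrimrecPred.and hparx (PrimrecPred.and (PrimrecPred.not hpary) hv2))
            (PrimrecPred.and (PrimrecPred.not hparx) (PrimrecPred.and hpary hv3)))))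
  -- two generic elements
  have hgg : ∀ a c, a % 2 = 0 → c % 2 = 0 → (b (p a) (p c) = true ↔ PatO c0 c1 c2 a c) := by
    intro a c ha hc
    have h2a : a = 2 * (a / 2) := by omega
    have h2b : c = 2 * (c / 2) := by omega
    rcases lt_trichotomy a c with h | h | h
    · have h3 := (hp1 (c / 2) a (by omega)).2
      rw [← h2b] at h3
      have h4 := (hpq (a / 2)).2
      rw [← h2a] at h4
      rw [h3, h4]
      unfold PatO
      have h5 : ¬ a = c := by omega
      have h6 : ¬ c < a := by omega
      simp [h5, h6, h]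
    · subst h
      have h3 := hp0 (a / 2)
      rw [← h2a] at h3
      rw [h3]
      unfold PatO
      simp
    · have h3 := (hp1 (a / 2) c (by omega)).1
      rw [← h2a] at h3
      have h4 := (hpq (c / 2)).1
      rw [← h2b] at h4
      rw [h3, h4]
      unfold PatO
      have h5 : ¬ a = c := by omega
      have h6 : ¬ a < c := by omega
      simp [h5, h6, h]
  have hB'B : ∀ x y, B' x y ↔ b (p (pos e x)) (p (pos e y)) = true := by
    intro x y
    by_cases h : (max (pos e x) (pos e y)) % 2 = 0
    · by_cases hx : pos e x % 2 = 0 <;> by_cases hy : pos e y % 2 = 0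
      · rw [hgg _ _ hx hy]
        simp only [B', h, hx, hy, not_true_eq_false, false_and, true_and, or_false, false_or]
      · -- `x` generic and later, `y` odd
        obtain ⟨j, hj⟩ : ∃ j, pos e y = 2 * j + 1 := ⟨pos e y / 2, by omega⟩
        have hlt : pos e y < pos e x := by
          rcases le_or_gt (pos e x) (pos e y) with h' | h'
          · rw [max_eq_right h'] at h; exact absurd h hy
          · exact h'
        have h1 := hhalt y j (max x y) (pos e y + 1) (pos e y) hj (le_max_right _ _)
          (by omega) (by omega)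
        simp only [B', h, hx, hy, not_true_eq_false, not_false_eq_true, false_and, true_and,
          or_false, false_or]
        rw [h1]
        have h2 := (hp1 (j + 1) (pos e y) (by omega)).1
        have h3 : 2 * (j + 1) = pos e y + 1 := by omega
        rw [h3] at h2
        have h4 := (hp1 (pos e x / 2) (pos e y) (by omega)).1
        have h5 : 2 * (pos e x / 2) = pos e x := by omega
        rw [h5] at h4
        rw [h2, h4]
      · obtain ⟨j, hj⟩ : ∃ j, pos e x = 2 * j + 1 := ⟨pos e x / 2, by omega⟩
        have hlt : pos e x < pos e y := by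
          rcases le_or_gt (pos e y) (pos e x) with h' | h'
          · rw [max_eq_left h'] at h; exact absurd h hx
          · exact h'
        have h1 := hhalt x j (max x y) (pos e x) (pos e x + 1) hj (le_max_left _ _)
          (by omega) (by omega)
        simp only [B', h, hx, hy, not_true_eq_false, not_false_eq_true, false_and, true_and,
          or_false, false_or]
        rw [h1]
        have h2 := (hp1 (j + 1) (pos e x) (by omega)).2
        have h3 : 2 * (j + 1) = pos e x + 1 := by omega
        rw [h3] at h2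
        have h4 := (hp1 (pos e y / 2) (pos e x) (by omega)).2
        have h5 : 2 * (pos e y / 2) = pos e y := by omega
        rw [h5] at h4
        rw [h2, h4]
      · exfalso
        rcases max_choice (pos e x) (pos e y) with h' | h'
        · rw [h'] at h; exact hx h
        · rw [h'] at h; exact hy h
    · obtain ⟨j, hj⟩ : ∃ j, max (pos e x) (pos e y) = 2 * j + 1 :=
        ⟨max (pos e x) (pos e y) / 2, by omega⟩
      have hxl : pos e x ≤ 2 * j + 2 := by
        have := le_max_left (pos e x) (pos e y)
        omega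
      have hyl : pos e y ≤ 2 * j + 2 := by
        have := le_max_right (pos e x) (pos e y)
        omega
      have h1 : val d (max x y) (Nat.pair (pos e x) (pos e y)) = 1 ↔
          b (p (pos e x)) (p (pos e y)) = true := by
        rcases max_choice (pos e x) (pos e y) with h' | h'
        · rw [h'] at hj
          exact hhalt x j _ _ _ hj (le_max_left _ _) hxl hyl
        · rw [h'] at hj
          exact hhalt y j _ _ _ hj (le_max_right _ _) hxl hyl
      simp only [B', h, not_false_eq_true, true_and, false_and, or_false]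
      exact h1
  let φ : ℕ ≃ ℕ := (Equiv.ofBijective (pos e) hpb').trans (Equiv.ofBijective p hpb)
  have hφ : ∀ x, φ x = p (pos e x) := fun x => rfl
  have heven : ∀ x, ¬ RR e x → pos e x % 2 = 0 := by
    intro x hx
    unfold pos
    rw [if_neg hx]
    omega
  refine ⟨B', φ.symm, pos e, RR e, inferInstance, fun y => q1 (p (pos e y)) = true,
    fun y => q2 (p (pos e y)) = true, hB', φ.symm.bijective, fun x y => ?_, hpb', fun x hx => ?_,
    fun x y hx hxy => ?_, fun x hx => ?_, fun x hx => ?_, fun n => count_RR_le het ht2 n⟩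
  · rw [hB'B, ← hφ, ← hφ, φ.apply_symm_apply, φ.apply_symm_apply]
  · have h1 := heven x hx
    have h2 : pos e x = 2 * (pos e x / 2) := by omega
    refine ⟨?_, ?_, ?_⟩
    · rw [hB'B, h2]; exact hp0 _
    · show q1 (p (pos e x)) = true ↔ c1
      rw [h2]; exact (hpq _).1
    · show q2 (p (pos e x)) = true ↔ c2
      rw [h2]; exact (hpq _).2
  · have h1 := heven x hx
    have h2 : pos e x = 2 * (pos e x / 2) := by omega
    have h3 := hp1 (pos e x / 2) (pos e y) (by omega)
    rw [← h2] at h3
    show (B' x y ↔ q1 (p (pos e y)) = true) ∧ (B' y x ↔ q2 (p (pos e y)) = true)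
    rw [hB'B, hB'B, h3.1, h3.2]
    exact ⟨Iff.rfl, Iff.rfl⟩
  · unfold pos
    rw [if_pos hx, count_RR]
  · unfold pos
    rw [if_neg hx, count_RR]

end Fpr62
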