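import Pool.Agent.Lib.MP_36da60_lc.DomB62

/-!
# fpr-degrees of linear orders (I): criteria
-/

namespace Fpr62

/-- a delay criterion with one marked element -/
theorem infinite_of_marked {α : Type*} (E : α → α → Prop)
    (Feat : (ℕ → ℕ → Prop) → ℕ → ℕ → ℕ → Prop)
    (htr : ∀ B C : ℕ → ℕ → Prop, ∀ h : ℕ → ℕ, Function.Bijective h →
      (∀ x y, B x y ↔ C (h x) (h y)) → ∀ v n s S, (∀ x < s, h x < S) → Feat B v n s →
        Feat C (h v) n S)
    (hT : ∀ B, IsPres E B → ∃ v, ∃ T : ℕ → ℕ, Computable T ∧ ∀ n, Feat B v n (T n))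
    (hD : ∀ G : ℕ → ℕ, Computable G → ∃ B, IsPres E B ∧ ∀ v n, v ≤ n →
      ¬ Feat B v (n + 1) (G n)) :
    Infinite (Degrees E) := by
  classical
  by_contra hinf
  rw [not_infinite_iff_finite] at hinf
  choose v T hTc hTf using fun d : Degrees E => hT (Quotient.out d).1 (Quotient.out d).2
  obtain ⟨g, hg, hgb⟩ := computable_bound T hTc
  have hg1 : Computable (fun n : ℕ => g (n + 1) + n) :=
    Primrec.nat_add.to_comp.comp (hg.comp Computable.succ) Computable.id
  obtain ⟨B', hB', hB'n⟩ := hD (fun n => ack (g (n + 1) + n) (g (n + 1) + n))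
    (computable₂_ack.comp hg1 hg1)
  have hex := Quotient.exact (Quotient.out_eq (Quotient.mk (prSetoid E) ⟨B', hB'⟩))
  obtain ⟨h, hh, hbij, hiso⟩ : LePr _ B' := hex.1
  obtain ⟨m, hm⟩ := exists_lt_ack_of_nat_primrec (Primrec.nat_iff.1 hh)
  set d := Quotient.mk (prSetoid E) ⟨B', hB'⟩ with hd
  set N := max m (h (v d)) with hN
  refine hB'n (h (v d)) N (le_max_right _ _) (htr _ _ h hbij hiso (v d) (N + 1) (T d (N + 1)) _
    ?_ (hTf d (N + 1)))
  intro x hx
  have h1 := hgb d (N + 1)
  have h2 : m ≤ N := le_max_left _ _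
  refine (hm x).trans_le (ack_le_ack (by omega) ?_)
  omega

/-- a descending step below every presentation gives infinitely many degrees -/
theorem infinite_of_step {α : Type*} (E : α → α → Prop) (h0 : ∃ B, IsPres E B)
    (hstep : ∀ B, IsPres E B → ∃ C, IsPres E C ∧ LePr C B ∧ ¬ LePr B C) :
    Infinite (Degrees E) := by
  classical
  obtain ⟨B0, hB0⟩ := h0
  let Q := {B : ℕ → ℕ → Prop // IsPres E B}
  have hs : ∀ B : Q, ∃ C : Q, LePr C.1 B.1 ∧ ¬ LePr B.1 C.1 := by
    rintro ⟨B, hB⟩
    obtain ⟨C, hC, h1, h2⟩ := hstep B hB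
    exact ⟨⟨C, hC⟩, h1, h2⟩
  choose nx hnx using hs
  let F : ℕ → Q := fun k => Nat.rec ⟨B0, hB0⟩ (fun _ S => nx S) k
  have hF : ∀ k, F (k + 1) = nx (F k) := fun k => rfl
  have hdown : ∀ j d, LePr (F (j + d)).1 (F j).1 := by
    intro j d
    induction d with
    | zero => exact LePr.refl _
    | succ d ih =>
      have h1 : LePr (F (j + d + 1)).1 (F (j + d)).1 := by rw [hF]; exact (hnx _).1
      exact h1.trans ih
  have hlt : ∀ j k, j < k → ¬ LePr (F j).1 (F k).1 := by
    intro j k hjk hle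
    obtain ⟨d, rfl⟩ := Nat.exists_eq_add_of_le (show j + 1 ≤ k from hjk)
    have h3 : LePr (F j).1 (F (j + 1)).1 := hle.trans (hdown (j + 1) d)
    rw [hF] at h3
    exact (hnx _).2 h3
  refine Infinite.of_injective (fun k => Quotient.mk (prSetoid E) (F k)) ?_
  intro j k hjk
  have hex : LePr (F j).1 (F k).1 ∧ LePr (F k).1 (F j).1 := Quotient.exact hjk
  rcases lt_trichotomy j k with h | h | h
  · exact absurd hex.1 (hlt j k h)
  · exact h
  · exact absurd hex.2 (hlt k j h)

/-- exchange of `2 i` and `2 i + 1` -/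
def swp (n : ℕ) : ℕ := bif decide (n % 2 = 0) then n + 1 else n - 1

theorem swp_swp (n : ℕ) : swp (swp n) = n := by
  unfold swp
  rcases Nat.even_or_odd' n with ⟨i, rfl | rfl⟩
  · have : (2 * i + 1) % 2 = 1 := by omega
    simp [this]
  · have h1 : (2 * i + 1) % 2 = 1 := by omega
    simp [h1]

theorem swp_primrec : Primrec swp := by
  unfold swp
  refine Primrec.cond ?_ Primrec.succ Primrec.pred
  exact (PrimrecRel.comp Primrec.eq (Primrec.nat_mod.comp Primrec.id (Primrec.const 2))
    (Primrec.const 0)).decide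

/-- **Fixed elements.**  If infinitely many elements of the presentation `B` are fixed by all
automorphisms, then there is a presentation strictly below `B`. -/
theorem step_of_fixed {B : ℕ → ℕ → Prop} (hB : PrimrecRel B) {X : Set ℕ} (hX : X.Infinite)
    (hfix : ∀ x ∈ X, ∀ f : ℕ → ℕ, Function.Bijective f → (∀ a b, B a b ↔ B (f a) (f b)) → f x = x) :
    ∃ C : ℕ → ℕ → Prop, PrimrecRel C ∧ LePr C B ∧ ¬ LePr B C := by
  classical
  let t : ℕ → ℕ := fun j => ack (j + 1) (2 * j + 1) + (2 * j + 2)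
  have hlin : Computable (fun j : ℕ => 2 * j + 2) :=
    (Primrec.nat_add.comp (Primrec.nat_mul.comp (Primrec.const 2) Primrec.id)
      (Primrec.const 2)).to_comp
  have hlin1 : Computable (fun j : ℕ => 2 * j + 1) :=
    (Primrec.nat_add.comp (Primrec.nat_mul.comp (Primrec.const 2) Primrec.id)
      (Primrec.const 1)).to_comp
  have ht : Computable t :=
    Primrec.nat_add.to_comp.comp (computable₂_ack.comp Computable.succ hlin1) hlin
  obtain ⟨e, he⟩ := Nat.Partrec.Code.exists_code.1 (Partrec.nat_iff.1 ht)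
  have het : ∀ j, Nat.Partrec.Code.eval e j = Part.some (t j) := by
    intro j; rw [he]; rfl
  have ht1 : ∀ j, 2 * j + 2 ≤ t j := fun j => by simp only [t]; omega
  have hpb := pos_bijective (RR_infinite het) (not_RR_infinite het ht1)
  have key : ∀ π : ℕ → ℕ, Primrec π → Function.Bijective π → (∀ i, π (2 * i + 1) ≤ 2 * i + 1) →
      {i | π (2 * i + 1) ∈ X}.Infinite →
      ∃ C : ℕ → ℕ → Prop, PrimrecRel C ∧ LePr C B ∧ ¬ LePr B C := by
    intro π hπ hπb hπle hinf
    refine ⟨fun x y => B (π (pos e x)) (π (pos e y)), ?_,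
      ⟨π ∘ pos e, hπ.comp (primrec_pos e), hπb.comp hpb, fun _ _ => Iff.rfl⟩, ?_⟩
    · exact hB.comp (hπ.comp ((primrec_pos e).comp Primrec.fst))
        (hπ.comp ((primrec_pos e).comp Primrec.snd))
    rintro ⟨p, hp, hpb', hpi⟩
    obtain ⟨m, hm⟩ := exists_lt_ack_of_nat_primrec (Primrec.nat_iff.1 hp)
    obtain ⟨i, hi, hmi⟩ := hinf.exists_gt m
    have h1 : π (pos e (p (π (2 * i + 1)))) = π (2 * i + 1) :=
      hfix _ hi (fun x => π (pos e (p x))) ((hπb.comp hpb).comp hpb') (fun a b => hpi a b)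
    have h2 : pos e (p (π (2 * i + 1))) = 2 * i + 1 := hπb.1 h1
    obtain ⟨hr, hc⟩ := pos_odd h2
    have h3 := (RR_t het hr).2
    rw [hc] at h3
    have h4 := hm (π (2 * i + 1))
    have h5 : ack m (π (2 * i + 1)) ≤ ack (i + 1) (2 * i + 1) :=
      ack_le_ack (by omega) (hπle i)
    simp only [t] at h3
    omega
  by_cases ho : {i | 2 * i + 1 ∈ X}.Infinite
  · exact key id Primrec.id Function.bijective_id (fun i => by simp) ho
  · refine key swp swp_primrec ⟨Function.LeftInverse.injective swp_swp,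
      Function.RightInverse.surjective swp_swp⟩ (fun i => ?_) ?_
    · have h1 : (2 * i + 1) % 2 = 1 := by omega
      unfold swp
      simp [h1]
    · intro hev
      rw [Set.not_infinite] at ho
      apply hX
      refine ((ho.image fun i => 2 * i + 1).union (hev.image fun i => 2 * i)).subset ?_
      intro z hz
      rcases Nat.even_or_odd' z with ⟨i, rfl | rfl⟩
      · refine Or.inr ⟨i, ?_, rfl⟩
        have h1 : (2 * i + 1) % 2 = 1 := by omega
        have : swp (2 * i + 1) = 2 * i := by unfold swp; simp [h1]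
        show swp (2 * i + 1) ∈ X
        rw [this]; exact hz
      · exact Or.inl ⟨i, hz, rfl⟩

end Fpr62
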