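import Pool.Agent.Lib.MP_36da60_lc.GenC62
import Pool.Agent.Lib.MP_36da60_lc.LinA57

/-!
# fpr-degrees: structures without splitting elements
-/

namespace Fpr62

/-- automorphisms -/
def IsAut (B : ℕ → ℕ → Prop) (f : ℕ → ℕ) : Prop :=
  Function.Bijective f ∧ ∀ a b, B a b ↔ B (f a) (f b)

theorem IsAut.exists_inv {B : ℕ → ℕ → Prop} {f : ℕ → ℕ} (hf : IsAut B f) :
    ∃ g : ℕ → ℕ, IsAut B g ∧ (∀ x, g (f x) = x) ∧ ∀ x, f (g x) = x := by
  let e := Equiv.ofBijective f hf.1
  have h1 : ∀ x, f (e.symm x) = x := fun x => e.apply_symm_apply x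
  have h2 : ∀ x, e.symm (f x) = x := fun x => e.symm_apply_apply x
  refine ⟨e.symm, ⟨e.symm.bijective, fun a b => ?_⟩, h2, h1⟩
  rw [hf.2 (e.symm a) (e.symm b), h1, h1]

theorem IsAut.comp {B : ℕ → ℕ → Prop} {f g : ℕ → ℕ} (hf : IsAut B f) (hg : IsAut B g) :
    IsAut B (f ∘ g) :=
  ⟨hf.1.comp hg.1, fun a b => (hg.2 a b).trans (hf.2 _ _)⟩

/-- the orbit of `y` -/
def Orb (B : ℕ → ℕ → Prop) (y : ℕ) : Set ℕ := {z | ∃ f, IsAut B f ∧ f y = z}

/-- **Maxima of orbits.**  A presentation strictly below `B` when infinitely many elements are the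
maximum of their orbit. -/
theorem step_of_maxima {B : ℕ → ℕ → Prop} (hB : PrimrecRel B) {X : Set ℕ} (hX : X.Infinite)
    (hmax : ∀ y ∈ X, ∀ z ∈ Orb B y, z ≤ y) :
    ∃ C : ℕ → ℕ → Prop, PrimrecRel C ∧ LePr C B ∧ ¬ LePr B C := by
  classical
  let t : ℕ → ℕ := fun j => ack (j + 1) (2 * j + 1) + (2 * j + 2)
  have hlin : Computable (fun j : ℕ => 2 * j + 2) :=
    (Primrec.nat_add.comp (Primrec.nat_mul.comp (Primrec.const 2) Primrec.id)
      (Primrec.const 2)).to_comp
  have hlin1 : Computable (fun j : ℕ => 2 * j + 1) :=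
    (Primrec.nat_add.comp (Primrec.nat_mul.comp (Primrec.const 2) Primrec.id)
      (Primrec.const 1)).to_comp
  have ht : Computable t :=
    Primrec.nat_add.to_comp.comp (computable₂_ack.comp Computable.succ hlin1) hlin
  obtain ⟨e, he⟩ := Nat.Partrec.Code.exists_code.1 (Partrec.nat_iff.1 ht)
  have het : ∀ j, Nat.Partrec.Code.eval e j = Part.some (t j) := by
    intro j; rw [he]; rfl
  have ht1 : ∀ j, 2 * j + 2 ≤ t j := fun j => by simp only [t]; omega
  have hpb := pos_bijective (RR_infinite het) (not_RR_infinite het ht1)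
  have key : ∀ π : ℕ → ℕ, Primrec π → Function.Bijective π → (∀ i, π (2 * i + 1) ≤ 2 * i + 1) →
      {i | π (2 * i + 1) ∈ X}.Infinite →
      ∃ C : ℕ → ℕ → Prop, PrimrecRel C ∧ LePr C B ∧ ¬ LePr B C := by
    intro π hπ hπb hπle hinf
    refine ⟨fun x y => B (π (pos e x)) (π (pos e y)), ?_,
      ⟨π ∘ pos e, hπ.comp (primrec_pos e), hπb.comp hpb, fun _ _ => Iff.rfl⟩, ?_⟩
    · exact hB.comp (hπ.comp ((primrec_pos e).comp Primrec.fst))
        (hπ.comp ((primrec_pos e).comp Primrec.snd))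
    rintro ⟨p, hp, hpb', hpi⟩
    obtain ⟨m, hm⟩ := exists_lt_ack_of_nat_primrec (Primrec.nat_iff.1 hp)
    obtain ⟨i, hi, hmi⟩ := hinf.exists_gt m
    have haut : IsAut B (fun x => π (pos e (p x))) :=
      ⟨(hπb.comp hpb).comp hpb', fun a b => hpi a b⟩
    obtain ⟨g, hg, hg1, hg2⟩ := haut.exists_inv
    -- the preimage of the maximum is in the orbit
    have hn : g (π (2 * i + 1)) ≤ π (2 * i + 1) := hmax _ hi _ ⟨g, hg, rfl⟩
    have h1 : π (pos e (p (g (π (2 * i + 1))))) = π (2 * i + 1) := hg2 _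
    have h2 : pos e (p (g (π (2 * i + 1)))) = 2 * i + 1 := hπb.1 h1
    obtain ⟨hr, hc⟩ := pos_odd h2
    have h3 := (RR_t het hr).2
    rw [hc] at h3
    have h4 := hm (g (π (2 * i + 1)))
    have h5 : ack m (g (π (2 * i + 1))) ≤ ack (i + 1) (2 * i + 1) :=
      ack_le_ack (by omega) (hn.trans (hπle i))
    simp only [t] at h3
    omega
  by_cases ho : {i | 2 * i + 1 ∈ X}.Infinite
  · exact key id Primrec.id Function.bijective_id (fun i => by simp) ho
  · refine key swp swp_primrec ⟨Function.LeftInverse.injective swp_swp,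
      Function.RightInverse.surjective swp_swp⟩ (fun i => ?_) ?_
    · have h1 : (2 * i + 1) % 2 = 1 := by omega
      unfold swp
      simp [h1]
    · intro hev
      rw [Set.not_infinite] at ho
      apply hX
      refine ((ho.image fun i => 2 * i + 1).union (hev.image fun i => 2 * i)).subset ?_
      intro z hz
      rcases Nat.even_or_odd' z with ⟨i, rfl | rfl⟩
      · refine Or.inr ⟨i, ?_, rfl⟩
        have h1 : (2 * i + 1) % 2 = 1 := by omega
        have : swp (2 * i + 1) = 2 * i := by unfold swp; simp [h1]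
        show swp (2 * i + 1) ∈ X
        rw [this]; exact hz
      · exact Or.inl ⟨i, hz, rfl⟩

/-- **Finite orbits** (94's theorem for one binary relation). -/
theorem step_of_orbits {B : ℕ → ℕ → Prop} (hB : PrimrecRel B)
    (hX : {y | (Orb B y).Finite}.Infinite) :
    ∃ C : ℕ → ℕ → Prop, PrimrecRel C ∧ LePr C B ∧ ¬ LePr B C := by
  classical
  have hself : ∀ y, y ∈ Orb B y := fun y => ⟨id, ⟨Function.bijective_id, fun _ _ => Iff.rfl⟩, rfl⟩
  have htrans : ∀ y z w, z ∈ Orb B y → w ∈ Orb B z → w ∈ Orb B y := by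
    rintro y z w ⟨f, hf, rfl⟩ ⟨g, hg, rfl⟩
    exact ⟨g ∘ f, hg.comp hf, rfl⟩
  have hsymm : ∀ y z, z ∈ Orb B y → y ∈ Orb B z := by
    rintro y z ⟨f, hf, rfl⟩
    obtain ⟨g, hg, hg1, -⟩ := hf.exists_inv
    exact ⟨g, hg, hg1 y⟩
  refine step_of_maxima hB (X := {y | (Orb B y).Finite ∧ ∀ z ∈ Orb B y, z ≤ y}) ?_
    (fun y hy => hy.2)
  apply Set.infinite_of_forall_exists_gt
  intro N
  by_contra hno
  push Not at hno
  apply hX
  refine (Set.finite_Iic N).subset ?_
  intro y hy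
  have hyf : (Orb B y).Finite := hy
  obtain ⟨M, hM, hMmax⟩ := Set.exists_max_image (Orb B y) id hyf ⟨y, hself y⟩
  have hMO : ∀ z, z ∈ Orb B M → z ∈ Orb B y := fun z hz => htrans y M z hM hz
  have hMX : M ≤ N := hno M ⟨hyf.subset hMO, fun z hz => hMmax z (hMO z hz)⟩
  have h1 : y ≤ M := hMmax y (hself y)
  exact h1.trans hMX

/-- every element has a cofinite pair -/
def NoSplit (B : ℕ → ℕ → Prop) : Prop :=
  ∀ z, ∃ d1 d2 : Prop, {x | ¬ ((B x z ↔ d1) ∧ (B z x ↔ d2))}.Finite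

theorem primrec_of_almost_const {p : ℕ → Prop} (c : Prop) (h : {x | ¬ (p x ↔ c)}.Finite) :
    PrimrecPred p := by
  classical
  have key : ∀ K : Finset ℕ, PrimrecPred (fun x => x ∈ K) := by
    intro K
    induction K using Finset.induction_on with
    | empty => exact (primrec_const_pred False).of_eq fun x => by simp
    | insert a K _ ih =>
      have h1 : PrimrecPred (fun x => x = a) := Primrec.eq.comp Primrec.id (Primrec.const a)
      exact (PrimrecPred.or h1 ih).of_eq fun x => by simp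
  have hK := key h.toFinset
  have h2 := primrecPred_iff' hK (primrec_const_pred (¬ c))
  refine h2.of_eq fun x => ?_
  rw [Set.Finite.mem_toFinset]
  show (¬ (p x ↔ c) ↔ ¬ c) ↔ p x
  tauto

/-- **Structures without splitting elements.** -/
theorem noSplit_dichotomy {α : Type*} {E : α → α → Prop} {B : ℕ → ℕ → Prop} (hB : IsPres E B)
    (hns : NoSplit B) : FprCategorical E ∨ Infinite (Degrees E) := by
  classical
  choose d1 d2 hd using hns
  let Ex : ℕ → Set ℕ := fun z => {x | ¬ ((B x z ↔ d1 z) ∧ (B z x ↔ d2 z))}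
  have hEx : ∀ z, (Ex z).Finite := hd
  -- automorphisms preserve the pair and the number of exceptions
  have hinv : ∀ f, IsAut B f → ∀ z, (d1 (f z) ↔ d1 z) ∧ (d2 (f z) ↔ d2 z) := by
    intro f hf z
    have h1 : (Ex (f z) ∪ f '' (Ex z)).Finite := (hEx (f z)).union ((hEx z).image f)
    obtain ⟨y, hy⟩ := h1.infinite_compl.nonempty
    obtain ⟨x, rfl⟩ := hf.1.2 y
    have hy1 : f x ∉ Ex (f z) := fun h => hy (Or.inl h)
    have hy2 : x ∉ Ex z := fun h => hy (Or.inr ⟨x, h, rfl⟩)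
    simp only [Ex, Set.mem_ofPred_eq, not_not] at hy1 hy2
    rw [← hf.2, ← hf.2] at hy1
    exact ⟨hy1.1.symm.trans hy2.1, hy1.2.symm.trans hy2.2⟩
  have himg : ∀ f, IsAut B f → ∀ z, Ex (f z) = f '' (Ex z) := by
    intro f hf z
    obtain ⟨hi1, hi2⟩ := hinv f hf z
    ext y
    obtain ⟨x, rfl⟩ := hf.1.2 y
    rw [hf.1.1.mem_set_image]
    simp only [Ex, Set.mem_ofPred_eq]
    rw [← hf.2, ← hf.2, hi1, hi2]
  have hcard : ∀ f, IsAut B f → ∀ z, (Ex (f z)).ncard = (Ex z).ncard := by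
    intro f hf z
    rw [himg f hf z, Set.ncard_image_of_injective _ hf.1.1]
  -- the level lemma
  have hlevel : ∀ Z1 Z2 : Set ℕ, Z2.Infinite →
      (∀ x ∈ Z1, ∀ z ∈ Z2, x ≠ z → x ∈ Ex z ∨ z ∈ Ex x) →
      ∀ k, {x | x ∈ Z1 ∧ (Ex x).ncard ≤ k}.Finite := by
    intro Z1 Z2 hZ2 hZ k
    by_contra hinf
    have hinf' : {x | x ∈ Z1 ∧ (Ex x).ncard ≤ k}.Infinite := hinf
    obtain ⟨F, hF, hFc⟩ := hZ2.exists_subset_card_eq (k + 1)
    have hbad : ((F : Set ℕ) ∪ ⋃ z ∈ F, Ex z).Finite :=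
      F.finite_toSet.union (F.finite_toSet.biUnion fun z _ => hEx z)
    obtain ⟨x, hx, hxb⟩ := (hinf'.diff hbad).nonempty
    have hsub : (F : Set ℕ) ⊆ Ex x := by
      intro z hz
      have hne : x ≠ z := fun h => hxb (Or.inl (h ▸ hz))
      rcases hZ x hx.1 z (hF hz) hne with h | h
      · exfalso
        apply hxb
        right
        simp only [Set.mem_iUnion]
        exact ⟨z, hz, h⟩
      · exact h
    have h1 := Set.ncard_le_ncard hsub (hEx x)
    rw [Set.ncard_coe_finset, hFc] at h1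
    have := hx.2
    omega
  -- finite orbits from a finite level
  have horb : ∀ Z1 : Set ℕ, Z1.Infinite → (∀ f, IsAut B f → ∀ z ∈ Z1, f z ∈ Z1) →
      (∀ k, {x | x ∈ Z1 ∧ (Ex x).ncard ≤ k}.Finite) → Infinite (Degrees E) := by
    intro Z1 hZ1 hZinv hfin
    -- every presentation has infinitely many finite orbits
    have hinfB : {y | (Orb B y).Finite}.Infinite := by
      refine hZ1.mono ?_
      intro z hz
      refine (hfin (Ex z).ncard).subset ?_
      rintro _ ⟨f, hf, rfl⟩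
      exact ⟨hZinv f hf z hz, (hcard f hf z).le⟩
    refine infinite_of_step E ⟨B, hB⟩ (fun C hC => ?_)
    obtain ⟨h, hh, hBC⟩ := exists_iso hB hC
    have hinfC : {y | (Orb C y).Finite}.Infinite := by
      refine (hinfB.image hh.1.injOn).mono ?_
      rintro _ ⟨y, hy, rfl⟩
      refine (hy.image h).subset ?_
      rintro _ ⟨f, hf, rfl⟩
      let e := Equiv.ofBijective h hh
      have he : ∀ x, h (e.symm x) = x := fun x => e.apply_symm_apply x
      refine ⟨e.symm (f (h y)), ⟨fun x => e.symm (f (h x)), ⟨?_, fun a b => ?_⟩, rfl⟩, he _⟩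
      · exact (e.symm.bijective.comp hf.1).comp hh
      · rw [hBC, hf.2, hBC (e.symm (f (h a))), he, he]
    obtain ⟨D, hD, hDC, hCD⟩ := step_of_orbits hC.1 hinfC
    obtain ⟨g, hg, hgb, hge⟩ := hDC
    refine ⟨D, ?_, ⟨g, hg, hgb, hge⟩, hCD⟩
    let e := Equiv.ofBijective g hgb
    have he : ∀ x, g (e.symm x) = x := fun x => e.apply_symm_apply x
    refine hC.copy hD (g := e.symm) e.symm.bijective (fun x y => ?_)
    rw [hge, he, he]
  -- if the pairs do not match there is an exception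
  have hpair : ∀ x z, ¬ ((d1 z ↔ d2 x) ∧ (d2 z ↔ d1 x)) → x ∈ Ex z ∨ z ∈ Ex x := by
    intro x z hne
    by_contra hno
    push Not at hno
    obtain ⟨h1, h2⟩ := hno
    simp only [Ex, Set.mem_ofPred_eq, not_not] at h1 h2
    exact hne ⟨h1.1.symm.trans h2.2, h1.2.symm.trans h2.1⟩
  by_cases hA : {z | d1 z ∧ ¬ d2 z}.Infinite
  · right
    refine horb _ hA (fun f hf z hz => ?_) (hlevel _ _ hA (fun x hx z hz _ => hpair x z ?_))
    · exact ⟨(hinv f hf z).1.2 hz.1, fun h => hz.2 ((hinv f hf z).2.1 h)⟩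
    · intro h; exact hx.2 (h.1.1 hz.1)
  by_cases hA' : {z | ¬ d1 z ∧ d2 z}.Infinite
  · right
    refine horb _ hA' (fun f hf z hz => ?_) (hlevel _ _ hA' (fun x hx z hz _ => hpair x z ?_))
    · exact ⟨fun h => hz.1 ((hinv f hf z).1.1 h), (hinv f hf z).2.2 hz.2⟩
    · intro h; exact hx.1 (h.2.1 hz.2)
  by_cases hP : {z | d1 z ∧ d2 z}.Infinite ∧ {z | ¬ d1 z ∧ ¬ d2 z}.Infinite
  · right
    refine horb _ hP.1 (fun f hf z hz => ?_) (hlevel _ _ hP.2 (fun x hx z hz _ => hpair x z ?_))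
    · exact ⟨(hinv f hf z).1.2 hz.1, (hinv f hf z).2.2 hz.2⟩
    · intro h; exact hz.1 (h.1.2 hx.2)
  -- one symmetric value `c` off a finite set
  obtain ⟨c, hcfin⟩ : ∃ c : Prop, {z | ¬ ((d1 z ↔ c) ∧ (d2 z ↔ c))}.Finite := by
    rw [Set.not_infinite] at hA hA'
    by_cases h11 : {z | d1 z ∧ d2 z}.Infinite
    · have h00 : {z | ¬ d1 z ∧ ¬ d2 z}.Finite := Set.not_infinite.1 fun h => hP ⟨h11, h⟩
      refine ⟨True, ((hA.union hA').union h00).subset ?_⟩
      intro z hz
      simp only [iff_true, Set.mem_ofPred_eq] at hz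
      simp only [Set.mem_union, Set.mem_ofPred_eq]
      tauto
    · rw [Set.not_infinite] at h11
      refine ⟨False, ((hA.union hA').union h11).subset ?_⟩
      intro z hz
      simp only [iff_false, Set.mem_ofPred_eq] at hz
      simp only [Set.mem_union, Set.mem_ofPred_eq]
      tauto
  have hq1 : PrimrecPred d1 := primrec_of_almost_const c
    (hcfin.subset fun z hz => by
      intro h; exact hz h.1)
  have hq2 : PrimrecPred d2 := primrec_of_almost_const c
    (hcfin.subset fun z hz => by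
      intro h; exact hz h.2)
  obtain ⟨c0, hc0⟩ : ∃ c0 : Prop, {a | B a a ↔ c0}.Infinite := by
    by_cases h : {a | B a a}.Infinite
    · exact ⟨True, by simpa using h⟩
    · refine ⟨False, ?_⟩
      rw [Set.not_infinite] at h
      have := h.infinite_compl
      refine this.mono ?_
      intro a ha
      have ha' : ¬ B a a := ha
      simp [ha']
  refine generic_dichotomy hB c0 c hq1 hq2 (fun L => ?_)
  have hbad : (((L.toFinset : Finset ℕ) : Set ℕ) ∪ (⋃ y ∈ L.toFinset, Ex y) ∪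
      {z | ¬ ((d1 z ↔ c) ∧ (d2 z ↔ c))}).Finite :=
    (L.toFinset.finite_toSet.union (L.toFinset.finite_toSet.biUnion fun z _ => hEx z)).union hcfin
  obtain ⟨a, ha, hab⟩ := (hc0.diff hbad).nonempty
  have ha1 : a ∉ L.toFinset := fun h => hab (Or.inl (Or.inl h))
  have ha2 : ∀ y ∈ L.toFinset, a ∉ Ex y := fun y hy h => hab (Or.inl (Or.inr (by
    simp only [Set.mem_iUnion]
    exact ⟨y, hy, h⟩)))
  have ha3 : (d1 a ↔ c) ∧ (d2 a ↔ c) := by
    by_contra h
    exact hab (Or.inr h)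
  refine ⟨a, fun y hy => ?_, ha, ha3.1, ha3.2⟩
  have hy' : y ∈ L.toFinset := List.mem_toFinset.2 hy
  have h1 := ha2 y hy'
  simp only [Ex, Set.mem_ofPred_eq, not_not] at h1
  exact ⟨fun h => ha1 (h ▸ hy'), h1.1, h1.2⟩

end Fpr62
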