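import Pool.Agent.Lib.MP_36da60_lc.TypC27
import Pool.Agent.Lib.MP_36da60_lc.SplA62

/-!
# fpr-degrees of binary structures with a primitive recursive type
-/

set_option autoImplicit false

namespace Typ27

open Fpr62 Filter

/-- the flipped relation -/
theorem infinite_of_flip {α : Type*} (E : α → α → Prop)
    (h : Infinite (Degrees (fun x y => E y x))) : Infinite (Degrees E) := by
  classical
  have hp : ∀ B : ℕ → ℕ → Prop, IsPres (fun x y => E y x) B → IsPres E (fun x y => B y x) := by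
    rintro B ⟨hB, f, hf, hfi⟩
    exact ⟨hB.comp Primrec.snd Primrec.fst, f, hf, fun x y => hfi y x⟩
  have hle : ∀ B C : ℕ → ℕ → Prop, LePr (fun x y => B y x) (fun x y => C y x) → LePr B C := by
    rintro B C ⟨f, hf, hb, hi⟩
    exact ⟨f, hf, hb, fun x y => hi y x⟩
  refine Infinite.of_injective (fun d : Degrees (fun x y => E y x) =>
    (Quotient.mk (prSetoid E) ⟨fun x y => d.out.1 y x, hp _ d.out.2⟩ : Degrees E)) ?_
  intro d d' hdd
  have hex := Quotient.exact hdd
  have h1 : (prSetoid (fun x y => E y x)).r d.out d'.out := ⟨hle _ _ hex.1, hle _ _ hex.2⟩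
  have h2 : (Quotient.mk (prSetoid (fun x y => E y x)) d.out : Degrees (fun x y => E y x)) =
      Quotient.mk (prSetoid (fun x y => E y x)) d'.out := Quotient.sound (s := prSetoid _) h1
  have e1 : (Quotient.mk (prSetoid (fun x y => E y x)) d.out : Degrees (fun x y => E y x)) = d :=
    Quotient.out_eq d
  have e2 : (Quotient.mk (prSetoid (fun x y => E y x)) d'.out : Degrees (fun x y => E y x)) = d' :=
    Quotient.out_eq d'
  rw [← e1, ← e2, h2]

/-- **Splitting elements in the other direction.** -/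
theorem infinite_of_split_find' {α : Type*} (E : α → α → Prop) (c0 c1 c2 : Prop)
    {D1 D2 : ℕ → Prop} {B : ℕ → ℕ → Prop} (hB : IsPres E B) (hfind : Find c0 c1 c2 D1 D2 B)
    (v : ℕ) (h1 : {x | B x v}.Infinite) (h2 : {x | ¬ B x v}.Infinite) :
    Infinite (Degrees E) := by
  apply infinite_of_flip
  obtain ⟨hBp, f, hf, hfi⟩ := hB
  refine infinite_of_split_find (fun x y => E y x) c0 c2 c1 (D1 := D2) (D2 := D1)
    (B := fun x y => B y x) ⟨hBp.comp Primrec.snd Primrec.fst, f, hf, fun x y => hfi y x⟩ ?_ v h1 h2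
  obtain ⟨s, hs, hsP⟩ := hfind
  refine ⟨s, hs, fun L => ?_⟩
  obtain ⟨ha, hb, hc, hd⟩ := hsP L
  exact ⟨fun y hy => ⟨(ha y hy).1, (ha y hy).2.2, (ha y hy).2.1⟩, hb, hd, hc⟩

/-- **Computable types: the dichotomy.** -/
theorem dichotomy_of_find {α : Type*} {E : α → α → Prop} {B : ℕ → ℕ → Prop} (hB : IsPres E B)
    (c0 c1 c2 : Prop) {D1 D2 : ℕ → Prop} (hfind : Find c0 c1 c2 D1 D2 B) :
    FprCategorical E ∨ Infinite (Degrees E) := by
  classical
  by_cases hs1 : ∃ v, {x | B v x}.Infinite ∧ {x | ¬ B v x}.Infinite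
  · obtain ⟨v, h1, h2⟩ := hs1
    exact Or.inr (infinite_of_split_find E c0 c1 c2 hB hfind v h1 h2)
  by_cases hs2 : ∃ v, {x | B x v}.Infinite ∧ {x | ¬ B x v}.Infinite
  · obtain ⟨v, h1, h2⟩ := hs2
    exact Or.inr (infinite_of_split_find' E c0 c1 c2 hB hfind v h1 h2)
  refine noSplit_dichotomy hB ?_
  have key : ∀ p : ℕ → Prop, ¬ ({x | p x}.Infinite ∧ {x | ¬ p x}.Infinite) →
      ∃ d : Prop, {x | ¬ (p x ↔ d)}.Finite := by
    intro p hp
    by_cases h : {x | p x}.Infinite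
    · refine ⟨True, ?_⟩
      have h2 : ¬ {x | ¬ p x}.Infinite := fun h' => hp ⟨h, h'⟩
      rw [Set.not_infinite] at h2
      refine h2.subset ?_
      intro x hx
      simpa using hx
    · refine ⟨False, ?_⟩
      rw [Set.not_infinite] at h
      refine h.subset ?_
      intro x hx
      simpa using hx
  intro z
  obtain ⟨d1, hd1⟩ := key (fun x => B x z) (fun h => hs2 ⟨z, h⟩)
  obtain ⟨d2, hd2⟩ := key (fun x => B z x) (fun h => hs1 ⟨z, h⟩)
  refine ⟨d1, d2, (hd1.union hd2).subset ?_⟩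
  intro x hx
  by_contra hcon
  simp only [Set.mem_union, Set.mem_ofPred_eq, not_or, not_not] at hcon hx
  exact hx ⟨hcon.1, hcon.2⟩

/-- **Primitive recursive types: the dichotomy.** -/
theorem type_dichotomy {α : Type*} {E : α → α → Prop} {B : ℕ → ℕ → Prop} (hB : IsPres E B)
    (c0 c1 c2 : Prop) {D1 D2 : ℕ → Prop} (h1D : PrimrecPred D1) (h2D : PrimrecPred D2)
    (hfree : ∀ L : List ℕ, ∃ a, Gen c0 c1 c2 D1 D2 B L a) :
    FprCategorical E ∨ Infinite (Degrees E) :=
  dichotomy_of_find hB c0 c1 c2 (find_of_primrec c0 c1 c2 h1D h2D hB.1 hfree)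

/-- `(ℕ, B)` has a computable type: some nonprincipal ultrafilter `U` on `ℕ` for which the
sets `{y | B x y for U-almost all x}` and `{y | B y x for U-almost all x}` are computable. -/
def CompType (B : ℕ → ℕ → Prop) : Prop :=
  ∃ U : Ultrafilter ℕ, (∀ n : ℕ, ∀ᶠ x in (U : Filter ℕ), x ≠ n) ∧
    ComputablePred (fun y => ∀ᶠ x in (U : Filter ℕ), B x y) ∧
    ComputablePred (fun y => ∀ᶠ x in (U : Filter ℕ), B y x)

/-- `(ℕ, B)` has a primitive recursive type. -/
def PrType (B : ℕ → ℕ → Prop) : Prop :=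
  ∃ U : Ultrafilter ℕ, (∀ n : ℕ, ∀ᶠ x in (U : Filter ℕ), x ≠ n) ∧
    PrimrecPred (fun y => ∀ᶠ x in (U : Filter ℕ), B x y) ∧
    PrimrecPred (fun y => ∀ᶠ x in (U : Filter ℕ), B y x)

theorem ultra_iff' (U : Ultrafilter ℕ) (p : ℕ → Prop) :
    ∀ᶠ x in (U : Filter ℕ), (p x ↔ ∀ᶠ z in (U : Filter ℕ), p z) := by
  by_cases h : ∀ᶠ z in (U : Filter ℕ), p z
  · exact h.mono fun x hx => iff_of_true hx h
  · exact (Ultrafilter.eventually_not.2 h).mono fun x hx => iff_of_false hx h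

theorem dichotomy_of_compType {α : Type*} {E : α → α → Prop} {B : ℕ → ℕ → Prop}
    (hB : IsPres E B) (hT : CompType B) : FprCategorical E ∨ Infinite (Degrees E) := by
  classical
  obtain ⟨U, hne, hq1, hq2⟩ := hT
  refine dichotomy_of_find hB (∀ᶠ x in (U : Filter ℕ), B x x)
    (∀ᶠ a in (U : Filter ℕ), ∀ᶠ x in (U : Filter ℕ), B x a)
    (∀ᶠ a in (U : Filter ℕ), ∀ᶠ x in (U : Filter ℕ), B a x)
    (find_of_computable _ _ _ hq1 hq2 hB.1 ?_)
  intro L
  have h1 : ∀ᶠ a in (U : Filter ℕ), ∀ y ∈ L.toFinset, y ≠ a ∧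
      (B a y ↔ ∀ᶠ x in (U : Filter ℕ), B x y) ∧ (B y a ↔ ∀ᶠ x in (U : Filter ℕ), B y x) := by
    rw [Filter.eventually_all_finset]
    intro y _
    exact ((hne y).mono fun x hx => hx.symm).and
      ((ultra_iff' U (fun x => B x y)).and (ultra_iff' U (fun x => B y x)))
  have h2 := ultra_iff' U (fun x => B x x)
  have h3 := ultra_iff' U (fun a => ∀ᶠ x in (U : Filter ℕ), B x a)
  have h4 := ultra_iff' U (fun a => ∀ᶠ x in (U : Filter ℕ), B a x)
  obtain ⟨a, ha1, ha2, ha3, ha4⟩ := (h1.and (h2.and (h3.and h4))).exists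
  exact ⟨a, fun y hy => ha1 y (List.mem_toFinset.2 hy), ha2, ha3, ha4⟩

theorem compType_of_prType {B : ℕ → ℕ → Prop} (h : PrType B) : CompType B := by
  obtain ⟨U, h0, h1, h2⟩ := h
  exact ⟨U, h0, h1.computablePred, h2.computablePred⟩

theorem dichotomy_of_prType {α : Type*} {E : α → α → Prop} {B : ℕ → ℕ → Prop} (hB : IsPres E B)
    (hT : PrType B) : FprCategorical E ∨ Infinite (Degrees E) :=
  dichotomy_of_compType hB (compType_of_prType hT)

end Typ27
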