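import Pool.Agent.Lib.MP_36da60_lc.CompB25
import Pool.Agent.Lib.MP_36da60_lc.TypD27

/-!
# fpr-degrees: the dichotomy for a computable type in a computable presentation
-/

set_option autoImplicit false

namespace Fpr62

open Filter Typ27

/-- every delayed copy is an fpr presentation -/
theorem exists_pres_of_comp {α : Type*} {E : α → α → Prop} (c0 c1 c2 : Prop) {q1 q2 : ℕ → Bool}
    (hq1 : Computable q1) (hq2 : Computable q2) {b : ℕ → ℕ → Bool} (hb : Computable₂ b)
    {f : α → ℕ} (hf : Function.Bijective f) (hfi : ∀ x y, E x y ↔ b (f x) (f y) = true)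
    (hgen : ∀ L : List ℕ, ∃ a, GenC c0 c1 c2 q1 q2 b L a) : ∃ B, IsPres E B := by
  obtain ⟨B', g, idx, R, _, D1, D2, hB', hg, hiso, -⟩ :=
    exists_delayed_comp c0 c1 c2 hq1 hq2 hb hgen (fun _ => 0) (Computable.const 0)
  exact ⟨B', hB', g ∘ f, hg.comp hf, fun x y => (hfi x y).trans (hiso _ _)⟩

/-- **A computable type and a splitting element.** -/
theorem infinite_of_split_comp {α : Type*} (E : α → α → Prop) (c0 c1 c2 : Prop)
    {q1 q2 : ℕ → Bool}
    (hq1 : Computable q1) (hq2 : Computable q2) {b : ℕ → ℕ → Bool} (hb : Computable₂ b)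
    {f : α → ℕ} (hf : Function.Bijective f) (hfi : ∀ x y, E x y ↔ b (f x) (f y) = true)
    (hgen : ∀ L : List ℕ, ∃ a, GenC c0 c1 c2 q1 q2 b L a)
    (v : ℕ) (h1 : {x | b v x = true}.Infinite) (h2 : {x | ¬ b v x = true}.Infinite) :
    Infinite (Degrees E) := by
  classical
  refine infinite_of_marked E SFeat sFeat_transfer ?_ ?_
  · rintro C ⟨hC, g, hg, hgi⟩
    obtain ⟨a, ha⟩ := hf.2 v
    have key : ∀ x, b v (f x) = true ↔ C (g a) (g x) := by
      intro x
      rw [← ha, ← hfi, hgi]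
    have e1 : {y | C (g a) y}.Infinite := by
      have : {y | C (g a) y} = g '' (f ⁻¹' {x | b v x = true}) := by
        ext y
        obtain ⟨x, rfl⟩ := hg.2 y
        simp only [Set.mem_ofPred_eq, Set.mem_image, Set.mem_preimage]
        rw [← key]
        exact ⟨fun h => ⟨x, h, rfl⟩, fun ⟨z, hz, hzx⟩ => by rw [← hg.1 hzx]; exact hz⟩
      rw [this]
      exact (h1.preimage (fun y _ => hf.2 y)).image hg.1.injOn
    have e2 : {y | ¬ C (g a) y}.Infinite := by
      have : {y | ¬ C (g a) y} = g '' (f ⁻¹' {x | ¬ b v x = true}) := by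
        ext y
        obtain ⟨x, rfl⟩ := hg.2 y
        simp only [Set.mem_ofPred_eq, Set.mem_image, Set.mem_preimage]
        rw [← key]
        exact ⟨fun h => ⟨x, h, rfl⟩, fun ⟨z, hz, hzx⟩ => by rw [← hg.1 hzx]; exact hz⟩
      rw [this]
      exact (h2.preimage (fun y _ => hf.2 y)).image hg.1.injOn
    exact ⟨g a, exists_T hC (g a) e1 e2⟩
  · intro G hG
    obtain ⟨B', g, idx, R, hRd, D1, D2, hB', hg, hiso, hidx, hself, hfast, hiR, hiN, hslow⟩ :=
      exists_delayed_comp c0 c1 c2 hq1 hq2 hb hgen G hG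
    refine ⟨B', ⟨hB', g ∘ f, hg.comp hf, fun x y => (hfi x y).trans (hiso _ _)⟩, ?_⟩
    intro v n hvn hfeat
    obtain ⟨⟨F, hF, hF'⟩, ⟨K, hK, hK'⟩⟩ := hfeat
    have hidx1 : ∀ x, idx x ≤ 2 * x + 1 := by
      intro x
      by_cases hx : R x
      · have h3 := hiR x hx
        have h4 : Nat.count R x ≤ x := Nat.count_le R
        omega
      · have h3 := hiN x hx
        omega
    have hidx2 : ∀ x, ¬ R x → idx x % 2 = 0 := by
      intro x hx
      have h3 := hiN x hx
      omega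
    have key : ∀ S : Finset ℕ, (∀ x ∈ S, x < G n ∧ ¬ (B' v x ↔ D2 v)) →
        S.card < 2 * (n + 1) := by
      intro S hS
      have e1 : (S.filter (fun x => R x)).card ≤ n := by
        refine le_trans (Finset.card_le_card ?_) ((Nat.count_eq_card_filter_range R (G n)).symm.le.trans
          (hslow n))
        intro x hx
        obtain ⟨hx1, hx2⟩ := Finset.mem_filter.1 hx
        exact Finset.mem_filter.2 ⟨Finset.mem_range.2 (hS x hx1).1, hx2⟩
      have e2 : (S.filter (fun x => ¬ R x)).card ≤ v + 1 := by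
        have e3 : ((S.filter (fun x => ¬ R x)).image (fun x => idx x / 2)).card ≤ v + 1 := by
          refine (Finset.card_le_card ?_).trans (Finset.card_range (v + 1)).le
          intro z hz
          obtain ⟨x, hx, rfl⟩ := Finset.mem_image.1 hz
          obtain ⟨hx1, hx2⟩ := Finset.mem_filter.1 hx
          rw [Finset.mem_range]
          by_contra hcon
          have h3 := hidx1 v
          have h4 : idx v < idx x := by omega
          exact (hS x hx1).2 (hfast x v hx2 h4).2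
        rwa [Finset.card_image_of_injOn] at e3
        intro x hx y hy hxy
        have hx2 := (Finset.mem_filter.1 (Finset.mem_coe.1 hx)).2
        have hy2 := (Finset.mem_filter.1 (Finset.mem_coe.1 hy)).2
        have h3 := hidx2 x hx2
        have h4 := hidx2 y hy2
        have h5 : idx x / 2 = idx y / 2 := hxy
        exact hidx.1 (by omega)
      have e4 := Finset.card_filter_add_card_filter_not (s := S) (fun x => R x)
      omega
    by_cases hd : D2 v
    · have := key K (fun x hx => ⟨(hK' x hx).1, fun hc => (hK' x hx).2 (hc.2 hd)⟩)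
      omega
    · have := key F (fun x hx => ⟨(hF' x hx).1, fun hc => hd (hc.1 (hF' x hx).2)⟩)
      omega

/-- splitting in the other direction -/
theorem infinite_of_split_comp' {α : Type*} (E : α → α → Prop) (c0 c1 c2 : Prop)
    {q1 q2 : ℕ → Bool}
    (hq1 : Computable q1) (hq2 : Computable q2) {b : ℕ → ℕ → Bool} (hb : Computable₂ b)
    {f : α → ℕ} (hf : Function.Bijective f) (hfi : ∀ x y, E x y ↔ b (f x) (f y) = true)
    (hgen : ∀ L : List ℕ, ∃ a, GenC c0 c1 c2 q1 q2 b L a)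
    (v : ℕ) (h1 : {x | b x v = true}.Infinite) (h2 : {x | ¬ b x v = true}.Infinite) :
    Infinite (Degrees E) := by
  apply infinite_of_flip
  have hb' : Computable₂ (fun x y => b y x) := hb.comp Computable.snd Computable.fst
  refine infinite_of_split_comp (fun x y => E y x) c0 c2 c1 hq2 hq1 hb' hf
    (fun x y => hfi y x) ?_ v h1 h2
  intro L
  obtain ⟨a, ha, hb, hc, hd⟩ := hgen L
  exact ⟨a, fun y hy => ⟨(ha y hy).1, (ha y hy).2.2, (ha y hy).2.1⟩, hb, hd, hc⟩

/-- **Computable types: the dichotomy.** -/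
theorem comp_dichotomy {α : Type*} {E : α → α → Prop} (c0 c1 c2 : Prop)
    {q1 q2 : ℕ → Bool}
    (hq1 : Computable q1) (hq2 : Computable q2) {b : ℕ → ℕ → Bool} (hb : Computable₂ b)
    {f : α → ℕ} (hf : Function.Bijective f) (hfi : ∀ x y, E x y ↔ b (f x) (f y) = true)
    (hgen : ∀ L : List ℕ, ∃ a, GenC c0 c1 c2 q1 q2 b L a) :
    FprCategorical E ∨ Infinite (Degrees E) := by
  classical
  by_cases hs1 : ∃ v, {x | b v x = true}.Infinite ∧ {x | ¬ b v x = true}.Infinite
  · obtain ⟨v, h1, h2⟩ := hs1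
    exact Or.inr (infinite_of_split_comp E c0 c1 c2 hq1 hq2 hb hf hfi hgen v h1 h2)
  by_cases hs2 : ∃ v, {x | b x v = true}.Infinite ∧ {x | ¬ b x v = true}.Infinite
  · obtain ⟨v, h1, h2⟩ := hs2
    exact Or.inr (infinite_of_split_comp' E c0 c1 c2 hq1 hq2 hb hf hfi hgen v h1 h2)
  obtain ⟨B', g, idx, R, _, D1, D2, hB', hg, hiso, -⟩ :=
    exists_delayed_comp c0 c1 c2 hq1 hq2 hb hgen (fun _ => 0) (Computable.const 0)
  have hpres : IsPres E B' := ⟨hB', g ∘ f, hg.comp hf, fun x y => (hfi x y).trans (hiso _ _)⟩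
  refine noSplit_dichotomy hpres ?_
  have key : ∀ p : ℕ → Prop, ¬ ({x | p x}.Infinite ∧ {x | ¬ p x}.Infinite) →
      ∃ d : Prop, {x | ¬ (p x ↔ d)}.Finite := by
    intro p hp
    by_cases h : {x | p x}.Infinite
    · refine ⟨True, ?_⟩
      have h2 : ¬ {x | ¬ p x}.Infinite := fun h' => hp ⟨h, h'⟩
      rw [Set.not_infinite] at h2
      refine h2.subset ?_
      intro x hx
      simpa using hx
    · refine ⟨False, ?_⟩
      rw [Set.not_infinite] at h
      refine h.subset ?_
      intro x hx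
      simpa using hx
  intro z'
  obtain ⟨z, rfl⟩ := hg.2 z'
  obtain ⟨d1, hd1⟩ := key (fun x => b x z = true) (fun h => hs2 ⟨z, h⟩)
  obtain ⟨d2, hd2⟩ := key (fun x => b z x = true) (fun h => hs1 ⟨z, h⟩)
  refine ⟨d1, d2, ((hd1.union hd2).image g).subset ?_⟩
  intro x' hx
  obtain ⟨x, rfl⟩ := hg.2 x'
  refine ⟨x, ?_, rfl⟩
  by_contra hcon
  simp only [Set.mem_union, Set.mem_ofPred_eq, not_or, not_not] at hcon
  apply hx
  rw [← hiso, ← hiso]
  exact ⟨hcon.1, hcon.2⟩

/-- `(ℕ, b)` has a computable type: for some nonprincipal ultrafilter `U` the two sets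
`{y | b x y for U-almost all x}` and `{y | b y x for U-almost all x}` are computable. -/
def CompType (b : ℕ → ℕ → Bool) : Prop :=
  ∃ U : Ultrafilter ℕ, (∀ n : ℕ, ∀ᶠ x in (U : Filter ℕ), x ≠ n) ∧
    (∃ q1 : ℕ → Bool, Computable q1 ∧
      ∀ y, q1 y = true ↔ ∀ᶠ x in (U : Filter ℕ), b x y = true) ∧
    ∃ q2 : ℕ → Bool, Computable q2 ∧ ∀ y, q2 y = true ↔ ∀ᶠ x in (U : Filter ℕ), b y x = true

/-- `b` is a computable presentation of `(α, E)` -/
def IsCompPres {α : Type*} (E : α → α → Prop) (b : ℕ → ℕ → Bool) : Prop :=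
  Computable₂ b ∧ ∃ f : α → ℕ, Function.Bijective f ∧ ∀ x y, E x y ↔ b (f x) (f y) = true

theorem compType_gen {b : ℕ → ℕ → Bool} (hT : CompType b) :
    ∃ (c0 c1 c2 : Prop) (q1 q2 : ℕ → Bool), Computable q1 ∧ Computable q2 ∧
      ∀ L : List ℕ, ∃ a, GenC c0 c1 c2 q1 q2 b L a := by
  classical
  obtain ⟨U, hne, ⟨q1, hq1, hq1U⟩, ⟨q2, hq2, hq2U⟩⟩ := hT
  refine ⟨∀ᶠ x in (U : Filter ℕ), b x x = true, ∀ᶠ a in (U : Filter ℕ), q1 a = true,
    ∀ᶠ a in (U : Filter ℕ), q2 a = true, q1, q2, hq1, hq2, fun L => ?_⟩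
  have h1 : ∀ᶠ a in (U : Filter ℕ), ∀ y ∈ L.toFinset, y ≠ a ∧ b a y = q1 y ∧ b y a = q2 y := by
    rw [Filter.eventually_all_finset]
    intro y _
    refine ((hne y).mono fun x hx => hx.symm).and ?_
    refine ((ultra_iff' U (fun x => b x y = true)).and
      (ultra_iff' U (fun x => b y x = true))).mono ?_
    rintro x ⟨e1, e2⟩
    rw [← hq1U] at e1
    rw [← hq2U] at e2
    exact ⟨Bool.eq_iff_iff.2 e1, Bool.eq_iff_iff.2 e2⟩
  have h2 := ultra_iff' U (fun x => b x x = true)
  have h3 := ultra_iff' U (fun a => q1 a = true)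
  have h4 := ultra_iff' U (fun a => q2 a = true)
  obtain ⟨a, ha1, ha2, ha3, ha4⟩ := (h1.and (h2.and (h3.and h4))).exists
  exact ⟨a, fun y hy => ha1 y (List.mem_toFinset.2 hy), ha2, ha3, ha4⟩

/-- **Computable type in some computable presentation.** -/
theorem dichotomy_of_compType {α : Type*} {E : α → α → Prop} {b : ℕ → ℕ → Bool}
    (hb : IsCompPres E b) (hT : CompType b) :
    (∃ B, IsPres E B) ∧ (FprCategorical E ∨ Infinite (Degrees E)) := by
  obtain ⟨c0, c1, c2, q1, q2, hq1, hq2, hgen⟩ := compType_gen hT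
  obtain ⟨hbc, f, hf, hfi⟩ := hb
  exact ⟨exists_pres_of_comp c0 c1 c2 hq1 hq2 hbc hf hfi hgen,
    comp_dichotomy c0 c1 c2 hq1 hq2 hbc hf hfi hgen⟩

end Fpr62
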