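import Pool.Agent.Lib.MP_36da60_lc.CompC25

/-!
# fpr-degrees: structures with bounded algebraicity have computable types
-/

set_option autoImplicit false

namespace Fpr62

open Filter

/-- the elements outside `F` which have the same relations to the elements of `F` as `a` -/
def SameOver {α : Type*} (E : α → α → Prop) (F : Finset α) (a : α) : Set α :=
  {x | x ∉ F ∧ ∀ y ∈ F, (E x y ↔ E a y) ∧ (E y x ↔ E y a)}

/-- bounded algebraicity: for some `N`, the set of elements outside a finite set `F` with the same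
relations to `F` as a given element outside `F` is infinite or has at most `N` elements -/
def BoundedAlg {α : Type*} (E : α → α → Prop) : Prop :=
  ∃ N : ℕ, ∀ (F : Finset α) (a : α), a ∉ F → (SameOver E F a).Finite →
    (SameOver E F a).ncard ≤ N

theorem computable_ball {γ : Type*} [Primcodable γ] {g : γ → ℕ → Bool} (hg : Computable₂ g) :
    ∃ F : γ → ℕ → Bool, Computable₂ F ∧ ∀ c n, F c n = true ↔ ∀ i < n, g c i = true := by
  refine ⟨fun c n => Nat.rec (motive := fun _ => Bool) true (fun i acc => acc && g c i) n, ?_, ?_⟩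
  · have hand : Computable₂ (fun a b : Bool => a && b) := Primrec.and.to_comp
    have h2 : Computable₂ (fun (q : γ × ℕ) (r : ℕ × Bool) => r.2 && g q.1 r.1) :=
      hand.comp (Computable.snd.comp Computable.snd)
        (hg.comp (Computable.fst.comp Computable.fst) (Computable.fst.comp Computable.snd))
    exact Computable.nat_rec (f := fun q : γ × ℕ => q.2) (g := fun _ : γ × ℕ => true)
      (h := fun q r => r.2 && g q.1 r.1) Computable.snd (Computable.const true) h2
  · intro c n
    induction n with
    | zero => simp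
    | succ n ih =>
      show ((Nat.rec (motive := fun _ => Bool) true (fun i acc => acc && g c i) n : Bool) &&
        g c n) = true ↔ _
      rw [Bool.and_eq_true, ih]
      constructor
      · rintro ⟨h1, h2⟩ i hi
        rcases Nat.lt_succ_iff_lt_or_eq.1 hi with h | h
        · exact h1 i h
        · rw [h]; exact h2
      · intro h
        exact ⟨fun i hi => h i (by omega), h n (by omega)⟩

theorem computable_bcount {γ : Type*} [Primcodable γ] {g : γ → ℕ → Bool} (hg : Computable₂ g) :
    ∃ F : γ → ℕ → ℕ, Computable₂ F ∧ ∀ c n, F c n = Nat.count (fun i => g c i = true) n := by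
  refine ⟨fun c n => Nat.rec (motive := fun _ => ℕ) 0 (fun i acc => acc + cond (g c i) 1 0) n,
    ?_, ?_⟩
  · have h2 : Computable₂ (fun (q : γ × ℕ) (r : ℕ × ℕ) => r.2 + cond (g q.1 r.1) 1 0) := by
      refine Primrec.nat_add.to_comp.comp (Computable.snd.comp Computable.snd) ?_
      exact Computable.cond
        (hg.comp (Computable.fst.comp Computable.fst) (Computable.fst.comp Computable.snd))
        (Computable.const 1) (Computable.const 0)
    exact Computable.nat_rec (f := fun q : γ × ℕ => q.2) (g := fun _ : γ × ℕ => 0)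
      (h := fun q r => r.2 + cond (g q.1 r.1) 1 0) Computable.snd (Computable.const 0) h2
  · intro c n
    induction n with
    | zero => simp
    | succ n ih =>
      have ih' : (Nat.rec (motive := fun _ => ℕ) 0 (fun i acc => acc + cond (g c i) 1 0) n : ℕ) =
        Nat.count (fun i => g c i = true) n := ih
      show (Nat.rec (motive := fun _ => ℕ) 0 (fun i acc => acc + cond (g c i) 1 0) n : ℕ) +
        cond (g c n) 1 0 = _
      rw [ih', Nat.count_succ]
      by_cases h : g c n = true <;> simp [h]

/-- **A computable type.**  In a computable presentation of a structure with bounded algebraicity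
there is a computable type. -/
theorem gen_of_boundedAlg {α : Type*} {E : α → α → Prop} (hE : BoundedAlg E)
    {b : ℕ → ℕ → Bool} (hb : IsCompPres E b) :
    ∃ (c0 c1 c2 : Prop) (q1 q2 : ℕ → Bool), Computable q1 ∧ Computable q2 ∧
      ∀ L : List ℕ, ∃ a, GenC c0 c1 c2 q1 q2 b L a := by
  classical
  obtain ⟨N, hN⟩ := hE
  obtain ⟨hbc, f, hf, hfi⟩ := hb
  have hand : Computable₂ (fun a b : Bool => a && b) := Primrec.and.to_comp
  have hbeq : Computable₂ (fun x y : Bool => decide (x = y)) := by
    have : Primrec₂ (fun x y : Bool => decide (x = y)) := Primrec.eq.decide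
    exact this.to_comp
  have hle : Computable₂ (fun x y : ℕ => decide (x ≤ y)) := by
    have : Primrec₂ (fun x y : ℕ => decide (x ≤ y)) := Primrec.nat_le.decide
    exact this.to_comp
  -- same relations below `n`
  obtain ⟨same, hsame, hsameP⟩ := computable_ball (γ := ℕ × ℕ) (g := fun c y =>
      decide (b c.1 y = b c.2 y) && decide (b y c.1 = b y c.2)) (by
    have e1 : Computable (fun z : (ℕ × ℕ) × ℕ => b z.1.1 z.2) :=
      hbc.comp (Computable.fst.comp Computable.fst) Computable.snd
    have e2 : Computable (fun z : (ℕ × ℕ) × ℕ => b z.1.2 z.2) :=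
      hbc.comp (Computable.snd.comp Computable.fst) Computable.snd
    have e3 : Computable (fun z : (ℕ × ℕ) × ℕ => b z.2 z.1.1) :=
      hbc.comp Computable.snd (Computable.fst.comp Computable.fst)
    have e4 : Computable (fun z : (ℕ × ℕ) × ℕ => b z.2 z.1.2) :=
      hbc.comp Computable.snd (Computable.snd.comp Computable.fst)
    exact hand.comp (hbeq.comp e1 e2) (hbeq.comp e3 e4))
  have hS : ∀ x r n, same (x, r) n = true ↔ ∀ y < n, b x y = b r y ∧ b y x = b y r := by
    intro x r n
    rw [hsameP]
    simp only [Bool.and_eq_true, decide_eq_true_eq]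
  let cls : ℕ → ℕ → Set ℕ := fun n r => {x | n ≤ x ∧ same (x, r) n = true}
  obtain ⟨cnt, hcnt, hcntP⟩ := computable_bcount (γ := ℕ × ℕ) (g := fun c x =>
      decide (c.1 ≤ x) && same (x, c.2) c.1) (by
    have e1 : Computable (fun z : (ℕ × ℕ) × ℕ => decide (z.1.1 ≤ z.2)) :=
      hle.comp (Computable.fst.comp Computable.fst) Computable.snd
    have e2 : Computable (fun z : (ℕ × ℕ) × ℕ => same (z.2, z.1.2) z.1.1) :=
      hsame.comp (Computable.snd.pair (Computable.snd.comp Computable.fst))
        (Computable.fst.comp Computable.fst)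
    exact hand.comp e1 e2)
  -- a finite class has at most `N` elements
  have hfin : ∀ n r, n ≤ r → (cls n r).Finite → (cls n r).ncard ≤ N := by
    intro n r hr hfinite
    let e := Equiv.ofBijective f hf
    have he : ∀ x, f (e.symm x) = x := fun x => e.apply_symm_apply x
    have hse : ∀ x, e.symm (f x) = x := fun x => e.symm_apply_apply x
    let F : Finset α := (Finset.range n).image e.symm
    have hF : ∀ x, e.symm x ∈ F ↔ x < n := by
      intro x
      constructor
      · intro h
        obtain ⟨z, hz, hzx⟩ := Finset.mem_image.1 h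
        rw [← e.symm.injective hzx]
        exact Finset.mem_range.1 hz
      · intro h
        exact Finset.mem_image_of_mem _ (Finset.mem_range.2 h)
    have hcl : SameOver E F (e.symm r) = e.symm '' (cls n r) := by
      ext a
      obtain ⟨x, rfl⟩ := e.symm.surjective a
      simp only [SameOver, Set.mem_ofPred_eq, Set.mem_image, EmbeddingLike.apply_eq_iff_eq,
        exists_eq_right, cls, hF, not_lt, hS]
      constructor
      · rintro ⟨h1, h2⟩
        refine ⟨h1, fun y hy => ?_⟩
        have h3 := h2 (e.symm y) ((hF y).2 hy)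
        rw [hfi, hfi, hfi, hfi, he, he, he] at h3
        exact ⟨Bool.eq_iff_iff.2 h3.1, Bool.eq_iff_iff.2 h3.2⟩
      · rintro ⟨h1, h2⟩
        refine ⟨h1, fun a ha => ?_⟩
        obtain ⟨y, rfl⟩ := e.symm.surjective a
        have h3 := h2 y ((hF y).1 ha)
        rw [hfi, hfi, hfi, hfi, he, he, he, h3.1, h3.2]
        exact ⟨Iff.rfl, Iff.rfl⟩
    have h1 := hN F (e.symm r) (by rw [hF]; omega) (by rw [hcl]; exact hfinite.image _)
    rw [hcl, Set.ncard_image_of_injective _ e.symm.injective] at h1
    exact h1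
  -- the search
  let T : ℕ × ℕ → ℕ → Bool := fun q k =>
    decide (q.1 + 1 ≤ k.unpair.1) &&
      (same (k.unpair.1, q.2.unpair.1) q.1 &&
        decide (N + 1 ≤ cnt (q.1 + 1, k.unpair.1) k.unpair.2))
  have hT : Computable₂ T := by
    have eu : Computable (fun z : (ℕ × ℕ) × ℕ => z.2.unpair) :=
      Primrec.unpair.to_comp.comp Computable.snd
    have eu1 : Computable (fun z : (ℕ × ℕ) × ℕ => z.2.unpair.1) := Computable.fst.comp eu
    have eu2 : Computable (fun z : (ℕ × ℕ) × ℕ => z.2.unpair.2) := Computable.snd.comp eu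
    have en : Computable (fun z : (ℕ × ℕ) × ℕ => z.1.1) := Computable.fst.comp Computable.fst
    have en1 : Computable (fun z : (ℕ × ℕ) × ℕ => z.1.1 + 1) := Computable.succ.comp en
    have ek : Computable (fun z : (ℕ × ℕ) × ℕ => z.1.2.unpair.1) :=
      Computable.fst.comp (Primrec.unpair.to_comp.comp (Computable.snd.comp Computable.fst))
    exact hand.comp (hle.comp en1 eu1)
      (hand.comp (hsame.comp (eu1.pair ek) en)
        (hle.comp (Computable.const (N + 1)) (hcnt.comp (en1.pair eu1) eu2)))
  have hTP : ∀ n k k', T (n, k) k' = true ↔ n + 1 ≤ k'.unpair.1 ∧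
      same (k'.unpair.1, k.unpair.1) n = true ∧ N + 1 ≤ cnt (n + 1, k'.unpair.1) k'.unpair.2 := by
    intro n k k'
    simp only [T, Bool.and_eq_true, decide_eq_true_eq]
  have hcntcls : ∀ n r m, cnt (n, r) m = ((Finset.range m).filter fun x => x ∈ cls n r).card := by
    intro n r m
    rw [hcntP, Nat.count_eq_card_filter_range]
    congr 1
    ext x
    simp only [Finset.mem_filter, Finset.mem_range, Bool.and_eq_true, decide_eq_true_eq, cls,
      Set.mem_ofPred_eq]
  -- a successful search gives an infinite class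
  have hinf : ∀ n r m, n ≤ r → N + 1 ≤ cnt (n, r) m → (cls n r).Infinite := by
    intro n r m hr hc hfinite
    have h1 := hfin n r hr hfinite
    rw [hcntcls] at hc
    have h2 : (((Finset.range m).filter fun x => x ∈ cls n r : Finset ℕ) : Set ℕ) ⊆ cls n r := by
      intro x hx
      exact (Finset.mem_filter.1 (Finset.mem_coe.1 hx)).2
    have h3 := Set.ncard_le_ncard h2 hfinite
    rw [Set.ncard_coe_finset] at h3
    omega
  -- the search is successful over an infinite class
  have hex : ∀ n k, (cls n k.unpair.1).Infinite → ∃ k', T (n, k) k' = true := by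
    intro n k hX
    set r := k.unpair.1 with hr
    have hX' : (cls n r \ {n}).Infinite := hX.sdiff (Set.finite_singleton n)
    have h1 : ∃ c : Bool × Bool, ((cls n r \ {n}) ∩ (fun x => (b x n, b n x)) ⁻¹' {c}).Infinite := by
      by_contra hno
      push Not at hno
      apply hX'
      exact Set.Finite.of_finite_fibers (fun x => (b x n, b n x)) (Set.toFinite _)
        (fun c _ => Set.not_infinite.1 (by simpa using hno c))
    obtain ⟨c, hc⟩ := h1
    obtain ⟨r', hr'⟩ := hc.nonempty
    have hsub : (cls n r \ {n}) ∩ (fun x => (b x n, b n x)) ⁻¹' {c} ⊆ cls (n + 1) r' := by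
      rintro x ⟨⟨⟨hx1, hx2⟩, hx3⟩, hx4⟩
      obtain ⟨⟨⟨hr1, hr2⟩, hr3⟩, hr4⟩ := hr'
      have hx3' : x ≠ n := hx3
      refine ⟨by omega, (hS _ _ _).2 fun y hy => ?_⟩
      rcases Nat.lt_succ_iff_lt_or_eq.1 hy with h | h
      · have e1 := (hS _ _ _).1 hx2 y h
        have e2 := (hS _ _ _).1 hr2 y h
        exact ⟨e1.1.trans e2.1.symm, e1.2.trans e2.2.symm⟩
      · subst h
        have e1 : (b x y, b y x) = c := hx4
        have e2 : (b r' y, b y r') = c := hr4
        rw [← e2] at e1
        exact ⟨(Prod.mk.inj e1).1, (Prod.mk.inj e1).2⟩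
    have hinf' : (cls (n + 1) r').Infinite := hc.mono hsub
    obtain ⟨⟨⟨hr1, hr2⟩, hr3⟩, hr4⟩ := hr'
    have hr3' : r' ≠ n := hr3
    refine ⟨Nat.pair r' (Nat.nth (fun x => x ∈ cls (n + 1) r') (N + 1)), (hTP _ _ _).2 ?_⟩
    rw [Nat.unpair_pair]
    refine ⟨by omega, hr2, ?_⟩
    rw [hcntcls, ← Nat.count_eq_card_filter_range]
    exact (Nat.count_nth_of_infinite (p := fun x => x ∈ cls (n + 1) r') hinf' (N + 1)).ge
  -- the computable sequence of codes
  let Fs : ℕ →. ℕ := fun n => Nat.rec (motive := fun _ => Part ℕ) (Part.some 0)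
    (fun i IH => IH.bind fun k => Nat.rfind (fun k' => Part.some (T (i, k) k'))) n
  have hFs : Partrec Fs := by
    refine Partrec.nat_rec (f := fun n : ℕ => n) (g := fun _ : ℕ => (Part.some 0 : Part ℕ))
      (h := fun _ q => Nat.rfind (fun k' => Part.some (T q k'))) Computable.id
      (Partrec.const' (Part.some 0)) ?_
    have h1 : Partrec₂ (fun (z : ℕ × (ℕ × ℕ)) (k' : ℕ) => (Part.some (T z.2 k') : Part Bool)) :=
      (hT.comp (Computable.snd.comp Computable.fst) Computable.snd).partrec
    exact Partrec.rfind h1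
  have htot : ∀ n, ∃ k, k ∈ Fs n ∧ (cls n k.unpair.1).Infinite := by
    intro n
    induction n with
    | zero =>
      refine ⟨0, Part.mem_some _, ?_⟩
      have : cls 0 (Nat.unpair 0).1 = Set.univ := by
        ext x
        simp only [cls, Set.mem_ofPred_eq, Set.mem_univ, iff_true]
        exact ⟨Nat.zero_le _, (hS _ _ _).2 fun y hy => absurd hy (Nat.not_lt_zero _)⟩
      rw [this]
      exact Set.infinite_univ
    | succ n ih =>
      obtain ⟨k, hk, hX⟩ := ih
      have h1 := hex n k hX
      have h2 : Nat.find h1 ∈ Nat.rfind (fun k' => (Part.some (T (n, k) k') : Part Bool)) := by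
        rw [Nat.mem_rfind]
        refine ⟨?_, ?_⟩
        · rw [Nat.find_spec h1]; exact Part.mem_some _
        · intro m hm
          have := Nat.find_min h1 hm
          rw [Bool.not_eq_true] at this
          rw [this]; exact Part.mem_some _
      refine ⟨Nat.find h1, Part.mem_bind_iff.2 ⟨k, hk, h2⟩, ?_⟩
      obtain ⟨e1, e2, e3⟩ := (hTP _ _ _).1 (Nat.find_spec h1)
      exact hinf _ _ _ e1 e3
  choose k hk hkinf using htot
  have hkc : Computable k := hFs.of_eq_tot hk
  have hstep : ∀ n, same ((k (n + 1)).unpair.1, (k n).unpair.1) n = true := by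
    intro n
    have h1 := hk (n + 1)
    obtain ⟨k0, hk0, h2⟩ := Part.mem_bind_iff.1 h1
    have h3 : k0 = k n := Part.mem_unique hk0 (hk n)
    subst h3
    have h4 := (Nat.mem_rfind.1 h2).1
    have h5 : T (n, k n) (k (n + 1)) = true := (Part.mem_some_iff.1 h4).symm
    exact ((hTP _ _ _).1 h5).2.1
  let r : ℕ → ℕ := fun n => (k n).unpair.1
  have hrc : Computable r := Computable.fst.comp (Primrec.unpair.to_comp.comp hkc)
  let q1 : ℕ → Bool := fun y => b (r (y + 1)) y
  let q2 : ℕ → Bool := fun y => b y (r (y + 1))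
  have hrs : Computable (fun y : ℕ => r (y + 1)) := hrc.comp Computable.succ
  have hq1 : Computable q1 := hbc.comp hrs Computable.id
  have hq2 : Computable q2 := hbc.comp Computable.id hrs
  have hstab : ∀ d y, b (r (y + 1 + d)) y = q1 y ∧ b y (r (y + 1 + d)) = q2 y := by
    intro d y
    induction d with
    | zero => exact ⟨rfl, rfl⟩
    | succ d ih =>
      have h1 := (hS _ _ _).1 (hstep (y + 1 + d)) y (by omega)
      exact ⟨h1.1.trans ih.1, h1.2.trans ih.2⟩
  have hcls : ∀ n x, x ∈ cls n (r n) → ∀ y < n, b x y = q1 y ∧ b y x = q2 y := by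
    intro n x hx y hy
    have h1 := (hS _ _ _).1 hx.2 y hy
    obtain ⟨d, rfl⟩ := Nat.exists_eq_add_of_le (show y + 1 ≤ n from hy)
    have h2 := hstab d y
    exact ⟨h1.1.trans h2.1, h1.2.trans h2.2⟩
  -- the pattern
  have hpat : ∃ c : Bool × Bool × Bool, ∀ n, ∃ a, n ≤ a ∧
      (∀ y < n, b a y = q1 y ∧ b y a = q2 y) ∧ (b a a, q1 a, q2 a) = c := by
    by_contra hno
    push Not at hno
    choose m hm using hno
    let M := Finset.univ.sup m
    obtain ⟨a, ha⟩ := (hkinf M).nonempty
    have h1 := hcls M a ha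
    have h2 : m (b a a, q1 a, q2 a) ≤ M := Finset.le_sup (Finset.mem_univ _)
    exact hm (b a a, q1 a, q2 a) a (h2.trans ha.1) (fun y hy => h1 y (hy.trans_le h2)) rfl
  obtain ⟨c, hc⟩ := hpat
  refine ⟨c.1 = true, c.2.1 = true, c.2.2 = true, q1, q2, hq1, hq2, fun L => ?_⟩
  obtain ⟨a, ha1, ha2, ha3⟩ := hc (L.toFinset.sup id + 1)
  have hlt : ∀ y ∈ L, y < L.toFinset.sup id + 1 := by
    intro y hy
    have : id y ≤ L.toFinset.sup id := Finset.le_sup (List.mem_toFinset.2 hy)
    exact Nat.lt_succ_of_le this
  refine ⟨a, fun y hy => ⟨?_, ha2 y (hlt y hy)⟩, ?_, ?_, ?_⟩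
  · have := hlt y hy
    omega
  · rw [← ha3]
  · rw [← ha3]
  · rw [← ha3]

/-- **Bounded algebraicity: the dichotomy.** -/
theorem dichotomy_of_boundedAlg {α : Type*} {E : α → α → Prop} (hE : BoundedAlg E)
    {b : ℕ → ℕ → Bool} (hb : IsCompPres E b) :
    (∃ B, IsPres E B) ∧ (FprCategorical E ∨ Infinite (Degrees E)) := by
  obtain ⟨c0, c1, c2, q1, q2, hq1, hq2, hgen⟩ := gen_of_boundedAlg hE hb
  obtain ⟨hbc, f, hf, hfi⟩ := hb
  exact ⟨exists_pres_of_comp c0 c1 c2 hq1 hq2 hbc hf hfi hgen,
    comp_dichotomy c0 c1 c2 hq1 hq2 hbc hf hfi hgen⟩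

end Fpr62
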