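import Mathlib

set_option autoImplicit false

namespace Pool.Agent.MP_36da60_lc

/-- A structure with universe `α` in the language with `k` relations, the `i`-th of arity `ar i`. -/
def Str {k : ℕ} (ar : Fin k → ℕ) (α : Type) : Type := ∀ i : Fin k, (Fin (ar i) → α) → Prop

variable {k : ℕ} {ar : Fin k → ℕ} {α β γ : Type}

/-- Fully primitive recursive: the universe is `ℕ` and every relation is primitive recursive. -/
def IsFpr (B : Str ar ℕ) : Prop := ∀ i : Fin k, PrimrecPred (B i)

/-- `f` is an isomorphism of `A` onto `B`. -/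
def IsIso (f : α → β) (A : Str ar α) (B : Str ar β) : Prop :=
  Function.Bijective f ∧ ∀ (i : Fin k) (v : Fin (ar i) → α), A i v ↔ B i (f ∘ v)

/-- `B` is mapped isomorphically onto `C` by a primitive recursive function. -/
def PrLe (B C : Str ar ℕ) : Prop := ∃ f : ℕ → ℕ, Primrec f ∧ IsIso f B C

/-- The fpr presentations of `A`. -/
def FPR (A : Str ar α) : Type := {B : Str ar ℕ // IsFpr B ∧ ∃ f : ℕ → α, IsIso f B A}

theorem IsIso.id (A : Str ar α) : IsIso (fun x => x) A A :=
  ⟨Function.bijective_id, fun _ _ => Iff.rfl⟩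

theorem IsIso.comp {A : Str ar α} {B : Str ar β} {C : Str ar γ} {g : β → γ} {f : α → β}
    (hg : IsIso g B C) (hf : IsIso f A B) : IsIso (g ∘ f) A C :=
  ⟨hg.1.comp hf.1, fun i v => (hf.2 i v).trans (hg.2 i (f ∘ v))⟩

theorem IsIso.symm {A : Str ar α} {B : Str ar β} {f : α → β} (hf : IsIso f A B) :
    ∃ g : β → α, IsIso g B A ∧ ∀ x, f (g x) = x := by
  obtain ⟨g, hg1, hg2⟩ := Function.bijective_iff_has_inverse.1 hf.1
  refine ⟨g, ⟨Function.bijective_iff_has_inverse.2 ⟨f, hg2, hg1⟩, fun i v => ?_⟩, hg2⟩
  rw [hf.2 i (g ∘ v)]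
  have : f ∘ g ∘ v = v := by funext a; exact hg2 _
  rw [this]

/-- Two presentations have the same fpr-degree: each is mapped onto the other. -/
def fprSetoid (A : Str ar α) : Setoid (FPR A) where
  r B C := PrLe B.1 C.1 ∧ PrLe C.1 B.1
  iseqv :=
    { refl := fun B => ⟨⟨fun x => x, Primrec.id, IsIso.id _⟩, ⟨fun x => x, Primrec.id, IsIso.id _⟩⟩
      symm := fun h => ⟨h.2, h.1⟩
      trans := by
        rintro B C D ⟨⟨f, hf, hf'⟩, ⟨g, hg, hg'⟩⟩ ⟨⟨f2, hf2, hf2'⟩, ⟨g2, hg2, hg2'⟩⟩
        exact ⟨⟨f2 ∘ f, hf2.comp hf, hf2'.comp hf'⟩, ⟨g ∘ g2, hg.comp hg2, hg'.comp hg2'⟩⟩ }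

/-- The set of fpr-degrees of `A`. -/
def Degrees (A : Str ar α) : Type := Quotient (fprSetoid A)

/-- `X` is a set of interchangeable elements of `A`: every transposition of two elements of `X`
is an automorphism of `A`. -/
def Twin [DecidableEq α] (A : Str ar α) (X : Set α) : Prop :=
  ∀ x ∈ X, ∀ y ∈ X, IsIso (Equiv.swap x y : α → α) A A

theorem Twin.app [DecidableEq α] {A : Str ar α} {X : Set α} (h : Twin A X) {x y : α} (hx : x ∈ X)
    (hy : y ∈ X) (i : Fin k) (v : Fin (ar i) → α) : A i v ↔ A i (Equiv.swap x y ∘ v) :=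
  (h x hx y hy).2 i v

/-- Tuples with the same equality pattern that differ only inside a set of interchangeable
elements satisfy the same relations. -/
theorem twin_key [DecidableEq α] {B : Str ar α} {X : Set α} (hX : Twin B X) (i : Fin k) :
    ∀ (n : ℕ) (v w : Fin (ar i) → α),
      (Finset.univ.filter (fun a => v a ≠ w a)).card ≤ n →
      (∀ a, v a = w a ∨ (v a ∈ X ∧ w a ∈ X)) → (∀ a b, v a = v b ↔ w a = w b) →
      (B i v ↔ B i w) := by
  intro n
  induction n with
  | zero =>
    intro v w hc h1 h2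
    have : v = w := by
      funext a
      by_contra h
      have h' : a ∈ Finset.univ.filter (fun a => v a ≠ w a) := by simp [h]
      have := Finset.card_pos.2 ⟨a, h'⟩
      omega
    rw [this]
  | succ n ih =>
    intro v w hc h1 h2
    by_cases hvw : v = w
    · rw [hvw]
    obtain ⟨a, ha⟩ := Function.ne_iff.1 hvw
    have haX : v a ∈ X ∧ w a ∈ X := (h1 a).resolve_left ha
    rw [hX.app haX.1 haX.2 i v]
    have key : ∀ b, v b = w b → (Equiv.swap (v a) (w a) (v b)) = w b := by
      intro b hb
      by_cases hb1 : v b = v a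
      · exfalso
        have : w b = w a := (h2 b a).1 hb1
        exact ha (by rw [← hb1, hb, this])
      · by_cases hb2 : v b = w a
        · exfalso
          have : w b = w a := by rw [← hb, hb2]
          have := (h2 b a).2 this
          exact hb1 this
        · rw [Equiv.swap_apply_of_ne_of_ne hb1 hb2, hb]
    apply ih
    · have hss : Finset.univ.filter (fun b => (Equiv.swap (v a) (w a) ∘ v) b ≠ w b) ⊂
          Finset.univ.filter (fun b => v b ≠ w b) := by
        rw [Finset.ssubset_iff_of_subset]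
        · refine ⟨a, by simp [ha], ?_⟩
          simp
        · intro b hb
          simp only [Finset.mem_filter, Finset.mem_univ, true_and, Function.comp_apply] at hb ⊢
          intro h
          exact hb (key b h)
      have := Finset.card_lt_card hss
      omega
    · intro b
      simp only [Function.comp_apply]
      by_cases hb : v b = w b
      · left; exact key b hb
      · have hbX := (h1 b).resolve_left hb
        right
        refine ⟨?_, hbX.2⟩
        by_cases hb1 : v b = v a
        · rw [hb1, Equiv.swap_apply_left]; exact haX.2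
        · by_cases hb2 : v b = w a
          · rw [hb2, Equiv.swap_apply_right]; exact haX.1
          · rw [Equiv.swap_apply_of_ne_of_ne hb1 hb2]; exact hbX.1
    · intro b b'
      rw [← h2 b b']
      simp only [Function.comp_apply]
      exact (Equiv.swap (v a) (w a)).injective.eq_iff

theorem twin_key' [DecidableEq α] {B : Str ar α} {X : Set α} (hX : Twin B X) (i : Fin k)
    (v w : Fin (ar i) → α)
    (h1 : ∀ a, v a = w a ∨ (v a ∈ X ∧ w a ∈ X)) (h2 : ∀ a b, v a = v b ↔ w a = w b) :
    (B i v ↔ B i w) := twin_key hX i _ v w le_rfl h1 h2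

/-- Interchangeable sets are pulled back along isomorphisms. -/
theorem Twin.preimage [DecidableEq α] [DecidableEq β] {A : Str ar α} {B : Str ar β} {f : α → β}
    (hf : IsIso f A B) {X : Set β} (hX : Twin B X) : Twin A (f ⁻¹' X) := by
  intro x hx y hy
  refine ⟨(Equiv.swap x y).bijective, fun i v => ?_⟩
  rw [hf.2 i v, hf.2 i, hX.app hx hy i (f ∘ v)]
  have : (Equiv.swap (f x) (f y) : β → β) ∘ f ∘ v = f ∘ (Equiv.swap x y) ∘ v := by
    funext a
    simp only [Function.comp_apply]
    exact (hf.1.1.map_swap x y (v a)).symm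
  rw [this]

end Pool.Agent.MP_36da60_lc
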