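import Mathlib

set_option autoImplicit false

namespace Pool.Agent.MP_36da60_lc

theorem pp_exists_list {ι α : Type} [Primcodable α] (p : ι → α → Prop)
    (h : ∀ i, PrimrecPred (p i)) (l : List ι) : PrimrecPred (fun a => ∃ i ∈ l, p i a) := by
  induction l with
  | nil =>
    refine (PrimrecPred.of_eq (p := fun _ : α => False) ?_ (by simp))
    exact ⟨inferInstance, (Primrec.const false).of_eq (by simp)⟩
  | cons i l ih =>
    refine ((h i).or ih).of_eq ?_
    intro a
    simp

theorem pp_forall_list {ι α : Type} [Primcodable α] (p : ι → α → Prop)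
    (h : ∀ i, PrimrecPred (p i)) (l : List ι) : PrimrecPred (fun a => ∀ i ∈ l, p i a) := by
  induction l with
  | nil =>
    refine (PrimrecPred.of_eq (p := fun _ : α => True) ?_ (by simp))
    exact ⟨inferInstance, (Primrec.const true).of_eq (by simp)⟩
  | cons i l ih =>
    refine ((h i).and ih).of_eq ?_
    intro a
    simp

theorem pp_exists_lt {α : Type} [Primcodable α] {R : ℕ → α → Prop} (h : PrimrecRel R)
    {g : α → ℕ} (hg : Primrec g) : PrimrecPred (fun a => ∃ x < g a, R x a) := by
  refine ((h.exists_mem_list).comp (Primrec.list_range.comp hg) Primrec.id).of_eq ?_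
  intro a
  simp

theorem pp_forall_lt {α : Type} [Primcodable α] {R : ℕ → α → Prop} (h : PrimrecRel R)
    {g : α → ℕ} (hg : Primrec g) : PrimrecPred (fun a => ∀ x < g a, R x a) := by
  refine ((h.forall_mem_list).comp (Primrec.list_range.comp hg) Primrec.id).of_eq ?_
  intro a
  simp

/-- A primitive recursive test which is true at all late stages, and which certifies
`ack t t ≤ s`. -/
theorem exists_ack_test : ∃ T : ℕ → ℕ → Prop, PrimrecRel T ∧
    (∀ t s, T t s → ack t t ≤ s) ∧ (∀ t, ∃ s0, ∀ s, s0 ≤ s → T t s) := by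
  have hc : Computable (fun t : ℕ => ack t t) := computable₂_ack.comp Computable.id Computable.id
  obtain ⟨c, hc'⟩ := Nat.Partrec.Code.exists_code.1 (Partrec.nat_iff.1 hc)
  have hev : ∀ t x, x ∈ Nat.Partrec.Code.eval c t ↔ x = ack t t := by
    intro t x
    rw [hc']
    simp
  refine ⟨fun t s => ∃ x < s + 1, Nat.Partrec.Code.evaln s c t = some x, ?_, ?_, ?_⟩
  · have h0 : PrimrecRel (fun (x : ℕ) (a : ℕ × ℕ) =>
        Nat.Partrec.Code.evaln a.2 c a.1 = some x) := by
      have h1 : Primrec (fun q : ℕ × (ℕ × ℕ) => Nat.Partrec.Code.evaln q.2.2 c q.2.1) :=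
        Nat.Partrec.Code.primrec_evaln.comp
          (((Primrec.snd.comp Primrec.snd).pair (Primrec.const c)).pair
            (Primrec.fst.comp Primrec.snd))
      exact Primrec.eq.comp h1 (Primrec.option_some.comp Primrec.fst)
    exact pp_exists_lt h0 (Primrec.succ.comp Primrec.snd)
  · rintro t s ⟨x, hx, h⟩
    have := (hev t x).1 (Nat.Partrec.Code.evaln_sound (Option.mem_def.2 h))
    omega
  · intro t
    obtain ⟨s1, h1⟩ := Nat.Partrec.Code.evaln_complete.1 ((hev t (ack t t)).2 rfl)
    refine ⟨max s1 (ack t t), fun s hs => ⟨ack t t, by omega, ?_⟩⟩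
    exact Nat.Partrec.Code.evaln_mono (le_trans (le_max_left _ _) hs) h1

/-- The slow counter of a test. -/
theorem exists_slow (C : ℕ → ℕ → Prop) (hC : PrimrecRel C)
    (hev : ∀ n, ∃ s0, ∀ s, s0 ≤ s → C n s) :
    ∃ c : ℕ → ℕ, Primrec c ∧ (∀ n, ∃ s, c s = n ∧ c (s + 1) = n + 1) ∧
      (∀ s s', s ≤ s' → c s ≤ c s') ∧ (∀ s, c (s + 1) = c s ∨ (c (s + 1) = c s + 1 ∧ C (c s) s)) ∧
      c 0 = 0 := by
  classical
  have hst : Primrec₂ (fun s x : ℕ => if C x s then x + 1 else x) := by
    have : PrimrecPred (fun p : ℕ × ℕ => C p.2 p.1) := hC.comp Primrec.snd Primrec.fst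
    exact Primrec.ite this (Primrec.succ.comp Primrec.snd) Primrec.snd
  obtain ⟨c, hprim, hs, hc0⟩ : ∃ c : ℕ → ℕ, Primrec c ∧
      (∀ s, c (s + 1) = if C (c s) s then c s + 1 else c s) ∧ c 0 = 0 :=
    ⟨_, Primrec.nat_rec₁ 0 hst, fun s => rfl, rfl⟩
  have hstep : ∀ s, c (s + 1) = c s ∨ (c (s + 1) = c s + 1 ∧ C (c s) s) := by
    intro s
    rw [hs s]
    by_cases h : C (c s) s
    · right; simp [h]
    · left; simp [h]
  have hmono : ∀ s s', s ≤ s' → c s ≤ c s' := by
    intro s s' h
    induction h with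
    | refl => exact le_rfl
    | @step m _ ih =>
      rcases hstep m with h | h
      · rw [h]; exact ih
      · rw [h.1]; omega
  have hbetween : ∀ n s, n < c s → ∃ t, c t = n ∧ c (t + 1) = n + 1 := by
    intro n s
    induction s with
    | zero => intro h; rw [hc0] at h; exact absurd h (Nat.not_lt_zero _)
    | succ s ih =>
      intro h
      by_cases h1 : n < c s
      · exact ih h1
      · rcases hstep s with h2 | h2
        · rw [h2] at h; exact absurd h h1
        · refine ⟨s, ?_, ?_⟩ <;> omega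
  have hunb : ∀ n, ∃ s, n < c s := by
    intro n
    induction n with
    | zero =>
      obtain ⟨s0, h0⟩ := hev 0
      by_cases h : c s0 = 0
      · refine ⟨s0 + 1, ?_⟩
        rw [hs s0, h, if_pos (h0 s0 le_rfl)]
        omega
      · exact ⟨s0, by omega⟩
    | succ n ih =>
      obtain ⟨s1, h1⟩ := ih
      obtain ⟨s0, h0⟩ := hev (n + 1)
      have h2 := hmono s1 (max s0 s1) (le_max_right _ _)
      by_cases h : c (max s0 s1) = n + 1
      · refine ⟨max s0 s1 + 1, ?_⟩
        rw [hs, h, if_pos (h0 _ (le_max_left _ _))]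
        omega
      · exact ⟨max s0 s1, by omega⟩
  refine ⟨c, hprim, fun n => ?_, hmono, hstep, hc0⟩
  obtain ⟨s, h⟩ := hunb n
  exact hbetween n s h

/-- The counter is small as long as the test certifies a large bound. -/
theorem slow_le {c : ℕ → ℕ} {C : ℕ → ℕ → Prop}
    (hstep : ∀ s, c (s + 1) = c s ∨ (c (s + 1) = c s + 1 ∧ C (c s) s)) (h0 : c 0 = 0)
    (n : ℕ) : ∀ s, n < c s → ∃ t, t < s ∧ c t = n ∧ C n t := by
  intro s
  induction s with
  | zero => intro h; rw [h0] at h; exact absurd h (Nat.not_lt_zero _)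
  | succ s ih =>
    intro h
    by_cases h1 : n < c s
    · obtain ⟨t, ht, ht2⟩ := ih h1
      exact ⟨t, by omega, ht2⟩
    · rcases hstep s with h2 | ⟨h2, h3⟩
      · rw [h2] at h; exact absurd h h1
      · have h4 : c s = n := by omega
        exact ⟨s, by omega, h4, h4 ▸ h3⟩

end Pool.Agent.MP_36da60_lc
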