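import Pool.Agent.Lib.MP_36da60_lc.Defs27
import Pool.Agent.Lib.MP_36da60_lc.Slow27

set_option autoImplicit false

namespace Pool.Agent.MP_36da60_lc

variable {k : ℕ} {ar : Fin k → ℕ}

/-- The positions at which the counter moves and whose index is not in the list `xs`. -/
def Old (c : ℕ → ℕ) (xs : List ℕ) (s : ℕ) : Prop := c (s + 1) ≠ c s ∧ ¬ ∃ b ∈ xs, c s = b

/-- `x b` for the first index `b` in the list with `v b = n`. -/
def pick {r : ℕ} (x : ℕ → ℕ) (v : Fin r → ℕ) (n : ℕ) : List (Fin r) → ℕ
  | [] => 0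
  | b :: l => if v b = n then x b else pick x v n l

open Classical in
/-- The translation of a tuple of positions. -/
noncomputable def rho (c : ℕ → ℕ) (xs : List ℕ) (x : ℕ → ℕ) {r : ℕ} (v : Fin r → ℕ)
    (a : Fin r) : ℕ :=
  if Old c xs (v a) then c (v a) else pick x v (v a) (List.finRange r)

/-- The delayed structure. -/
def delay (B : Str ar ℕ) (c : ℕ → ℕ) (xs : List ℕ) (x : ℕ → ℕ) : Str ar ℕ :=
  fun i v => B i (rho c xs x v)

theorem old_prim {c : ℕ → ℕ} (hc : Primrec c) (xs : List ℕ) : PrimrecPred (Old c xs) := by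
  have h1 : PrimrecPred (fun s => c (s + 1) = c s) := Primrec.eq.comp (hc.comp Primrec.succ) hc
  have h2 : PrimrecPred (fun s => ∃ b ∈ xs, c s = b) :=
    pp_exists_list (fun b s => c s = b) (fun b => Primrec.eq.comp hc (Primrec.const b)) xs
  exact h1.not.and h2.not

theorem ev_prim {r : ℕ} (a : Fin r) : Primrec (fun v : Fin r → ℕ => v a) :=
  Primrec.fin_app.comp Primrec.id (Primrec.const a)

theorem pick_prim {r : ℕ} (x : ℕ → ℕ) (a : Fin r) (l : List (Fin r)) :
    Primrec (fun v : Fin r → ℕ => pick x v (v a) l) := by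
  induction l with
  | nil => exact Primrec.const 0
  | cons b l ih =>
    exact Primrec.ite (Primrec.eq.comp (ev_prim b) (ev_prim a)) (Primrec.const (x b)) ih

theorem rho_prim {c : ℕ → ℕ} (hc : Primrec c) (xs : List ℕ) (x : ℕ → ℕ) (r : ℕ) :
    Primrec (fun v : Fin r → ℕ => rho c xs x v) := by
  classical
  have h : Primrec₂ (fun (a : Fin r) (v : Fin r → ℕ) => rho c xs x v a) := by
    refine Primrec.fin_curry₁.2 fun a => ?_
    exact Primrec.ite ((old_prim hc xs).comp (ev_prim a)) (hc.comp (ev_prim a)) (pick_prim x a _)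
  exact Primrec.fin_curry.2 h.swap

theorem delay_fpr {B : Str ar ℕ} (hB : IsFpr B) {c : ℕ → ℕ} (hc : Primrec c) (xs : List ℕ)
    (x : ℕ → ℕ) : IsFpr (delay B c xs x) :=
  fun i => (hB i).comp (rho_prim hc xs x (ar i))

theorem pick_spec {r : ℕ} (x : ℕ → ℕ) (v : Fin r → ℕ) (a : Fin r) (l : List (Fin r))
    (ha : a ∈ l) : ∃ b : Fin r, v b = v a ∧ pick x v (v a) l = x b := by
  induction l with
  | nil => exact absurd ha (List.not_mem_nil)
  | cons b l ih =>
    by_cases h : v b = v a
    · exact ⟨b, h, by simp [pick, h]⟩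
    · rcases List.mem_cons.1 ha with h1 | h1
      · exact absurd (by rw [h1]) h
      · obtain ⟨b', hb1, hb2⟩ := ih h1
        exact ⟨b', hb1, by simp [pick, h, hb2]⟩

theorem delay_iso {B : Str ar ℕ} {X : Set ℕ} (hX : Twin B X) (hXinf : X.Infinite) {c : ℕ → ℕ}
    (inc : ∀ n, ∃ s, c s = n ∧ c (s + 1) = n + 1) (mono : ∀ s s', s ≤ s' → c s ≤ c s')
    (step : ∀ s, c (s + 1) ≠ c s → c (s + 1) = c s + 1) (x : ℕ → ℕ)
    (hx : Function.Injective x) (hxX : ∀ n, x n ∈ X) (K : ℕ) (hK : ∀ i, ar i ≤ K) :
    ∃ θ : ℕ → ℕ, IsIso θ (delay B c ((List.range K).map x) x) B ∧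
      (∀ s, θ s ∉ X → c (s + 1) ≠ c s ∧ θ s = c s) ∧ ∃ s, θ s ∈ X := by
  classical
  set xs := (List.range K).map x with hxs
  have hmem : ∀ b : ℕ, b < K → x b ∈ xs := fun b hb => by
    rw [hxs]; exact List.mem_map.2 ⟨b, List.mem_range.2 hb, rfl⟩
  have hxsX : ∀ b ∈ xs, b ∈ X := by
    intro b hb
    rw [hxs] at hb
    obtain ⟨a, _, rfl⟩ := List.mem_map.1 hb
    exact hxX a
  have hcinj : ∀ s s', c (s + 1) ≠ c s → c (s' + 1) ≠ c s' → c s = c s' → s = s' := by
    intro s s' h1 h2 h3
    rcases lt_trichotomy s s' with h | h | h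
    · have h4 := step s h1
      have h5 := mono (s + 1) s' h
      omega
    · exact h
    · have h4 := step s' h2
      have h5 := mono (s' + 1) s h
      omega
  let Z : Set ℕ := {s | ¬ Old c xs s ∨ c s ∈ X}
  have hZinf : Z.Infinite := by
    intro hfin
    have h1 : (c '' Z).Finite := hfin.image c
    apply hXinf
    refine (h1.union xs.toFinset.finite_toSet).subset ?_
    intro y hy
    by_cases hyx : y ∈ xs
    · right; simpa using hyx
    · left
      obtain ⟨s, hs1, hs2⟩ := inc y
      exact ⟨s, Or.inr (by rw [hs1]; exact hy), hs1⟩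
  haveI : Infinite Z := hZinf.to_subtype
  haveI : Infinite X := hXinf.to_subtype
  obtain ⟨β⟩ := nonempty_equiv_of_countable (α := Z) (β := X)
  let θ : ℕ → ℕ := fun s => if h : s ∈ Z then (β ⟨s, h⟩ : ℕ) else c s
  have hθZ : ∀ s (h : s ∈ Z), θ s = β ⟨s, h⟩ := fun s h => dif_pos h
  have hθn : ∀ s, s ∉ Z → θ s = c s := fun s h => dif_neg h
  have hθX : ∀ s, s ∈ Z → θ s ∈ X := fun s h => by rw [hθZ s h]; exact (β ⟨s, h⟩).2
  have hnZ : ∀ s, s ∉ Z → Old c xs s ∧ c s ∉ X := by
    intro s h
    have h' : ¬ (¬ Old c xs s ∨ c s ∈ X) := h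
    rw [not_or, not_not] at h'
    exact h'
  have hθinj : Function.Injective θ := by
    intro s s' h
    by_cases hs : s ∈ Z
    · by_cases hs' : s' ∈ Z
      · rw [hθZ s hs, hθZ s' hs'] at h
        have := β.injective (Subtype.ext h)
        exact congrArg Subtype.val this
      · exfalso
        have h1 := hθX s hs
        rw [h, hθn s' hs'] at h1
        exact (hnZ s' hs').2 h1
    · by_cases hs' : s' ∈ Z
      · exfalso
        have h1 := hθX s' hs'
        rw [← h, hθn s hs] at h1
        exact (hnZ s hs).2 h1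
      · rw [hθn s hs, hθn s' hs'] at h
        exact hcinj s s' (hnZ s hs).1.1 (hnZ s' hs').1.1 h
  have hθsurj : Function.Surjective θ := by
    intro y
    by_cases hy : y ∈ X
    · refine ⟨(β.symm ⟨y, hy⟩ : ℕ), ?_⟩
      rw [hθZ _ (β.symm ⟨y, hy⟩).2]
      simp
    · obtain ⟨s, hs1, hs2⟩ := inc y
      have hsZ : s ∉ Z := by
        intro h
        rcases h with h | h
        · apply h
          refine ⟨by omega, ?_⟩
          rintro ⟨b, hb, hb2⟩
          apply hy
          rw [← hs1, hb2]
          exact hxsX b hb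
        · rw [hs1] at h; exact hy h
      exact ⟨s, by rw [hθn s hsZ, hs1]⟩
  refine ⟨θ, ⟨⟨hθinj, hθsurj⟩, fun i v => ?_⟩, ?_, ?_⟩
  · change B i (rho c xs x v) ↔ B i (θ ∘ v)
    have hrX : ∀ a, v a ∈ Z → rho c xs x v a ∈ X := by
      intro a ha
      unfold rho
      by_cases ho : Old c xs (v a)
      · rw [if_pos ho]
        rcases ha with h | h
        · exact absurd ho h
        · exact h
      · rw [if_neg ho]
        obtain ⟨b, _, hb⟩ := pick_spec x v a (List.finRange (ar i)) (List.mem_finRange a)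
        rw [hb]; exact hxX b
    refine twin_key' hX i _ _ ?_ ?_
    · intro a
      by_cases ha : v a ∈ Z
      · right; exact ⟨hrX a ha, hθX _ ha⟩
      · left
        simp only [Function.comp_apply]
        rw [hθn _ ha]
        unfold rho
        rw [if_pos (hnZ _ ha).1]
    · intro a a'
      simp only [Function.comp_apply]
      rw [hθinj.eq_iff]
      constructor
      · intro h
        unfold rho at h
        by_cases ho : Old c xs (v a)
        · rw [if_pos ho] at h
          by_cases ho' : Old c xs (v a')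
          · rw [if_pos ho'] at h
            exact hcinj _ _ ho.1 ho'.1 h
          · rw [if_neg ho'] at h
            obtain ⟨b, _, hb⟩ := pick_spec x v a' (List.finRange (ar i)) (List.mem_finRange a')
            exfalso
            apply ho.2
            exact ⟨x b, hmem b (lt_of_lt_of_le b.2 (hK i)), by rw [h, hb]⟩
        · rw [if_neg ho] at h
          by_cases ho' : Old c xs (v a')
          · rw [if_pos ho'] at h
            obtain ⟨b, _, hb⟩ := pick_spec x v a (List.finRange (ar i)) (List.mem_finRange a)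
            exfalso
            apply ho'.2
            exact ⟨x b, hmem b (lt_of_lt_of_le b.2 (hK i)), by rw [← h, hb]⟩
          · rw [if_neg ho'] at h
            obtain ⟨b, hb1, hb⟩ := pick_spec x v a (List.finRange (ar i)) (List.mem_finRange a)
            obtain ⟨b', hb1', hb'⟩ :=
              pick_spec x v a' (List.finRange (ar i)) (List.mem_finRange a')
            rw [hb, hb'] at h
            have h2 : b = b' := Fin.ext (hx h)
            rw [← hb1, ← hb1', h2]
      · intro h
        unfold rho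
        rw [h]
  · intro s hs
    have hsZ : s ∉ Z := fun h => hs (hθX s h)
    exact ⟨(hnZ s hsZ).1.1, hθn s hsZ⟩
  · obtain ⟨s, hs⟩ := hZinf.nonempty
    exact ⟨s, hθX s hs⟩

end Pool.Agent.MP_36da60_lc
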