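import Pool.Agent.Lib.MP_36da60_lc.InvE27

/-!
# Relational structures: strictly lower presentations (94's FiniteOrbits and invariant colourings)

A relational structure with universe `ℕ` is given by an arity function `ar` and relations
`R i : (Fin (ar i) → ℕ) → Prop`.
-/

namespace Pool.Agent.Lib.MP_36da60_lc.Desc

open Nat.Partrec (Code)

/-- A structure with universe `ℕ` in the relational language with relation symbols `i : ℕ` of
arity `ar i`. -/
abbrev Str (ar : ℕ → ℕ) := ∀ i : ℕ, (Fin (ar i) → ℕ) → Prop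

/-- Fully primitive recursive: the relations are primitive recursive, uniformly. -/
def Fpr {ar : ℕ → ℕ} (R : Str ar) : Prop :=
  ∃ D : ℕ → List ℕ → Bool, Primrec₂ D ∧ ∀ i v, D i (List.ofFn v) = true ↔ R i v

/-- `f` is an isomorphism from `R` onto `S`. -/
def IsIso {ar : ℕ → ℕ} (R S : Str ar) (f : ℕ → ℕ) : Prop :=
  Function.Bijective f ∧ ∀ i v, R i v ↔ S i (f ∘ v)

/-- `R` and `S` are isomorphic. -/
def Isom {ar : ℕ → ℕ} (R S : Str ar) : Prop := ∃ f, IsIso R S f

/-- `R ≤_pr S`: some primitive recursive function is an isomorphism from `R` onto `S`. -/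
def Le {ar : ℕ → ℕ} (R S : Str ar) : Prop := ∃ f, Primrec f ∧ IsIso R S f

/-- The orbit of `x` under the automorphism group of `R`. -/
def orbit {ar : ℕ → ℕ} (R : Str ar) (x : ℕ) : Set ℕ := {y | ∃ f, IsIso R R f ∧ f x = y}

/-! ### a slow primitive recursive enumeration -/

section slow

variable (c : Code)

/-- the Boolean condition: stage `s` is even and `c` on input `m` has halted with value `≤ s`. -/
def cnd (s m : ℕ) : Bool :=
  (decide (s % 2 = 0)) && ((Code.evaln s c m).casesOn false fun v => decide (v ≤ s))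

/-- number of even numbers put out before stage `s`. -/
def ev : ℕ → ℕ := fun s => Nat.rec 0 (fun s m => bif cnd c s m then m + 1 else m) s

/-- the enumeration. -/
def slow (s : ℕ) : ℕ := bif cnd c s (ev c s) then 2 * ev c s else 2 * (s - ev c s) + 1

theorem cnd_primrec : Primrec₂ (cnd c) := by
  unfold cnd
  refine Primrec.and.comp₂ ?_ ?_
  · exact (PrimrecRel.comp₂ Primrec.eq (Primrec.nat_mod.comp₂ Primrec₂.left (Primrec₂.const 2))
      (Primrec₂.const 0)).decide
  · refine Primrec.option_casesOn (f := fun _ => false) (g := fun (p : ℕ × ℕ) (v : ℕ) => decide (v ≤ p.1)) ?_ ?_ ?_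
    · exact Code.primrec_evaln.comp
        (Primrec.pair (Primrec.pair Primrec.fst (Primrec.const c)) Primrec.snd)
    · exact Primrec.const false
    · exact (PrimrecRel.comp Primrec.nat_le Primrec.snd (Primrec.fst.comp Primrec.fst)).decide

theorem ev_primrec : Primrec (ev c) := by
  unfold ev
  refine Primrec.nat_rec₁ 0 ?_
  exact Primrec.cond (cnd_primrec c) (Primrec.succ.comp Primrec.snd) Primrec.snd

theorem slow_primrec : Primrec (slow c) := by
  unfold slow
  refine Primrec.cond ((cnd_primrec c).comp Primrec.id (ev_primrec c)) ?_ ?_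
  · exact Primrec.nat_mul.comp (Primrec.const 2) (ev_primrec c)
  · exact Primrec.succ.comp (Primrec.nat_mul.comp (Primrec.const 2)
      (Primrec.nat_sub.comp Primrec.id (ev_primrec c)))

theorem ev_succ (s : ℕ) : ev c (s + 1) = bif cnd c s (ev c s) then ev c s + 1 else ev c s := rfl

theorem ev_le (s : ℕ) : ev c s ≤ s := by
  induction s with
  | zero => exact le_refl 0
  | succ s ih =>
    rw [ev_succ]
    cases cnd c s (ev c s) <;> simp <;> omega

theorem ev_mono {s t : ℕ} (h : s ≤ t) : ev c s ≤ ev c t := by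
  induction h with
  | refl => exact le_refl _
  | step _ ih =>
    refine ih.trans ?_
    rw [ev_succ]
    cases cnd c _ (ev c _) <;> simp

theorem ev_step {s t : ℕ} (h : s ≤ t) : ev c t ≤ ev c s + (t - s) := by
  induction h with
  | refl => omega
  | step h1 ih =>
    rename_i t
    have h2 : s ≤ t := h1
    have : ev c (t + 1) ≤ ev c t + 1 := by
      rw [ev_succ]; cases cnd c t (ev c t) <;> simp
    show ev c (t + 1) ≤ _
    omega

theorem slow_even {s i : ℕ} (h : slow c s = 2 * i) : cnd c s (ev c s) = true ∧ ev c s = i := by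
  unfold slow at h
  cases hc : cnd c s (ev c s) with
  | true => rw [hc] at h; simp at h; exact ⟨rfl, h⟩
  | false => rw [hc] at h; simp at h; omega

theorem slow_odd {s i : ℕ} (h : slow c s = 2 * i + 1) :
    cnd c s (ev c s) = false ∧ s - ev c s = i := by
  unfold slow at h
  cases hc : cnd c s (ev c s) with
  | true => rw [hc] at h; simp at h; omega
  | false => rw [hc] at h; simp at h; exact ⟨rfl, by omega⟩

theorem slow_injective : Function.Injective (slow c) := by
  have key : ∀ s t, s < t → slow c s ≠ slow c t := by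
    intro s t hst h
    rcases Nat.even_or_odd' (slow c s) with ⟨i, hi | hi⟩
    · obtain ⟨h1, h2⟩ := slow_even c hi
      obtain ⟨h3, h4⟩ := slow_even c (h ▸ hi)
      have h5 : ev c (s + 1) = ev c s + 1 := by rw [ev_succ, h1]; rfl
      have h6 := ev_mono c (show s + 1 ≤ t from hst)
      omega
    · obtain ⟨h1, h2⟩ := slow_odd c hi
      obtain ⟨h3, h4⟩ := slow_odd c (h ▸ hi)
      have h5 : ev c (s + 1) = ev c s := by rw [ev_succ, h1]; rfl
      have h6 := ev_step c (show s + 1 ≤ t from hst)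
      have h7 := ev_le c s
      have h8 := ev_le c t
      omega
  intro s t h
  rcases lt_trichotomy s t with h1 | h1 | h1
  · exact absurd h (key s t h1)
  · exact h1
  · exact absurd h.symm (key t s h1)

theorem cnd_spec {s m : ℕ} (h : cnd c s m = true) : ∃ v, v ≤ s ∧ v ∈ Code.eval c m := by
  unfold cnd at h
  rw [Bool.and_eq_true] at h
  obtain ⟨_, h⟩ := h
  cases he : Code.evaln s c m with
  | none => rw [he] at h; simp at h
  | some v =>
    rw [he] at h
    exact ⟨v, by simpa using h, Code.evaln_sound (k := s) (by rw [he]; rfl)⟩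

theorem cnd_intro {s m v k : ℕ} (hs : s % 2 = 0) (hk : v ∈ Code.evaln k c m) (hks : k ≤ s)
    (hv : v ≤ s) : cnd c s m = true := by
  unfold cnd
  have h1 : Code.evaln s c m = some v := Code.evaln_mono hks hk
  rw [h1]
  simp [hs, hv]

theorem ev_unbounded (hc : ∀ m, ∃ v, v ∈ Code.eval c m) (m : ℕ) :
    ∃ s, cnd c s (ev c s) = true ∧ ev c s = m := by
  have step : ∀ m s0, ev c s0 = m → ∃ s, cnd c s (ev c s) = true ∧ ev c s = m := by
    intro m s0 h0
    obtain ⟨v, hv⟩ := hc m
    obtain ⟨k, hk⟩ := Code.evaln_complete.1 hv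
    by_contra hcon
    push Not at hcon
    have hall : ∀ n, ev c (s0 + n) = m := by
      intro n
      induction n with
      | zero => exact h0
      | succ n ih =>
        show ev c ((s0 + n) + 1) = m
        rw [ev_succ]
        cases hb : cnd c (s0 + n) (ev c (s0 + n)) with
        | true => exact absurd ih (hcon _ hb)
        | false => exact ih
    have h1 := hall (s0 + 2 * k + 2 * v)
    refine hcon _ ?_ h1
    rw [h1]
    exact cnd_intro c (by omega) hk (by omega) (by omega)
  induction m with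
  | zero => exact step 0 0 rfl
  | succ m ih =>
    obtain ⟨s, h1, h2⟩ := ih
    exact step (m + 1) (s + 1) (by rw [ev_succ, h1, h2]; rfl)

theorem od_unbounded (m : ℕ) : ∃ s, cnd c s (ev c s) = false ∧ s - ev c s = m := by
  have hodd : ∀ s, s % 2 = 1 → cnd c s (ev c s) = false := by
    intro s hs
    unfold cnd
    simp [hs]
  have step : ∀ m s0, s0 - ev c s0 = m → ∃ s, cnd c s (ev c s) = false ∧ s - ev c s = m := by
    intro m s0 h0
    cases hb : cnd c s0 (ev c s0) with
    | false => exact ⟨s0, hb, h0⟩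
    | true =>
      by_cases hp : s0 % 2 = 1
      · exact ⟨s0, hodd s0 hp, h0⟩
      · refine ⟨s0 + 1, hodd _ (by omega), ?_⟩
        have : ev c (s0 + 1) = ev c s0 + 1 := by rw [ev_succ, hb]; rfl
        have := ev_le c s0
        omega
  induction m with
  | zero => exact step 0 0 rfl
  | succ m ih =>
    obtain ⟨s, h1, h2⟩ := ih
    refine step (m + 1) (s + 1) ?_
    have h3 : ev c (s + 1) = ev c s := by rw [ev_succ, h1]; rfl
    have := ev_le c s
    omega

theorem slow_bijective (hc : ∀ m, ∃ v, v ∈ Code.eval c m) : Function.Bijective (slow c) := by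
  refine ⟨slow_injective c, fun n => ?_⟩
  rcases Nat.even_or_odd' n with ⟨i, rfl | rfl⟩
  · obtain ⟨s, h1, h2⟩ := ev_unbounded c hc i
    exact ⟨s, by unfold slow; rw [h1, h2]; rfl⟩
  · obtain ⟨s, h1, h2⟩ := od_unbounded c i
    exact ⟨s, by unfold slow; rw [h1, h2]; rfl⟩

end slow

/-- For every computable `T` there is a primitive recursive bijection `h` of `ℕ` whose inverse is
at least `T i` at `2 i`. -/
theorem exists_slow {T : ℕ → ℕ} (hT : Computable T) :
    ∃ h : ℕ → ℕ, Primrec h ∧ Function.Bijective h ∧ ∀ s i, h s = 2 * i → T i ≤ s := by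
  obtain ⟨c, hc⟩ := Code.exists_code.1 (Partrec.nat_iff.1 hT.partrec)
  have hev : ∀ m, Code.eval c m = Part.some (T m) := fun m => by rw [hc]; rfl
  refine ⟨slow c, slow_primrec c, slow_bijective c fun m => ⟨T m, by rw [hev]; exact Part.mem_some _⟩,
    fun s i h => ?_⟩
  obtain ⟨h1, h2⟩ := slow_even c h
  obtain ⟨v, h3, h4⟩ := cnd_spec c h1
  rw [h2, hev, Part.mem_some_iff] at h4
  omega

/-! ### isomorphisms -/

section iso

variable {ar : ℕ → ℕ}

theorem IsIso.refl (R : Str ar) : IsIso R R id := ⟨Function.bijective_id, fun _ _ => Iff.rfl⟩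

theorem IsIso.comp {R S U : Str ar} {f g : ℕ → ℕ} (hf : IsIso R S f) (hg : IsIso S U g) :
    IsIso R U (g ∘ f) :=
  ⟨hg.1.comp hf.1, fun i v => (hf.2 i v).trans (hg.2 i (f ∘ v))⟩

theorem IsIso.symm {R S : Str ar} {f : ℕ → ℕ} (hf : IsIso R S f) :
    IsIso S R (Equiv.ofBijective f hf.1).symm := by
  refine ⟨(Equiv.ofBijective f hf.1).symm.bijective, fun i v => ?_⟩
  rw [hf.2 i]
  have : f ∘ ((Equiv.ofBijective f hf.1).symm ∘ v) = v :=
    funext fun x => (Equiv.ofBijective f hf.1).apply_symm_apply (v x)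
  rw [this]

theorem Isom.refl (R : Str ar) : Isom R R := ⟨id, IsIso.refl R⟩

theorem Isom.symm {R S : Str ar} (h : Isom R S) : Isom S R := by
  obtain ⟨f, hf⟩ := h
  exact ⟨_, hf.symm⟩

theorem Isom.trans {R S U : Str ar} (h : Isom R S) (h' : Isom S U) : Isom R U := by
  obtain ⟨f, hf⟩ := h
  obtain ⟨g, hg⟩ := h'
  exact ⟨g ∘ f, hf.comp hg⟩

theorem Le.isom {R S : Str ar} (h : Le R S) : Isom R S := by
  obtain ⟨f, _, hf⟩ := h
  exact ⟨f, hf⟩

theorem Le.refl (R : Str ar) : Le R R := ⟨id, Primrec.id, IsIso.refl R⟩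

theorem Le.trans {R S U : Str ar} (h : Le R S) (h' : Le S U) : Le R U := by
  obtain ⟨f, hf, hf'⟩ := h
  obtain ⟨g, hg, hg'⟩ := h'
  exact ⟨g ∘ f, hg.comp hf, hf'.comp hg'⟩

/-- the condition of the theorem is invariant under isomorphism -/
theorem infinite_of_isom {R S : Str ar} (h : Isom R S) (hR : {x | (orbit R x).Finite}.Infinite) :
    {x | (orbit S x).Finite}.Infinite := by
  obtain ⟨f, hf⟩ := h
  refine (hR.image hf.1.1.injOn).mono ?_
  rintro _ ⟨x, hx, rfl⟩
  refine (hx.image f).subset ?_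
  rintro _ ⟨g, hg, rfl⟩
  refine ⟨(Equiv.ofBijective f hf.1).symm (g (f x)), ⟨_, (hf.comp hg).comp hf.symm, rfl⟩, ?_⟩
  exact (Equiv.ofBijective f hf.1).apply_symm_apply (g (f x))

/-- infinitely many elements are not smaller than any other element of their orbit -/
theorem infinite_max {R : Str ar} (hR : {x | (orbit R x).Finite}.Infinite) :
    {z | ∀ f, IsIso R R f → ∀ n, f n = z → n ≤ z}.Infinite := by
  by_contra hcon
  rw [Set.not_infinite] at hcon
  apply hR
  -- every element of finite orbit is at most the maximum of its orbit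
  obtain ⟨B, hB⟩ := hcon.bddAbove
  refine (Set.finite_Iic B).subset ?_
  intro x hx
  obtain ⟨z, hz, hzm⟩ := Set.exists_max_image (orbit R x) id hx ⟨x, id, IsIso.refl R, rfl⟩
  have hxz : x ≤ z := hzm x ⟨id, IsIso.refl R, rfl⟩
  refine Set.mem_Iic.2 (hxz.trans (hB ?_))
  intro f hf n hn
  refine hzm n ?_
  obtain ⟨g, hg, rfl⟩ := hz
  refine ⟨(Equiv.ofBijective f hf.1).symm ∘ g, hg.comp hf.symm, ?_⟩
  show (Equiv.ofBijective f hf.1).symm (g x) = n
  rw [← hn]
  exact (Equiv.ofBijective f hf.1).symm_apply_apply n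

/-- the pulled back structure is again fully primitive recursive -/
theorem fpr_pull {R : Str ar} (hR : Fpr R) {h : ℕ → ℕ} (hh : Primrec h) :
    Fpr (fun i v => R i (h ∘ v) : Str ar) := by
  obtain ⟨D, hD, hD'⟩ := hR
  refine ⟨fun i l => D i (l.map h), ?_, fun i v => ?_⟩
  · exact hD.comp Primrec.fst (Primrec.list_map Primrec.snd (hh.comp₂ Primrec₂.right))
  · show D i ((List.ofFn v).map h) = true ↔ R i (h ∘ v)
    rw [List.map_ofFn]; exact hD' i (h ∘ v)

/-- exchange of `2 i` and `2 i + 1` -/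
def swp (n : ℕ) : ℕ := bif decide (n % 2 = 0) then n + 1 else n - 1

theorem swp_swp (n : ℕ) : swp (swp n) = n := by
  unfold swp
  rcases Nat.even_or_odd' n with ⟨i, rfl | rfl⟩
  · have : (2 * i + 1) % 2 = 1 := by omega
    simp [this]
  · have h1 : (2 * i + 1) % 2 = 1 := by omega
    simp [h1]

theorem swp_primrec : Primrec swp := by
  unfold swp
  refine Primrec.cond ?_ Primrec.succ Primrec.pred
  exact (PrimrecRel.comp Primrec.eq (Primrec.nat_mod.comp Primrec.id (Primrec.const 2))
    (Primrec.const 0)).decide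

/-- One step down. -/
theorem step_down {R : Str ar} (hR : Fpr R) (hfin : {x | (orbit R x).Finite}.Infinite) :
    ∃ S : Str ar, Fpr S ∧ Le S R ∧ ¬ Le R S := by
  have hZ := infinite_max hfin
  set Z : Set ℕ := {z | ∀ f, IsIso R R f → ∀ n, f n = z → n ≤ z} with hZdef
  -- the general argument: `π` a primitive recursive bijection, infinitely many `π (2 i)` in `Z`,
  -- and `π (2 i) ≤ 2 i + 1`
  have key : ∀ π : ℕ → ℕ, Primrec π → Function.Bijective π → (∀ i, π (2 * i) ≤ 2 * i + 1) →
      {i | π (2 * i) ∈ Z}.Infinite → ∃ S : Str ar, Fpr S ∧ Le S R ∧ ¬ Le R S := by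
    intro π hπ hπb hπle hinf
    have hT : Computable fun i : ℕ => ack i (2 * i + 1) :=
      computable₂_ack.comp Computable.id
        (Primrec.succ.comp (Primrec.nat_mul.comp (Primrec.const 2) Primrec.id)).to_comp
    obtain ⟨h, hh, hb, hs⟩ := exists_slow hT
    refine ⟨fun i v => R i ((π ∘ h) ∘ v), fpr_pull hR (hπ.comp hh),
      ⟨π ∘ h, hπ.comp hh, hπb.comp hb, fun _ _ => Iff.rfl⟩, ?_⟩
    rintro ⟨p, hp, hpi⟩
    -- the automorphism
    have haut : IsIso R R ((π ∘ h) ∘ p) :=
      ⟨(hπb.comp hb).comp hpi.1, fun i v => hpi.2 i v⟩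
    obtain ⟨m, hm⟩ := exists_lt_ack_of_nat_primrec (Primrec.nat_iff.1 hp)
    obtain ⟨i, hi, hmi⟩ := hinf.exists_gt m
    obtain ⟨n, hn⟩ := haut.1.2 (π (2 * i))
    have h1 : n ≤ 2 * i + 1 := (hi _ haut n hn).trans (hπle i)
    have h2 : h (p n) = 2 * i := hπb.1 hn
    have h3 : ack i (2 * i + 1) ≤ p n := hs _ _ h2
    have h4 : p n < ack m n := hm n
    have h5 : ack m n ≤ ack i (2 * i + 1) :=
      (ack_mono_right m h1).trans (ack_mono_left _ (le_of_lt hmi))
    omega
  by_cases he : {i | 2 * i ∈ Z}.Infinite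
  · exact key id Primrec.id Function.bijective_id (fun i => by simp) he
  · refine key swp swp_primrec ⟨Function.LeftInverse.injective swp_swp,
      Function.RightInverse.surjective swp_swp⟩ (fun i => ?_) ?_
    · unfold swp; simp
    · intro ho
      rw [Set.not_infinite] at he
      apply hZ
      refine ((he.image fun i => 2 * i).union (ho.image fun i => 2 * i + 1)).subset ?_
      intro z hz
      rcases Nat.even_or_odd' z with ⟨i, rfl | rfl⟩
      · exact Or.inl ⟨i, hz, rfl⟩
      · refine Or.inr ⟨i, ?_, rfl⟩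
        have : swp (2 * i) = 2 * i + 1 := by unfold swp; simp
        show swp (2 * i) ∈ Z
        rw [this]; exact hz

end iso


/-! ### invariant colourings -/

/-- `χ` is an invariant colouring of `R`: it is primitive recursive, has finitely many colours, at
least two colours are used infinitely often, and every automorphism of `R` maps elements of the same
colour to elements of the same colour. -/
def InvColouring {ar : ℕ → ℕ} (R : Str ar) (χ : ℕ → ℕ) : Prop :=
  Primrec χ ∧ (Set.range χ).Finite ∧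
    (∃ a b, a ≠ b ∧ {x | χ x = a}.Infinite ∧ {x | χ x = b}.Infinite) ∧
    ∀ f, IsIso R R f → ∀ x y, χ x = χ y → χ (f x) = χ (f y)

/-- One step down for invariant colourings; the lower structure again has one. -/
theorem step_down_colouring {ar : ℕ → ℕ} {R : Str ar} (hR : Fpr R) {χ : ℕ → ℕ}
    (hχ : InvColouring R χ) :
    ∃ S : Str ar, Fpr S ∧ Le S R ∧ ¬ Le R S ∧ ∃ χ' : ℕ → ℕ, InvColouring S χ' := by
  obtain ⟨h1, h2, ⟨a, b, hab, ha, hb⟩, h4⟩ := hχ
  obtain ⟨f, hf, hfb, hfp⟩ := Inv27.exists_lower (fun g => IsIso R R g)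
    (fun g hg => ⟨hg.1, _, hg.symm, fun x => (Equiv.ofBijective g hg.1).symm_apply_apply x⟩)
    (fun T hT => exists_slow hT) χ h1 h2 ⟨a, b, hab, ha, hb⟩ h4
  have hfi : IsIso (fun i v => R i (f ∘ v) : Str ar) R f := ⟨hfb, fun _ _ => Iff.rfl⟩
  refine ⟨fun i v => R i (f ∘ v), fpr_pull hR hf, ⟨f, hf, hfi⟩, ?_, χ ∘ f, ?_⟩
  · rintro ⟨p, hp, hpi⟩
    exact hfp p hp (hpi.comp hfi)
  · refine ⟨h1.comp hf, h2.subset ?_, ⟨a, b, hab, ?_, ?_⟩, ?_⟩
    · rintro _ ⟨x, rfl⟩
      exact ⟨f x, rfl⟩
    · exact ha.preimage (f := f) (fun y _ => hfb.2 y)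
    · exact hb.preimage (f := f) (fun y _ => hfb.2 y)
    · intro g hg x y hxy
      have haut : IsIso R R ((f ∘ g) ∘ (Equiv.ofBijective f hfb).symm) := hfi.symm.comp (hg.comp hfi)
      have h5 := h4 _ haut (f x) (f y) hxy
      have e1 : (Equiv.ofBijective f hfb).symm (f x) = x :=
        (Equiv.ofBijective f hfb).symm_apply_apply x
      have e2 : (Equiv.ofBijective f hfb).symm (f y) = y :=
        (Equiv.ofBijective f hfb).symm_apply_apply y
      simp only [Function.comp_apply] at h5 ⊢
      rw [e1, e2] at h5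
      exact h5

end Pool.Agent.Lib.MP_36da60_lc.Desc
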