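import Pool.Agent.Lib.MP_36da60_lc.Desc27

/-!
# Invariant colourings from atomic formulas with parameters of finite orbit
-/

set_option autoImplicit false

namespace Pool.Agent.Lib.MP_36da60_lc.Desc

variable {ar : ℕ → ℕ}

/-- Some atomic formula `R i (w_1, .., x, .., w_n)` with one free variable `x` (at the place `j`) and
parameters of finite orbit holds for infinitely many `x` and fails for infinitely many `x`. -/
def SplitAtom (R : Str ar) : Prop :=
  ∃ (i : ℕ) (j : Fin (ar i)) (w : Fin (ar i) → ℕ), (∀ l, l ≠ j → (orbit R (w l)).Finite) ∧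
    {x | R i (Function.update w j x)}.Infinite ∧ {x | ¬ R i (Function.update w j x)}.Infinite

theorem primrec_list_map_fixed {β : Type*} (L : List β) (g : β → ℕ → Bool)
    (hg : ∀ b, Primrec (g b)) : Primrec (fun x => L.map (fun b => g b x)) := by
  induction L with
  | nil => exact Primrec.const []
  | cons b L ih => exact Primrec.list_cons.comp (hg b) ih

theorem exists_infinite_fiber {χ : ℕ → ℕ} (hfin : (Set.range χ).Finite) {P : Set ℕ}
    (hP : P.Infinite) : ∃ c, {x | x ∈ P ∧ χ x = c}.Infinite := by
  by_contra hcon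
  push Not at hcon
  apply hP
  refine (hfin.biUnion (t := fun c => {x | x ∈ P ∧ χ x = c}) (fun c _ => ?_)).subset ?_
  · exact Set.not_infinite.1 (by simpa using hcon c)
  · intro x hx
    simp only [Set.mem_iUnion]
    exact ⟨χ x, ⟨x, rfl⟩, hx, rfl⟩

theorem colouring_of_split {R : Str ar} (hR : Fpr R) (hs : SplitAtom R) :
    ∃ χ : ℕ → ℕ, InvColouring R χ := by
  classical
  obtain ⟨i, j, w, hw, h1, h2⟩ := hs
  obtain ⟨D, hD, hDR⟩ := hR
  let W : Set (Fin (ar i) → ℕ) := {w' | w' j = 0 ∧ ∀ l, l ≠ j → w' l ∈ orbit R (w l)}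
  have hWfin : W.Finite := by
    have h3 : (Set.pi Set.univ (fun l : Fin (ar i) => if l = j then ({0} : Set ℕ)
        else orbit R (w l))).Finite := by
      refine Set.Finite.pi fun l => ?_
      by_cases hl : l = j
      · simp [hl]
      · simp only [hl, if_false]
        exact hw l hl
    refine h3.subset ?_
    rintro w' ⟨h4, h5⟩ l -
    by_cases hl : l = j
    · subst hl
      simp [h4]
    · simp only [hl, if_false]
      exact h5 l hl
  let L : List (Fin (ar i) → ℕ) := hWfin.toFinset.toList
  have hL : ∀ w', w' ∈ L ↔ w' ∈ W := fun w' => by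
    simp [L]
  let cl : ℕ → List Bool := fun x => L.map (fun w' => D i (List.ofFn (Function.update w' j x)))
  let χ : ℕ → ℕ := fun x => Encodable.encode (cl x)
  have hcl : Primrec cl := by
    refine primrec_list_map_fixed L _ fun w' => ?_
    refine hD.comp (Primrec.const i) (Primrec.list_ofFn fun l => ?_)
    by_cases hl : l = j
    · subst hl
      exact Primrec.id.of_eq fun x => by simp
    · exact (Primrec.const (w' l)).of_eq fun x => by simp [hl]
  have hχ : Primrec χ := Primrec.encode.comp hcl
  have hχ_iff : ∀ x y, χ x = χ y ↔ ∀ w' ∈ W, (R i (Function.update w' j x) ↔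
      R i (Function.update w' j y)) := by
    intro x y
    have h3 : χ x = χ y ↔ cl x = cl y := Encodable.encode_injective.eq_iff
    rw [h3]
    constructor
    · intro h w' hw'
      have h4 := (List.map_inj_left.1 h) w' ((hL w').2 hw')
      rw [← hDR, ← hDR, h4]
    · intro h
      refine List.map_inj_left.2 fun w' hw' => ?_
      have h4 := h w' ((hL w').1 hw')
      rw [← hDR, ← hDR] at h4
      exact Bool.eq_iff_iff.2 h4
  have hrange : (Set.range χ).Finite := by
    have h3 : {l : List Bool | l.length = L.length}.Finite := List.finite_length_eq Bool L.length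
    refine (h3.image Encodable.encode).subset ?_
    rintro _ ⟨x, rfl⟩
    exact ⟨cl x, by simp [cl], rfl⟩
  have hself : ∀ x, x ∈ orbit R x := fun x => ⟨id, IsIso.refl R, rfl⟩
  have hw0 : Function.update w j 0 ∈ W := by
    refine ⟨by simp, fun l hl => ?_⟩
    rw [Function.update_of_ne hl]
    exact hself _
  have hsep : ∀ x y, χ x = χ y → (R i (Function.update w j x) ↔ R i (Function.update w j y)) := by
    intro x y h
    have h3 := (hχ_iff x y).1 h _ hw0
    rwa [Function.update_idem, Function.update_idem] at h3
  refine ⟨χ, hχ, hrange, ?_, ?_⟩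
  · obtain ⟨a, ha⟩ := exists_infinite_fiber hrange h1
    obtain ⟨b, hb⟩ := exists_infinite_fiber hrange h2
    refine ⟨a, b, ?_, ha.mono fun x hx => hx.2, hb.mono fun x hx => hx.2⟩
    rintro rfl
    obtain ⟨x, hx1, hx2⟩ := ha.nonempty
    obtain ⟨y, hy1, hy2⟩ := hb.nonempty
    exact hy1 ((hsep x y (hx2.trans hy2.symm)).1 hx1)
  · intro f hf x y hxy
    rw [hχ_iff] at hxy ⊢
    intro w' hw'
    set g := (Equiv.ofBijective f hf.1).symm with hg
    have hfg : ∀ z, f (g z) = z := (Equiv.ofBijective f hf.1).apply_symm_apply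
    have hgiso : IsIso R R g := hf.symm
    have hw'' : Function.update (g ∘ w') j 0 ∈ W := by
      refine ⟨by simp, fun l hl => ?_⟩
      rw [Function.update_of_ne hl]
      obtain ⟨h, hh, hhw⟩ := hw'.2 l hl
      exact ⟨g ∘ h, hh.comp hgiso, by rw [Function.comp_apply, hhw]; rfl⟩
    have key : ∀ z, R i (Function.update w' j (f z)) ↔
        R i (Function.update (Function.update (g ∘ w') j 0) j z) := by
      intro z
      have : f ∘ Function.update (g ∘ w') j z = Function.update w' j (f z) := by
        funext l
        by_cases hl : l = j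
        · subst hl; simp
        · simp [hl, hfg]
      rw [Function.update_idem, ← this]
      exact (hf.2 i _).symm
    rw [key, key]
    exact hxy _ hw''

end Pool.Agent.Lib.MP_36da60_lc.Desc
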