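import Pool.Agent.Lib.MP_36da60_lc.InvI27

/-!
# Invariant primitive recursive equivalence relations: a strictly lower listing
-/

set_option autoImplicit false

namespace Inv27

theorem exists_fiber {χ : ℕ → ℕ} (hfin : (Set.range χ).Finite) {P : Set ℕ} (hP : P.Infinite) :
    ∃ c, {x | x ∈ P ∧ χ x = c}.Infinite := by
  by_contra hcon
  push Not at hcon
  apply hP
  refine (hfin.biUnion (t := fun c => {x | x ∈ P ∧ χ x = c}) (fun c _ => ?_)).subset ?_
  · exact Set.not_infinite.1 (by simpa using hcon c)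
  · intro x hx
    simp only [Set.mem_iUnion]
    exact ⟨χ x, ⟨x, rfl⟩, hx, rfl⟩

/-- **Case B2.** -/
theorem lower_of_gaps (A : (ℕ → ℕ) → Prop)
    (hA : ∀ f, A f → Function.Bijective f ∧ ∃ g, A g ∧ ∀ x, g (f x) = x)
    (χ : ℕ → ℕ) (hχ : Primrec χ) (hN : {x | ¬ Old χ x}.Infinite)
    (hinv : ∀ f, A f → ∀ x y, χ x = χ y → χ (f x) = χ (f y))
    (hgap : ∀ k N, ∃ s, N ≤ s ∧ ∀ y, s < y → y ≤ ack k (2 * s + 2) → Old χ y)
    {k0 M0 : ℕ} (hno : ∀ s, M0 ≤ s → ∃ y, s < y ∧ y ≤ ack k0 (2 * s + 2) ∧ χ y ≠ χ (s + 1)) :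
    ∃ f : ℕ → ℕ, Primrec f ∧ Function.Bijective f ∧
      ∀ p : ℕ → ℕ, Primrec p → ¬ A (fun x => f (p x)) := by
  classical
  let W : ℕ → ℕ := fun s => ack k0 (2 * (s + M0) + 2)
  have hW : Primrec W := (primrec_ack k0).comp (Primrec.nat_add.comp (Primrec.nat_mul.comp
    (Primrec.const 2) (Primrec.nat_add.comp Primrec.id (Primrec.const M0))) (Primrec.const 2))
  have hWm : Monotone W := fun a b hab => ack_mono_right k0 (by omega)
  have hWl : ∀ s, s < W s := fun s => by
    have := lt_ack_right k0 (2 * (s + M0) + 2)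
    show s < ack k0 (2 * (s + M0) + 2)
    omega
  have hstep : ∀ a s, ∃ y, s < y ∧ y ≤ W s ∧ χ y ≠ a := by
    intro a s
    by_cases h : χ (s + M0 + 1) = a
    · obtain ⟨y, hy1, hy2, hy3⟩ := hno (s + M0) (by omega)
      exact ⟨y, by omega, hy2, fun h' => hy3 (h'.trans h.symm)⟩
    · refine ⟨s + M0 + 1, by omega, ?_, h⟩
      have := lt_ack_right k0 (2 * (s + M0) + 2)
      show s + M0 + 1 ≤ ack k0 (2 * (s + M0) + 2)
      omega
  let bnd : ℕ → ℕ := fun x => W^[x + 1] 0
  have hbnd : Primrec bnd :=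
    Primrec.nat_iterate Primrec.succ (Primrec.const 0) (hW.comp₂ Primrec₂.right)
  have hbs : ∀ x, bnd (x + 1) = W (bnd x) := fun x => Function.iterate_succ_apply' W (x + 1) 0
  have hmono : Monotone bnd := monotone_nat_of_le_succ fun x => by
    rw [hbs]; exact (hWl _).le
  have hge : ∀ x, x ≤ bnd x := by
    intro x
    induction x with
    | zero => exact Nat.zero_le _
    | succ x ih => rw [hbs]; have := hWl (bnd x); omega
  let P : Par := ⟨χ, bnd⟩
  have hfill : ∀ (a x : ℕ) (L : List ℕ), L.length ≤ x → ∃ u ≤ P.bnd x, u ∉ L ∧ P.χ u ≠ a := by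
    intro a x L hL
    choose F hF1 hF2 hF3 using hstep a
    let u : ℕ → ℕ := fun i => F^[i + 1] 0
    have hus : ∀ i, u (i + 1) = F (u i) := fun i => Function.iterate_succ_apply' F (i + 1) 0
    have humono : StrictMono u := strictMono_nat_of_lt_succ fun i => by rw [hus]; exact hF1 _
    have hub : ∀ i, u i ≤ bnd i := by
      intro i
      induction i with
      | zero => exact hF2 0
      | succ i ih => rw [hus, hbs]; exact (hF2 _).trans (hWm ih)
    have huc : ∀ i, χ (u i) ≠ a := by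
      intro i
      cases i with
      | zero => exact hF3 0
      | succ i => rw [hus]; exact hF3 _
    by_contra hcon
    push Not at hcon
    have h1 : (Finset.range (x + 1)).image u ⊆ L.toFinset := by
      intro v hv
      obtain ⟨i, hi, rfl⟩ := Finset.mem_image.1 hv
      have hi' : i ≤ x := by
        have := Finset.mem_range.1 hi
        omega
      rw [List.mem_toFinset]
      by_contra hmem
      exact huc i (hcon (u i) ((hub i).trans (hmono hi')) hmem)
    have h2 := Finset.card_le_card h1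
    have h3 := L.toFinset_card_le
    rw [Finset.card_image_of_injective _ humono.injective, Finset.card_range] at h2
    omega
  have hrel : ∀ z k x, ∃ r, x ≤ r ∧ RelG P z k r := by
    intro z k x
    have hV : Primrec (fun s => bnd (ack k (s + 1))) :=
      hbnd.comp ((primrec_ack k).comp Primrec.succ)
    obtain ⟨k', hk'⟩ := exists_lt_ack_of_nat_primrec (Primrec.nat_iff.1 hV)
    obtain ⟨s, hs, hb⟩ := hgap k' (max z x)
    have h1 := lt_ack_right k (s + 1)
    refine ⟨ack k (s + 1), by omega, s, by omega, by omega, le_refl _, fun y hy hsy => ?_⟩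
    apply hb y hsy
    have h2 : bnd (ack k (s + 1)) < ack k' s := hk' s
    have h3 : ack k' s ≤ ack k' (2 * s + 2) := ack_mono_right k' (by omega)
    have h4 : y < bnd (ack k (s + 1)) + 1 := hy
    omega
  refine ⟨lstG P, primrec_lstG hχ hbnd, ⟨lstG_injective hfill hmono hge,
    lstG_surjective hfill hmono hge hN hrel⟩, ?_⟩
  intro p hp hAp
  obtain ⟨m, hm⟩ := exists_lt_ack_of_nat_primrec (Primrec.nat_iff.1 hp)
  obtain ⟨z, r, ⟨s, hs1, hs2, hs3, hs4⟩, hw⟩ := exists_winG hfill hmono hge hN hrel m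
  exact false_of_gap A hA χ hinv _ p hAp m hm z r s (bnd r) hs2 hs3
    (fun y h1 h2 => hs4 y (Nat.lt_succ_of_le h2) h1) hw

/-- **Invariant primitive recursive equivalence relations.** -/
theorem exists_lower_all (A : (ℕ → ℕ) → Prop)
    (hA : ∀ f, A f → Function.Bijective f ∧ ∃ g, A g ∧ ∀ x, g (f x) = x)
    (slow : ∀ T : ℕ → ℕ, Computable T →
      ∃ h : ℕ → ℕ, Primrec h ∧ Function.Bijective h ∧ ∀ s i, h s = 2 * i → T i ≤ s)
    (χ : ℕ → ℕ) (hχ : Primrec χ) (h1 : ∀ a, {x | ¬ χ x = a}.Infinite)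
    (h2 : {x | Old χ x}.Infinite)
    (hinv : ∀ f, A f → ∀ x y, χ x = χ y → χ (f x) = χ (f y)) :
    ∃ f : ℕ → ℕ, Primrec f ∧ Function.Bijective f ∧
      ∀ p : ℕ → ℕ, Primrec p → ¬ A (fun x => f (p x)) := by
  by_cases hN : {x | ¬ Old χ x}.Infinite
  · rcases dense_or_blocks (Q := Old χ) hN with ⟨β, hβ, hb⟩ | hgap
    · exact lower_of_dense A hA slow χ hχ h2 hN hinv hβ hb
    · by_cases hblk : ∀ k N, ∃ s, N ≤ s ∧ ∀ y, s < y → y ≤ ack k (2 * s + 2) → χ y = χ (s + 1)
      · exact lower_of_blocks A hA χ hχ h1 hinv hblk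
      · push Not at hblk
        obtain ⟨k0, M0, hno⟩ := hblk
        exact lower_of_gaps A hA χ hχ hN hinv hgap hno
  · rw [Set.not_infinite] at hN
    have hrange : (Set.range χ).Finite := by
      refine (hN.image χ).subset ?_
      rintro _ ⟨x, rfl⟩
      obtain ⟨h3, h4, h5⟩ := rep_spec χ x
      exact ⟨rep χ x, h5, h3⟩
    obtain ⟨a, ha⟩ := exists_fiber hrange (Set.infinite_univ (α := ℕ))
    obtain ⟨b, hb⟩ := exists_fiber hrange (h1 a)
    refine exists_lower A hA slow χ hχ hrange ⟨a, b, ?_, ha.mono fun x hx => hx.2,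
      hb.mono fun x hx => hx.2⟩ hinv
    rintro rfl
    obtain ⟨x, hx1, hx2⟩ := hb.nonempty
    exact hx1 hx2

end Inv27
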