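import Pool.Agent.Lib.MP_36da60_lc.DescB27
import Pool.Agent.Lib.MP_36da60_lc.InvJ27

/-!
# Invariant primitive recursive equivalence relations: one step down
-/

set_option autoImplicit false

namespace Pool.Agent.Lib.MP_36da60_lc.Desc

variable {ar : ℕ → ℕ}

/-- `E` is an invariant equivalence relation of `R`: it is primitive recursive, every class has an
infinite complement, infinitely many `x` are equivalent to a smaller number, and every automorphism
of `R` preserves `E`. -/
def InvRelation (R : Str ar) (E : ℕ → ℕ → Prop) : Prop :=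
  PrimrecRel E ∧ Equivalence E ∧ (∀ a, {x | ¬ E a x}.Infinite) ∧
    {x | ∃ y, y < x ∧ E y x}.Infinite ∧ ∀ f, IsIso R R f → ∀ x y, E x y → E (f x) (f y)

/-- every primitive recursive equivalence relation is equality of a primitive recursive colour -/
theorem exists_colour {E : ℕ → ℕ → Prop} (h1 : PrimrecRel E) (h2 : Equivalence E) :
    ∃ χ : ℕ → ℕ, Primrec χ ∧ ∀ x y, χ x = χ y ↔ E x y := by
  classical
  refine ⟨fun x => x - Nat.findGreatest (fun d => E (x - d) x) x, ?_, ?_⟩
  · refine Primrec.nat_sub.comp Primrec.id (Primrec.nat_findGreatest Primrec.id ?_)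
    exact h1.comp (Primrec.nat_sub.comp Primrec.fst Primrec.snd) Primrec.fst
  · have ha : ∀ x, E (x - Nat.findGreatest (fun d => E (x - d) x) x) x := by
      intro x
      exact Nat.findGreatest_spec (P := fun d => E (x - d) x) (Nat.zero_le x) (h2.refl x)
    have hb : ∀ x y, y ≤ x → E y x → x - Nat.findGreatest (fun d => E (x - d) x) x ≤ y := by
      intro x y hyx hE
      have h3 : x - y ≤ Nat.findGreatest (fun d => E (x - d) x) x := by
        refine Nat.le_findGreatest (Nat.sub_le x y) ?_
        show E (x - (x - y)) x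
        rwa [Nat.sub_sub_self hyx]
      omega
    have hc : ∀ x y, E x y → y - Nat.findGreatest (fun d => E (y - d) y) y ≤
        x - Nat.findGreatest (fun d => E (x - d) x) x := by
      intro x y hE
      have h3 : E (x - Nat.findGreatest (fun d => E (x - d) x) x) y := h2.trans (ha x) hE
      have h4 : x - Nat.findGreatest (fun d => E (x - d) x) x ≤ y := by
        by_contra hlt
        have h5 : y ≤ x := by omega
        exact hlt (hb x y h5 (h2.symm hE))
      exact hb y _ h4 h3
    intro x y
    constructor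
    · intro h
      have h3 := ha x
      have h4 := ha y
      simp only at h
      rw [h] at h3
      exact h2.trans (h2.symm h3) h4
    · intro h
      exact le_antisymm (hc y x (h2.symm h)) (hc x y h)

theorem invRelation_of_colouring {R : Str ar} {χ : ℕ → ℕ} (h : InvColouring R χ) :
    InvRelation R (fun x y => χ x = χ y) := by
  obtain ⟨h1, h2, ⟨a, b, hab, ha, hb⟩, h4⟩ := h
  refine ⟨Primrec.eq.comp (h1.comp Primrec.fst) (h1.comp Primrec.snd),
    ⟨fun _ => rfl, fun h => h.symm, fun h h' => h.trans h'⟩, fun c => ?_, ?_, h4⟩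
  · by_cases hc : χ c = a
    · exact hb.mono fun x hx h => hab (hc.symm.trans (h.trans hx))
    · exact ha.mono fun x hx h => hc (h.trans hx)
  · intro hcon
    have h5 : {x | ¬ ∃ y, y < x ∧ χ y = χ x}.Finite := by
      refine Set.Finite.of_finite_image (f := χ) (h2.subset (Set.image_subset_range _ _)) ?_
      intro x hx y hy hxy
      by_contra hne
      rcases lt_or_gt_of_ne hne with hlt | hlt
      · exact hy ⟨x, hlt, hxy⟩
      · exact hx ⟨y, hlt, hxy.symm⟩
    exact Set.infinite_univ ((hcon.union h5).subset fun x _ => em (∃ y, y < x ∧ χ y = χ x))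

/-- infinitely many elements with a smaller mate: an isomorphism invariant -/
theorem infinite_mates {E : ℕ → ℕ → Prop} (h2 : Equivalence E)
    (h4 : {x | ∃ y, y < x ∧ E y x}.Infinite) {f : ℕ → ℕ} (hf : Function.Bijective f) :
    {x | ∃ y, y < x ∧ E (f y) (f x)}.Infinite := by
  intro hcon
  -- `E` is equality outside of the finite set `F`
  set F : Set ℕ := f '' {x | ∃ y, y < x ∧ E (f y) (f x)} with hF
  have hFf : F.Finite := hcon.image f
  have key : ∀ x y, x ∉ F → y ∉ F → E x y → x = y := by
    intro x y hx hy hE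
    obtain ⟨x', rfl⟩ := hf.2 x
    obtain ⟨y', rfl⟩ := hf.2 y
    rcases lt_trichotomy x' y' with h | h | h
    · exact absurd ⟨y', ⟨x', h, hE⟩, rfl⟩ hy
    · rw [h]
    · exact absurd ⟨x', ⟨y', h, h2.symm hE⟩, rfl⟩ hx
  -- an element with a smaller mate lies in `F`, or its mates are in `F`
  -- hence it is the only element outside of `F` equivalent to that mate
  choose! m hm using fun x (hx : ∃ y, y < x ∧ E y x) => hx
  have h5 : ({x | ∃ y, y < x ∧ E y x} \ F).Finite := by
    refine Set.Finite.of_finite_image (f := m) (hFf.subset ?_) ?_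
    · rintro _ ⟨x, ⟨hx, hxF⟩, rfl⟩
      by_contra hmF
      have := key _ _ hmF hxF (hm x hx).2
      exact absurd this (ne_of_lt (hm x hx).1)
    · rintro x ⟨hx, hxF⟩ y ⟨hy, hyF⟩ hxy
      refine key x y hxF hyF ?_
      have e1 := (hm x hx).2
      have e2 := (hm y hy).2
      rw [hxy] at e1
      exact h2.trans (h2.symm e1) e2
  exact h4 ((h5.union hFf).subset fun x hx => by
    by_cases hxF : x ∈ F
    · exact Or.inr hxF
    · exact Or.inl ⟨hx, hxF⟩)

/-- One step down for invariant equivalence relations; the lower structure again has one. -/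
theorem step_down_relation {R : Str ar} (hR : Fpr R) {E : ℕ → ℕ → Prop} (hE : InvRelation R E) :
    ∃ S : Str ar, Fpr S ∧ Le S R ∧ ¬ Le R S ∧ ∃ E' : ℕ → ℕ → Prop, InvRelation S E' := by
  obtain ⟨h1, h2, h3, h4, h5⟩ := hE
  obtain ⟨χ, hχ, hχE⟩ := exists_colour h1 h2
  have k1 : ∀ a, {x | ¬ χ x = a}.Infinite := by
    intro a
    by_cases ha : ∃ c, χ c = a
    · obtain ⟨c, rfl⟩ := ha
      refine (h3 c).mono ?_
      intro x hx h
      exact hx ((hχE c x).1 h.symm)
    · refine Set.infinite_univ.mono ?_
      intro x _ h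
      exact ha ⟨x, h⟩
  have k2 : {x | Inv27.Old χ x}.Infinite := by
    refine h4.mono ?_
    rintro x ⟨y, hy, hyx⟩
    exact ⟨y, hy, (hχE y x).2 hyx⟩
  obtain ⟨f, hf, hfb, hfp⟩ := Inv27.exists_lower_all (fun g => IsIso R R g)
    (fun g hg => ⟨hg.1, _, hg.symm, fun x => (Equiv.ofBijective g hg.1).symm_apply_apply x⟩)
    (fun T hT => exists_slow hT) χ hχ k1 k2
    (fun g hg x y hxy => (hχE _ _).2 (h5 g hg x y ((hχE x y).1 hxy)))
  have hfi : IsIso (fun i v => R i (f ∘ v) : Str ar) R f := ⟨hfb, fun _ _ => Iff.rfl⟩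
  refine ⟨fun i v => R i (f ∘ v), fpr_pull hR hf, ⟨f, hf, hfi⟩, ?_, fun x y => E (f x) (f y), ?_⟩
  · rintro ⟨p, hp, hpi⟩
    exact hfp p hp (hpi.comp hfi)
  · refine ⟨h1.comp (hf.comp Primrec.fst) (hf.comp Primrec.snd),
      ⟨fun _ => h2.refl _, fun h => h2.symm h, fun h h' => h2.trans h h'⟩, fun a => ?_,
      infinite_mates h2 h4 hfb, ?_⟩
    · exact (h3 (f a)).preimage (f := f) (fun y _ => hfb.2 y)
    · intro g hg x y hxy
      have haut : IsIso R R ((f ∘ g) ∘ (Equiv.ofBijective f hfb).symm) := hfi.symm.comp (hg.comp hfi)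
      have h6 := h5 _ haut (f x) (f y) hxy
      have e1 : (Equiv.ofBijective f hfb).symm (f x) = x :=
        (Equiv.ofBijective f hfb).symm_apply_apply x
      have e2 : (Equiv.ofBijective f hfb).symm (f y) = y :=
        (Equiv.ofBijective f hfb).symm_apply_apply y
      simp only [Function.comp_apply] at h6
      rw [e1, e2] at h6
      exact h6

end Pool.Agent.Lib.MP_36da60_lc.Desc
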