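import Pool.Agent.Lib.MP_36da60_lc.DescD27

/-!
# Relations of arity at most two and a primitive recursive symmetric sequence
-/

set_option autoImplicit false

namespace Pool.Agent.Lib.MP_36da60_lc.Desc

variable {ar : ℕ → ℕ}

/-- On `S` the truth of an atomic formula depends only on the equalities between its entries. -/
def SymmetricOn (R : Str ar) (S : Set ℕ) : Prop :=
  ∀ (i : ℕ) (v w : Fin (ar i) → ℕ), (∀ k, v k ∈ S) → (∀ k, w k ∈ S) →
    (∀ k l, v k = v l ↔ w k = w l) → (R i v ↔ R i w)

/-- All permutations of `ℕ` which fix a certain finite set pointwise are automorphisms. -/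
def AutTrivial (R : Str ar) : Prop :=
  ∃ F : Finset ℕ, ∀ f : ℕ → ℕ, Function.Bijective f → (∀ x ∈ F, f x = x) → IsIso R R f

/-- pairs as tuples -/
def tup {n : ℕ} (x y : ℕ) : Fin n → ℕ := fun k => if k.val = 0 then x else y

theorem comp_tup (f : ℕ → ℕ) {n : ℕ} (x y : ℕ) :
    f ∘ (tup x y : Fin n → ℕ) = tup (f x) (f y) := by
  funext k
  unfold tup
  simp only [Function.comp_apply]
  split_ifs <;> rfl

theorem eq_tup {n : ℕ} (hn : n ≤ 2) (v : Fin n → ℕ) : ∃ x y, v = tup x y := by
  refine ⟨if h : 0 < n then v ⟨0, h⟩ else 0, if h : 1 < n then v ⟨1, h⟩ else 0, ?_⟩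
  funext k
  unfold tup
  obtain ⟨k, hk⟩ := k
  by_cases h0 : k = 0
  · subst h0
    simp [hk]
  · have : k = 1 := by omega
    subst this
    simp [hk]

theorem SymmetricOn.tup {R : Str ar} {S : Set ℕ} (hs : SymmetricOn R S) (i : ℕ) {x y x' y' : ℕ}
    (hx : x ∈ S) (hy : y ∈ S) (hx' : x' ∈ S) (hy' : y' ∈ S) (h : x = y ↔ x' = y') :
    R i (tup x y) ↔ R i (tup x' y') := by
  refine hs i _ _ ?_ ?_ ?_
  · intro k
    unfold Desc.tup
    split_ifs <;> assumption
  · intro k
    unfold Desc.tup
    split_ifs <;> assumption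
  · intro k l
    unfold Desc.tup
    by_cases hk : k.val = 0 <;> by_cases hl : l.val = 0 <;> simp only [hk, hl, if_true, if_false]
    · exact h
    · exact ⟨fun e => (h.1 e.symm).symm, fun e => (h.2 e.symm).symm⟩

/-- the pair `x, y` does not look like the pairs of the sequence -/
def Bad (R : Str ar) (a₀ a₁ i x y : ℕ) : Prop :=
  (x = y ∧ ¬ (R i (tup x x) ↔ R i (tup a₀ a₀))) ∨ (x ≠ y ∧ ¬ (R i (tup x y) ↔ R i (tup a₀ a₁)))

theorem primrec_Bad {R : Str ar} (hR : Fpr R) (a₀ a₁ i : ℕ) : PrimrecRel (Bad R a₀ a₁ i) := by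
  obtain ⟨D, hD, hDR⟩ := hR
  let e : ℕ → ℕ → Bool := fun x y => D i (List.ofFn (tup x y : Fin (ar i) → ℕ))
  have he : Primrec₂ e := by
    refine hD.comp (Primrec.const i) (Primrec.list_ofFn fun l => ?_)
    by_cases hl : l.val = 0
    · exact Primrec.fst.of_eq fun p => by simp [tup, hl]
    · exact Primrec.snd.of_eq fun p => by simp [tup, hl]
  have heR : ∀ x y, R i (tup x y) ↔ e x y = true := fun x y => (hDR i (tup x y)).symm
  have h1 : PrimrecRel (fun x y : ℕ => (x = y ∧ ¬ e x x = e a₀ a₀) ∨ (¬ x = y ∧ ¬ e x y = e a₀ a₁)) := by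
    refine PrimrecPred.or (PrimrecPred.and ?_ (PrimrecPred.not ?_))
      (PrimrecPred.and (PrimrecPred.not ?_) (PrimrecPred.not ?_))
    · exact Primrec.eq.comp Primrec.fst Primrec.snd
    · exact Primrec.eq.comp (he.comp Primrec.fst Primrec.fst) (Primrec.const _)
    · exact Primrec.eq.comp Primrec.fst Primrec.snd
    · exact Primrec.eq.comp he (Primrec.const _)
  refine h1.of_eq fun x y => ?_
  have h5 : ∀ a b : Bool, (¬ a = b) ↔ ¬ (a = true ↔ b = true) := by decide
  unfold Bad
  rw [heR, heR, heR, heR, h5 (e x x), h5 (e x y)]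

theorem Bad.map {R : Str ar} {a₀ a₁ i x y : ℕ} {f : ℕ → ℕ} (hf : IsIso R R f)
    (h : Bad R a₀ a₁ i x y) : Bad R a₀ a₁ i (f x) (f y) := by
  have h1 : ∀ x y, R i (tup (f x) (f y)) ↔ R i (tup x y) := fun x y => by
    rw [← comp_tup f]
    exact (hf.2 i _).symm
  unfold Bad at h ⊢
  rw [h1, h1]
  rcases h with ⟨h2, h3⟩ | ⟨h2, h3⟩
  · exact Or.inl ⟨congrArg f h2, h3⟩
  · exact Or.inr ⟨fun h4 => h2 (hf.1.1 h4), h3⟩

/-- **Infinitely many disjoint bad pairs.** -/
theorem avoided_of_bad {R : Str ar} (hR : Fpr R) {α : ℕ → ℕ} (hα : Primrec α)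
    (hi : Function.Injective α) (hs : SymmetricOn R (Set.range α)) (i : ℕ)
    (hbad : ∀ N, ∃ x y, N < x ∧ N < y ∧ Bad R (α 0) (α 1) i x y) : Avoided R := by
  refine ⟨fun _ v => v = [v.headI, v.tail.headI] ∧ Bad R (α 0) (α 1) i v.headI v.tail.headI, [], α,
    ?_, ?_, ?_, hα, hi, ?_⟩
  · have h1 : Primrec (fun p : List ℕ × List ℕ => p.2.headI) := Primrec.list_headI.comp Primrec.snd
    have h2 : Primrec (fun p : List ℕ × List ℕ => p.2.tail.headI) :=
      Primrec.list_headI.comp (Primrec.list_tail.comp Primrec.snd)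
    refine PrimrecPred.and ?_ ?_
    · exact Primrec.eq.comp Primrec.snd
        (Primrec.list_cons.comp h1 (Primrec.list_cons.comp h2 (Primrec.const [])))
    · exact (primrec_Bad hR _ _ _).comp h1 h2
  · rintro f hf u v ⟨h1, h2⟩
    rw [h1]
    exact ⟨rfl, h2.map hf⟩
  · intro u N
    obtain ⟨x, y, hx, hy, hb⟩ := hbad N
    refine ⟨[x, y], ⟨rfl, hb⟩, ?_⟩
    intro z hz
    simp only [List.mem_cons, List.not_mem_nil, or_false] at hz
    rcases hz with rfl | rfl <;> assumption
  · rintro v hv ⟨h1, h2⟩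
    have hx : v.headI ∈ Set.range α := hv _ (by rw [h1]; simp)
    have hy : v.tail.headI ∈ Set.range α := hv _ (by rw [h1]; simp)
    have h01 : α 0 ≠ α 1 := fun h => absurd (hi h) (by omega)
    rcases h2 with ⟨h3, h4⟩ | ⟨h3, h4⟩
    · exact h4 (hs.tup i hx hx ⟨0, rfl⟩ ⟨0, rfl⟩ (by simp))
    · exact h4 (hs.tup i hx hy ⟨0, rfl⟩ ⟨1, rfl⟩ (by simp [h3, h01]))

/-! ### supports -/

/-- all transpositions outside of `F` preserve the relation with number `i` -/
def Supp (R : Str ar) (i : ℕ) (F : Set ℕ) : Prop :=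
  ∀ x y, x ∉ F → y ∉ F → ∀ v, (R i v ↔ R i (Equiv.swap x y ∘ v))

theorem Supp.mono {R : Str ar} {i : ℕ} {F G : Set ℕ} (h : Supp R i F) (hFG : F ⊆ G) :
    Supp R i G := fun x y hx hy v => h x y (fun h => hx (hFG h)) (fun h => hy (hFG h)) v

theorem Supp.inter {R : Str ar} {i : ℕ} {F G : Finset ℕ} (h : Supp R i F) (h' : Supp R i G) :
    Supp R i ((F ∩ G : Finset ℕ) : Set ℕ) := by
  intro x y hx hy v
  by_cases hxy : x = y
  · subst hxy
    rw [Equiv.swap_self]
    rfl
  obtain ⟨z, hz⟩ := Infinite.exists_notMem_finset (F ∪ G ∪ {x, y})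
  simp only [Finset.mem_union, Finset.mem_insert, Finset.mem_singleton, not_or] at hz
  obtain ⟨⟨hzF, hzG⟩, hzx, hzy⟩ := hz
  have key : ∀ t, t ∉ ((F ∩ G : Finset ℕ) : Set ℕ) → ∀ v, (R i v ↔ R i (Equiv.swap t z ∘ v)) := by
    intro t ht v
    by_cases htF : t ∈ F
    · have htG : t ∉ G := fun h => ht (by simp [htF, h])
      exact h' t z (by simpa using htG) (by simpa using hzG) v
    · exact h t z (by simpa using htF) (by simpa using hzF) v
  have h1 := key x hx v
  have h2 := key y hy (Equiv.swap x z ∘ v)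
  have h3 := key x hx (Equiv.swap y z ∘ Equiv.swap x z ∘ v)
  rw [h1, h2, h3]
  have h4 : Equiv.swap x z * Equiv.swap y z * Equiv.swap x z = Equiv.swap x y := by
    have h5 := Equiv.swap_mul_swap_mul_swap (x := y) (y := z) (z := x) (Ne.symm hzy) (Ne.symm hxy)
    rw [Equiv.swap_comm z x] at h5
    exact h5
  rw [← h4]
  rfl

/-- Tuples with the same equality pattern that differ only outside of the support. -/
theorem Supp.key {R : Str ar} {i : ℕ} {F : Set ℕ} (hF : Supp R i F) :
    ∀ (n : ℕ) (v w : Fin (ar i) → ℕ),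
      (Finset.univ.filter (fun a => v a ≠ w a)).card ≤ n →
      (∀ a, v a = w a ∨ (v a ∉ F ∧ w a ∉ F)) → (∀ a b, v a = v b ↔ w a = w b) →
      (R i v ↔ R i w) := by
  intro n
  induction n with
  | zero =>
    intro v w hc h1 h2
    have : v = w := by
      funext a
      by_contra h
      have h' : a ∈ Finset.univ.filter (fun a => v a ≠ w a) := by simp [h]
      have := Finset.card_pos.2 ⟨a, h'⟩
      omega
    rw [this]
  | succ n ih =>
    intro v w hc h1 h2
    by_cases hvw : v = w
    · rw [hvw]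
    obtain ⟨a, ha⟩ := Function.ne_iff.1 hvw
    have haX : v a ∉ F ∧ w a ∉ F := (h1 a).resolve_left ha
    rw [hF _ _ haX.1 haX.2 v]
    have key : ∀ b, v b = w b → (Equiv.swap (v a) (w a) (v b)) = w b := by
      intro b hb
      by_cases hb1 : v b = v a
      · exfalso
        have : w b = w a := (h2 b a).1 hb1
        exact ha (by rw [← hb1, hb, this])
      · by_cases hb2 : v b = w a
        · exfalso
          have : w b = w a := by rw [← hb, hb2]
          have := (h2 b a).2 this
          exact hb1 this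
        · rw [Equiv.swap_apply_of_ne_of_ne hb1 hb2, hb]
    apply ih
    · have hss : Finset.univ.filter (fun b => (Equiv.swap (v a) (w a) ∘ v) b ≠ w b) ⊂
          Finset.univ.filter (fun b => v b ≠ w b) := by
        rw [Finset.ssubset_iff_of_subset]
        · refine ⟨a, by simp [ha], ?_⟩
          simp
        · intro b hb
          simp only [Finset.mem_filter, Finset.mem_univ, true_and, Function.comp_apply] at hb ⊢
          intro h
          exact hb (key b h)
      have := Finset.card_lt_card hss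
      omega
    · intro b
      simp only [Function.comp_apply]
      by_cases hb : v b = w b
      · left; exact key b hb
      · have hbX := (h1 b).resolve_left hb
        right
        refine ⟨?_, hbX.2⟩
        by_cases hb1 : v b = v a
        · rw [hb1, Equiv.swap_apply_left]; exact haX.2
        · by_cases hb2 : v b = w a
          · rw [hb2, Equiv.swap_apply_right]; exact haX.1
          · rw [Equiv.swap_apply_of_ne_of_ne hb1 hb2]; exact hbX.1
    · intro b b'
      rw [← h2 b b']
      simp only [Function.comp_apply]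
      exact (Equiv.swap (v a) (w a)).injective.eq_iff

/-- the image of a support under an automorphism -/
theorem Supp.image {R : Str ar} {i : ℕ} {F : Finset ℕ} (h : Supp R i F) {g : ℕ → ℕ}
    (hg : IsIso R R g) : Supp R i ((F.image g : Finset ℕ) : Set ℕ) := by
  intro x y hx hy v
  obtain ⟨x', rfl⟩ := hg.1.2 x
  obtain ⟨y', rfl⟩ := hg.1.2 y
  have hx' : x' ∉ (F : Set ℕ) := fun h => hx (by
    simp only [Finset.coe_image]; exact ⟨x', h, rfl⟩)
  have hy' : y' ∉ (F : Set ℕ) := fun h => hy (by
    simp only [Finset.coe_image]; exact ⟨y', h, rfl⟩)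
  obtain ⟨w, rfl⟩ : ∃ w, v = g ∘ w := by
    choose w hw using fun k => hg.1.2 (v k)
    exact ⟨w, funext fun k => (hw k).symm⟩
  have h1 : Equiv.swap (g x') (g y') ∘ g ∘ w = g ∘ (Equiv.swap x' y' ∘ w) := by
    funext k
    simp only [Function.comp_apply]
    by_cases h2 : w k = x'
    · rw [h2, Equiv.swap_apply_left, Equiv.swap_apply_left]
    · by_cases h3 : w k = y'
      · rw [h3, Equiv.swap_apply_right, Equiv.swap_apply_right]
      · rw [Equiv.swap_apply_of_ne_of_ne h2 h3, Equiv.swap_apply_of_ne_of_ne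
          (fun h => h2 (hg.1.1 h)) (fun h => h3 (hg.1.1 h))]
  rw [h1, ← hg.2 i, ← hg.2 i]
  exact h x' y' hx' hy' w

/-- **The least support**: its elements have finite orbits. -/
theorem exists_least_supp {R : Str ar} {i : ℕ} {F : Finset ℕ} (h : Supp R i F) :
    ∃ W : Finset ℕ, Supp R i W ∧ ∀ x ∈ W, (orbit R x).Finite := by
  classical
  have hex : ∃ n, ∃ W : Finset ℕ, W.card = n ∧ Supp R i W := ⟨F.card, F, rfl, h⟩
  obtain ⟨W, hWc, hW⟩ := Nat.find_spec hex
  refine ⟨W, hW, fun x hx => ?_⟩
  refine (W.finite_toSet).subset ?_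
  rintro _ ⟨g, hg, rfl⟩
  have h1 := hW.image hg
  have h2 := hW.inter h1
  have h3 : Nat.find hex ≤ (W ∩ W.image g).card := Nat.find_min' hex ⟨_, rfl, h2⟩
  have h4 : W ∩ W.image g = W := Finset.eq_of_subset_of_card_le Finset.inter_subset_left (by omega)
  have h5 : W ⊆ W.image g := by
    intro y hy
    rw [← h4] at hy
    exact (Finset.mem_inter.1 hy).2
  have h6 : W.image g = W := by
    refine (Finset.eq_of_subset_of_card_le h5 ?_).symm
    exact Finset.card_image_le
  have h7 : g x ∈ W.image g := Finset.mem_image_of_mem g hx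
  rw [h6] at h7
  exact h7

/-- If every relation has a finite support, then infinitely many elements have a finite orbit or
the structure is automorphically trivial. -/
theorem autTrivial_of_supp {R : Str ar} (h : ∀ i, ∃ F : Finset ℕ, Supp R i F)
    (hfin : ¬ {x : ℕ | (orbit R x).Finite}.Infinite) : AutTrivial R := by
  classical
  rw [Set.not_infinite] at hfin
  refine ⟨hfin.toFinset, fun f hf hfix => ⟨hf, fun i v => ?_⟩⟩
  obtain ⟨F, hF⟩ := h i
  obtain ⟨W, hW, hWo⟩ := exists_least_supp hF
  have h1 : Supp R i {x : ℕ | (orbit R x).Finite} := hW.mono fun x hx => hWo x hx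
  refine h1.key _ v (f ∘ v) le_rfl ?_ ?_
  · intro a
    by_cases ha : (orbit R (v a)).Finite
    · left
      exact (hfix _ (hfin.mem_toFinset.2 ha)).symm
    · right
      refine ⟨ha, fun hb => ?_⟩
      have h2 : f (f (v a)) = f (v a) := hfix _ (hfin.mem_toFinset.2 hb)
      have h3 : f (v a) = v a := hf.1 h2
      rw [Function.comp_apply, h3] at hb
      exact ha hb
  · intro a b
    exact hf.1.eq_iff.symm

/-! ### arity at most two -/

/-- the relation with number `i` splits over the parameter `a` -/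
def Split2 (R : Str ar) (i a : ℕ) : Prop :=
  ({x | R i (tup a x)}.Infinite ∧ {x | ¬ R i (tup a x)}.Infinite) ∨
    ({x | R i (tup x a)}.Infinite ∧ {x | ¬ R i (tup x a)}.Infinite)

theorem Split2.map {R : Str ar} {i a : ℕ} {f : ℕ → ℕ} (hf : IsIso R R f) (h : Split2 R i a) :
    Split2 R i (f a) := by
  have h1 : ∀ x y, R i (tup (f x) (f y)) ↔ R i (tup x y) := fun x y => by
    rw [← comp_tup f]
    exact (hf.2 i _).symm
  have key : ∀ (p q : ℕ → Prop), (∀ x, p x → q (f x)) → {x | p x}.Infinite → {x | q x}.Infinite := by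
    intro p q hpq hp
    refine (hp.image hf.1.1.injOn).mono ?_
    rintro _ ⟨x, hx, rfl⟩
    exact hpq x hx
  rcases h with ⟨h2, h3⟩ | ⟨h2, h3⟩
  · exact Or.inl ⟨key _ _ (fun x hx => (h1 a x).2 hx) h2, key _ _ (fun x hx h => hx ((h1 a x).1 h)) h3⟩
  · exact Or.inr ⟨key _ _ (fun x hx => (h1 x a).2 hx) h2, key _ _ (fun x hx h => hx ((h1 x a).1 h)) h3⟩

theorem splitAtom_of_split2 {R : Str ar} {i a : ℕ} (h2 : ar i ≤ 2) (ho : (orbit R a).Finite)
    (h : Split2 R i a) : SplitAtom R := by
  rcases h with ⟨h3, h4⟩ | ⟨h3, h4⟩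
  · have h1 : 1 < ar i := by
      by_contra hle
      obtain ⟨x, hx⟩ := h3.nonempty
      obtain ⟨y, hy⟩ := h4.nonempty
      apply hy
      have : (tup a y : Fin (ar i) → ℕ) = tup a x := by
        funext k
        have := k.isLt
        unfold tup
        rw [if_pos (by omega), if_pos (by omega)]
      show R i (tup a y)
      rw [this]
      exact hx
    have e : ∀ x, Function.update (fun _ => a) (⟨1, h1⟩ : Fin (ar i)) x = tup a x := by
      intro x
      funext k
      have hk := k.isLt
      unfold tup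
      by_cases h0 : k.val = 0
      · rw [if_pos h0, Function.update_of_ne]
        intro h
        rw [h] at h0
        simp at h0
      · have h5 : k = ⟨1, h1⟩ := Fin.ext (by simp; omega)
        rw [if_neg h0, h5, Function.update_self]
    refine ⟨i, ⟨1, h1⟩, fun _ => a, fun _ _ => ho, ?_, ?_⟩
    · simpa only [e] using h3
    · simpa only [e] using h4
  · have h1 : 0 < ar i := by
      by_contra hle
      obtain ⟨x, hx⟩ := h3.nonempty
      obtain ⟨y, hy⟩ := h4.nonempty
      apply hy
      have : (tup y a : Fin (ar i) → ℕ) = tup x a := by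
        funext k
        have := k.isLt
        omega
      show R i (tup y a)
      rw [this]
      exact hx
    have e : ∀ x, Function.update (fun _ => a) (⟨0, h1⟩ : Fin (ar i)) x = tup x a := by
      intro x
      funext k
      unfold tup
      by_cases h0 : k.val = 0
      · have h5 : k = ⟨0, h1⟩ := Fin.ext h0
        rw [if_pos h0, h5, Function.update_self]
      · rw [if_neg h0, Function.update_of_ne]
        intro h
        rw [h] at h0
        exact h0 rfl
    refine ⟨i, ⟨0, h1⟩, fun _ => a, fun _ _ => ho, ?_, ?_⟩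
    · simpa only [e] using h3
    · simpa only [e] using h4

/-- **The trichotomy in arity at most two.** -/
theorem cases_of_symmetric {R : Str ar} (hR : Fpr R) (h2 : ∀ i, ar i ≤ 2) {α : ℕ → ℕ}
    (hα : Primrec α) (hi : Function.Injective α) (hs : SymmetricOn R (Set.range α))
    (ht : ¬ AutTrivial R) :
    {x : ℕ | (orbit R x).Finite}.Infinite ∨ SplitAtom R ∨ Avoided R := by
  classical
  by_cases hbad : ∃ i, ∀ N, ∃ x y, N < x ∧ N < y ∧ Bad R (α 0) (α 1) i x y
  · obtain ⟨i, hbad⟩ := hbad
    exact Or.inr (Or.inr (avoided_of_bad hR hα hi hs i hbad))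
  push Not at hbad
  choose N hN using hbad
  have hN1 : ∀ i x, N i < x → (R i (tup x x) ↔ R i (tup (α 0) (α 0))) := by
    intro i x hx
    by_contra hcon
    exact hN i x x hx hx (Or.inl ⟨rfl, hcon⟩)
  have hN2 : ∀ i x y, N i < x → N i < y → x ≠ y → (R i (tup x y) ↔ R i (tup (α 0) (α 1))) := by
    intro i x y hx hy hxy
    by_contra hcon
    exact hN i x y hx hy (Or.inr ⟨hxy, hcon⟩)
  by_cases hsp : ∃ i a, Split2 R i a
  · obtain ⟨i, a, hsp⟩ := hsp
    refine Or.inr (Or.inl (splitAtom_of_split2 (h2 i) ?_ hsp))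
    refine (Set.finite_le_nat (N i)).subset ?_
    rintro _ ⟨g, hg, rfl⟩
    have h3 := hsp.map hg
    by_contra hlt
    have hlt : N i < g a := not_le.1 hlt
    have hfin : ∀ (p : ℕ → Prop), (∀ x, N i < x → g a ≠ x → p x) → ¬ {x | ¬ p x}.Infinite := by
      intro p hp hinf
      refine hinf (((Set.finite_le_nat (N i)).union (Set.finite_singleton (g a))).subset ?_)
      intro x hx
      by_contra hx2
      simp only [Set.mem_union, Set.mem_setOf_eq, Set.mem_singleton_iff, not_or, not_le] at hx2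
      exact hx (hp x hx2.1 (Ne.symm hx2.2))
    by_cases hc : R i (tup (α 0) (α 1))
    · rcases h3 with ⟨-, h4⟩ | ⟨-, h4⟩
      · exact hfin _ (fun x hx hne => (hN2 i _ _ hlt hx hne).2 hc) h4
      · exact hfin _ (fun x hx hne => (hN2 i _ _ hx hlt (Ne.symm hne)).2 hc) h4
    · rcases h3 with ⟨h4, -⟩ | ⟨h4, -⟩
      · refine hfin (fun x => ¬ R i (tup (g a) x)) (fun x hx hne h => hc ((hN2 i _ _ hlt hx hne).1 h))
          (h4.mono fun x hx h => h hx)
      · refine hfin (fun x => ¬ R i (tup x (g a)))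
          (fun x hx hne h => hc ((hN2 i _ _ hx hlt (Ne.symm hne)).1 h)) (h4.mono fun x hx h => h hx)
  · left
    by_contra hfin
    refine ht (autTrivial_of_supp (fun i => ?_) hfin)
    push Not at hsp
    -- eventual values
    have hev : ∀ (p : ℕ → Prop), ¬ ({x | p x}.Infinite ∧ {x | ¬ p x}.Infinite) →
        ∃ (G : Finset ℕ) (c : Prop), ∀ x, x ∉ G → (p x ↔ c) := by
      intro p hp
      by_cases h3 : {x | p x}.Infinite
      · have h4 : {x | ¬ p x}.Finite := Set.not_infinite.1 fun h => hp ⟨h3, h⟩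
        refine ⟨h4.toFinset, True, fun x hx => ?_⟩
        rw [h4.mem_toFinset] at hx
        simpa using hx
      · have h4 : {x | p x}.Finite := Set.not_infinite.1 h3
        refine ⟨h4.toFinset, False, fun x hx => ?_⟩
        rw [h4.mem_toFinset] at hx
        simpa using hx
    have hev1 := fun a => hev (fun x => R i (tup a x)) (fun h => hsp i a (Or.inl h))
    have hev2 := fun a => hev (fun x => R i (tup x a)) (fun h => hsp i a (Or.inr h))
    choose G c hG using hev1
    choose H d hH using hev2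
    let F : Finset ℕ := Finset.range (N i + 1) ∪
      (Finset.range (N i + 1)).biUnion (fun a => G a ∪ H a)
    have hF1 : ∀ x, x ∉ F → N i < x := by
      intro x hx
      by_contra hle
      exact hx (Finset.mem_union_left _ (Finset.mem_range.2 (by omega)))
    have hF2 : ∀ x a, x ∉ F → a ≤ N i → x ∉ G a ∧ x ∉ H a := by
      intro x a hx ha
      constructor
      · intro h
        exact hx (Finset.mem_union_right _ (Finset.mem_biUnion.2
          ⟨a, Finset.mem_range.2 (by omega), Finset.mem_union_left _ h⟩))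
      · intro h
        exact hx (Finset.mem_union_right _ (Finset.mem_biUnion.2
          ⟨a, Finset.mem_range.2 (by omega), Finset.mem_union_right _ h⟩))
    refine ⟨F, fun x y hx hy v => ?_⟩
    obtain ⟨b, e, rfl⟩ := eq_tup (h2 i) v
    rw [comp_tup]
    set s : Equiv.Perm ℕ := Equiv.swap x y with hs'
    have hx' : x ∉ F := by simpa using hx
    have hy' : y ∉ F := by simpa using hy
    have hs1 : ∀ z ∈ F, s z = z := by
      intro z hz
      exact Equiv.swap_apply_of_ne_of_ne (fun h => hx' (h ▸ hz)) (fun h => hy' (h ▸ hz))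
    have hs2 : ∀ z, z ∉ F → s z ∉ F := by
      intro z hz
      by_cases h3 : z = x
      · rw [h3, hs', Equiv.swap_apply_left]; exact hy'
      · by_cases h4 : z = y
        · rw [h4, hs', Equiv.swap_apply_right]; exact hx'
        · rw [hs', Equiv.swap_apply_of_ne_of_ne h3 h4]; exact hz
    by_cases hb : b ∈ F <;> by_cases he : e ∈ F
    · rw [hs1 b hb, hs1 e he]
    · rw [hs1 b hb]
      by_cases hbN : b ≤ N i
      · exact (hG b e (hF2 e b he hbN).1).trans (hG b (s e) (hF2 _ b (hs2 e he) hbN).1).symm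
      · have hbe : b ≠ e := fun h => he (h ▸ hb)
        have hbe' : b ≠ s e := fun h => hs2 e he (h ▸ hb)
        exact (hN2 i b e (by omega) (hF1 e he) hbe).trans
          (hN2 i b (s e) (by omega) (hF1 _ (hs2 e he)) hbe').symm
    · rw [hs1 e he]
      by_cases heN : e ≤ N i
      · exact (hH e b (hF2 b e hb heN).2).trans (hH e (s b) (hF2 _ e (hs2 b hb) heN).2).symm
      · have hbe : b ≠ e := fun h => hb (h ▸ he)
        have hbe' : s b ≠ e := fun h => hs2 b hb (h ▸ he)
        exact (hN2 i b e (hF1 b hb) (by omega) hbe).trans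
          (hN2 i (s b) e (hF1 _ (hs2 b hb)) (by omega) hbe').symm
    · by_cases hbe : b = e
      · subst hbe
        exact (hN1 i b (hF1 b hb)).trans (hN1 i (s b) (hF1 _ (hs2 b hb))).symm
      · exact (hN2 i b e (hF1 b hb) (hF1 e he) hbe).trans (hN2 i (s b) (s e) (hF1 _ (hs2 b hb))
          (hF1 _ (hs2 e he)) (fun h => hbe (s.injective h))).symm

end Pool.Agent.Lib.MP_36da60_lc.Desc
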