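import Pool.Agent.Lib.MP_36da60_lc.DescE27

/-!
# Automorphically trivial structures have one degree; the statement for arity at most two
-/

set_option autoImplicit false

namespace Pool.Agent.Lib.MP_36da60_lc.Desc

variable {ar : ℕ → ℕ}

theorem exists_finite_extension {g : ℕ → ℕ} (hg : Function.Injective g) (F : Finset ℕ) :
    ∃ π : Equiv.Perm ℕ, (∀ x ∈ F, π x = g x) ∧ ∃ M, ∀ x, M ≤ x → π x = x := by
  induction F using Finset.induction_on with
  | empty => exact ⟨1, fun x hx => absurd hx (Finset.notMem_empty x), 0, fun x _ => rfl⟩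
  | insert a F ha ih =>
    obtain ⟨π, h1, M, h2⟩ := ih
    refine ⟨Equiv.swap (π a) (g a) * π, ?_, M + π a + g a + 1, ?_⟩
    · intro x hx
      rcases Finset.mem_insert.1 hx with rfl | hx
      · rw [Equiv.Perm.mul_apply, Equiv.swap_apply_left]
      · have hne : x ≠ a := fun h => ha (h ▸ hx)
        rw [Equiv.Perm.mul_apply, h1 x hx, Equiv.swap_apply_of_ne_of_ne]
        · rw [← h1 x hx]
          exact fun h => hne (π.injective h)
        · exact fun h => hne (hg h)
    · intro x hx
      rw [Equiv.Perm.mul_apply, h2 x (by omega), Equiv.swap_apply_of_ne_of_ne (by omega) (by omega)]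

theorem primrec_of_eventually_id {f : ℕ → ℕ} {M : ℕ} (h : ∀ x, M ≤ x → f x = x) : Primrec f := by
  have h1 : Primrec (fun x : ℕ => (((List.range M).map f)[x]?).getD x) :=
    Primrec.option_getD.comp (Primrec.list_getElem?.comp (Primrec.const _) Primrec.id) Primrec.id
  refine h1.of_eq fun x => ?_
  by_cases hx : x < M
  · simp [hx]
  · have h2 : ((List.range M).map f)[x]? = none := by
      rw [List.getElem?_eq_none]
      simpa using not_lt.1 hx
    rw [h2, h x (not_lt.1 hx)]
    rfl

/-- An automorphically trivial structure has at most one degree. -/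
theorem one_degree {R S : Str ar} (ht : AutTrivial R) (h : Isom R S) : Le R S ∧ Le S R := by
  obtain ⟨F, hF⟩ := ht
  obtain ⟨g, hg⟩ := h
  obtain ⟨π, h1, M, h2⟩ := exists_finite_extension hg.1.1 F
  have hfix : ∀ x ∈ F, ((Equiv.ofBijective g hg.1).symm ∘ π) x = x := by
    intro x hx
    show (Equiv.ofBijective g hg.1).symm (π x) = x
    rw [h1 x hx]
    exact (Equiv.ofBijective g hg.1).symm_apply_apply x
  have h3 := (hF _ ((Equiv.ofBijective g hg.1).symm.bijective.comp π.bijective) hfix).comp hg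
  have h4 : g ∘ ((Equiv.ofBijective g hg.1).symm ∘ π) = π := by
    funext x
    exact (Equiv.ofBijective g hg.1).apply_symm_apply (π x)
  rw [h4] at h3
  refine ⟨⟨π, primrec_of_eventually_id h2, h3⟩, ⟨π.symm, ?_, ?_⟩⟩
  · refine primrec_of_eventually_id (M := M) fun x hx => ?_
    rw [Equiv.symm_apply_eq]
    exact (h2 x hx).symm
  · have h5 := h3.symm
    have h6 : ((Equiv.ofBijective π h3.1).symm : ℕ → ℕ) = π.symm := by
      funext x
      rw [Equiv.symm_apply_eq]
      show x = π (π.symm x)
      rw [Equiv.apply_symm_apply]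
    rw [h6] at h5
    exact h5

/-- the hypothesis of the theorem: each of the four conditions is inherited by a lower structure -/
def Cond (R : Str ar) : Prop :=
  {x : ℕ | (orbit R x).Finite}.Infinite ∨ SplitAtom R ∨ (∃ E : ℕ → ℕ → Prop, InvRelation R E) ∨
    Avoided R

/-- One step down. -/
theorem step_cond {R : Str ar} (hR : Fpr R) (h : Cond R) :
    ∃ S : Str ar, Fpr S ∧ Le S R ∧ ¬ Le R S ∧ Cond S := by
  rcases h with h | h | ⟨E, h⟩ | h
  · obtain ⟨S, h1, h2, h3⟩ := step_down hR h
    exact ⟨S, h1, h2, h3, Or.inl (infinite_of_isom h2.isom.symm h)⟩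
  · obtain ⟨χ, hχ⟩ := colouring_of_split hR h
    obtain ⟨S, h1, h2, h3, h4⟩ := step_down_relation hR (invRelation_of_colouring hχ)
    exact ⟨S, h1, h2, h3, Or.inr (Or.inr (Or.inl h4))⟩
  · obtain ⟨S, h1, h2, h3, h4⟩ := step_down_relation hR h
    exact ⟨S, h1, h2, h3, Or.inr (Or.inr (Or.inl h4))⟩
  · obtain ⟨S, h1, h2, h3, h4⟩ := step_down_avoided hR h
    exact ⟨S, h1, h2, h3, Or.inr (Or.inr (Or.inr h4))⟩

end Pool.Agent.Lib.MP_36da60_lc.Desc
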