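import Pool.Agent.Lib.MP_36da60_lc.DescF27

/-!
# Primitive recursive indiscernible sequences
-/

set_option autoImplicit false

namespace Pool.Agent.Lib.MP_36da60_lc.Desc

variable {ar : ℕ → ℕ}

/-- The sequence `α` is indiscernible for the atomic formulas of `R`: the truth of a relation on a
tuple of members of the sequence depends only on the order of their indices. -/
def Indiscernible (R : Str ar) (α : ℕ → ℕ) : Prop :=
  ∀ (i : ℕ) (v w : Fin (ar i) → ℕ), (∀ k l, v k < v l ↔ w k < w l) → (R i (α ∘ v) ↔ R i (α ∘ w))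

/-- maximum of a finite transitive tournament -/
theorem exists_tournament_max (E : ℕ → ℕ → Prop) (N : ℕ)
    (h1 : ∀ x y, N < x → N < y → x ≠ y → ¬ (E x y ↔ E y x))
    (h2 : ∀ x y z, N < x → N < y → N < z → x ≠ y → y ≠ z → z ≠ x → E x y → E y z → E z x → False)
    (S : Finset ℕ) (hS : ∀ x ∈ S, N < x) (hne : S.Nonempty) :
    ∃ m ∈ S, ∀ x ∈ S, x ≠ m → E x m := by
  classical
  induction S using Finset.induction_on with
  | empty => exact absurd hne Finset.not_nonempty_empty
  | insert a S ha ih =>
    rcases S.eq_empty_or_nonempty with rfl | hS'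
    · refine ⟨a, by simp, fun x hx hxa => ?_⟩
      simp only [Finset.mem_insert, Finset.notMem_empty, or_false] at hx
      exact absurd hx hxa
    · obtain ⟨m, hm, hmax⟩ := ih (fun x hx => hS x (Finset.mem_insert_of_mem hx)) hS'
      have ham : a ≠ m := fun h => ha (h ▸ hm)
      have hNa := hS a (Finset.mem_insert_self a S)
      have hNm := hS m (Finset.mem_insert_of_mem hm)
      by_cases hma : E m a
      · refine ⟨a, Finset.mem_insert_self a S, fun x hx hxa => ?_⟩
        have hx' : x ∈ S := (Finset.mem_insert.1 hx).resolve_left hxa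
        have hNx := hS x hx
        by_cases hxm : x = m
        · rw [hxm]; exact hma
        · by_contra hcon
          have h3 : E a x := by
            by_contra h4
            exact h1 x a hNx hNa hxa ⟨fun h => absurd h hcon, fun h => absurd h h4⟩
          exact h2 x m a hNx hNm hNa hxm (Ne.symm ham) (Ne.symm hxa) (hmax x hx' hxm) hma h3
      · refine ⟨m, Finset.mem_insert_of_mem hm, fun x hx hxm => ?_⟩
        rcases Finset.mem_insert.1 hx with rfl | hx'
        · by_contra hcon
          exact h1 x m hNa hNm ham ⟨fun h => absurd h hcon, fun h => absurd h hma⟩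
        · exact hmax x hx' hxm

theorem primrec_mem_finset (Z : Finset ℕ) : PrimrecPred (fun b => b ∈ Z) := by
  have h1 : PrimrecRel (fun a b : ℕ => a = b) := Primrec.eq
  have h2 := (PrimrecRel.exists_mem_list h1).comp (Primrec.const Z.toList) Primrec.id
  refine h2.of_eq fun b => ?_
  simp

/-- **An invariant binary relation which orders a primitive recursive sequence.** -/
theorem cond_of_ordered {R : Str ar} {E : ℕ → ℕ → Prop} (hE : PrimrecRel E)
    (hinv : ∀ f, IsIso R R f → ∀ x y, E (f x) (f y) ↔ E x y) {α : ℕ → ℕ} (hα : Primrec α)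
    (hi : Function.Injective α) (h1 : ∀ j k, j < k → E (α j) (α k))
    (h2 : ∀ j k, j < k → ¬ E (α k) (α j)) :
    {x : ℕ | (orbit R x).Finite}.Infinite ∨ Avoided R := by
  classical
  have hord : ∀ j k, α j ≠ α k → (E (α j) (α k) ↔ j < k) := by
    intro j k hjk
    have hne : j ≠ k := fun h => hjk (congrArg α h)
    rcases lt_or_gt_of_ne hne with h | h
    · exact ⟨fun _ => h, fun _ => h1 j k h⟩
    · exact ⟨fun h3 => absurd h3 (h2 k j h), fun h3 => absurd h3 (by omega)⟩
  by_cases hA : ∀ N, ∃ x y, N < x ∧ N < y ∧ x ≠ y ∧ (E x y ↔ E y x)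
  · right
    refine ⟨fun _ v => v = [v.headI, v.tail.headI] ∧ v.headI ≠ v.tail.headI ∧
      (E v.headI v.tail.headI ↔ E v.tail.headI v.headI), [], α, ?_, ?_, ?_, hα, hi, ?_⟩
    · have p1 : Primrec (fun p : List ℕ × List ℕ => p.2.headI) :=
        Primrec.list_headI.comp Primrec.snd
      have p2 : Primrec (fun p : List ℕ × List ℕ => p.2.tail.headI) :=
        Primrec.list_headI.comp (Primrec.list_tail.comp Primrec.snd)
      have q1 := hE.comp p1 p2
      have q2 := hE.comp p2 p1
      refine PrimrecPred.and ?_ (PrimrecPred.and ?_ ?_)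
      · exact Primrec.eq.comp Primrec.snd
          (Primrec.list_cons.comp p1 (Primrec.list_cons.comp p2 (Primrec.const [])))
      · exact PrimrecPred.not (Primrec.eq.comp p1 p2)
      · have q3 := PrimrecPred.or (PrimrecPred.and q1 q2) (PrimrecPred.and q1.not q2.not)
        exact q3.of_eq fun p => by tauto
    · rintro f hf u v ⟨e1, e2, e3⟩
      rw [e1]
      exact ⟨rfl, fun h => e2 (hf.1.1 h), (hinv f hf _ _).trans (e3.trans (hinv f hf _ _).symm)⟩
    · intro u N
      obtain ⟨x, y, hx, hy, hxy, hb⟩ := hA N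
      refine ⟨[x, y], ⟨rfl, hxy, hb⟩, ?_⟩
      intro z hz
      simp only [List.mem_cons, List.not_mem_nil, or_false] at hz
      rcases hz with rfl | rfl <;> assumption
    · rintro v hv ⟨e1, e2, e3⟩
      obtain ⟨j, hj⟩ := hv v.headI (by rw [e1]; simp)
      obtain ⟨k, hk⟩ := hv v.tail.headI (by rw [e1]; simp)
      rw [← hj, ← hk] at e2 e3
      rw [hord j k e2, hord k j (Ne.symm e2)] at e3
      have hne : j ≠ k := fun h => e2 (congrArg α h)
      omega
  push Not at hA
  obtain ⟨N₁, hN₁⟩ := hA
  by_cases hB : ∀ N, ∃ x y z, N < x ∧ N < y ∧ N < z ∧ x ≠ y ∧ y ≠ z ∧ z ≠ x ∧ E x y ∧ E y z ∧ E z x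
  · right
    refine ⟨fun _ v => v = [v.headI, v.tail.headI, v.tail.tail.headI] ∧
      v.headI ≠ v.tail.headI ∧ v.tail.headI ≠ v.tail.tail.headI ∧ v.tail.tail.headI ≠ v.headI ∧
      E v.headI v.tail.headI ∧ E v.tail.headI v.tail.tail.headI ∧ E v.tail.tail.headI v.headI,
      [], α, ?_, ?_, ?_, hα, hi, ?_⟩
    · have p1 : Primrec (fun p : List ℕ × List ℕ => p.2.headI) :=
        Primrec.list_headI.comp Primrec.snd
      have p2 : Primrec (fun p : List ℕ × List ℕ => p.2.tail.headI) :=
        Primrec.list_headI.comp (Primrec.list_tail.comp Primrec.snd)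
      have p3 : Primrec (fun p : List ℕ × List ℕ => p.2.tail.tail.headI) :=
        Primrec.list_headI.comp (Primrec.list_tail.comp (Primrec.list_tail.comp Primrec.snd))
      refine PrimrecPred.and ?_ (PrimrecPred.and ?_ (PrimrecPred.and ?_ (PrimrecPred.and ?_
        (PrimrecPred.and ?_ (PrimrecPred.and ?_ ?_)))))
      · exact Primrec.eq.comp Primrec.snd (Primrec.list_cons.comp p1 (Primrec.list_cons.comp p2
          (Primrec.list_cons.comp p3 (Primrec.const []))))
      · exact PrimrecPred.not (Primrec.eq.comp p1 p2)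
      · exact PrimrecPred.not (Primrec.eq.comp p2 p3)
      · exact PrimrecPred.not (Primrec.eq.comp p3 p1)
      · exact hE.comp p1 p2
      · exact hE.comp p2 p3
      · exact hE.comp p3 p1
    · rintro f hf u v ⟨e1, e2, e3, e4, e5, e6, e7⟩
      rw [e1]
      exact ⟨rfl, fun h => e2 (hf.1.1 h), fun h => e3 (hf.1.1 h), fun h => e4 (hf.1.1 h),
        (hinv f hf _ _).2 e5, (hinv f hf _ _).2 e6, (hinv f hf _ _).2 e7⟩
    · intro u N
      obtain ⟨x, y, z, hx, hy, hz, e2, e3, e4, e5, e6, e7⟩ := hB N
      refine ⟨[x, y, z], ⟨rfl, e2, e3, e4, e5, e6, e7⟩, ?_⟩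
      intro t ht
      simp only [List.mem_cons, List.not_mem_nil, or_false] at ht
      rcases ht with rfl | rfl | rfl <;> assumption
    · rintro v hv ⟨e1, e2, e3, e4, e5, e6, e7⟩
      obtain ⟨j, hj⟩ := hv v.headI (by rw [e1]; simp)
      obtain ⟨k, hk⟩ := hv v.tail.headI (by rw [e1]; simp)
      obtain ⟨l, hl⟩ := hv v.tail.tail.headI (by rw [e1]; simp)
      rw [← hj, ← hk] at e2 e5
      rw [← hk, ← hl] at e3 e6
      rw [← hl, ← hj] at e4 e7
      have f1 := (hord j k e2).1 e5
      have f2 := (hord k l e3).1 e6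
      have f3 := (hord l j e4).1 e7
      omega
  push Not at hB
  obtain ⟨N₂, hN₂⟩ := hB
  set N := max N₁ N₂ with hN
  have t1 : ∀ x y, N < x → N < y → x ≠ y → ¬ (E x y ↔ E y x) := by
    intro x y hx hy hxy h
    rcases hN₁ x y (by omega) (by omega) hxy with ⟨h3, h4⟩ | ⟨h3, h4⟩
    · exact h4 (h.1 h3)
    · exact h3 (h.2 h4)
  have t2 : ∀ x y z, N < x → N < y → N < z → x ≠ y → y ≠ z → z ≠ x →
      E x y → E y z → E z x → False := by
    intro x y z hx hy hz e2 e3 e4 e5 e6 e7
    exact hN₂ x y z (by omega) (by omega) (by omega) e2 e3 e4 e5 e6 e7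
  -- the elements with finitely many elements below
  by_cases hZ : {b | {x | E x b}.Finite}.Finite
  · right
    obtain ⟨j₀, hj₀⟩ : ∃ j₀, α j₀ ∉ {b | {x | E x b}.Finite} := by
      by_contra hcon
      push Not at hcon
      exact Set.infinite_range_of_injective hi (hZ.subset (by rintro _ ⟨j, rfl⟩; exact hcon j))
    let Z := hZ.toFinset
    have hZm : ∀ b, b ∈ Z ↔ {x | E x b}.Finite := fun b => hZ.mem_toFinset
    have hZinv : ∀ f, IsIso R R f → ∀ b, b ∈ Z → f b ∈ Z := by
      intro f hf b hb
      rw [hZm] at hb ⊢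
      refine (hb.image f).subset ?_
      intro x hx
      obtain ⟨y, rfl⟩ := hf.1.2 x
      exact ⟨y, (hinv f hf y b).1 hx, rfl⟩
    refine ⟨fun u v => u = [] ∨ (v = [v.headI] ∧ (E v.headI u.headI ∨ u.headI ∈ Z)), [α j₀],
      fun j => α (j₀ + 1 + j), ?_, ?_, ?_, ?_, ?_, ?_⟩
    · have p1 : Primrec (fun p : List ℕ × List ℕ => p.2.headI) :=
        Primrec.list_headI.comp Primrec.snd
      have p2 : Primrec (fun p : List ℕ × List ℕ => p.1.headI) :=
        Primrec.list_headI.comp Primrec.fst
      refine PrimrecPred.or ?_ (PrimrecPred.and ?_ (PrimrecPred.or ?_ ?_))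
      · exact Primrec.eq.comp Primrec.fst (Primrec.const [])
      · exact Primrec.eq.comp Primrec.snd (Primrec.list_cons.comp p1 (Primrec.const []))
      · exact hE.comp p1 p2
      · exact (primrec_mem_finset Z).comp p2
    · rintro f hf u v (rfl | ⟨e1, e2⟩)
      · exact Or.inl rfl
      · cases u with
        | nil => exact Or.inl rfl
        | cons b u =>
          right
          rw [e1]
          refine ⟨rfl, ?_⟩
          rcases e2 with e2 | e2
          · exact Or.inl ((hinv f hf _ _).2 e2)
          · exact Or.inr (hZinv f hf _ e2)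
    · intro u M
      cases u with
      | nil => exact ⟨[M + 1], Or.inl rfl, by simp⟩
      | cons b u =>
        by_cases hb : b ∈ Z
        · exact ⟨[M + 1], Or.inr ⟨rfl, Or.inr hb⟩, by simp⟩
        · have hinf : {x | E x b}.Infinite := fun h => hb ((hZm b).2 h)
          obtain ⟨x, hx, hxM⟩ := hinf.exists_gt M
          exact ⟨[x], Or.inr ⟨rfl, Or.inl hx⟩, by simpa using hxM⟩
    · exact hα.comp (Primrec.nat_add.comp (Primrec.const _) Primrec.id)
    · intro a b hab
      have := hi hab
      omega
    · rintro v hv (h | ⟨e1, e2⟩)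
      · exact absurd h (by simp)
      · rcases e2 with e2 | e2
        · obtain ⟨j, hj⟩ := hv v.headI (by rw [e1]; simp)
          rw [← hj] at e2
          exact h2 j₀ (j₀ + 1 + j) (by omega) e2
        · exact hj₀ ((hZm (α j₀)).1 e2)
  · left
    have hZ' : {b | {x | E x b}.Finite}.Infinite := hZ
    refine hZ'.mono ?_
    intro b hb
    have hb : {x | E x b}.Finite := hb
    show (orbit R b).Finite
    by_contra hcon
    have hcon : (orbit R b).Infinite := hcon
    have key : ∀ b' ∈ orbit R b, {x | E x b'}.Finite ∧ {x | E x b'}.ncard = {x | E x b}.ncard := by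
      rintro _ ⟨g, hg, rfl⟩
      have h3 : {x | E x (g b)} = g '' {x | E x b} := by
        ext x
        constructor
        · intro hx
          obtain ⟨y, rfl⟩ := hg.1.2 x
          exact ⟨y, (hinv g hg y b).1 hx, rfl⟩
        · rintro ⟨y, hy, rfl⟩
          exact (hinv g hg y b).2 hy
      rw [h3]
      exact ⟨hb.image g, Set.ncard_image_of_injective _ hg.1.1⟩
    have hinf : (orbit R b \ {x | x ≤ N}).Infinite := hcon.sdiff (Set.finite_le_nat N)
    obtain ⟨S, hS1, hS2⟩ := hinf.exists_subset_card_eq ({x | E x b}.ncard + 2)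
    have hne : S.Nonempty := by
      rw [← Finset.card_pos, hS2]; omega
    have hSN : ∀ x ∈ S, N < x := by
      intro x hx
      have := (hS1 hx).2
      exact not_le.1 this
    obtain ⟨m, hm, hmax⟩ := exists_tournament_max E N t1 t2 S hSN hne
    obtain ⟨hm1, hm2⟩ := key m (hS1 hm).1
    have h3 : ((S.erase m : Finset ℕ) : Set ℕ) ⊆ {x | E x m} := by
      intro x hx
      have hx := Finset.mem_erase.1 (Finset.mem_coe.1 hx)
      exact hmax x hx.2 hx.1
    have h4 := Set.ncard_le_ncard h3 hm1
    rw [Set.ncard_coe_finset, Finset.card_erase_of_mem hm, hS2, hm2] at h4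
    omega

theorem primrec_tup {R : Str ar} (hR : Fpr R) (i : ℕ) : PrimrecRel (fun x y => R i (tup x y)) := by
  obtain ⟨D, hD, hDR⟩ := hR
  have he : Primrec₂ (fun x y : ℕ => D i (List.ofFn (tup x y : Fin (ar i) → ℕ))) := by
    refine hD.comp (Primrec.const i) (Primrec.list_ofFn fun l => ?_)
    by_cases hl : l.val = 0
    · exact Primrec.fst.of_eq fun p => by simp [tup, hl]
    · exact Primrec.snd.of_eq fun p => by simp [tup, hl]
  have h1 : PrimrecRel (fun x y : ℕ => D i (List.ofFn (tup x y : Fin (ar i) → ℕ)) = true) :=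
    Primrec.eq.comp he (Primrec.const true)
  exact h1.of_eq fun x y => hDR i (tup x y)

theorem Indiscernible.tup {R : Str ar} {α : ℕ → ℕ} (hs : Indiscernible R α) (i : ℕ)
    {x y x' y' : ℕ} (h : x < y ↔ x' < y') (h' : y < x ↔ y' < x') :
    R i (tup (α x) (α y)) ↔ R i (tup (α x') (α y')) := by
  rw [← comp_tup α, ← comp_tup α]
  refine hs i _ _ fun k l => ?_
  unfold Desc.tup
  by_cases hk : k.val = 0 <;> by_cases hl : l.val = 0 <;>
    simp only [hk, hl, if_true, if_false, lt_irrefl]
  · exact h
  · exact h'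

/-- **The cases for an indiscernible sequence and relations of arity at most two.** -/
theorem cond_of_indiscernible {R : Str ar} (hR : Fpr R) (h2 : ∀ i, ar i ≤ 2) {α : ℕ → ℕ}
    (hα : Primrec α) (hi : Function.Injective α) (hs : Indiscernible R α)
    (ht : ¬ AutTrivial R) : Cond R := by
  have hmap : ∀ (i : ℕ) (f : ℕ → ℕ), IsIso R R f → ∀ x y,
      (R i (tup (f x) (f y)) ↔ R i (tup x y)) := fun i f hf x y => by
    rw [← comp_tup f]
    exact (hf.2 i _).symm
  by_cases hasym : ∃ i, ¬ (R i (tup (α 0) (α 1)) ↔ R i (tup (α 1) (α 0)))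
  · obtain ⟨i, hasym⟩ := hasym
    have key : {x : ℕ | (orbit R x).Finite}.Infinite ∨ Avoided R := by
      by_cases hc : R i (tup (α 0) (α 1))
      · have hc' : ¬ R i (tup (α 1) (α 0)) := fun h => hasym ⟨fun _ => h, fun _ => hc⟩
        refine cond_of_ordered (E := fun x y => R i (tup x y)) (primrec_tup hR i)
          (fun f hf x y => hmap i f hf x y) hα hi (fun j k hjk => ?_) (fun j k hjk => ?_)
        · exact (hs.tup i (x := j) (y := k) (x' := 0) (y' := 1) (by omega) (by omega)).2 hc
        · exact fun h => hc' ((hs.tup i (x := k) (y := j) (x' := 1) (y' := 0) (by omega)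
            (by omega)).1 h)
      · have hc' : R i (tup (α 1) (α 0)) := by
          by_contra h
          exact hasym ⟨fun h' => absurd h' hc, fun h' => absurd h' h⟩
        refine cond_of_ordered (E := fun x y => R i (tup y x))
          ((primrec_tup hR i).comp Primrec.snd Primrec.fst)
          (fun f hf x y => hmap i f hf y x) hα hi (fun j k hjk => ?_) (fun j k hjk => ?_)
        · exact (hs.tup i (x := k) (y := j) (x' := 1) (y' := 0) (by omega) (by omega)).2 hc'
        · exact fun h => hc ((hs.tup i (x := j) (y := k) (x' := 0) (y' := 1) (by omega)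
            (by omega)).1 h)
    rcases key with h | h
    · exact Or.inl h
    · exact Or.inr (Or.inr (Or.inr h))
  · push Not at hasym
    have hsym : SymmetricOn R (Set.range α) := by
      intro i v w hv hw hvw
      choose a ha using hv
      choose b hb using hw
      obtain rfl : α ∘ a = v := funext ha
      obtain rfl : α ∘ b = w := funext hb
      have hab : ∀ k l, a k = a l ↔ b k = b l := fun k l => by
        have := hvw k l
        simp only [Function.comp_apply] at this
        rwa [hi.eq_iff, hi.eq_iff] at this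
      by_cases hn : ar i ≤ 1
      · refine hs i a b fun k l => ?_
        have : k = l := Fin.ext (by have := k.isLt; have := l.isLt; omega)
        subst this
        simp
      · obtain ⟨x, y, hxy⟩ := eq_tup (h2 i) a
        obtain ⟨x', y', hxy'⟩ := eq_tup (h2 i) b
        have h01 := hab ⟨0, by omega⟩ ⟨1, by omega⟩
        rw [hxy, hxy'] at h01
        have h01' : x = y ↔ x' = y' := by simpa [Desc.tup] using h01
        rw [hxy, hxy', comp_tup, comp_tup]
        have hT1 : ∀ x y, x < y → (R i (tup (α x) (α y)) ↔ R i (tup (α 0) (α 1))) := fun x y h =>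
          hs.tup i (by omega) (by omega)
        have hT2 : ∀ x y, y < x → (R i (tup (α x) (α y)) ↔ R i (tup (α 0) (α 1))) := fun x y h =>
          (hs.tup i (x' := 1) (y' := 0) (by omega) (by omega)).trans (hasym i).symm
        rcases lt_trichotomy x y with h3 | h3 | h3
        · rcases lt_trichotomy x' y' with h4 | h4 | h4
          · exact (hT1 x y h3).trans (hT1 x' y' h4).symm
          · exact absurd (h01'.2 h4) (by omega)
          · exact (hT1 x y h3).trans (hT2 x' y' h4).symm
        · have h4 := h01'.1 h3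
          exact hs.tup i (by omega) (by omega)
        · rcases lt_trichotomy x' y' with h4 | h4 | h4
          · exact (hT2 x y h3).trans (hT1 x' y' h4).symm
          · exact absurd (h01'.2 h4) (by omega)
          · exact (hT2 x y h3).trans (hT2 x' y' h4).symm
    rcases cases_of_symmetric hR h2 hα hi hsym ht with h | h | h
    · exact Or.inl h
    · exact Or.inr (Or.inl h)
    · exact Or.inr (Or.inr (Or.inr h))

end Pool.Agent.Lib.MP_36da60_lc.Desc
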