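import Pool.Agent.Lib.MP_36da60_lc.DescG27

/-!
# Primitive recursive sequences symmetric over finite sets: relations of any arity
-/

set_option autoImplicit false

namespace Pool.Agent.Lib.MP_36da60_lc.Desc

variable {ar : ℕ → ℕ}

/-- On tuples with entries in `G` and in `S`, the truth of the relation with number `i` depends only
on the entries in `G` (with their places) and on the equalities between the entries. -/
def SymOver (R : Str ar) (i : ℕ) (G S : Set ℕ) : Prop :=
  ∀ v w : Fin (ar i) → ℕ, (∀ k, v k ∈ G ∨ v k ∈ S) → (∀ k, w k ∈ G ∨ w k ∈ S) →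
    (∀ k, v k ∈ G ∨ w k ∈ G → v k = w k) → (∀ k l, v k = v l ↔ w k = w l) → (R i v ↔ R i w)

theorem SymOver.mono {R : Str ar} {i : ℕ} {G S S' : Set ℕ} (h : SymOver R i G S) (hS : S' ⊆ S) :
    SymOver R i G S' := fun v w hv hw h1 h2 =>
  h v w (fun k => (hv k).imp_right fun h => hS h) (fun k => (hw k).imp_right fun h => hS h) h1 h2

/-- not symmetric over `G`, arbitrarily far away -/
def Wild (R : Str ar) (i : ℕ) (G : Finset ℕ) : Prop := ∀ N, ¬ SymOver R i G {x | N < x}

theorem exists_far {g : ℕ → ℕ} (hg : Function.Bijective g) (N : ℕ) : ∃ M, ∀ x, M < x → N < g x := by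
  refine ⟨∑ y ∈ Finset.range (N + 1), (Equiv.ofBijective g hg).symm y, fun x hx => ?_⟩
  by_contra hle
  have hm : g x ∈ Finset.range (N + 1) := Finset.mem_range.2 (by omega)
  have h1 : (Equiv.ofBijective g hg).symm (g x) ≤
      ∑ y ∈ Finset.range (N + 1), (Equiv.ofBijective g hg).symm y :=
    Finset.single_le_sum (f := fun y => (Equiv.ofBijective g hg).symm y)
      (fun _ _ => Nat.zero_le _) hm
  have h2 : (Equiv.ofBijective g hg).symm (g x) = x := (Equiv.ofBijective g hg).symm_apply_apply x
  rw [h2] at h1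
  omega

theorem Wild.image {R : Str ar} {i : ℕ} {G : Finset ℕ} (h : Wild R i G) {g : ℕ → ℕ}
    (hg : IsIso R R g) : Wild R i (G.image g) := by
  intro N hN
  obtain ⟨M, hM⟩ := exists_far hg.1 N
  refine h M fun v w hv hw h1 h2 => ?_
  rw [hg.2 i v, hg.2 i w]
  have hmem : ∀ x, g x ∈ ((G.image g : Finset ℕ) : Set ℕ) ↔ x ∈ (G : Set ℕ) := by
    intro x
    simp only [Finset.coe_image]
    exact ⟨fun ⟨y, hy, hyx⟩ => hg.1.1 hyx ▸ hy, fun hx => ⟨x, hx, rfl⟩⟩
  refine hN _ _ ?_ ?_ ?_ ?_
  · intro k
    rcases hv k with h3 | h3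
    · exact Or.inl ((hmem _).2 h3)
    · exact Or.inr (hM _ h3)
  · intro k
    rcases hw k with h3 | h3
    · exact Or.inl ((hmem _).2 h3)
    · exact Or.inr (hM _ h3)
  · intro k hk
    show g (v k) = g (w k)
    rw [h1 k (hk.imp (hmem _).1 (hmem _).1)]
  · intro k l
    show g (v k) = g (v l) ↔ g (w k) = g (w l)
    rw [hg.1.1.eq_iff, hg.1.1.eq_iff]
    exact h2 k l

section step

variable {R : Str ar} {i k N : ℕ}

theorem symOver_of_big (hN : ∀ G : Finset ℕ, G.card < k → SymOver R i G {x | N < x})
    {G : Finset ℕ} (hG : G.card = k) {g : ℕ} (hg : g ∈ G) (hgN : N < g) :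
    SymOver R i G {x | N < x} := by
  intro v w hv hw h1 h2
  have hc : (G.filter (fun x => x ≤ N)).card < k := by
    rw [← hG]
    refine Finset.card_lt_card ⟨Finset.filter_subset _ _, fun hsub => ?_⟩
    have := (Finset.mem_filter.1 (hsub hg)).2
    omega
  have hmem : ∀ x, (x ∈ (G : Set ℕ) ∨ x ∈ {x | N < x}) →
      (x ∈ ((G.filter (fun x => x ≤ N) : Finset ℕ) : Set ℕ) ∨ x ∈ {x | N < x}) := by
    intro x hx
    by_cases hxN : N < x
    · exact Or.inr hxN
    · rcases hx with hx | hx
      · exact Or.inl (Finset.mem_coe.2 (Finset.mem_filter.2 ⟨Finset.mem_coe.1 hx, not_lt.1 hxN⟩))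
      · exact absurd hx hxN
  have hsub : ∀ x, x ∈ ((G.filter (fun x => x ≤ N) : Finset ℕ) : Set ℕ) → x ∈ (G : Set ℕ) :=
    fun x hx => Finset.mem_coe.2 (Finset.mem_filter.1 (Finset.mem_coe.1 hx)).1
  exact hN _ hc v w (fun k => hmem _ (hv k)) (fun k => hmem _ (hw k))
    (fun k hk => h1 k (hk.imp (hsub _) (hsub _))) h2

/-- the elements of a wild set of least cardinality are bounded -/
theorem Wild.le (hN : ∀ G : Finset ℕ, G.card < k → SymOver R i G {x | N < x})
    {G : Finset ℕ} (hG : G.card = k) (hW : Wild R i G) : ∀ g ∈ G, g ≤ N := by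
  intro g hg
  by_contra hgN
  exact hW N (symOver_of_big hN hG hg (not_le.1 hgN))

theorem Wild.orbit_le (hN : ∀ G : Finset ℕ, G.card < k → SymOver R i G {x | N < x})
    {G : Finset ℕ} (hG : G.card = k) (hW : Wild R i G) {f : ℕ → ℕ} (hf : IsIso R R f) :
    ∀ g ∈ G, f g ≤ N := by
  intro g hg
  have h1 := hW.image hf
  exact h1.le hN (by rw [Finset.card_image_of_injective _ hf.1.1, hG]) _
    (Finset.mem_image_of_mem f hg)

theorem Wild.orbit_finite (hN : ∀ G : Finset ℕ, G.card < k → SymOver R i G {x | N < x})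
    {G : Finset ℕ} (hG : G.card = k) (hW : Wild R i G) : ∀ g ∈ G, (orbit R g).Finite := by
  intro g hg
  refine (Set.finite_le_nat N).subset ?_
  rintro _ ⟨f, hf, rfl⟩
  exact hW.orbit_le hN hG hf g hg

/-- the witnesses of wildness -/
theorem Wild.witness {G : Finset ℕ} (hW : Wild R i G) (M : ℕ) :
    ∃ v w : Fin (ar i) → ℕ, (∀ a, v a ∈ G ∨ M < v a) ∧ (∀ a, w a ∈ G ∨ M < w a) ∧
      (∀ a, v a ∈ G ∨ w a ∈ G → v a = w a) ∧ (∀ a b, v a = v b ↔ w a = w b) ∧
      R i v ∧ ¬ R i w := by
  have h := hW M
  unfold SymOver at h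
  push Not at h
  obtain ⟨v, w, h1, h2, h3, h4, h5⟩ := h
  rcases h5 with ⟨h5, h6⟩ | ⟨h5, h6⟩
  · exact ⟨v, w, h1, h2, h3, h4, h5, h6⟩
  · exact ⟨w, v, h2, h1, fun a ha => (h3 a ha.symm).symm, fun a b => (h4 a b).symm, h6, h5⟩

theorem exists_uniform {C : Type*} [Finite C] {Q : C → ℕ → Prop}
    (hmono : ∀ c M M', M ≤ M' → Q c M' → Q c M) (h : ∀ M, ∃ c, Q c M) : ∃ c, ∀ M, Q c M := by
  by_contra hcon
  push Not at hcon
  choose m hm using hcon
  obtain ⟨B, hB⟩ := (Set.finite_range m).bddAbove
  obtain ⟨c, hc⟩ := h B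
  exact hm c (hmono c _ _ (hB ⟨c, rfl⟩) hc)

/-- **One free place**: a splitting atomic formula. -/
theorem splitAtom_of_wild (hN : ∀ G : Finset ℕ, G.card < k → SymOver R i G {x | N < x})
    {G : Finset ℕ} (hG : G.card = k) (hW : Wild R i G) (hk : ar i < k + 2) : SplitAtom R := by
  classical
  let Q : (Fin (ar i) × (Fin (ar i) → {g // g ∈ insert 0 G})) → ℕ → Prop := fun c M =>
    (∀ a, a ≠ c.1 → (c.2 a : ℕ) ∈ G) ∧
    ∃ x y, M < x ∧ M < y ∧ R i (Function.update (fun a => (c.2 a : ℕ)) c.1 x) ∧
      ¬ R i (Function.update (fun a => (c.2 a : ℕ)) c.1 y)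
  have hQ : ∃ c, ∀ M, Q c M := by
    refine exists_uniform ?_ ?_
    · rintro c M M' hM ⟨h1, x, y, hx, hy, h2⟩
      exact ⟨h1, x, y, by omega, by omega, h2⟩
    · intro M
      obtain ⟨v, w, h1, h2, h3, h4, h5, h6⟩ := hW.witness (max M N)
      -- all elements of `G` are used
      have huse : ∀ g ∈ G, ∃ a, v a = g := by
        intro g hg
        by_contra hcon
        push Not at hcon
        have hc : (G.filter (fun x => ∃ a, v a = x)).card < k := by
          rw [← hG]
          refine Finset.card_lt_card ⟨Finset.filter_subset _ _, fun hsub => ?_⟩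
          obtain ⟨a, ha⟩ := (Finset.mem_filter.1 (hsub hg)).2
          exact hcon a ha
        apply h6
        refine (hN _ hc v w ?_ ?_ ?_ h4).1 h5
        · intro a
          rcases h1 a with h | h
          · exact Or.inl (Finset.mem_coe.2 (Finset.mem_filter.2 ⟨h, a, rfl⟩))
          · exact Or.inr (show N < v a by omega)
        · intro a
          rcases h2 a with h | h
          · exact Or.inl (Finset.mem_coe.2 (Finset.mem_filter.2 ⟨h, a, h3 a (Or.inr h)⟩))
          · exact Or.inr (show N < w a by omega)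
        · intro a ha
          refine h3 a (ha.imp (fun h => ?_) (fun h => ?_))
          · exact (Finset.mem_filter.1 (Finset.mem_coe.1 h)).1
          · exact (Finset.mem_filter.1 (Finset.mem_coe.1 h)).1
      -- a place where they differ
      obtain ⟨j, hj⟩ : ∃ j, v j ≠ w j := by
        by_contra hcon
        push Not at hcon
        exact h6 ((funext hcon : v = w) ▸ h5)
      have hjG : v j ∉ G := fun h => hj (h3 j (Or.inl h))
      have hjG' : w j ∉ G := fun h => hj (h3 j (Or.inr h))
      have hothers : ∀ a, a ≠ j → v a ∈ G := by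
        have hsub : G ⊆ (Finset.univ.erase j).image v := by
          intro g hg
          obtain ⟨a, rfl⟩ := huse g hg
          refine Finset.mem_image_of_mem v (Finset.mem_erase.2 ⟨fun h => hjG (h ▸ hg), ?_⟩)
          exact Finset.mem_univ a
        have hcard : ((Finset.univ.erase j).image v).card ≤ G.card := by
          refine Finset.card_image_le.trans ?_
          rw [Finset.card_erase_of_mem (Finset.mem_univ j), Finset.card_univ, Fintype.card_fin]
          omega
        have heq := Finset.eq_of_subset_of_card_le hsub hcard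
        intro a ha
        rw [heq]
        exact Finset.mem_image_of_mem v (Finset.mem_erase.2 ⟨ha, Finset.mem_univ a⟩)
      refine ⟨⟨j, fun a => if ha : a = j then ⟨0, Finset.mem_insert_self 0 G⟩ else
        ⟨v a, Finset.mem_insert_of_mem (hothers a ha)⟩⟩, ?_, v j, w j, ?_, ?_, ?_, ?_⟩
      · intro a ha
        have ha' : ¬ a = j := ha
        simp only [ha', dif_neg, not_false_eq_true]
        exact hothers a ha
      · have := (h1 j).resolve_left hjG
        omega
      · have := (h2 j).resolve_left hjG'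
        omega
      · have e : Function.update (fun a => (((if ha : a = j then ⟨0, Finset.mem_insert_self 0 G⟩
            else ⟨v a, Finset.mem_insert_of_mem (hothers a ha)⟩ : {g // g ∈ insert 0 G})) : ℕ))
            j (v j) = v := by
          funext a
          by_cases ha : a = j
          · subst ha; simp
          · rw [Function.update_of_ne ha]; simp [ha]
        show R i (Function.update _ j (v j))
        rw [e]
        exact h5
      · have e : Function.update (fun a => (((if ha : a = j then ⟨0, Finset.mem_insert_self 0 G⟩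
            else ⟨v a, Finset.mem_insert_of_mem (hothers a ha)⟩ : {g // g ∈ insert 0 G})) : ℕ))
            j (w j) = w := by
          funext a
          by_cases ha : a = j
          · subst ha; simp
          · rw [Function.update_of_ne ha]
            simp only [ha, dif_neg, not_false_eq_true]
            exact h3 a (Or.inl (hothers a ha))
        show ¬ R i (Function.update _ j (w j))
        rw [e]
        exact h6
  obtain ⟨c, hc⟩ := hQ
  refine ⟨i, c.1, fun a => (c.2 a : ℕ), fun l hl => hW.orbit_finite hN hG _ ((hc 0).1 l hl), ?_, ?_⟩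
  · refine Set.infinite_of_forall_exists_gt fun M => ?_
    obtain ⟨-, x, y, hx, hy, h1, h2⟩ := hc M
    exact ⟨x, h1, hx⟩
  · refine Set.infinite_of_forall_exists_gt fun M => ?_
    obtain ⟨-, x, y, hx, hy, h1, h2⟩ := hc M
    exact ⟨y, h2, hy⟩

end step

end Pool.Agent.Lib.MP_36da60_lc.Desc
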