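import Pool.Agent.Lib.MP_36da60_lc.DescH27

/-!
# Wild sets of parameters and symmetric sequences; the theorem for all arities
-/

set_option autoImplicit false

namespace Pool.Agent.Lib.MP_36da60_lc.Desc

variable {ar : ℕ → ℕ}

/-- a tuple made of parameters `u` and entries of `l` from the place `s` on -/
def mk {n k : ℕ} (T : Fin n → Option (Fin k)) (u l : List ℕ) (s : ℕ) : Fin n → ℕ := fun a =>
  match T a with
  | some c => u.getD c 0
  | none => l.getD (s + a) 0

theorem primrec_mk {n k : ℕ} (T : Fin n → Option (Fin k)) (s : ℕ) (a : Fin n) :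
    Primrec (fun q : List ℕ × List ℕ => mk T q.1 q.2 s a) := by
  unfold mk
  cases T a with
  | some c => exact (Primrec.list_getD 0).comp Primrec.fst (Primrec.const _)
  | none => exact (Primrec.list_getD 0).comp Primrec.snd (Primrec.const _)

theorem mk_map {n k : ℕ} (T : Fin n → Option (Fin k)) {u l : List ℕ} {s : ℕ} (f : ℕ → ℕ)
    (hu : u.length = k) (hl : s + n ≤ l.length) :
    mk T (u.map f) (l.map f) s = f ∘ mk T u l s := by
  funext a
  unfold mk
  simp only [Function.comp_apply]
  cases T a with
  | some c =>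
    have hc : (c : ℕ) < u.length := by rw [hu]; exact c.isLt
    simp [List.getD_eq_getElem?_getD, hc]
  | none =>
    have hc : s + (a : ℕ) < l.length := by have := a.isLt; omega
    simp [List.getD_eq_getElem?_getD, hc]

theorem primrecPred_forall_fin {β : Type*} [Primcodable β] {n : ℕ} {C : Fin n → β → Prop}
    (hC : ∀ a, PrimrecPred (C a)) : PrimrecPred (fun b => ∀ a, C a b) := by
  induction n with
  | zero =>
    have h : PrimrecPred (fun _ : β => (0 : ℕ) = 0) :=
      Primrec.eq.comp (Primrec.const 0) (Primrec.const 0)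
    exact h.of_eq fun b => ⟨fun _ a => a.elim0, fun _ => rfl⟩
  | succ n ih =>
    have h := PrimrecPred.and (hC 0) (ih (C := fun a => C a.succ) (fun a => hC a.succ))
    refine h.of_eq fun b => ?_
    rw [Fin.forall_fin_succ]

/-- the coded bad configuration -/
def PT (R : Str ar) (i : ℕ) {k : ℕ} (T : Fin (ar i) → Option (Fin k))
    (p : Fin (ar i) → Fin (ar i) → Bool) (u l : List ℕ) : Prop :=
  l.length = ar i + ar i ∧ R i (mk T u l 0) ∧ ¬ R i (mk T u l (ar i)) ∧
    (∀ a b, (mk T u l 0 a = mk T u l 0 b ↔ p a b = true)) ∧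
    (∀ a b, (mk T u l (ar i) a = mk T u l (ar i) b ↔ p a b = true))

theorem primrec_PT {R : Str ar} (hR : Fpr R) (i : ℕ) {k : ℕ} (T : Fin (ar i) → Option (Fin k))
    (p : Fin (ar i) → Fin (ar i) → Bool) : PrimrecRel (PT R i T p) := by
  obtain ⟨D, hD, hDR⟩ := hR
  have hRel : ∀ s, PrimrecPred (fun q : List ℕ × List ℕ => R i (mk T q.1 q.2 s)) := by
    intro s
    have h1 : PrimrecPred (fun q : List ℕ × List ℕ => D i (List.ofFn (mk T q.1 q.2 s)) = true) :=
      Primrec.eq.comp (hD.comp (Primrec.const i) (Primrec.list_ofFn fun a => primrec_mk T s a))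
        (Primrec.const true)
    exact h1.of_eq fun q => hDR i _
  have hpat : ∀ s, PrimrecPred (fun q : List ℕ × List ℕ =>
      ∀ a b, (mk T q.1 q.2 s a = mk T q.1 q.2 s b ↔ p a b = true)) := by
    intro s
    refine primrecPred_forall_fin fun a => primrecPred_forall_fin fun b => ?_
    have h1 : PrimrecPred (fun q : List ℕ × List ℕ => mk T q.1 q.2 s a = mk T q.1 q.2 s b) :=
      Primrec.eq.comp (primrec_mk T s a) (primrec_mk T s b)
    by_cases hp : p a b = true
    · exact h1.of_eq fun q => by simp [hp]
    · exact h1.not.of_eq fun q => by simp [hp]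
  exact PrimrecPred.and (Primrec.eq.comp (Primrec.list_length.comp Primrec.snd) (Primrec.const _))
    (PrimrecPred.and (hRel 0) (PrimrecPred.and (hRel (ar i)).not
      (PrimrecPred.and (hpat 0) (hpat (ar i)))))

theorem PT.map {R : Str ar} {i k : ℕ} {T : Fin (ar i) → Option (Fin k)}
    {p : Fin (ar i) → Fin (ar i) → Bool} {u l : List ℕ} (h : PT R i T p u l) (hu : u.length = k)
    {f : ℕ → ℕ} (hf : IsIso R R f) : PT R i T p (u.map f) (l.map f) := by
  obtain ⟨h1, h2, h3, h4, h5⟩ := h
  have e1 := mk_map T (s := 0) f hu (show 0 + ar i ≤ l.length by omega)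
  have e2 := mk_map T (s := ar i) f hu (show ar i + ar i ≤ l.length by omega)
  refine ⟨by rw [List.length_map]; exact h1, ?_, ?_, ?_, ?_⟩
  · rw [e1]; exact (hf.2 i _).1 h2
  · rw [e2]; exact fun h => h3 ((hf.2 i _).2 h)
  · intro a b
    rw [e1]
    exact hf.1.1.eq_iff.trans (h4 a b)
  · intro a b
    rw [e2]
    exact hf.1.1.eq_iff.trans (h5 a b)

theorem primrec_mem_finset_list (Z : Finset (List ℕ)) : PrimrecPred (fun b => b ∈ Z) := by
  have h1 : PrimrecRel (fun a b : List ℕ => a = b) := Primrec.eq
  have h2 := (PrimrecRel.exists_mem_list h1).comp (Primrec.const Z.toList) Primrec.id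
  refine h2.of_eq fun b => ?_
  simp

/-- **At least two free places**: a bad configuration avoided by a symmetric sequence. -/
theorem avoided_of_wild {R : Str ar} (hR : Fpr R) {i k N : ℕ}
    (hN : ∀ G : Finset ℕ, G.card < k → SymOver R i G {x | N < x})
    {G : Finset ℕ} (hG : G.card = k) (hW : Wild R i G) {α : ℕ → ℕ} (hα : Primrec α)
    (hi : Function.Injective α) (hs : SymOver R i G (Set.range α)) : Avoided R := by
  classical
  set u₀ : List ℕ := G.toList with hu₀
  have hlen : u₀.length = k := by rw [hu₀, Finset.length_toList, hG]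
  have hmemu : ∀ x, x ∈ u₀ ↔ x ∈ G := fun x => Finset.mem_toList
  -- a fixed template and a fixed pattern
  let C := (Fin (ar i) → Option (Fin k)) × (Fin (ar i) → Fin (ar i) → Bool)
  let Q : C → ℕ → Prop := fun c M => ∃ l, PT R i c.1 c.2 u₀ l ∧ ∀ x ∈ l, M < x
  obtain ⟨⟨T, p⟩, hTp⟩ : ∃ c, ∀ M, Q c M := by
    refine exists_uniform ?_ ?_
    · rintro c M M' hM ⟨l, h1, h2⟩
      exact ⟨l, h1, fun x hx => lt_of_le_of_lt hM (h2 x hx)⟩
    · intro M
      obtain ⟨v, w, h1, h2, h3, h4, h5, h6⟩ := hW.witness M
      have hidx : ∀ x ∈ G, ∃ c : Fin k, u₀.getD c 0 = x := by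
        intro x hx
        obtain ⟨c, hc, hcx⟩ := List.mem_iff_getElem.1 ((hmemu x).2 hx)
        refine ⟨⟨c, by rw [← hlen]; exact hc⟩, ?_⟩
        simp [List.getD_eq_getElem?_getD, hc, hcx]
      choose ι hι using hidx
      let T : Fin (ar i) → Option (Fin k) := fun a =>
        if ha : v a ∈ G then some (ι (v a) ha) else none
      let v' : Fin (ar i) → ℕ := fun a => if v a ∈ G then M + 1 else v a
      let w' : Fin (ar i) → ℕ := fun a => if v a ∈ G then M + 1 else w a
      let l : List ℕ := List.ofFn v' ++ List.ofFn w'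
      have hwG : ∀ a, v a ∉ G → w a ∉ G := fun a ha h => ha (by rw [h3 a (Or.inr h)]; exact h)
      have e1 : mk T u₀ l 0 = v := by
        funext a
        unfold mk
        by_cases ha : v a ∈ G
        · have hT : T a = some (ι (v a) ha) := dif_pos ha
          rw [hT]
          exact hι _ ha
        · have hT : T a = none := dif_neg ha
          rw [hT]
          have h7 : (0 : ℕ) + a < (List.ofFn v').length := by simp
          show l.getD (0 + a) 0 = v a
          rw [List.getD_append _ _ _ _ h7]
          simp [List.getD_eq_getElem?_getD, v', ha]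
      have e2 : mk T u₀ l (ar i) = w := by
        funext a
        unfold mk
        by_cases ha : v a ∈ G
        · have hT : T a = some (ι (v a) ha) := dif_pos ha
          rw [hT]
          exact (hι _ ha).trans (h3 a (Or.inl ha))
        · have hT : T a = none := dif_neg ha
          rw [hT]
          have h7 : (List.ofFn v').length ≤ ar i + a := by simp
          show l.getD (ar i + a) 0 = w a
          rw [List.getD_append_right _ _ _ _ h7]
          simp [List.getD_eq_getElem?_getD, w', ha]
      refine ⟨(T, fun a b => decide (v a = v b)), l, ⟨?_, ?_, ?_, ?_, ?_⟩, ?_⟩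
      · simp [l]
      · show R i (mk T u₀ l 0)
        rw [e1]; exact h5
      · show ¬ R i (mk T u₀ l (ar i))
        rw [e2]; exact h6
      · intro a b
        show mk T u₀ l 0 a = mk T u₀ l 0 b ↔ _
        rw [e1]
        simp
      · intro a b
        show mk T u₀ l (ar i) a = mk T u₀ l (ar i) b ↔ _
        rw [e2, ← h4 a b]
        simp
      · intro x hx
        rcases List.mem_append.1 hx with hx | hx
        · obtain ⟨a, rfl⟩ := (List.mem_ofFn' v' x).1 hx
          by_cases ha : v a ∈ G
          · simp [v', ha]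
          · simpa [v', ha] using (h1 a).resolve_left ha
        · obtain ⟨a, rfl⟩ := (List.mem_ofFn' w' x).1 hx
          by_cases ha : v a ∈ G
          · simp [w', ha]
          · simpa [w', ha] using (h2 a).resolve_left (hwG a ha)
  -- the orbit of the parameters
  set Ω : Set (List ℕ) := {u | ∃ g, IsIso R R g ∧ u = u₀.map g} with hΩ
  have hΩf : Ω.Finite := by
    refine (Set.finite_range (fun h : Fin k → Fin (N + 1) =>
      List.ofFn (fun c => (h c : ℕ)))).subset ?_
    rintro _ ⟨g, hg, rfl⟩
    have hle : ∀ x ∈ u₀.map g, x ≤ N := by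
      intro x hx
      obtain ⟨y, hy, rfl⟩ := List.mem_map.1 hx
      exact hW.orbit_le hN hG hg y ((hmemu y).1 hy)
    have hlen' : (u₀.map g).length = k := by rw [List.length_map, hlen]
    refine ⟨fun c => ⟨(u₀.map g)[(c : ℕ)]'(by rw [hlen']; exact c.isLt), Nat.lt_succ_of_le
      (hle _ (List.getElem_mem _))⟩, ?_⟩
    refine List.ext_getElem (by simp [hlen]) fun n h1 h2 => ?_
    simp
  have hΩ0 : u₀ ∈ Ω := ⟨id, IsIso.refl R, by simp⟩
  have hΩlen : ∀ u ∈ Ω, u.length = k := by
    rintro _ ⟨g, -, rfl⟩
    rw [List.length_map, hlen]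
  have hΩinv : ∀ f, IsIso R R f → ∀ u, u.map f ∈ Ω → u ∈ Ω := by
    rintro f hf u ⟨g, hg, h⟩
    refine ⟨(Equiv.ofBijective f hf.1).symm ∘ g, hg.comp hf.symm, ?_⟩
    have h1 : (u.map f).map (Equiv.ofBijective f hf.1).symm = u := by
      rw [List.map_map]
      have : (Equiv.ofBijective f hf.1).symm ∘ f = id :=
        funext fun x => (Equiv.ofBijective f hf.1).symm_apply_apply x
      rw [this, List.map_id]
    rw [← h1, h, List.map_map]
  -- drop the members of the sequence in `G`
  obtain ⟨c₀, hc₀⟩ : ∃ c₀, ∀ j, α (c₀ + j) ∉ G := by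
    have hfin : {j | α j ∈ G}.Finite := by
      refine Set.Finite.of_finite_image (f := α) (G.finite_toSet.subset ?_) hi.injOn
      rintro _ ⟨j, hj, rfl⟩
      exact hj
    obtain ⟨B, hB⟩ := hfin.bddAbove
    refine ⟨B + 1, fun j hj => ?_⟩
    have := hB (show B + 1 + j ∈ {j | α j ∈ G} from hj)
    omega
  refine ⟨fun u l => u ∉ hΩf.toFinset ∨ PT R i T p u l, u₀, fun j => α (c₀ + j), ?_, ?_, ?_, ?_, ?_,
    ?_⟩
  · exact PrimrecPred.or ((primrec_mem_finset_list hΩf.toFinset).comp Primrec.fst).not
      (primrec_PT hR i T p)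
  · intro f hf u l h
    by_cases hu : u ∈ Ω
    · right
      rcases h with h | h
      · exact absurd (hΩf.mem_toFinset.2 hu) h
      · exact h.map (hΩlen u hu) hf
    · left
      intro h'
      exact hu (hΩinv f hf u (hΩf.mem_toFinset.1 h'))
  · intro u M
    by_cases hu : u ∈ Ω
    · obtain ⟨g, hg, rfl⟩ := hu
      obtain ⟨M', hM'⟩ := exists_far hg.1 M
      obtain ⟨l, h1, h2⟩ := hTp M'
      refine ⟨l.map g, Or.inr (h1.map hlen hg), ?_⟩
      intro x hx
      obtain ⟨y, hy, rfl⟩ := List.mem_map.1 hx
      exact hM' y (h2 y hy)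
    · exact ⟨[M + 1], Or.inl (fun h => hu (hΩf.mem_toFinset.1 h)), by simp⟩
  · exact hα.comp (Primrec.nat_add.comp (Primrec.const _) Primrec.id)
  · intro a b hab
    have := hi hab
    omega
  · rintro l hl (h | ⟨h1, h2, h3, h4, h5⟩)
    · exact h (hΩf.mem_toFinset.2 hΩ0)
    · apply h3
      have hent : ∀ s, s + ar i ≤ l.length → ∀ a,
          ((∃ c, T a = some c) ∧ mk T u₀ l s a ∈ G) ∨
          (T a = none ∧ mk T u₀ l s a ∈ Set.range α ∧ mk T u₀ l s a ∉ G) := by
        intro s hsl a
        unfold mk
        cases hT : T a with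
        | some c =>
          left
          refine ⟨⟨c, rfl⟩, ?_⟩
          have hc : (c : ℕ) < u₀.length := by rw [hlen]; exact c.isLt
          have h6 : u₀.getD c 0 = u₀[(c : ℕ)] := by simp [List.getD_eq_getElem?_getD, hc]
          show u₀.getD c 0 ∈ G
          rw [h6]
          exact (hmemu _).1 (List.getElem_mem _)
        | none =>
          right
          refine ⟨rfl, ?_⟩
          have hc : s + (a : ℕ) < l.length := by have := a.isLt; omega
          have h6 : l.getD (s + a) 0 = l[s + (a : ℕ)] := by simp [List.getD_eq_getElem?_getD, hc]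
          show l.getD (s + a) 0 ∈ _ ∧ l.getD (s + a) 0 ∉ _
          rw [h6]
          obtain ⟨j, hj⟩ := hl _ (List.getElem_mem hc)
          rw [← hj]
          exact ⟨⟨c₀ + j, rfl⟩, hc₀ j⟩
      have hent1 := hent 0 (by omega)
      have hent2 := hent (ar i) (by omega)
      refine (hs _ _ ?_ ?_ ?_ ?_).1 h2
      · intro a
        rcases hent1 a with ⟨-, h⟩ | ⟨-, h, -⟩
        · exact Or.inl h
        · exact Or.inr h
      · intro a
        rcases hent2 a with ⟨-, h⟩ | ⟨-, h, -⟩
        · exact Or.inl h
        · exact Or.inr h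
      · intro a ha
        rcases hent1 a with ⟨⟨c, hc⟩, -⟩ | ⟨hT, -, h6⟩
        · unfold mk
          rw [hc]
        · rcases hent2 a with ⟨⟨c, hc⟩, -⟩ | ⟨-, -, h7⟩
          · rw [hT] at hc
            exact absurd hc (by simp)
          · rcases ha with ha | ha
            · exact absurd ha h6
            · exact absurd ha h7
      · intro a b
        rw [h4, h5]

/-- **One symbol.** -/
theorem supp_or_cond {R : Str ar} (hR : Fpr R) (i : ℕ)
    (h : ∀ G : Finset ℕ, G.card + 2 ≤ ar i →
      ∃ α : ℕ → ℕ, Primrec α ∧ Function.Injective α ∧ SymOver R i G (Set.range α)) :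
    Cond R ∨ ∃ F : Finset ℕ, Supp R i F := by
  classical
  by_cases hc : Cond R
  · exact Or.inl hc
  right
  have claim : ∀ k, ∃ N, ∀ G : Finset ℕ, G.card < k → SymOver R i G {x | N < x} := by
    intro k
    induction k with
    | zero => exact ⟨0, fun G hG => absurd hG (Nat.not_lt_zero _)⟩
    | succ k ih =>
      obtain ⟨N, hN⟩ := ih
      have hnw : ∀ G : Finset ℕ, G.card = k → ¬ Wild R i G := by
        intro G hG hW
        apply hc
        by_cases hk : ar i < k + 2
        · exact Or.inr (Or.inl (splitAtom_of_wild hN hG hW hk))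
        · obtain ⟨α, hα, hi, hs⟩ := h G (by omega)
          exact Or.inr (Or.inr (Or.inr (avoided_of_wild hR hN hG hW hα hi hs)))
      have hex : ∀ G : Finset ℕ, ∃ M, G.card = k → SymOver R i G {x | M < x} := by
        intro G
        by_cases hG : G.card = k
        · have h1 := hnw G hG
          unfold Wild at h1
          push Not at h1
          obtain ⟨M, hM⟩ := h1
          exact ⟨M, fun _ => hM⟩
        · exact ⟨0, fun h => absurd h hG⟩
      choose m hm using hex
      refine ⟨N + ∑ G ∈ (Finset.range (N + 1)).powerset, m G, fun G hG => ?_⟩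
      rcases Nat.lt_or_ge G.card k with h1 | h1
      · refine (hN G h1).mono ?_
        intro x hx
        have hx : N + ∑ G ∈ (Finset.range (N + 1)).powerset, m G < x := hx
        show N < x
        omega
      · have hGk : G.card = k := by omega
        by_cases hsub : G ⊆ Finset.range (N + 1)
        · refine (hm G hGk).mono ?_
          intro x hx
          have hx : N + ∑ G ∈ (Finset.range (N + 1)).powerset, m G < x := hx
          have h2 : m G ≤ ∑ G ∈ (Finset.range (N + 1)).powerset, m G :=
            Finset.single_le_sum (f := m) (fun _ _ => Nat.zero_le _) (Finset.mem_powerset.2 hsub)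
          show m G < x
          omega
        · obtain ⟨g, hg, hgN⟩ := Finset.not_subset.1 hsub
          refine (symOver_of_big hN hGk hg (by rw [Finset.mem_range] at hgN; omega)).mono ?_
          intro x hx
          have hx : N + ∑ G ∈ (Finset.range (N + 1)).powerset, m G < x := hx
          show N < x
          omega
  obtain ⟨N, hN⟩ := claim (ar i + 1)
  refine ⟨Finset.range (N + 1), fun x y hx hy v => ?_⟩
  have hx : N < x := by simpa using hx
  have hy : N < y := by simpa using hy
  let G : Finset ℕ := (Finset.univ.image v).filter (fun z => z ≤ N)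
  have hG : G.card < ar i + 1 := by
    have h1 : G.card ≤ (Finset.univ.image v).card := Finset.card_filter_le _ _
    have h2 : (Finset.univ.image v).card ≤ ar i := by
      refine Finset.card_image_le.trans ?_
      rw [Finset.card_univ, Fintype.card_fin]
    omega
  have hGm : ∀ a, v a ≤ N → v a ∈ (G : Set ℕ) := fun a ha =>
    Finset.mem_coe.2 (Finset.mem_filter.2 ⟨Finset.mem_image_of_mem v (Finset.mem_univ a), ha⟩)
  have hGN : ∀ z, z ∈ (G : Set ℕ) → z ≤ N := fun z hz => (Finset.mem_filter.1 (Finset.mem_coe.1 hz)).2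
  have hsw : ∀ z, z ≤ N → Equiv.swap x y z = z := fun z hz =>
    Equiv.swap_apply_of_ne_of_ne (by omega) (by omega)
  have hsw' : ∀ z, N < z → N < Equiv.swap x y z := by
    intro z hz
    by_cases h3 : z = x
    · rw [h3, Equiv.swap_apply_left]; exact hy
    · by_cases h4 : z = y
      · rw [h4, Equiv.swap_apply_right]; exact hx
      · rw [Equiv.swap_apply_of_ne_of_ne h3 h4]; exact hz
  refine hN G hG v _ ?_ ?_ ?_ ?_
  · intro a
    rcases Nat.lt_or_ge N (v a) with h1 | h1
    · exact Or.inr h1
    · exact Or.inl (hGm a h1)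
  · intro a
    rcases Nat.lt_or_ge N (v a) with h1 | h1
    · exact Or.inr (hsw' _ h1)
    · left
      show Equiv.swap x y (v a) ∈ _
      rw [hsw _ h1]
      exact hGm a h1
  · intro a ha
    show v a = Equiv.swap x y (v a)
    rcases Nat.lt_or_ge N (v a) with h1 | h1
    · rcases ha with ha | ha
      · exact absurd (hGN _ ha) (by omega)
      · have h2 := hsw' _ h1
        have h3 : Equiv.swap x y (v a) ≤ N := hGN _ ha
        omega
    · rw [hsw _ h1]
  · intro a b
    exact (Equiv.swap x y).injective.eq_iff.symm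

end Pool.Agent.Lib.MP_36da60_lc.Desc
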