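import Pool.Agent.Lib.MP_36da60_lc.DescI27

/-!
# Primitive recursive sequences for every symbol
-/

set_option autoImplicit false

namespace Pool.Agent.Lib.MP_36da60_lc.Desc

variable {ar : ℕ → ℕ}

/-- The sequence `α` is indiscernible for the relation with number `i`: its truth on a tuple of
members of the sequence depends only on the order of their indices. -/
def OrderIndiscernible (R : Str ar) (i : ℕ) (α : ℕ → ℕ) : Prop :=
  ∀ v w : Fin (ar i) → ℕ, (∀ k l, v k < v l ↔ w k < w l) → (R i (α ∘ v) ↔ R i (α ∘ w))

/-- For every symbol `i`: either its arity is at most two and some primitive recursive injective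
sequence is indiscernible for it, or over every set `G` with `|G| + 2 ≤ ar i` some primitive
recursive injective sequence is symmetric for it. -/
def HasSequences (R : Str ar) : Prop :=
  ∀ i, (ar i ≤ 2 ∧ ∃ α : ℕ → ℕ, Primrec α ∧ Function.Injective α ∧ OrderIndiscernible R i α) ∨
    ∀ G : Finset ℕ, G.card + 2 ≤ ar i →
      ∃ α : ℕ → ℕ, Primrec α ∧ Function.Injective α ∧ SymOver R i G (Set.range α)

theorem OrderIndiscernible.tup {R : Str ar} {i : ℕ} {α : ℕ → ℕ} (hs : OrderIndiscernible R i α)
    {x y x' y' : ℕ} (h : x < y ↔ x' < y') (h' : y < x ↔ y' < x') :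
    R i (tup (α x) (α y)) ↔ R i (tup (α x') (α y')) := by
  rw [← comp_tup α, ← comp_tup α]
  refine hs _ _ fun k l => ?_
  unfold Desc.tup
  by_cases hk : k.val = 0 <;> by_cases hl : l.val = 0 <;>
    simp only [hk, hl, if_true, if_false, lt_irrefl]
  · exact h
  · exact h'

/-- arity at most two and an indiscernible sequence -/
theorem supp_or_cond_of_indiscernible {R : Str ar} (hR : Fpr R) {i : ℕ} (h2 : ar i ≤ 2)
    {α : ℕ → ℕ} (hα : Primrec α) (hi : Function.Injective α) (hs : OrderIndiscernible R i α) :
    Cond R ∨ ∃ F : Finset ℕ, Supp R i F := by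
  have hmap : ∀ (f : ℕ → ℕ), IsIso R R f → ∀ x y,
      (R i (tup (f x) (f y)) ↔ R i (tup x y)) := fun f hf x y => by
    rw [← comp_tup f]
    exact (hf.2 i _).symm
  by_cases hasym : R i (tup (α 0) (α 1)) ↔ R i (tup (α 1) (α 0))
  · refine supp_or_cond hR i fun G hG => ⟨α, hα, hi, ?_⟩
    have hG0 : G = ∅ := Finset.card_eq_zero.1 (by omega)
    subst hG0
    intro v w hv hw _ hvw
    have hv' : ∀ k, ∃ a, α a = v k := fun k => (hv k).resolve_left (by simp)
    have hw' : ∀ k, ∃ a, α a = w k := fun k => (hw k).resolve_left (by simp)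
    choose a ha using hv'
    choose b hb using hw'
    obtain rfl : α ∘ a = v := funext ha
    obtain rfl : α ∘ b = w := funext hb
    have hab : ∀ k l, a k = a l ↔ b k = b l := fun k l => by
      have := hvw k l
      simp only [Function.comp_apply] at this
      rwa [hi.eq_iff, hi.eq_iff] at this
    have hn : ¬ ar i ≤ 1 := by omega
    obtain ⟨x, y, hxy⟩ := eq_tup h2 a
    obtain ⟨x', y', hxy'⟩ := eq_tup h2 b
    have h01 := hab ⟨0, by omega⟩ ⟨1, by omega⟩
    rw [hxy, hxy'] at h01
    have h01' : x = y ↔ x' = y' := by simpa [Desc.tup] using h01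
    rw [hxy, hxy', comp_tup, comp_tup]
    have hT1 : ∀ x y, x < y → (R i (tup (α x) (α y)) ↔ R i (tup (α 0) (α 1))) := fun x y h =>
      hs.tup (by omega) (by omega)
    have hT2 : ∀ x y, y < x → (R i (tup (α x) (α y)) ↔ R i (tup (α 0) (α 1))) := fun x y h =>
      (hs.tup (x' := 1) (y' := 0) (by omega) (by omega)).trans hasym.symm
    rcases lt_trichotomy x y with h3 | h3 | h3
    · rcases lt_trichotomy x' y' with h4 | h4 | h4
      · exact (hT1 x y h3).trans (hT1 x' y' h4).symm
      · exact absurd (h01'.2 h4) (by omega)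
      · exact (hT1 x y h3).trans (hT2 x' y' h4).symm
    · have h4 := h01'.1 h3
      exact hs.tup (by omega) (by omega)
    · rcases lt_trichotomy x' y' with h4 | h4 | h4
      · exact (hT2 x y h3).trans (hT1 x' y' h4).symm
      · exact absurd (h01'.2 h4) (by omega)
      · exact (hT2 x y h3).trans (hT2 x' y' h4).symm
  · left
    have key : {x : ℕ | (orbit R x).Finite}.Infinite ∨ Avoided R := by
      by_cases hc : R i (tup (α 0) (α 1))
      · have hc' : ¬ R i (tup (α 1) (α 0)) := fun h => hasym ⟨fun _ => h, fun _ => hc⟩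
        refine cond_of_ordered (E := fun x y => R i (tup x y)) (primrec_tup hR i)
          (fun f hf x y => hmap f hf x y) hα hi (fun j k hjk => ?_) (fun j k hjk => ?_)
        · exact (hs.tup (x := j) (y := k) (x' := 0) (y' := 1) (by omega) (by omega)).2 hc
        · exact fun h => hc' ((hs.tup (x := k) (y := j) (x' := 1) (y' := 0) (by omega)
            (by omega)).1 h)
      · have hc' : R i (tup (α 1) (α 0)) := by
          by_contra h
          exact hasym ⟨fun h' => absurd h' hc, fun h' => absurd h' h⟩
        refine cond_of_ordered (E := fun x y => R i (tup y x))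
          ((primrec_tup hR i).comp Primrec.snd Primrec.fst)
          (fun f hf x y => hmap f hf y x) hα hi (fun j k hjk => ?_) (fun j k hjk => ?_)
        · exact (hs.tup (x := k) (y := j) (x' := 1) (y' := 0) (by omega) (by omega)).2 hc'
        · exact fun h => hc ((hs.tup (x := j) (y := k) (x' := 0) (y' := 1) (by omega)
            (by omega)).1 h)
    rcases key with h | h
    · exact Or.inl h
    · exact Or.inr (Or.inr (Or.inr h))

/-- **The theorem for all arities.** -/
theorem cond_of_sequences {R : Str ar} (hR : Fpr R) (h : HasSequences R) (ht : ¬ AutTrivial R) :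
    Cond R := by
  by_contra hc
  refine ht (autTrivial_of_supp (fun i => ?_) fun hinf => hc (Or.inl hinf))
  rcases h i with ⟨h2, α, hα, hi, hs⟩ | h
  · exact (supp_or_cond_of_indiscernible hR h2 hα hi hs).resolve_left hc
  · exact (supp_or_cond hR i h).resolve_left hc

end Pool.Agent.Lib.MP_36da60_lc.Desc
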