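import Pool.Agent.Lib.MP_36da60_lc.InvK27

/-!
# Computably enumerable invariant relations avoided by a primitive recursive sequence
-/

set_option autoImplicit false

namespace Inv27

section hyper

open Denumerable

/-- `P` is computably enumerable -/
def CE (P : List ℕ → List ℕ → Prop) : Prop :=
  ∃ B : List ℕ × List ℕ → ℕ → Prop, PrimrecRel B ∧ ∀ u v, P u v ↔ ∃ t, B (u, v) t

theorem CE.of_primrec {P : List ℕ → List ℕ → Prop} (hP : PrimrecRel P) : CE P :=
  ⟨fun q _ => P q.1 q.2, hP.comp (Primrec.fst.comp Primrec.fst) (Primrec.snd.comp Primrec.fst),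
    fun _ _ => ⟨fun h => ⟨0, h⟩, fun ⟨_, h⟩ => h⟩⟩

/-- between `s` and `n` there is, for each of the first lists `u`, a list `v` enumerated with `u` -/
def CB (B : List ℕ × List ℕ → ℕ → Prop) (s n : ℕ) : Prop :=
  ∀ c < s + 1, ∃ d < n + 1, (∃ t < n + 1, B (ofNat (List ℕ) c, ofNat (List ℕ) d) t) ∧
    ∀ x ∈ ofNat (List ℕ) d, s < x ∧ x ≤ n

theorem primrec_CB {B : List ℕ × List ℕ → ℕ → Prop} (hB : PrimrecRel B) : PrimrecRel (CB B) := by
  have h1 : PrimrecRel (fun (x : ℕ) (q : ℕ × ℕ) => q.1 < x ∧ x ≤ q.2) :=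
    PrimrecPred.and (Primrec.nat_lt.comp (Primrec.fst.comp Primrec.snd) Primrec.fst)
      (Primrec.nat_le.comp Primrec.fst (Primrec.snd.comp Primrec.snd))
  have h2 := PrimrecRel.forall_mem_list h1
  have g1 : PrimrecRel (fun (t : ℕ) (q : List ℕ × List ℕ) => B q t) :=
    hB.comp Primrec.snd Primrec.fst
  have g2 := PrimrecRel.exists_mem_list g1
  have h3 : PrimrecRel (fun (d : ℕ) (q : ℕ × (ℕ × ℕ)) =>
      (∃ t ∈ List.range (q.2.2 + 1), B (ofNat (List ℕ) q.1, ofNat (List ℕ) d) t) ∧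
      ∀ x ∈ ofNat (List ℕ) d, q.2.1 < x ∧ x ≤ q.2.2) := by
    refine PrimrecPred.and ?_ ?_
    · exact g2.comp (Primrec.list_range.comp (Primrec.succ.comp (Primrec.snd.comp
        (Primrec.snd.comp Primrec.snd))))
        (((Primrec.ofNat (List ℕ)).comp (Primrec.fst.comp Primrec.snd)).pair
          ((Primrec.ofNat (List ℕ)).comp Primrec.fst))
    · exact h2.comp ((Primrec.ofNat (List ℕ)).comp Primrec.fst) (Primrec.snd.comp Primrec.snd)
  have h4 := PrimrecRel.exists_mem_list h3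
  have h5 : PrimrecRel (fun (c : ℕ) (q : ℕ × ℕ) => ∃ d ∈ List.range (q.2 + 1),
      (∃ t ∈ List.range (q.2 + 1), B (ofNat (List ℕ) c, ofNat (List ℕ) d) t) ∧
        ∀ x ∈ ofNat (List ℕ) d, q.1 < x ∧ x ≤ q.2) :=
    h4.comp (Primrec.list_range.comp (Primrec.succ.comp (Primrec.snd.comp Primrec.snd)))
      (Primrec.fst.pair Primrec.snd)
  have h6 := PrimrecRel.forall_mem_list h5
  have h7 : PrimrecRel (fun s n : ℕ => ∀ c ∈ List.range (s + 1), ∃ d ∈ List.range (n + 1),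
      (∃ t ∈ List.range (n + 1), B (ofNat (List ℕ) c, ofNat (List ℕ) d) t) ∧
        ∀ x ∈ ofNat (List ℕ) d, s < x ∧ x ≤ n) :=
    h6.comp (Primrec.list_range.comp (Primrec.succ.comp Primrec.fst))
      (Primrec.fst.pair Primrec.snd)
  refine h7.of_eq fun s n => ?_
  unfold CB
  simp only [List.mem_range]

theorem CB_eventually {P : List ℕ → List ℕ → Prop} {B : List ℕ × List ℕ → ℕ → Prop}
    (hB : ∀ u v, P u v ↔ ∃ t, B (u, v) t) (h : ∀ u N, ∃ v, P u v ∧ ∀ x ∈ v, N < x)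
    (s : ℕ) : ∃ n₀, ∀ n, n₀ ≤ n → CB B s n := by
  choose v hv1 hv2 using fun c => h (ofNat (List ℕ) c) s
  choose t ht using fun c => (hB _ _).1 (hv1 c)
  let b : ℕ → ℕ := fun c => Encodable.encode (v c) + (v c).sum + t c
  refine ⟨∑ c ∈ Finset.range (s + 1), b c, fun n hn c hc => ?_⟩
  have h1 : b c ≤ n := (Finset.single_le_sum (f := b) (fun _ _ => Nat.zero_le _)
    (Finset.mem_range.2 hc)).trans hn
  refine ⟨Encodable.encode (v c), by simp only [b] at h1; omega, ⟨t c, ?_, ?_⟩, ?_⟩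
  · simp only [b] at h1; omega
  · rw [Denumerable.ofNat_encode]; exact ht c
  · rw [Denumerable.ofNat_encode]
    intro x hx
    have h2 : x ≤ (v c).sum := List.single_le_sum (fun _ _ => Nat.zero_le _) x hx
    simp only [b] at h1
    exact ⟨hv2 c x hx, by omega⟩

/-- **Invariant families.** -/
theorem lower_of_hyper_ce (A : (ℕ → ℕ) → Prop) (hA : ∀ f, A f → Function.Bijective f)
    (slow : ∀ T : ℕ → ℕ, Computable T →
      ∃ h : ℕ → ℕ, Primrec h ∧ Function.Bijective h ∧ ∀ s i, h s = 2 * i → T i ≤ s)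
    {P : List ℕ → List ℕ → Prop} (hP : CE P)
    (hPinv : ∀ f, A f → ∀ u v, P u v → P (u.map f) (v.map f))
    (hPinf : ∀ u N, ∃ v, P u v ∧ ∀ x ∈ v, N < x)
    (u₀ : List ℕ) {Q : ℕ → Prop} (hQp : PrimrecPred Q)
    (hS : {x | ¬ Q x}.Infinite) {β : ℕ → ℕ} (hβ : Primrec β)
    (hb : ∀ i, Nat.nth (fun x => ¬ Q x) i ≤ β i)
    (hu : ∀ v, P u₀ v → ∃ x ∈ v, Q x) :
    ∃ f : ℕ → ℕ, Primrec f ∧ Function.Bijective f ∧
      (∃ τ : ℕ → ℕ, Primrec τ ∧ Function.Injective τ ∧ ∀ j, ¬ Q (f (τ j))) ∧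
      ∀ p : ℕ → ℕ, Primrec p → ¬ A (fun x => f (p x)) := by
  classical
  have hQ : {x | Q x}.Infinite := by
    refine Set.infinite_of_forall_exists_gt fun N => ?_
    obtain ⟨v, hv1, hv2⟩ := hPinf u₀ N
    obtain ⟨x, hx1, hx2⟩ := hu v hv1
    exact ⟨x, hx2, hv2 x hx1⟩
  obtain ⟨B, hBp, hBP⟩ := hP
  set E : ℕ → Prop := Ev (CB B) with hE
  have hEinf : {n | E n}.Infinite := Ev_infinite (CB_eventually hBP hPinf)
  have hEc : Computable (Nat.nth E) := computable_nth_pred (primrec_Ev (primrec_CB hBp)) hEinf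
  have hnQ := computable_nth_pred hQp hQ
  let T : ℕ → ℕ := fun i => ack i (Nat.nth E (2 * i)) + Nat.nth Q i
  have hT : Computable T :=
    Primrec.nat_add.to_comp.comp (computable₂_ack.comp Computable.id
      (hEc.comp (Primrec.nat_mul.comp (Primrec.const 2) Primrec.id).to_comp)) hnQ
  obtain ⟨h, hh, hhb, hhT⟩ := slow T hT
  have hTQ : ∀ s i, h s = 2 * i → Nat.nth Q i ≤ s := fun s i hs => by
    have := hhT s i hs
    simp only [T] at this
    omega
  refine ⟨fun s => psi Q (h s), primrec_psi hQp hQ hS hβ hb hh hTQ,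
    (psi_bijective hQ hS).comp hhb, ?_, ?_⟩
  · obtain ⟨τ, hτ, hτi, hτo⟩ := exists_odd_times hh hhb (fun s i hs => by
      have h1 := hhT s i hs
      have h2 := add_lt_ack i (Nat.nth E (2 * i))
      have h3 := (Nat.nth_strictMono hEinf).id_le (2 * i)
      simp only [T] at h1
      have h4 : 2 * i ≤ Nat.nth E (2 * i) := h3
      omega)
    refine ⟨τ, hτ, hτi, fun j => ?_⟩
    have h1 := hτo j
    show ¬ Q (psi Q (h (τ j)))
    unfold psi
    rw [if_neg (by omega)]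
    exact Nat.nth_mem_of_infinite (p := fun x => ¬ Q x) hS _
  intro p hp hAp
  have hσ := hA _ hAp
  obtain ⟨m, hm⟩ := exists_lt_ack_of_nat_primrec (Primrec.nat_iff.1 hp)
  set σ : ℕ → ℕ := fun x => psi Q (h (p x)) with hσd
  have hEm : StrictMono (Nat.nth E) := Nat.nth_strictMono hEinf
  -- the preimage of the parameter list
  obtain ⟨g, hg⟩ : ∃ g : ℕ → ℕ, ∀ x, σ (g x) = x := ⟨_, Function.surjInv_eq hσ.2⟩
  have hu1 : (u₀.map g).map σ = u₀ := by
    rw [List.map_map]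
    have : σ ∘ g = id := funext hg
    rw [this, List.map_id]
  set c : ℕ := Encodable.encode (u₀.map g) with hc
  let M : ℕ := m + c + 1
  -- for each event with number in `(c, 2 M]` there is a new element of `Q`
  have key : ∀ j, c < j → j ≤ 2 * M → ∃ x i, stg (CB B) (Nat.nth E j - 1) < x ∧ x ≤ Nat.nth E j ∧
      i < M ∧ σ x = Nat.nth Q i := by
    intro j hj1 hj2
    have hEj : E (Nat.nth E j) := Nat.nth_mem_of_infinite hEinf j
    have h1 : c < stg (CB B) (Nat.nth E j - 1) + 1 := by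
      have h2 : Nat.nth E (j - 1) < Nat.nth E j := hEm (by omega)
      have h3 : Nat.nth E (j - 1) ≤ stg (CB B) (Nat.nth E j - 1) :=
        (Nat.nth_mem_of_infinite hEinf (j - 1) : E _).lt h2
      have h4 : j - 1 ≤ Nat.nth E (j - 1) := hEm.id_le (j - 1)
      omega
    obtain ⟨d, -, ⟨t, -, hdt⟩, hd2⟩ := hEj.spec c h1
    have hd1 := (hBP _ _).2 ⟨t, hdt⟩
    rw [hc, Denumerable.ofNat_encode] at hd1
    have h5 := hPinv _ hAp _ _ hd1
    have h5' : P u₀ ((ofNat (List ℕ) d).map σ) := by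
      have h6 : (u₀.map g).map (fun x => psi Q (h (p x))) = u₀ := hu1
      rw [h6] at h5
      exact h5
    obtain ⟨y, hy1, hy2⟩ := hu _ h5'
    obtain ⟨x, hx, rfl⟩ := List.mem_map.1 hy1
    obtain ⟨hx1, hx2⟩ := hd2 x hx
    have hmod : (h (p x)) % 2 = 0 := by
      by_contra hne
      have h7 : σ x = Nat.nth (fun x => ¬ Q x) (h (p x) / 2) := by
        simp only [hσd, psi]
        rw [if_neg hne]
      rw [h7] at hy2
      exact (Nat.nth_mem_of_infinite (p := fun x => ¬ Q x) hS (h (p x) / 2)) hy2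
    refine ⟨x, h (p x) / 2, hx1, hx2, ?_, ?_⟩
    · have h8 := hhT (p x) (h (p x) / 2) (by omega)
      have h9 : p x < ack m x := hm x
      by_contra hle
      have h10 : M ≤ h (p x) / 2 := not_lt.1 hle
      have h11 : ack m x ≤ ack (h (p x) / 2) (Nat.nth E (2 * (h (p x) / 2))) := by
        refine (ack_mono_right m hx2).trans ((ack_mono_left _ (by omega)).trans
          (ack_mono_right _ (hEm.monotone (by omega))))
      simp only [T] at h8
      omega
    · simp only [hσd, psi]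
      rw [if_pos hmod]
  choose! X I hX using key
  obtain ⟨j, hj, j', hj', hne, heq⟩ := Finset.exists_ne_map_eq_of_card_lt_of_maps_to
    (s := Finset.Ioc c (2 * M)) (t := Finset.range M) (f := I)
    (by rw [Nat.card_Ioc, Finset.card_range]; omega)
    (fun j hj => by
      have hj := Finset.mem_Ioc.1 hj
      exact Finset.mem_range.2 (hX j hj.1 hj.2).2.2.1)
  have hj := Finset.mem_Ioc.1 hj
  have hj' := Finset.mem_Ioc.1 hj'
  obtain ⟨a1, a2, a3, a4⟩ := hX j hj.1 hj.2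
  obtain ⟨b1, b2, b3, b4⟩ := hX j' hj'.1 hj'.2
  have hxx : X j = X j' := hσ.1 (a4.trans ((congrArg (Nat.nth Q) heq).trans b4.symm))
  rcases lt_or_gt_of_ne hne with hlt | hlt
  · have h1 : Nat.nth E j ≤ stg (CB B) (Nat.nth E j' - 1) :=
      (Nat.nth_mem_of_infinite hEinf j : E _).lt (hEm hlt)
    omega
  · have h1 : Nat.nth E j' ≤ stg (CB B) (Nat.nth E j - 1) :=
      (Nat.nth_mem_of_infinite hEinf j' : E _).lt (hEm hlt)
    omega

end hyper

/-- **Invariant families avoided by a primitive recursive sequence.** -/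
theorem lower_of_avoid_ce (A : (ℕ → ℕ) → Prop) (hA : ∀ f, A f → Function.Bijective f)
    (slow : ∀ T : ℕ → ℕ, Computable T →
      ∃ h : ℕ → ℕ, Primrec h ∧ Function.Bijective h ∧ ∀ s i, h s = 2 * i → T i ≤ s)
    {P : List ℕ → List ℕ → Prop} (hP : CE P)
    (hPinv : ∀ f, A f → ∀ u v, P u v → P (u.map f) (v.map f))
    (hPinf : ∀ u N, ∃ v, P u v ∧ ∀ x ∈ v, N < x)
    (u₀ : List ℕ) {α : ℕ → ℕ} (hα : Primrec α) (hi : Function.Injective α)
    (hu : ∀ v, (∀ x ∈ v, x ∈ Set.range α) → ¬ P u₀ v) :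
    ∃ f : ℕ → ℕ, Primrec f ∧ Function.Bijective f ∧
      (∃ τ : ℕ → ℕ, Primrec τ ∧ Function.Injective τ ∧ ∀ j, f (τ j) ∈ Set.range α) ∧
      ∀ p : ℕ → ℕ, Primrec p → ¬ A (fun x => f (p x)) := by
  classical
  obtain ⟨g, hg, hgm, hgα⟩ := exists_increasing hα hi
  let Q : ℕ → Prop := fun x => ¬ ∃ j < x + 1, g j = x
  have hQn : ∀ x, ¬ Q x ↔ ∃ j, g j = x := by
    intro x
    simp only [Q, not_not]
    constructor
    · rintro ⟨j, -, h⟩; exact ⟨j, h⟩
    · rintro ⟨j, rfl⟩; exact ⟨j, Nat.lt_succ_of_le (hgm.id_le j), rfl⟩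
  have hQp : PrimrecPred Q := by
    have h1 : PrimrecRel (fun j x : ℕ => g j = x) :=
      Primrec.eq.comp (hg.comp Primrec.fst) Primrec.snd
    exact ((PrimrecRel.exists_lt h1).comp Primrec.succ Primrec.id).not
  have hS : {x | ¬ Q x}.Infinite := by
    refine (Set.infinite_range_of_injective hgm.injective).mono ?_
    rintro _ ⟨j, rfl⟩
    exact (hQn _).2 ⟨j, rfl⟩
  have hb : ∀ i, Nat.nth (fun x => ¬ Q x) i ≤ g i := by
    intro i
    have hcnt : ∀ i, i ≤ Nat.count (fun x => ¬ Q x) (g i) := by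
      intro i
      induction i with
      | zero => exact Nat.zero_le _
      | succ i ih =>
        have h1 : Nat.count (fun x => ¬ Q x) (g i + 1) = Nat.count (fun x => ¬ Q x) (g i) + 1 := by
          rw [Nat.count_succ, if_pos ((hQn _).2 ⟨i, rfl⟩)]
        have h2 := Nat.count_monotone (fun x => ¬ Q x) (hgm (Nat.lt_succ_self i))
        have h3 : Nat.count (fun x => ¬ Q x) (g i + 1) ≤ Nat.count (fun x => ¬ Q x) (g (i + 1)) :=
          h2
        omega
    have h4 : Nat.nth (fun x => ¬ Q x) (Nat.count (fun x => ¬ Q x) (g i)) = g i :=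
      Nat.nth_count (p := fun x => ¬ Q x) ((hQn _).2 ⟨i, rfl⟩)
    have h5 := (Nat.nth_strictMono (p := fun x => ¬ Q x) hS).monotone (hcnt i)
    rw [h4] at h5
    exact h5
  have hQα : ∀ x, ¬ Q x → x ∈ Set.range α := by
    intro x hx
    obtain ⟨j, hj⟩ := (hQn x).1 hx
    obtain ⟨i, hi⟩ := hgα j
    exact ⟨i, hi.symm.trans hj⟩
  obtain ⟨f, hf, hfb, ⟨τ, hτ, hτi, hτQ⟩, hfp⟩ :=
    lower_of_hyper_ce A hA slow hP hPinv hPinf u₀ hQp hS hg hb (by
      intro v hv
      by_contra hcon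
      push Not at hcon
      exact hu v (fun x hx => hQα x (hcon x hx)) hv)
  exact ⟨f, hf, hfb, ⟨τ, hτ, hτi, fun j => hQα _ (hτQ j)⟩, hfp⟩

end Inv27
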