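import Pool.Agent.Lib.MP_36da60_lc.DescJ27
import Pool.Agent.Lib.MP_36da60_lc.InvL27

/-!
# Computably enumerable invariant relations avoided by a primitive recursive sequence: one step down
-/

set_option autoImplicit false

namespace Pool.Agent.Lib.MP_36da60_lc.Desc

variable {ar : ℕ → ℕ}

/-- `P` is computably enumerable: for some primitive recursive `B`, `P u v` holds if and only if
`B (u, v) t` holds for some `t`. -/
def CE (P : List ℕ → List ℕ → Prop) : Prop :=
  ∃ B : List ℕ × List ℕ → ℕ → Prop, PrimrecRel B ∧ ∀ u v, P u v ↔ ∃ t, B (u, v) t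

/-- A computably enumerable relation `P` between finite lists is preserved by the automorphisms of
`R`; for every list `u` there are lists `v` with `P u v` and with arbitrarily large entries; and for
some list `u₀` and some primitive recursive injective sequence `α` no list `v` with entries in the
range of `α` satisfies `P u₀ v`. -/
def AvoidedCE (R : Str ar) : Prop :=
  ∃ (P : List ℕ → List ℕ → Prop) (u₀ : List ℕ) (α : ℕ → ℕ), CE P ∧
    (∀ f, IsIso R R f → ∀ u v, P u v → P (u.map f) (v.map f)) ∧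
    (∀ u N, ∃ v, P u v ∧ ∀ x ∈ v, N < x) ∧
    Primrec α ∧ Function.Injective α ∧ ∀ v, (∀ x ∈ v, x ∈ Set.range α) → ¬ P u₀ v

theorem Avoided.ce {R : Str ar} (h : Avoided R) : AvoidedCE R := by
  obtain ⟨P, u₀, α, hP, h⟩ := h
  exact ⟨P, u₀, α, Inv27.CE.of_primrec hP, h⟩

/-- One step down; the lower structure has the same property. -/
theorem step_down_avoidedCE {R : Str ar} (hR : Fpr R) (hA : AvoidedCE R) :
    ∃ S : Str ar, Fpr S ∧ Le S R ∧ ¬ Le R S ∧ AvoidedCE S := by
  obtain ⟨P, u₀, α, hP, hPinv, hPinf, hα, hαi, hu⟩ := hA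
  obtain ⟨f, hf, hfb, ⟨τ, hτ, hτi, hτα⟩, hfp⟩ := Inv27.lower_of_avoid_ce (fun g => IsIso R R g)
    (fun g hg => hg.1) (fun T hT => exists_slow hT) hP hPinv hPinf u₀ hα hαi hu
  have hfi : IsIso (fun i v => R i (f ∘ v) : Str ar) R f := ⟨hfb, fun _ _ => Iff.rfl⟩
  have e1 : ∀ x, (Equiv.ofBijective f hfb).symm (f x) = x :=
    (Equiv.ofBijective f hfb).symm_apply_apply
  have e2 : ∀ x, f ((Equiv.ofBijective f hfb).symm x) = x :=
    (Equiv.ofBijective f hfb).apply_symm_apply
  have e3 : ∀ l : List ℕ, (l.map (Equiv.ofBijective f hfb).symm).map f = l := by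
    intro l
    rw [List.map_map]
    have : f ∘ (Equiv.ofBijective f hfb).symm = id := funext e2
    rw [this, List.map_id]
  have hlm : Primrec (fun l : List ℕ => l.map f) :=
    Primrec.list_map Primrec.id (hf.comp₂ Primrec₂.right)
  refine ⟨fun i v => R i (f ∘ v), fpr_pull hR hf, ⟨f, hf, hfi⟩, ?_,
    fun u v => P (u.map f) (v.map f), u₀.map (Equiv.ofBijective f hfb).symm, τ, ?_, ?_, ?_, hτ, hτi,
    ?_⟩
  · rintro ⟨p, hp, hpi⟩
    exact hfp p hp (hpi.comp hfi)
  · obtain ⟨B, hB, hBP⟩ := hP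
    refine ⟨fun q t => B (q.1.map f, q.2.map f) t, ?_, fun u v => hBP _ _⟩
    exact hB.comp ((hlm.comp (Primrec.fst.comp Primrec.fst)).pair
      (hlm.comp (Primrec.snd.comp Primrec.fst))) Primrec.snd
  · intro g hg u v huv
    have haut : IsIso R R ((f ∘ g) ∘ (Equiv.ofBijective f hfb).symm) := hfi.symm.comp (hg.comp hfi)
    have h5 := hPinv _ haut _ _ huv
    have e4 : ∀ l : List ℕ, (l.map f).map ((f ∘ g) ∘ (Equiv.ofBijective f hfb).symm) =
        (l.map g).map f := by
      intro l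
      rw [List.map_map, List.map_map]
      congr 1
      funext x
      show f (g ((Equiv.ofBijective f hfb).symm (f x))) = f (g x)
      rw [e1]
    rw [e4, e4] at h5
    exact h5
  · intro u N
    obtain ⟨v, hv1, hv2⟩ := hPinf (u.map f) (∑ j ∈ Finset.range (N + 1), f j)
    refine ⟨v.map (Equiv.ofBijective f hfb).symm, ?_, ?_⟩
    · show P (u.map f) ((v.map (Equiv.ofBijective f hfb).symm).map f)
      rw [e3]; exact hv1
    intro y hy
    obtain ⟨x, hx, rfl⟩ := List.mem_map.1 hy
    by_contra hle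
    have h1 := Finset.single_le_sum (f := f) (fun _ _ => Nat.zero_le _)
      (Finset.mem_range.2 (Nat.lt_succ_of_le (not_lt.1 hle)) :
        (Equiv.ofBijective f hfb).symm x ∈ Finset.range (N + 1))
    have h2 := hv2 x hx
    rw [e2] at h1
    omega
  · intro v hv
    show ¬ P ((u₀.map (Equiv.ofBijective f hfb).symm).map f) (v.map f)
    rw [e3]
    refine hu _ ?_
    intro x hx
    obtain ⟨y, hy, rfl⟩ := List.mem_map.1 hx
    obtain ⟨j, rfl⟩ := hv y hy
    exact hτα j

/-- the three hereditary conditions -/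
def CondCE (R : Str ar) : Prop :=
  {x : ℕ | (orbit R x).Finite}.Infinite ∨ (∃ E : ℕ → ℕ → Prop, InvRelation R E) ∨ AvoidedCE R

theorem Cond.ce {R : Str ar} (hR : Fpr R) (h : Cond R) : CondCE R := by
  rcases h with h | h | h | h
  · exact Or.inl h
  · obtain ⟨χ, hχ⟩ := colouring_of_split hR h
    exact Or.inr (Or.inl ⟨_, invRelation_of_colouring hχ⟩)
  · exact Or.inr (Or.inl h)
  · exact Or.inr (Or.inr h.ce)

/-- One step down. -/
theorem step_condCE {R : Str ar} (hR : Fpr R) (h : CondCE R) :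
    ∃ S : Str ar, Fpr S ∧ Le S R ∧ ¬ Le R S ∧ CondCE S := by
  rcases h with h | ⟨E, h⟩ | h
  · obtain ⟨S, h1, h2, h3⟩ := step_down hR h
    exact ⟨S, h1, h2, h3, Or.inl (infinite_of_isom h2.isom.symm h)⟩
  · obtain ⟨S, h1, h2, h3, h4⟩ := step_down_relation hR h
    exact ⟨S, h1, h2, h3, Or.inr (Or.inl h4)⟩
  · obtain ⟨S, h1, h2, h3, h4⟩ := step_down_avoidedCE hR h
    exact ⟨S, h1, h2, h3, Or.inr (Or.inr h4)⟩

end Pool.Agent.Lib.MP_36da60_lc.Desc
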