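import Pool.Agent.Lib.MP_36da60_lc.DescK27

/-!
# Relations with few completions
-/

set_option autoImplicit false

namespace Pool.Agent.Lib.MP_36da60_lc.Desc

variable {ar : ℕ → ℕ}

/-- Some relation of `R` holds for injective tuples with arbitrarily large entries, while the number
of ways to complete given entries at all places but one to such a tuple is bounded by a primitive
recursive function of a bound of the entries. -/
def FewCompletions (R : Str ar) : Prop :=
  ∃ (i : ℕ) (h : ℕ → ℕ), Primrec h ∧ 1 < ar i ∧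
    (∀ m, ∃ v : Fin (ar i) → ℕ, R i v ∧ Function.Injective v ∧ ∀ k, m < v k) ∧
    ∀ (j : Fin (ar i)) (w : Fin (ar i) → ℕ) (m : ℕ), (∀ l, l ≠ j → w l ≤ m) →
      {x | R i (Function.update w j x) ∧ Function.Injective (Function.update w j x)}.encard ≤
        (h m : ℕ∞)

/-- all lists of length `k` with entries in `L` -/
def tl : ℕ → List ℕ → List (List ℕ)
  | 0, _ => [[]]
  | k + 1, L => L.flatMap (fun a => (tl k L).map (fun v => a :: v))

theorem mem_tl {k : ℕ} {L v : List ℕ} : v ∈ tl k L ↔ v.length = k ∧ ∀ a ∈ v, a ∈ L := by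
  induction k generalizing v with
  | zero =>
    simp only [tl, List.mem_singleton]
    constructor
    · rintro rfl; simp
    · rintro ⟨h, -⟩; exact List.length_eq_zero_iff.1 h
  | succ k ih =>
    simp only [tl, List.mem_flatMap, List.mem_map]
    constructor
    · rintro ⟨a, ha, w, hw, rfl⟩
      obtain ⟨h1, h2⟩ := ih.1 hw
      refine ⟨by simp [h1], ?_⟩
      intro b hb
      rcases List.mem_cons.1 hb with rfl | hb
      · exact ha
      · exact h2 b hb
    · rintro ⟨h1, h2⟩
      cases v with
      | nil => simp at h1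
      | cons a w =>
        refine ⟨a, h2 a (by simp), w, ih.2 ⟨by simpa using h1, fun b hb => h2 b (by simp [hb])⟩, rfl⟩

theorem primrec_tl (k : ℕ) : Primrec (tl k) := by
  induction k with
  | zero => exact Primrec.const [[]]
  | succ k ih =>
    have h1 : Primrec (fun L : List ℕ => L.flatMap (fun a => (tl k L).map (fun v => a :: v))) := by
      refine Primrec.list_flatMap Primrec.id ?_
      refine Primrec.list_map (ih.comp Primrec.fst) ?_
      exact Primrec.list_cons.comp (Primrec.snd.comp Primrec.fst) Primrec.snd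
    exact h1

/-- the tuple of the entries of a list -/
def ent {n : ℕ} (v : List ℕ) : Fin n → ℕ := fun a => v.getD a 0

theorem ent_map {n : ℕ} {v : List ℕ} (f : ℕ → ℕ) (hv : n ≤ v.length) :
    (ent (v.map f) : Fin n → ℕ) = f ∘ ent v := by
  funext a
  have hc : (a : ℕ) < v.length := by have := a.isLt; omega
  simp [ent, List.getD_eq_getElem?_getD, hc]

theorem ent_ofFn {n : ℕ} (v : Fin n → ℕ) : ent (List.ofFn v) = v := by
  funext a
  simp [ent, List.getD_eq_getElem?_getD]

theorem ent_mem {n : ℕ} {v : List ℕ} (hv : n ≤ v.length) (a : Fin n) : ent v a ∈ v := by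
  have hc : (a : ℕ) < v.length := by have := a.isLt; omega
  have h : ent v a = v[(a : ℕ)] := by simp [ent, List.getD_eq_getElem?_getD, hc]
  rw [h]
  exact List.getElem_mem hc

/-- an injective tuple in the relation -/
def Hit (R : Str ar) (i : ℕ) (v : List ℕ) : Prop :=
  (∀ a b : Fin (ar i), ent v a = ent v b → a = b) ∧ R i (ent v)

theorem primrec_Hit {R : Str ar} (hR : Fpr R) (i : ℕ) : PrimrecPred (Hit R i) := by
  obtain ⟨D, hD, hDR⟩ := hR
  have he : ∀ a : Fin (ar i), Primrec (fun v : List ℕ => (ent v a : ℕ)) := fun a =>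
    (Primrec.list_getD 0).comp Primrec.id (Primrec.const (a : ℕ))
  refine PrimrecPred.and ?_ ?_
  · refine primrecPred_forall_fin fun a => primrecPred_forall_fin fun b => ?_
    have h1 : PrimrecPred (fun v : List ℕ => (ent v a : ℕ) = ent v b) := Primrec.eq.comp (he a) (he b)
    by_cases hab : a = b
    · have h : PrimrecPred (fun _ : List ℕ => (0 : ℕ) = 0) :=
        Primrec.eq.comp (Primrec.const 0) (Primrec.const 0)
      exact h.of_eq fun v => by simp [hab]
    · exact h1.not.of_eq fun v => by simp [hab]
  · have h1 : PrimrecPred (fun v : List ℕ => D i (List.ofFn (ent v : Fin (ar i) → ℕ)) = true) :=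
      Primrec.eq.comp (hD.comp (Primrec.const i) (Primrec.list_ofFn fun a => he a))
        (Primrec.const true)
    exact h1.of_eq fun v => hDR i _

/-- no injective tuple from `L` is in the relation -/
def Free (R : Str ar) (i : ℕ) (L : List ℕ) : Prop := ∀ v ∈ tl (ar i) L, ¬ Hit R i v

theorem primrec_Free {R : Str ar} (hR : Fpr R) (i : ℕ) : PrimrecPred (Free R i) := by
  have h1 := PrimrecPred.forall_mem_list (primrec_Hit hR i).not
  exact h1.comp (primrec_tl (ar i))

/-- the bound for the next element -/
def bd (n : ℕ) (h : ℕ → ℕ) (L : List ℕ) : ℕ := L.length + n * (L.length ^ n * h L.sum)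

theorem exists_next {R : Str ar} {i : ℕ} {h : ℕ → ℕ} (hi : 1 < ar i)
    (hc : ∀ (j : Fin (ar i)) (w : Fin (ar i) → ℕ) (m : ℕ), (∀ l, l ≠ j → w l ≤ m) →
      {x | R i (Function.update w j x) ∧ Function.Injective (Function.update w j x)}.encard ≤
        (h m : ℕ∞)) (L : List ℕ) (hL : Free R i L) :
    ∃ x, x ≤ bd (ar i) h L ∧ x ∉ L ∧ Free R i (x :: L) := by
  classical
  by_contra hcon
  push Not at hcon
  have hfin : ∀ (j : Fin (ar i)) (w : Fin (ar i) → ℕ), (∀ l, w l ∈ L) →
      {x | R i (Function.update w j x) ∧ Function.Injective (Function.update w j x)}.Finite ∧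
      {x | R i (Function.update w j x) ∧ Function.Injective (Function.update w j x)}.ncard ≤
        h L.sum := by
    intro j w hw
    have h1 := hc j w L.sum fun l _ => List.single_le_sum (fun _ _ => Nat.zero_le _) _ (hw l)
    have h2 := Set.finite_of_encard_le_coe h1
    refine ⟨h2, ?_⟩
    rw [← h2.cast_ncard_eq] at h1
    exact_mod_cast h1
  let C : Fin (ar i) → (Fin (ar i) → ℕ) → Finset ℕ := fun j w =>
    if hw : ∀ l, w l ∈ L then (hfin j w hw).1.toFinset else ∅
  have hC : ∀ j w, (C j w).card ≤ h L.sum := by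
    intro j w
    by_cases hw : ∀ l, w l ∈ L
    · have h1 : C j w = (hfin j w hw).1.toFinset := dif_pos hw
      rw [h1, ← Set.ncard_eq_toFinset_card _ (hfin j w hw).1]
      exact (hfin j w hw).2
    · have h1 : C j w = ∅ := dif_neg hw
      rw [h1]; simp
  let W : Finset (Fin (ar i) → ℕ) := Fintype.piFinset fun _ => L.toFinset
  have hWc : W.card ≤ L.length ^ ar i := by
    rw [Fintype.card_piFinset_const]
    exact Nat.pow_le_pow_left (List.toFinset_card_le L) _
  let Bs : Finset ℕ := L.toFinset ∪ Finset.univ.biUnion (fun j => W.biUnion (fun w => C j w))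
  have hBc : Bs.card ≤ bd (ar i) h L := by
    refine (Finset.card_union_le _ _).trans (Nat.add_le_add (List.toFinset_card_le L) ?_)
    refine Finset.card_biUnion_le.trans ?_
    have h1 : ∀ j : Fin (ar i), (W.biUnion (fun w => C j w)).card ≤ L.length ^ ar i * h L.sum := by
      intro j
      refine Finset.card_biUnion_le.trans ?_
      refine (Finset.sum_le_card_nsmul W _ (h L.sum) (fun w _ => hC j w)).trans ?_
      rw [smul_eq_mul]
      exact Nat.mul_le_mul_right _ hWc
    refine (Finset.sum_le_card_nsmul _ _ _ (fun j _ => h1 j)).trans ?_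
    rw [smul_eq_mul, Finset.card_univ, Fintype.card_fin]
  have hsub : Finset.range (bd (ar i) h L + 1) ⊆ Bs := by
    intro x hx
    by_cases hxL : x ∈ L
    · exact Finset.mem_union_left _ (List.mem_toFinset.2 hxL)
    · have h1 := hcon x (Nat.lt_succ_iff.1 (Finset.mem_range.1 hx)) hxL
      unfold Free at h1
      push Not at h1
      obtain ⟨v, hv, hvi, hvR⟩ := h1
      obtain ⟨hvl, hvm⟩ := mem_tl.1 hv
      -- the place of `x`
      obtain ⟨j, hj⟩ : ∃ j : Fin (ar i), ent v j = x := by
        by_contra hno
        push Not at hno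
        apply hL v _ ⟨hvi, hvR⟩
        refine mem_tl.2 ⟨hvl, fun a ha => ?_⟩
        rcases List.mem_cons.1 (hvm a ha) with rfl | h2
        · obtain ⟨k, hk, hka⟩ := List.mem_iff_getElem.1 ha
          refine absurd ?_ (hno ⟨k, by omega⟩)
          simp [ent, List.getD_eq_getElem?_getD, hk, hka]
        · exact h2
      have hothers : ∀ l, l ≠ j → ent v l ∈ L := by
        intro l hl
        rcases List.mem_cons.1 (hvm _ (ent_mem (by omega) l)) with h2 | h2
        · exact absurd (hvi l j (h2.trans hj.symm)) hl
        · exact h2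
      obtain ⟨y, hyL⟩ : ∃ y, y ∈ L := by
        have : Nontrivial (Fin (ar i)) := Fin.nontrivial_iff_two_le.2 hi
        obtain ⟨l, hl⟩ := exists_ne j
        exact ⟨_, hothers l hl⟩
      let w : Fin (ar i) → ℕ := Function.update (ent v) j y
      have hw : ∀ l, w l ∈ L := by
        intro l
        by_cases hl : l = j
        · subst hl; simp only [w, Function.update_self]; exact hyL
        · simp only [w]; rw [Function.update_of_ne hl]; exact hothers l hl
      have hup : Function.update w j x = ent v := by
        simp only [w]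
        rw [Function.update_idem, ← hj, Function.update_eq_self]
      refine Finset.mem_union_right _ (Finset.mem_biUnion.2 ⟨j, Finset.mem_univ j,
        Finset.mem_biUnion.2 ⟨w, Fintype.mem_piFinset.2 fun l => List.mem_toFinset.2 (hw l), ?_⟩⟩)
      have h1 : C j w = (hfin j w hw).1.toFinset := dif_pos hw
      rw [h1, Set.Finite.mem_toFinset]
      show R i (Function.update w j x) ∧ Function.Injective (Function.update w j x)
      rw [hup]
      exact ⟨hvR, fun a b hab => hvi a b hab⟩
  have h1 := Finset.card_le_card hsub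
  rw [Finset.card_range] at h1
  omega

/-- the admissible next elements -/
def Adm (R : Str ar) (i : ℕ) (L : List ℕ) (x : ℕ) : Prop := x ∉ L ∧ Free R i (x :: L)

theorem primrec_Adm {R : Str ar} (hR : Fpr R) (i : ℕ) : PrimrecRel (Adm R i) := by
  refine PrimrecPred.and ?_ ?_
  · have h1 : PrimrecRel (fun (a x : ℕ) => ¬ x = a) :=
      (Primrec.eq.comp Primrec.snd Primrec.fst).not
    have h2 := PrimrecRel.forall_mem_list h1
    have h3 : PrimrecPred (fun q : List ℕ × ℕ => ∀ a ∈ q.1, ¬ q.2 = a) := h2
    exact h3.of_eq fun q => by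
      constructor
      · intro h3 h4; exact h3 q.2 h4 rfl
      · intro h3 a ha h4; exact h3 (h4 ▸ ha)
  · exact (primrec_Free hR i).comp (Primrec.list_cons.comp Primrec.snd Primrec.fst)

open Classical in
/-- the least admissible element -/
noncomputable def nx (R : Str ar) (i : ℕ) (h : ℕ → ℕ) (L : List ℕ) : ℕ :=
  (List.range (bd (ar i) h L + 1)).findIdx (fun x => decide (Adm R i L x))

theorem primrec_sum : Primrec (List.sum : List ℕ → ℕ) := by
  have h1 : Primrec (fun L : List ℕ => L.foldr (fun a b => a + b) 0) :=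
    Primrec.list_foldr Primrec.id (Primrec.const 0)
      (Primrec.nat_add.comp (Primrec.fst.comp Primrec.snd) (Primrec.snd.comp Primrec.snd)).to₂
  exact h1

theorem primrec_pow (n : ℕ) : Primrec (fun x : ℕ => x ^ n) := by
  induction n with
  | zero => exact (Primrec.const 1).of_eq fun x => (pow_zero x).symm
  | succ n ih => exact (Primrec.nat_mul.comp ih Primrec.id).of_eq fun x => (pow_succ x n).symm

theorem primrec_bd {n : ℕ} {h : ℕ → ℕ} (hh : Primrec h) : Primrec (bd n h) := by
  refine Primrec.nat_add.comp Primrec.list_length (Primrec.nat_mul.comp (Primrec.const n)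
    (Primrec.nat_mul.comp ((primrec_pow n).comp Primrec.list_length) (hh.comp primrec_sum)))

theorem primrec_nx {R : Str ar} (hR : Fpr R) (i : ℕ) {h : ℕ → ℕ} (hh : Primrec h) :
    Primrec (nx R i h) := by
  classical
  refine Primrec.list_findIdx (Primrec.list_range.comp (Primrec.succ.comp (primrec_bd hh))) ?_
  obtain ⟨_, h1⟩ := primrec_Adm hR i
  exact h1.of_eq fun q => by congr

theorem nx_spec {R : Str ar} {i : ℕ} {h : ℕ → ℕ} {L : List ℕ}
    (hex : ∃ x, x ≤ bd (ar i) h L ∧ Adm R i L x) : Adm R i L (nx R i h L) := by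
  classical
  obtain ⟨x, hx, hxa⟩ := hex
  have h1 : nx R i h L < (List.range (bd (ar i) h L + 1)).length := by
    refine List.findIdx_lt_length_of_exists ⟨x, by simpa [Nat.lt_succ_iff] using hx, ?_⟩
    simpa using hxa
  have h2 : decide (Adm R i L ((List.range (bd (ar i) h L + 1))[nx R i h L]'h1)) = true :=
    List.findIdx_getElem (w := h1)
  have h3 : (List.range (bd (ar i) h L + 1))[nx R i h L]'h1 = nx R i h L := List.getElem_range _
  rw [h3] at h2
  exact of_decide_eq_true h2

/-- the greedy lists -/
noncomputable def gl (R : Str ar) (i : ℕ) (h : ℕ → ℕ) : ℕ → List ℕ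
  | 0 => []
  | k + 1 => nx R i h (gl R i h k) :: gl R i h k

theorem primrec_gl {R : Str ar} (hR : Fpr R) (i : ℕ) {h : ℕ → ℕ} (hh : Primrec h) :
    Primrec (gl R i h) := by
  have h1 : Primrec (Nat.rec [] (fun _ L => nx R i h L :: L) : ℕ → List ℕ) := by
    refine Primrec.nat_rec₁ [] ?_
    exact (Primrec.list_cons.comp ((primrec_nx hR i hh).comp Primrec.snd) Primrec.snd).to₂
  refine h1.of_eq fun k => ?_
  induction k with
  | zero => rfl
  | succ k ih => simp only [gl, ← ih]

/-- **Relations with few completions are avoided by a primitive recursive sequence.** -/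
theorem avoided_of_few {R : Str ar} (hR : Fpr R) (hF : FewCompletions R) : Avoided R := by
  obtain ⟨i, h, hh, hi, hfar, hc⟩ := hF
  have hfree : ∀ k, Free R i (gl R i h k) := by
    intro k
    induction k with
    | zero =>
      intro v hv
      obtain ⟨h1, h2⟩ := mem_tl.1 hv
      cases v with
      | nil => simp at h1; omega
      | cons a w => exact absurd (h2 a (by simp)) (by simp [gl])
    | succ k ih => exact (nx_spec (exists_next hi hc _ ih)).2
  have hnot : ∀ k, nx R i h (gl R i h k) ∉ gl R i h k := fun k =>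
    (nx_spec (exists_next hi hc _ (hfree k))).1
  have hmono : ∀ j k, j ≤ k → ∀ x ∈ gl R i h j, x ∈ gl R i h k := by
    intro j k hjk
    induction k, hjk using Nat.le_induction with
    | base => exact fun x hx => hx
    | succ k _ ih => exact fun x hx => List.mem_cons_of_mem _ (ih x hx)
  let s : ℕ → ℕ := fun k => nx R i h (gl R i h k)
  have hs : ∀ j k, j < k → s j ∈ gl R i h k := fun j k hjk =>
    hmono (j + 1) k hjk _ (List.mem_cons_self)
  have hsi : Function.Injective s := by
    intro j k hjk
    rcases lt_trichotomy j k with hlt | rfl | hlt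
    · have h1 := hs j k hlt
      rw [hjk] at h1
      exact absurd h1 (hnot k)
    · rfl
    · have h1 := hs k j hlt
      rw [← hjk] at h1
      exact absurd h1 (hnot j)
  refine ⟨fun _ v => v.length = ar i ∧ Hit R i v, [], s, ?_, ?_, ?_,
    (primrec_nx hR i hh).comp (primrec_gl hR i hh), hsi, ?_⟩
  · exact PrimrecPred.and (Primrec.eq.comp (Primrec.list_length.comp Primrec.snd)
      (Primrec.const (ar i))) ((primrec_Hit hR i).comp Primrec.snd)
  · rintro f hf u v ⟨h1, h2, h3⟩
    refine ⟨by rw [List.length_map]; exact h1, fun a b hab => ?_, ?_⟩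
    · rw [ent_map f h1.ge] at hab
      exact h2 a b (hf.1.1 hab)
    · rw [ent_map f h1.ge]
      exact (hf.2 i (ent v)).1 h3
  · intro u N
    obtain ⟨v, hv1, hv2, hv3⟩ := hfar N
    refine ⟨List.ofFn v, ⟨by simp, ?_⟩, ?_⟩
    · refine ⟨fun a b hab => ?_, ?_⟩
      · rw [ent_ofFn] at hab; exact hv2 hab
      · rw [ent_ofFn]; exact hv1
    · intro x hx
      obtain ⟨k, rfl⟩ := List.mem_ofFn.1 hx
      exact hv3 k
  · rintro v hv ⟨h1, h2⟩
    obtain ⟨K, hK⟩ : ∃ K, ∀ x ∈ v, x ∈ gl R i h K := by
      clear h1 h2
      induction v with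
      | nil => exact ⟨0, by simp⟩
      | cons a w ih =>
        obtain ⟨K, hK⟩ := ih fun x hx => hv x (List.mem_cons_of_mem _ hx)
        obtain ⟨j, rfl⟩ := hv a List.mem_cons_self
        refine ⟨max K (j + 1), fun x hx => ?_⟩
        rcases List.mem_cons.1 hx with rfl | hx
        · exact hs j _ (by omega)
        · exact hmono _ _ (le_max_left _ _) _ (hK x hx)
    exact hfree K v (mem_tl.2 ⟨h1, hK⟩) h2

end Pool.Agent.Lib.MP_36da60_lc.Desc
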