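import Pool.Agent.Lib.MP_36da60_lc.EqE62

/-!
# fpr-degrees: structures with free new elements (I): the listing
-/

namespace Fpr62

theorem computable_find {β : Type*} [Primcodable β] {P : β → ℕ → Prop} (hP : PrimrecRel P)
    (hex : ∀ b, ∃ n, P b n) :
    ∃ s : β → ℕ, Computable s ∧ (∀ b, P b (s b)) ∧ ∀ b, ∀ m < s b, ¬ P b m := by
  classical
  obtain ⟨hd, hP'⟩ := hP
  have h0 : Computable (fun p : β × ℕ => @decide (P p.1 p.2) (Classical.propDecidable _)) :=
    hP'.to_comp.of_eq (fun p => by by_cases h : P p.1 p.2 <;> simp [h])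
  have h1 : Computable₂ (fun (b : β) (n : ℕ) => @decide (P b n) (Classical.propDecidable _)) := h0
  have h3 := Partrec.rfind h1.partrec₂
  refine ⟨fun b => Nat.find (hex b), ?_, fun b => Nat.find_spec (hex b),
    fun b m hm => Nat.find_min (hex b) hm⟩
  refine h3.of_eq_tot ?_
  intro b
  rw [Nat.mem_rfind]
  refine ⟨?_, ?_⟩
  · have := Nat.find_spec (hex b)
    simp [this]
  · intro m hm
    have := Nat.find_min (hex b) hm
    simp [this]

/-- the constant pattern: `c0` on the diagonal, `c` off the diagonal -/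
def Free (c0 c : Prop) (B : ℕ → ℕ → Prop) (L : List ℕ) (a : ℕ) : Prop :=
  (∀ y ∈ L, y ≠ a ∧ (B a y ↔ c) ∧ (B y a ↔ c)) ∧ (B a a ↔ c0)

theorem primrecPred_iff {β : Type*} [Primcodable β] {p : β → Prop} (hp : PrimrecPred p)
    (c : Prop) : PrimrecPred (fun b => (p b ↔ c)) := by
  classical
  by_cases hc : c
  · exact hp.of_eq fun b => by simp [hc]
  · exact (PrimrecPred.not hp).of_eq fun b => by simp [hc]

theorem primrec_Free (c0 c : Prop) {B : ℕ → ℕ → Prop} (hB : PrimrecRel B) :
    PrimrecRel (Free c0 c B) := by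
  have h1 : PrimrecRel (fun y a : ℕ => y ≠ a ∧ (B a y ↔ c) ∧ (B y a ↔ c)) := by
    refine PrimrecPred.and ?_ (PrimrecPred.and ?_ ?_)
    · exact PrimrecPred.not (Primrec.eq.comp Primrec.fst Primrec.snd)
    · exact primrecPred_iff (hB.comp Primrec.snd Primrec.fst) c
    · exact primrecPred_iff (hB.comp Primrec.fst Primrec.snd) c
  have h2 : PrimrecRel (fun (L : List ℕ) (a : ℕ) =>
      ∀ y ∈ L, y ≠ a ∧ (B a y ↔ c) ∧ (B y a ↔ c)) := PrimrecRel.forall_mem_list h1
  have h3 : PrimrecRel (fun (_ : List ℕ) (a : ℕ) => (B a a ↔ c0)) :=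
    primrecPred_iff (hB.comp Primrec.snd Primrec.snd) c0
  exact PrimrecPred.and h2 h3

theorem primrec_notMem : PrimrecRel (fun (L : List ℕ) (a : ℕ) => a ∉ L) := by
  have h1 : PrimrecRel (fun y a : ℕ => y ≠ a) :=
    PrimrecPred.not (Primrec.eq.comp Primrec.fst Primrec.snd)
  refine (PrimrecRel.forall_mem_list h1).of_eq ?_
  intro L a
  constructor
  · intro h ha; exact h a ha rfl
  · intro h y hy hya; exact h (hya ▸ hy)

/-- **The listing.**  If free new elements exist over every finite list, then there is a computable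
bijection `p` of `ℕ` such that `p (2k)` is free over all earlier values. -/
theorem exists_listing (c0 c : Prop) {B : ℕ → ℕ → Prop} (hB : PrimrecRel B)
    (hfree : ∀ L : List ℕ, ∃ a, Free c0 c B L a) :
    ∃ p : ℕ → ℕ, Computable p ∧ Function.Bijective p ∧
      (∀ k, (B (p (2 * k)) (p (2 * k)) ↔ c0)) ∧
      ∀ k, ∀ i < 2 * k, (B (p (2 * k)) (p i) ↔ c) ∧ (B (p i) (p (2 * k)) ↔ c) := by
  classical
  obtain ⟨s1, hs1, hs1P, -⟩ := computable_find (primrec_Free c0 c hB) hfree
  obtain ⟨s2, hs2, hs2P, hs2m⟩ := computable_find primrec_notMem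
    (fun L => by
      obtain ⟨a, ha⟩ := Infinite.exists_notMem_finset L.toFinset
      exact ⟨a, fun h => ha (List.mem_toFinset.2 h)⟩)
  let st : ℕ → List ℕ := fun n => Nat.rec (motive := fun _ => List ℕ) []
    (fun _ L => s2 (s1 L :: L) :: s1 L :: L) n
  have hst0 : st 0 = [] := rfl
  have hsts : ∀ k, st (k + 1) = s2 (s1 (st k) :: st k) :: s1 (st k) :: st k := fun k => rfl
  have hcons : Computable (fun L : List ℕ => s1 L :: L) :=
    Computable.list_cons.comp hs1 Computable.id
  have hstep : Computable (fun L : List ℕ => s2 (s1 L :: L) :: s1 L :: L) :=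
    Computable.list_cons.comp (hs2.comp hcons) hcons
  have hst : Computable st := by
    refine Computable.nat_rec (f := fun n : ℕ => n) (g := fun _ : ℕ => ([] : List ℕ))
      (h := fun _ q => s2 (s1 q.2 :: q.2) :: s1 q.2 :: q.2) Computable.id (Computable.const _) ?_
    exact hstep.comp (Computable.snd.comp Computable.snd)
  let p : ℕ → ℕ := fun n => if n % 2 = 0 then s1 (st (n / 2)) else s2 (s1 (st (n / 2)) :: st (n / 2))
  have hp0 : ∀ k, p (2 * k) = s1 (st k) := by
    intro k
    have h1 : (2 * k) % 2 = 0 := by omega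
    have h2 : (2 * k) / 2 = k := by omega
    simp only [p, h1, h2, if_true]
  have hp1 : ∀ k, p (2 * k + 1) = s2 (s1 (st k) :: st k) := by
    intro k
    have h1 : ¬ (2 * k + 1) % 2 = 0 := by omega
    have h2 : (2 * k + 1) / 2 = k := by omega
    simp only [p, h1, h2, if_false]
  have hhalf : Computable (fun n : ℕ => n / 2) :=
    (Primrec.nat_div.comp Primrec.id (Primrec.const 2)).to_comp
  have hp : Computable p := by
    have hpar : Computable (fun n : ℕ => decide (n % 2 = 0)) := by
      have : PrimrecPred (fun n : ℕ => n % 2 = 0) :=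
        Primrec.eq.comp (Primrec.nat_mod.comp Primrec.id (Primrec.const 2)) (Primrec.const 0)
      exact this.decide.to_comp
    refine (Computable.cond hpar (hs1.comp (hst.comp hhalf))
      (hs2.comp (hcons.comp (hst.comp hhalf)))).of_eq fun n => ?_
    by_cases h : n % 2 = 0 <;> simp [p, h]
  have hmem : ∀ k y, y ∈ st k ↔ ∃ i < 2 * k, p i = y := by
    intro k
    induction k with
    | zero => intro y; simp [hst0]
    | succ k ih =>
      intro y
      rw [hsts, List.mem_cons, List.mem_cons, ih, ← hp1, ← hp0]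
      constructor
      · rintro (h | h | ⟨i, hi, h⟩)
        · exact ⟨2 * k + 1, by omega, h.symm⟩
        · exact ⟨2 * k, by omega, h.symm⟩
        · exact ⟨i, by omega, h⟩
      · rintro ⟨i, hi, h⟩
        rcases (by omega : i = 2 * k + 1 ∨ i = 2 * k ∨ i < 2 * k) with h' | h' | h'
        · left; rw [← h, h']
        · right; left; rw [← h, h']
        · right; right; exact ⟨i, h', h⟩
  have hnew : ∀ n i, i < n → p i ≠ p n := by
    intro n i hi heq
    rcases (by omega : n = 2 * (n / 2) ∨ n = 2 * (n / 2) + 1) with h | h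
    · set k := n / 2
      have h1 : p i ∈ st k := (hmem k _).2 ⟨i, by omega, rfl⟩
      have h2 := ((hs1P (st k)).1 _ h1).1
      apply h2
      rw [heq, h, hp0]
    · set k := n / 2
      have h2 := hs2P (s1 (st k) :: st k)
      apply h2
      rw [← hp1, ← h, ← heq, List.mem_cons, hmem, ← hp0]
      rcases (by omega : i = 2 * k ∨ i < 2 * k) with h' | h'
      · left; rw [h']
      · right; exact ⟨i, h', rfl⟩
  have hinj : Function.Injective p := by
    intro a b hab
    rcases lt_trichotomy a b with h | h | h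
    · exact absurd hab (hnew b a h)
    · exact h
    · exact absurd hab.symm (hnew a b h)
  have hall : ∀ k, ∀ b < k, b ∈ st k := by
    intro k
    induction k with
    | zero => intro b hb; omega
    | succ k ih =>
      intro b hb
      rw [hsts, List.mem_cons, List.mem_cons]
      by_cases hbk : b < k
      · exact Or.inr (Or.inr (ih b hbk))
      · have hbk' : b = k := by omega
        subst hbk'
        by_cases hm : b ∈ s1 (st b) :: st b
        · exact Or.inr (List.mem_cons.1 hm)
        · left
          have h1 : s2 (s1 (st b) :: st b) ≤ b := by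
            by_contra hlt
            exact hs2m _ b (by omega) hm
          have h2 := hs2P (s1 (st b) :: st b)
          by_contra hne
          have h3 : s2 (s1 (st b) :: st b) < b := by omega
          exact h2 (List.mem_cons_of_mem _ (ih _ h3))
  have hsurj : Function.Surjective p := by
    intro b
    obtain ⟨i, -, hi⟩ := (hmem (b + 1) b).1 (hall (b + 1) b (by omega))
    exact ⟨i, hi⟩
  refine ⟨p, hp, ⟨hinj, hsurj⟩, fun k => ?_, fun k i hi => ?_⟩
  · rw [hp0]; exact (hs1P (st k)).2
  · have h1 : p i ∈ st k := (hmem k _).2 ⟨i, hi, rfl⟩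
    rw [hp0]
    exact ((hs1P (st k)).1 _ h1).2

end Fpr62
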