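import Pool.Agent.Lib.MP_36da60_lc.DomA62

/-!
# fpr-degrees: structures with free new elements (II): the delayed copy and the dichotomy
-/

namespace Fpr62

open Nat.Partrec (Code)

/-- the constant pattern: `c0` on the diagonal and `c` off the diagonal -/
def Pat {α : Type*} (c0 c : Prop) (x y : α) : Prop := (x = y ∧ c0) ∨ (x ≠ y ∧ c)

theorem pat_map {α β : Type*} (c0 c : Prop) {f : α → β} (hf : Function.Injective f) (x y : α) :
    Pat c0 c (f x) (f y) ↔ Pat c0 c x y := by
  unfold Pat
  rw [hf.eq_iff, hf.ne_iff]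

/-- the pair `(x, y)` does not follow the pattern -/
def Exc {α : Type*} (c0 c : Prop) (E : α → α → Prop) (x y : α) : Prop :=
  ¬ (E x y ↔ Pat c0 c x y)

theorem exc_map {α β : Type*} (c0 c : Prop) {E : α → α → Prop} {E' : β → β → Prop} {f : α → β}
    (hf : Function.Injective f) (hE : ∀ x y, E x y ↔ E' (f x) (f y)) (x y : α) :
    Exc c0 c E' (f x) (f y) ↔ Exc c0 c E x y := by
  unfold Exc
  rw [← hE, pat_map c0 c hf]

theorem primrec_const_pred {β : Type*} [Primcodable β] (c : Prop) :
    PrimrecPred (fun _ : β => c) :=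
  ⟨fun _ => Classical.propDecidable c, Primrec.const _⟩

theorem primrec_Pat (c0 c : Prop) {β : Type*} [Primcodable β] {f g : β → ℕ} (hf : Primrec f)
    (hg : Primrec g) : PrimrecPred (fun b => Pat c0 c (f b) (g b)) := by
  have h1 : PrimrecPred (fun b => f b = g b) := Primrec.eq.comp hf hg
  exact PrimrecPred.or (PrimrecPred.and h1 (primrec_const_pred c0))
    (PrimrecPred.and (PrimrecPred.not h1) (primrec_const_pred c))

theorem primrec_Exc (c0 c : Prop) {B : ℕ → ℕ → Prop} (hB : PrimrecRel B) :
    PrimrecPred (fun z : ℕ => Exc c0 c B z.unpair.1 z.unpair.2) := by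
  have h1 : PrimrecPred (fun z : ℕ => B z.unpair.1 z.unpair.2) :=
    hB.comp (Primrec.fst.comp Primrec.unpair) (Primrec.snd.comp Primrec.unpair)
  have h2 := primrec_Pat c0 c (Primrec.fst.comp Primrec.unpair) (Primrec.snd.comp Primrec.unpair)
  have h3 : PrimrecPred (fun z : ℕ => (B z.unpair.1 z.unpair.2 ∧ ¬ Pat c0 c z.unpair.1 z.unpair.2) ∨
      (¬ B z.unpair.1 z.unpair.2 ∧ Pat c0 c z.unpair.1 z.unpair.2)) :=
    PrimrecPred.or (PrimrecPred.and h1 (PrimrecPred.not h2)) (PrimrecPred.and (PrimrecPred.not h1) h2)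
  refine h3.of_eq fun z => ?_
  unfold Exc
  tauto

/-- at least `(2n)^2` pairs below `s` do not follow the pattern -/
def ExcFeat (c0 c : Prop) (B : ℕ → ℕ → Prop) (n s : ℕ) : Prop :=
  ∃ D : Finset (ℕ × ℕ), (2 * n) ^ 2 ≤ D.card ∧
    ∀ q ∈ D, q.1 < s ∧ q.2 < s ∧ Exc c0 c B q.1 q.2

theorem excFeat_transfer (c0 c : Prop) (B C : ℕ → ℕ → Prop) (h : ℕ → ℕ) (hb : Function.Bijective h)
    (hBC : ∀ x y, B x y ↔ C (h x) (h y)) (n s S : ℕ) (hS : ∀ x < s, h x < S)
    (hc : ExcFeat c0 c B n s) : ExcFeat c0 c C n S := by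
  classical
  obtain ⟨D, hD, hDs⟩ := hc
  refine ⟨D.image (Prod.map h h), ?_, ?_⟩
  · rw [Finset.card_image_of_injective _ (hb.1.prodMap hb.1)]
    exact hD
  · intro q hq
    obtain ⟨⟨x, y⟩, hxy, rfl⟩ := Finset.mem_image.1 hq
    obtain ⟨h1, h2, h3⟩ := hDs _ hxy
    exact ⟨hS x h1, hS y h2, (exc_map c0 c hb.1 hBC x y).2 h3⟩

/-! ## the delayed copy -/

/-- the position map: the `j`-th position of the sparse set is `2j+1`, the `k`-th other position
is `2k` -/
def pos (c : Code) (x : ℕ) : ℕ := if RR c x then 2 * cnt c x + 1 else 2 * (x - cnt c x)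

theorem primrec_pos (c : Code) : Primrec (pos c) := by
  refine Primrec.ite (primrec_RR c) ?_ ?_
  · exact Primrec.succ.comp (Primrec.nat_mul.comp (Primrec.const 2) (primrec_cnt c))
  · exact Primrec.nat_mul.comp (Primrec.const 2) (Primrec.nat_sub.comp Primrec.id (primrec_cnt c))

theorem pos_odd {c : Code} {x j : ℕ} (h : pos c x = 2 * j + 1) : RR c x ∧ cnt c x = j := by
  unfold pos at h
  by_cases hx : RR c x
  · rw [if_pos hx] at h
    exact ⟨hx, by omega⟩
  · rw [if_neg hx] at h
    omega

theorem pos_bijective {c : Code} (h1 : {x | RR c x}.Infinite) (h2 : {x | ¬ RR c x}.Infinite) :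
    Function.Bijective (pos c) := by
  classical
  have hcn : ∀ x, Nat.count (fun x => ¬ RR c x) x = x - cnt c x := by
    intro x
    have := count_not_RR c x
    omega
  constructor
  · intro x y hxy
    unfold pos at hxy
    by_cases hx : RR c x <;> by_cases hy : RR c y
    · rw [if_pos hx, if_pos hy] at hxy
      have h3 : Nat.count (RR c) x = Nat.count (RR c) y := by
        rw [count_RR, count_RR]; omega
      exact Nat.count_injective hx hy h3
    · rw [if_pos hx, if_neg hy] at hxy; omega
    · rw [if_neg hx, if_pos hy] at hxy; omega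
    · rw [if_neg hx, if_neg hy] at hxy
      have h3 : Nat.count (fun x => ¬ RR c x) x = Nat.count (fun x => ¬ RR c x) y := by
        rw [hcn, hcn]; omega
      exact Nat.count_injective (p := fun x => ¬ RR c x) hx hy h3
  · intro b
    rcases (by omega : b = 2 * (b / 2) ∨ b = 2 * (b / 2) + 1) with h | h
    · refine ⟨Nat.nth (fun x => ¬ RR c x) (b / 2), ?_⟩
      have h3 : ¬ RR c (Nat.nth (fun x => ¬ RR c x) (b / 2)) :=
        Nat.nth_mem_of_infinite (p := fun x => ¬ RR c x) h2 _
      have h4 : Nat.count (fun x => ¬ RR c x) (Nat.nth (fun x => ¬ RR c x) (b / 2)) = b / 2 :=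
        Nat.count_nth_of_infinite (p := fun x => ¬ RR c x) h2 _
      unfold pos
      rw [if_neg h3, ← hcn, h4]
      exact h.symm
    · refine ⟨Nat.nth (RR c) (b / 2), ?_⟩
      have h3 : RR c (Nat.nth (RR c) (b / 2)) := Nat.nth_mem_of_infinite h1 _
      have h4 : Nat.count (RR c) (Nat.nth (RR c) (b / 2)) = b / 2 :=
        Nat.count_nth_of_infinite h1 _
      unfold pos
      rw [if_pos h3, ← count_RR, h4]
      exact h.symm

/-- **The delayed copy.** -/
theorem exists_delayed_free (c0 c : Prop) {B : ℕ → ℕ → Prop} (hB : PrimrecRel B)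
    (hfree : ∀ L : List ℕ, ∃ a, Free c0 c B L a) (G : ℕ → ℕ) (hG : Computable G) :
    ∃ (B' : ℕ → ℕ → Prop) (g : ℕ → ℕ), PrimrecRel B' ∧ Function.Bijective g ∧
      (∀ x y, B x y ↔ B' (g x) (g y)) ∧ ∀ n, ¬ ExcFeat c0 c B' (n + 1) (G n) := by
  classical
  obtain ⟨p, hp, hpb, hp0, hp1⟩ := exists_listing c0 c hB hfree
  -- the table
  have hw : ∃ w : ℕ → ℕ, Computable w ∧ ∀ z, w z = 1 ↔ B (p z.unpair.1) (p z.unpair.2) := by
    obtain ⟨hd, hBp⟩ := hB
    refine ⟨fun z => cond (@decide (B (p z.unpair.1) (p z.unpair.2)) (Classical.propDecidable _))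
      1 0, ?_, ?_⟩
    · refine Computable.cond ?_ (Computable.const 1) (Computable.const 0)
      have h1 : Computable (fun z : ℕ => (p z.unpair.1, p z.unpair.2)) :=
        (hp.comp (Computable.fst.comp Primrec.unpair.to_comp)).pair
          (hp.comp (Computable.snd.comp Primrec.unpair.to_comp))
      refine (hBp.to_comp.comp h1).of_eq fun z => ?_
      by_cases h : B (p z.unpair.1) (p z.unpair.2) <;> simp [h]
    · intro z
      by_cases h : B (p z.unpair.1) (p z.unpair.2) <;> simp [h]
  obtain ⟨w, hwc, hwB⟩ := hw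
  obtain ⟨d, hd⟩ := Code.exists_code.1 (Partrec.nat_iff.1 hwc)
  have hdw : ∀ z, Code.eval d z = Part.some (w z) := by
    intro z; rw [hd]; rfl
  -- the time to compute one entry
  have hP : PrimrecRel (fun z k : ℕ => (Code.evaln k d z).isSome = true) := by
    have h1 : Primrec (fun q : ℕ × ℕ => Code.evaln q.2 d q.1) :=
      Code.primrec_evaln.comp ((Primrec.snd.pair (Primrec.const d)).pair Primrec.fst)
    have h2 : Primrec (fun q : ℕ × ℕ => (Code.evaln q.2 d q.1).isSome) :=
      Primrec.option_isSome.comp h1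
    exact Primrec.eq.comp h2 (Primrec.const true)
  obtain ⟨u, hu, huP, -⟩ := computable_find hP (fun z => by
    have h1 : w z ∈ Code.eval d z := by rw [hdw]; exact Part.mem_some _
    obtain ⟨k, hk⟩ := Code.evaln_complete.1 h1
    have h2 : Code.evaln k d z = some (w z) := hk
    exact ⟨k, by rw [h2]; rfl⟩)
  have hval : ∀ z k, u z ≤ k → val d k z = w z := by
    intro z k hk
    obtain ⟨v, hv⟩ := Option.isSome_iff_exists.1 (huP z)
    have h1 : v ∈ Code.evaln (u z) d z := hv
    have h2 := Code.evaln_mono hk h1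
    have h3 := Code.evaln_sound h1
    rw [hdw] at h3
    have h4 : v = w z := by simpa using h3
    have h5 : Code.evaln k d z = some v := h2
    unfold val
    rw [h5, h4]
    rfl
  -- cumulated time
  let cum : ℕ → ℕ := fun n => Nat.rec (motive := fun _ => ℕ) 0 (fun i s => s + u i) n
  have hcum : Computable cum := by
    refine Computable.nat_rec (f := fun n : ℕ => n) (g := fun _ : ℕ => (0 : ℕ))
      (h := fun _ q => q.2 + u q.1) Computable.id (Computable.const _) ?_
    exact Primrec.nat_add.to_comp.comp (Computable.snd.comp Computable.snd)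
      (hu.comp (Computable.fst.comp Computable.snd))
  have hcums : ∀ n, cum (n + 1) = cum n + u n := fun n => rfl
  have hcumu : ∀ n i, i < n → u i ≤ cum n := by
    intro n
    induction n with
    | zero => intro i hi; omega
    | succ n ih =>
      intro i hi
      rw [hcums]
      rcases (by omega : i < n ∨ i = n) with h | h
      · have := ih i h; omega
      · rw [h]; omega
  -- the function to be dominated
  have hsq : Computable (fun j : ℕ => (2 * j + 2) * (2 * j + 2)) := by
    have h1 : Primrec (fun j : ℕ => 2 * j + 2) :=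
      Primrec.nat_add.comp (Primrec.nat_mul.comp (Primrec.const 2) Primrec.id) (Primrec.const 2)
    exact (Primrec.nat_mul.comp h1 h1).to_comp
  have hlin : Computable (fun j : ℕ => 2 * j + 2) :=
    (Primrec.nat_add.comp (Primrec.nat_mul.comp (Primrec.const 2) Primrec.id)
      (Primrec.const 2)).to_comp
  let t : ℕ → ℕ := fun j => cum ((2 * j + 2) * (2 * j + 2)) + (G j + (2 * j + 2))
  have ht : Computable t :=
    Primrec.nat_add.to_comp.comp (hcum.comp hsq) (Primrec.nat_add.to_comp.comp hG hlin)
  obtain ⟨e, he⟩ := Code.exists_code.1 (Partrec.nat_iff.1 ht)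
  have het : ∀ j, Code.eval e j = Part.some (t j) := by
    intro j; rw [he]; rfl
  have ht1 : ∀ j, 2 * j + 2 ≤ t j := fun j => by simp only [t]; omega
  have ht2 : ∀ j, G j ≤ t j := fun j => by simp only [t]; omega
  have ht3 : ∀ j, cum ((2 * j + 2) * (2 * j + 2)) ≤ t j := fun j => by simp only [t]; omega
  have hR := RR_infinite het
  have hR' := not_RR_infinite het ht1
  have hpb' := pos_bijective hR hR'
  let B' : ℕ → ℕ → Prop := fun x y =>
    ((max (pos e x) (pos e y)) % 2 = 0 ∧ Pat c0 c (pos e x) (pos e y)) ∨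
    (¬ (max (pos e x) (pos e y)) % 2 = 0 ∧ val d (max x y) (Nat.pair (pos e x) (pos e y)) = 1)
  have hB' : PrimrecRel B' := by
    have hx : Primrec (fun q : ℕ × ℕ => pos e q.1) := (primrec_pos e).comp Primrec.fst
    have hy : Primrec (fun q : ℕ × ℕ => pos e q.2) := (primrec_pos e).comp Primrec.snd
    have hpar : PrimrecPred (fun q : ℕ × ℕ => (max (pos e q.1) (pos e q.2)) % 2 = 0) :=
      Primrec.eq.comp (Primrec.nat_mod.comp (Primrec.nat_max.comp hx hy) (Primrec.const 2))
        (Primrec.const 0)
    have hv : PrimrecPred (fun q : ℕ × ℕ =>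
        val d (max q.1 q.2) (Nat.pair (pos e q.1) (pos e q.2)) = 1) :=
      Primrec.eq.comp ((primrec_val d).comp (Primrec.nat_max.comp Primrec.fst Primrec.snd)
        (Primrec₂.natPair.comp hx hy)) (Primrec.const 1)
    exact PrimrecPred.or (PrimrecPred.and hpar (primrec_Pat c0 c hx hy))
      (PrimrecPred.and (PrimrecPred.not hpar) hv)
  -- even maximum: the pattern
  have heven : ∀ a b, (max a b) % 2 = 0 → (B (p a) (p b) ↔ Pat c0 c a b) := by
    intro a b hab
    rcases lt_trichotomy a b with h | h | h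
    · have h1 : max a b = b := max_eq_right h.le
      have h2 : b = 2 * (b / 2) := by omega
      have h3 := (hp1 (b / 2) a (by omega)).2
      rw [← h2] at h3
      rw [h3]
      unfold Pat
      have h4 : ¬ a = b := by omega
      simp [h4]
    · subst h
      have h2 : a = 2 * (a / 2) := by
        have : max a a = a := max_self a
        omega
      have h3 := hp0 (a / 2)
      rw [← h2] at h3
      rw [h3]
      unfold Pat
      simp
    · have h1 : max a b = a := max_eq_left h.le
      have h2 : a = 2 * (a / 2) := by omega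
      have h3 := (hp1 (a / 2) b (by omega)).1
      rw [← h2] at h3
      rw [h3]
      unfold Pat
      have h4 : ¬ a = b := by omega
      simp [h4]
  -- odd maximum: the computation has halted
  have hodd : ∀ x y, ¬ (max (pos e x) (pos e y)) % 2 = 0 →
      val d (max x y) (Nat.pair (pos e x) (pos e y)) = w (Nat.pair (pos e x) (pos e y)) := by
    intro x y hxy
    apply hval
    obtain ⟨j, hj⟩ : ∃ j, max (pos e x) (pos e y) = 2 * j + 1 :=
      ⟨max (pos e x) (pos e y) / 2, by omega⟩
    have h1 : Nat.pair (pos e x) (pos e y) < (2 * j + 2) * (2 * j + 2) := by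
      have := Nat.pair_lt_max_add_one_sq (pos e x) (pos e y)
      rw [hj, sq] at this
      exact this
    have h2 := hcumu _ _ h1
    have h3 := ht3 j
    have h4 : t j ≤ max x y := by
      rcases max_choice (pos e x) (pos e y) with h | h
      · rw [h] at hj
        obtain ⟨hr, hc⟩ := pos_odd hj
        have := (RR_t het hr).2
        rw [hc] at this
        exact this.trans (le_max_left _ _)
      · rw [h] at hj
        obtain ⟨hr, hc⟩ := pos_odd hj
        have := (RR_t het hr).2
        rw [hc] at this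
        exact this.trans (le_max_right _ _)
    omega
  have hB'B : ∀ x y, B' x y ↔ B (p (pos e x)) (p (pos e y)) := by
    intro x y
    by_cases h : (max (pos e x) (pos e y)) % 2 = 0
    · rw [heven _ _ h]
      simp only [B', h, true_and, not_true_eq_false, false_and, or_false]
    · have h1 := hwB (Nat.pair (pos e x) (pos e y))
      rw [Nat.unpair_pair] at h1
      simp only [B', h, false_and, not_false_eq_true, true_and, false_or]
      rw [hodd x y h]
      exact h1
  -- the isomorphism
  let φ : ℕ ≃ ℕ := (Equiv.ofBijective (pos e) hpb').trans (Equiv.ofBijective p hpb)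
  have hφ : ∀ x, φ x = p (pos e x) := fun x => rfl
  refine ⟨B', φ.symm, hB', φ.symm.bijective, fun x y => ?_, fun n hn => ?_⟩
  · rw [hB'B, ← hφ, ← hφ, φ.apply_symm_apply, φ.apply_symm_apply]
  · obtain ⟨D, hD, hDs⟩ := hn
    set m := Nat.count (RR e) (G n) with hm
    have hmn : m ≤ n := count_RR_le het ht2 n
    have hsub : D.image (Prod.map (pos e) (pos e)) ⊆
        Finset.range (2 * m) ×ˢ Finset.range (2 * m) := by
      intro q hq
      obtain ⟨⟨x, y⟩, hxy, rfl⟩ := Finset.mem_image.1 hq
      obtain ⟨h1, h2, h3⟩ := hDs _ hxy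
      have hoddm : ¬ (max (pos e x) (pos e y)) % 2 = 0 := by
        intro h
        apply h3
        rw [hB'B]
        rw [heven _ _ h]
        exact pat_map c0 c hpb'.1 x y
      obtain ⟨j, hj⟩ : ∃ j, max (pos e x) (pos e y) = 2 * j + 1 :=
        ⟨max (pos e x) (pos e y) / 2, by omega⟩
      have hjm : j + 1 ≤ m := by
        have hcnt : ∀ x0, x0 < G n → RR e x0 → cnt e x0 = j → j + 1 ≤ m := by
          intro x0 hx0 hr hc
          have h5 : Nat.count (RR e) (x0 + 1) = j + 1 := by
            rw [Nat.count_succ, count_RR, hc, if_pos hr]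
          rw [← h5, hm]
          exact Nat.count_monotone _ (by omega)
        rcases max_choice (pos e x) (pos e y) with h | h
        · rw [h] at hj
          obtain ⟨hr, hc⟩ := pos_odd hj
          exact hcnt x h1 hr hc
        · rw [h] at hj
          obtain ⟨hr, hc⟩ := pos_odd hj
          exact hcnt y h2 hr hc
      have h6 : pos e x ≤ 2 * j + 1 := hj ▸ le_max_left _ _
      have h7 : pos e y ≤ 2 * j + 1 := hj ▸ le_max_right _ _
      simp only [Prod.map_apply, Finset.mem_product, Finset.mem_range]
      omega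
    have hcard := Finset.card_le_card hsub
    rw [Finset.card_image_of_injective _ (hpb'.1.prodMap hpb'.1), Finset.card_product,
      Finset.card_range] at hcard
    have h8 : (2 * (n + 1)) ^ 2 ≤ (2 * n) * (2 * n) := by
      refine hD.trans (hcard.trans ?_)
      exact Nat.mul_le_mul (by omega) (by omega)
    nlinarith

end Fpr62
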