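import Pool.Agent.Lib.MP_36da60_lc.DomB62

/-!
# fpr-degrees: structures with free new elements (III): the dichotomy
-/

namespace Fpr62

/-- isomorphism by a finitely supported permutation when only finitely many pairs are exceptional -/
theorem fpr_iso_of_finite_exc (c0 c : Prop) {B C : ℕ → ℕ → Prop} (K : Finset ℕ)
    (hK : ∀ x y, Exc c0 c B x y → x ∈ K ∧ y ∈ K)
    {f : ℕ → ℕ} (hf : Function.Bijective f) (hfBC : ∀ x y, B x y ↔ C (f x) (f y)) :
    ∃ σ : Equiv.Perm ℕ, Primrec σ ∧ Primrec σ.symm ∧ ∀ x y, B x y ↔ C (σ x) (σ y) := by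
  classical
  obtain ⟨σ, hσ, hσ', hσK⟩ := exists_perm f hf.1 K
  refine ⟨σ, hσ, hσ', ?_⟩
  let e := Equiv.ofBijective f hf
  have hτ : ∀ x, f (e.symm (σ x)) = σ x := fun x => e.apply_symm_apply _
  have hτK : ∀ x ∈ K, e.symm (σ x) = x := by
    intro x hx
    apply hf.1
    rw [hτ, hσK x hx]
  have hτinj : ∀ x y, e.symm (σ x) = e.symm (σ y) ↔ x = y := by
    intro x y
    constructor
    · intro h; exact σ.injective (e.symm.injective h)
    · rintro rfl; rfl
  have hτmem : ∀ x, e.symm (σ x) ∈ K ↔ x ∈ K := by
    intro x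
    constructor
    · intro h
      have h1 := hτK _ h
      have h2 : e.symm (σ x) = x := (hτinj _ _).1 h1
      rw [← h2]; exact h
    · intro h; rw [hτK x h]; exact h
  have hpat : ∀ x y, Pat c0 c (e.symm (σ x)) (e.symm (σ y)) ↔ Pat c0 c x y := by
    intro x y
    unfold Pat
    rw [ne_eq, hτinj]
  have hnot : ∀ x y, (x ∉ K ∨ y ∉ K) → (B x y ↔ Pat c0 c x y) := by
    intro x y h
    by_contra hne
    have := hK x y hne
    rcases h with h | h
    · exact h this.1
    · exact h this.2
  intro x y
  rw [← hτ x, ← hτ y, ← hfBC]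
  by_cases h : x ∉ K ∨ y ∉ K
  · rw [hnot x y h, hnot _ _ (by rw [hτmem, hτmem]; exact h), hpat]
  · push Not at h
    rw [hτK x h.1, hτK y h.2]

/-- **Structures with free new elements.**  Let `(α, E)` be a structure with one binary relation
such that over every finite set there is a new element with the constant pattern.  Then it has no
fpr presentation, or only finitely many exceptional pairs and is fpr-categorical, or infinitely
many exceptional pairs and infinitely many fpr-degrees. -/
theorem free_dichotomy {α : Type*} (E : α → α → Prop) (c0 c : Prop)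
    (hfree : ∀ F : Finset α, ∃ a, a ∉ F ∧ (E a a ↔ c0) ∧ ∀ y ∈ F, (E a y ↔ c) ∧ (E y a ↔ c)) :
    (¬ ∃ B, IsPres E B) ∨
    ({q : α × α | Exc c0 c E q.1 q.2}.Finite ∧ FprCategorical E) ∨
    ({q : α × α | Exc c0 c E q.1 q.2}.Infinite ∧ ¬ FprCategorical E ∧ Infinite (Degrees E)) := by
  classical
  by_cases hex : ∃ B, IsPres E B
  swap
  · exact Or.inl hex
  right
  obtain ⟨B, hB⟩ := hex
  by_cases hfin : {q : α × α | Exc c0 c E q.1 q.2}.Finite
  · left
    refine ⟨hfin, fun C D hC hD => ?_⟩
    obtain ⟨h, hh, hCD⟩ := exists_iso hC hD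
    obtain ⟨-, f, hf, hfE⟩ := hC
    refine fpr_iso_of_finite_exc c0 c
      ((hfin.toFinset.image fun q => f q.1) ∪ (hfin.toFinset.image fun q => f q.2)) ?_ hh hCD
    intro x y hxy
    obtain ⟨a, rfl⟩ := hf.2 x
    obtain ⟨b, rfl⟩ := hf.2 y
    have h1 : Exc c0 c E a b := (exc_map c0 c hf.1 hfE a b).1 hxy
    have h2 : (a, b) ∈ hfin.toFinset := hfin.mem_toFinset.2 h1
    exact ⟨Finset.mem_union_left _ (Finset.mem_image.2 ⟨(a, b), h2, rfl⟩),
      Finset.mem_union_right _ (Finset.mem_image.2 ⟨(a, b), h2, rfl⟩)⟩
  · right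
    have hinf : {q : α × α | Exc c0 c E q.1 q.2}.Infinite := hfin
    have hdeg : Infinite (Degrees E) := by
      refine infinite_of_delay E (ExcFeat c0 c) (excFeat_transfer c0 c) ?_ ?_
      · intro C hC
        obtain ⟨q, hq, hqN⟩ := exists_bool (primrec_Exc c0 c hC.1)
        obtain ⟨-, f, hf, hfE⟩ := hC
        have hqi : {z | q z = true}.Infinite := by
          have hinj : Function.Injective (fun r : α × α => Nat.pair (f r.1) (f r.2)) := by
            rintro ⟨a, b⟩ ⟨a', b'⟩ h
            have h' := Nat.pair_eq_pair.1 h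
            exact Prod.ext (hf.1 h'.1) (hf.1 h'.2)
          refine (hinf.image (f := fun r : α × α => Nat.pair (f r.1) (f r.2))
            hinj.injOn).mono ?_
          rintro _ ⟨⟨a, b⟩, hab, rfl⟩
          refine (hqN _).2 ?_
          simp only [Nat.unpair_pair]
          exact (exc_map c0 c hf.1 hfE a b).2 hab
        have hsq : Computable (fun n : ℕ => (2 * n) ^ 2) := by
          have h1 : Primrec (fun n : ℕ => 2 * n) := Primrec.nat_mul.comp (Primrec.const 2) Primrec.id
          exact ((Primrec.nat_mul.comp h1 h1).of_eq fun n => by ring).to_comp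
        refine ⟨fun n => Nat.nth (fun z => q z = true) ((2 * n) ^ 2),
          (computable_nth hq.to_comp hqi).comp hsq, fun n => ?_⟩
        set T := Nat.nth (fun z => q z = true) ((2 * n) ^ 2) with hT
        have hcount : Nat.count (fun z => q z = true) T = (2 * n) ^ 2 :=
          Nat.count_nth_of_infinite hqi _
        rw [Nat.count_eq_card_filter_range] at hcount
        have hui : Function.Injective Nat.unpair := Nat.pairEquiv.symm.injective
        refine ⟨((Finset.range T).filter fun z => q z = true).image Nat.unpair, ?_, ?_⟩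
        · rw [Finset.card_image_of_injective _ hui, hcount]
        · intro r hr
          obtain ⟨z, hz, rfl⟩ := Finset.mem_image.1 hr
          obtain ⟨hz1, hz2⟩ := Finset.mem_filter.1 hz
          have hz3 := Finset.mem_range.1 hz1
          exact ⟨(Nat.unpair_left_le z).trans_lt hz3, (Nat.unpair_right_le z).trans_lt hz3,
            (hqN z).1 hz2⟩
      · intro G hG
        have hfreeB : ∀ L : List ℕ, ∃ a, Free c0 c B L a := by
          intro L
          obtain ⟨-, f, hf, hfE⟩ := hB
          let e := Equiv.ofBijective f hf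
          obtain ⟨a, ha, ha0, haF⟩ := hfree (L.toFinset.image e.symm)
          refine ⟨f a, fun y hy => ?_, ?_⟩
          · have hy' : e.symm y ∈ L.toFinset.image e.symm :=
              Finset.mem_image_of_mem _ (List.mem_toFinset.2 hy)
            have hey : f (e.symm y) = y := e.apply_symm_apply y
            obtain ⟨h1, h2⟩ := haF _ hy'
            rw [hfE, hey] at h1 h2
            refine ⟨?_, h1, h2⟩
            rintro rfl
            apply ha
            have h3 : e.symm (f a) = a := e.symm_apply_apply a
            rw [h3] at hy'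
            exact hy'
          · rw [← hfE]; exact ha0
        obtain ⟨B', g, hB', hg, hgB, hn⟩ := exists_delayed_free c0 c hB.1 hfreeB G hG
        exact ⟨B', hB.copy hB' hg hgB, hn⟩
    refine ⟨hinf, fun hc => ?_, hdeg⟩
    have := subsingleton_of_categorical hc
    exact not_finite (Degrees E)

end Fpr62
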