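import Mathlib

/-!
# fpr-degrees: definitions and the delay criterion
-/

namespace Fpr62

/-- `B` is an fpr presentation of the structure `(α, E)` with one binary relation: `B` is a
primitive recursive binary relation on all of `ℕ`, and `(ℕ, B)` is isomorphic to `(α, E)`. -/
def IsPres {α : Type*} (E : α → α → Prop) (B : ℕ → ℕ → Prop) : Prop :=
  PrimrecRel B ∧ ∃ f : α → ℕ, Function.Bijective f ∧ ∀ x y, E x y ↔ B (f x) (f y)

/-- `B ≤ C`: some primitive recursive function maps `(ℕ, B)` isomorphically onto `(ℕ, C)`. -/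
def LePr (B C : ℕ → ℕ → Prop) : Prop :=
  ∃ f : ℕ → ℕ, Primrec f ∧ Function.Bijective f ∧ ∀ x y, B x y ↔ C (f x) (f y)

theorem LePr.refl (B : ℕ → ℕ → Prop) : LePr B B :=
  ⟨id, Primrec.id, Function.bijective_id, fun _ _ => Iff.rfl⟩

theorem LePr.trans {B C D : ℕ → ℕ → Prop} (h : LePr B C) (h' : LePr C D) : LePr B D := by
  obtain ⟨f, hf, hb, he⟩ := h
  obtain ⟨g, hg, hb', he'⟩ := h'
  exact ⟨g ∘ f, hg.comp hf, hb'.comp hb, fun x y => (he x y).trans (he' _ _)⟩

/-- Two fpr presentations are equivalent if each is below the other. -/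
def prSetoid {α : Type*} (E : α → α → Prop) : Setoid {B : ℕ → ℕ → Prop // IsPres E B} where
  r B C := LePr B.1 C.1 ∧ LePr C.1 B.1
  iseqv :=
    { refl := fun B => ⟨LePr.refl _, LePr.refl _⟩
      symm := fun h => ⟨h.2, h.1⟩
      trans := fun h h' => ⟨h.1.trans h'.1, h'.2.trans h.2⟩ }

/-- The type of fpr-degrees of `(α, E)`. -/
def Degrees {α : Type*} (E : α → α → Prop) := Quotient (prSetoid E)

theorem computable_bound_finset {ι : Type*} (T : ι → ℕ → ℕ) (hT : ∀ i, Computable (T i))
    (s : Finset ι) : ∃ g : ℕ → ℕ, Computable g ∧ ∀ i ∈ s, ∀ n, T i n ≤ g n := by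
  classical
  induction s using Finset.induction_on with
  | empty => exact ⟨fun _ => 0, Computable.const 0, by simp⟩
  | insert a s ha ih =>
    obtain ⟨g, hg, hb⟩ := ih
    refine ⟨fun n => T a n + g n, Primrec.nat_add.to_comp.comp (hT a) hg, ?_⟩
    intro i hi n
    rcases Finset.mem_insert.1 hi with rfl | hi
    · exact Nat.le_add_right _ _
    · exact (hb i hi n).trans (Nat.le_add_left _ _)

theorem computable_bound {ι : Type*} [Finite ι] (T : ι → ℕ → ℕ) (hT : ∀ i, Computable (T i)) :
    ∃ g : ℕ → ℕ, Computable g ∧ ∀ i n, T i n ≤ g n := by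
  classical
  haveI := Fintype.ofFinite ι
  obtain ⟨g, hg, hb⟩ := computable_bound_finset T hT Finset.univ
  exact ⟨g, hg, fun i n => hb i (Finset.mem_univ i) n⟩

/-- **Delay criterion.** -/
theorem infinite_of_delay {α : Type*} (E : α → α → Prop)
    (Feat : (ℕ → ℕ → Prop) → ℕ → ℕ → Prop)
    (htr : ∀ B C : ℕ → ℕ → Prop, ∀ h : ℕ → ℕ, Function.Bijective h →
      (∀ x y, B x y ↔ C (h x) (h y)) → ∀ n s S, (∀ x < s, h x < S) → Feat B n s → Feat C n S)
    (hT : ∀ B, IsPres E B → ∃ T : ℕ → ℕ, Computable T ∧ ∀ n, Feat B n (T n))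
    (hD : ∀ G : ℕ → ℕ, Computable G → ∃ B, IsPres E B ∧ ∀ n, ¬ Feat B (n + 1) (G n)) :
    Infinite (Degrees E) := by
  classical
  by_contra hinf
  rw [not_infinite_iff_finite] at hinf
  choose T hTc hTf using fun d : Degrees E => hT (Quotient.out d).1 (Quotient.out d).2
  obtain ⟨g, hg, hgb⟩ := computable_bound T hTc
  have hg1 : Computable (fun n : ℕ => g (n + 1) + n) :=
    Primrec.nat_add.to_comp.comp (hg.comp Computable.succ) Computable.id
  obtain ⟨B', hB', hB'n⟩ := hD (fun n => ack (g (n + 1) + n) (g (n + 1) + n))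
    (computable₂_ack.comp hg1 hg1)
  have hex := Quotient.exact (Quotient.out_eq (Quotient.mk (prSetoid E) ⟨B', hB'⟩))
  obtain ⟨h, hh, hbij, hiso⟩ : LePr _ B' := hex.1
  obtain ⟨m, hm⟩ := exists_lt_ack_of_nat_primrec (Primrec.nat_iff.1 hh)
  refine hB'n m (htr _ _ h hbij hiso (m + 1) (T (Quotient.mk (prSetoid E) ⟨B', hB'⟩) (m + 1)) _
    ?_ (hTf (Quotient.mk (prSetoid E) ⟨B', hB'⟩) (m + 1)))
  intro x hx
  have h1 := hgb (Quotient.mk (prSetoid E) ⟨B', hB'⟩) (m + 1)
  refine (hm x).trans_le (ack_le_ack (by omega) ?_)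
  have : T (Quotient.mk (prSetoid E) ⟨B', hB'⟩) (m + 1) ≤ g (m + 1) := h1
  omega

/-! ## rearranging the natural numbers along two predicates -/

open Classical in
/-- The order preserving bijection `R → P` together with `¬ R → ¬ P`. -/
noncomputable def phi (R P : ℕ → Prop) (x : ℕ) : ℕ :=
  if R x then Nat.nth P (Nat.count R x)
  else Nat.nth (fun y => ¬ P y) (Nat.count (fun y => ¬ R y) x)

theorem phi_phi (R P : ℕ → Prop) (hP : {y | P y}.Infinite) (hP' : {y | ¬ P y}.Infinite) (x : ℕ) :
    phi P R (phi R P x) = x := by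
  classical
  by_cases hx : R x
  · have h1 : phi R P x = Nat.nth P (Nat.count R x) := by simp [phi, hx]
    have h2 : P (Nat.nth P (Nat.count R x)) := Nat.nth_mem_of_infinite hP _
    rw [h1]
    have h3 : Nat.count P (Nat.nth P (Nat.count R x)) = Nat.count R x :=
      Nat.count_nth_of_infinite hP _
    unfold phi
    rw [if_pos h2, h3, Nat.nth_count hx]
  · have h1 : phi R P x = Nat.nth (fun y => ¬ P y) (Nat.count (fun y => ¬ R y) x) := by
      simp [phi, hx]
    have h2 : ¬ P (Nat.nth (fun y => ¬ P y) (Nat.count (fun y => ¬ R y) x)) :=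
      Nat.nth_mem_of_infinite (p := fun y => ¬ P y) hP' _
    rw [h1]
    have h3 : Nat.count (fun y => ¬ P y)
        (Nat.nth (fun y => ¬ P y) (Nat.count (fun y => ¬ R y) x)) =
        Nat.count (fun y => ¬ R y) x :=
      Nat.count_nth_of_infinite (p := fun y => ¬ P y) hP' _
    unfold phi
    rw [if_neg h2, h3]
    exact Nat.nth_count (p := fun y => ¬ R y) hx

/-! ## computability of counting and enumerating -/

theorem computable_count {q : ℕ → Bool} (hq : Computable q) :
    Computable (fun n => Nat.count (fun x => q x = true) n) := by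
  have h : Computable (fun n : ℕ => (Nat.rec (motive := fun _ => ℕ) 0
      (fun k c => c + cond (q k) 1 0) n : ℕ)) := by
    refine Computable.nat_rec (f := fun n : ℕ => n) (g := fun _ : ℕ => (0 : ℕ))
      (h := fun _ p => p.2 + cond (q p.1) 1 0) Computable.id (Computable.const 0) ?_
    refine (Primrec.nat_add.to_comp.comp (Computable.snd.comp Computable.snd) ?_)
    exact Computable.cond (hq.comp (Computable.fst.comp Computable.snd))
      (Computable.const 1) (Computable.const 0)
  refine h.of_eq ?_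
  intro n
  induction n with
  | zero => simp
  | succ k ih =>
    rw [Nat.count_succ]
    simp only
    rw [ih]
    cases hqk : q k <;> simp

theorem computable_nth {q : ℕ → Bool} (hq : Computable q)
    (hinf : {x | q x = true}.Infinite) :
    Computable (Nat.nth (fun x => q x = true)) := by
  have h1 : Computable₂ (fun j k : ℕ => decide (j < Nat.count (fun x => q x = true) (k + 1))) := by
    have h2 : Primrec₂ (fun a b : ℕ => decide (a < b)) := Primrec.nat_lt.decide
    exact h2.to_comp.comp Computable.fst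
      ((computable_count hq).comp (Computable.succ.comp Computable.snd))
  have h3 := Partrec.rfind h1.partrec₂
  refine h3.of_eq_tot ?_
  intro j
  rw [Nat.mem_rfind]
  have hc : Nat.count (fun x => q x = true) (Nat.nth (fun x => q x = true) j) = j :=
    Nat.count_nth_of_infinite hinf j
  refine ⟨?_, ?_⟩
  · have h4 : q (Nat.nth (fun x => q x = true) j) = true :=
      Nat.nth_mem_of_infinite (p := fun x => q x = true) hinf j
    have h5 : Nat.count (fun x => q x = true) (Nat.nth (fun x => q x = true) j + 1) = j + 1 := by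
      rw [Nat.count_succ, hc]; simp [h4]
    simp [h5]
  · intro m hm
    have h6 : Nat.count (fun x => q x = true) (m + 1) ≤ j := by
      rw [← hc]
      exact Nat.count_monotone _ (by omega)
    simp only [PFun.coe_val, Part.mem_some_iff]
    symm
    rw [decide_eq_false_iff_not]
    omega

end Fpr62
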