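import Pool.Agent.Lib.MP_36da60_lc.EqA62

/-!
# fpr-degrees: the delayed copy
-/

namespace Fpr62

open Nat.Partrec (Code)

/-- value computed in `k` steps, `k + 1` if the computation is not finished -/
def val (c : Code) (k j : ℕ) : ℕ := ((Code.evaln k c j).getD (k + 1))

theorem primrec_val (c : Code) : Primrec₂ (val c) := by
  have h1 : Primrec (fun p : ℕ × ℕ => Code.evaln p.1 c p.2) :=
    Code.primrec_evaln.comp ((Primrec.fst.pair (Primrec.const c)).pair Primrec.snd)
  exact (Primrec.option_getD.comp h1 (Primrec.succ.comp Primrec.fst) :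
    Primrec (fun p : ℕ × ℕ => (Code.evaln p.1 c p.2).getD (p.1 + 1)))

/-- the counter -/
def cnt (c : Code) (k : ℕ) : ℕ :=
  Nat.rec (motive := fun _ => ℕ) 0 (fun k IH => if val c k IH ≤ k then IH + 1 else IH) k

theorem cnt_succ (c : Code) (k : ℕ) :
    cnt c (k + 1) = if val c k (cnt c k) ≤ k then cnt c k + 1 else cnt c k := rfl

theorem primrec_cnt (c : Code) : Primrec (cnt c) := by
  have h : Primrec₂ (fun k IH : ℕ => if val c k IH ≤ k then IH + 1 else IH) := by
    refine Primrec.ite ?_ (Primrec.succ.comp Primrec.snd) Primrec.snd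
    exact Primrec.nat_le.comp ((primrec_val c).comp Primrec.fst Primrec.snd) Primrec.fst
  exact Primrec.nat_rec₁ 0 h

/-- the sparse set: the times at which the counter moves -/
def RR (c : Code) (k : ℕ) : Prop := val c k (cnt c k) ≤ k

instance (c : Code) : DecidablePred (RR c) := fun k => by unfold RR; infer_instance

theorem primrec_RR (c : Code) : PrimrecPred (RR c) :=
  Primrec.nat_le.comp ((primrec_val c).comp Primrec.id (primrec_cnt c)) Primrec.id

theorem count_RR (c : Code) (k : ℕ) : Nat.count (RR c) k = cnt c k := by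
  induction k with
  | zero => rfl
  | succ k ih =>
    rw [Nat.count_succ, cnt_succ, ih]
    by_cases h : val c k (cnt c k) ≤ k
    · have : RR c k := h
      simp [this, h]
    · have : ¬ RR c k := h
      simp [this, h]

theorem count_not_RR (c : Code) (k : ℕ) :
    Nat.count (fun x => ¬ RR c x) k + cnt c k = k := by
  induction k with
  | zero => rfl
  | succ k ih =>
    rw [Nat.count_succ, cnt_succ]
    by_cases h : val c k (cnt c k) ≤ k
    · have : RR c k := h
      simp only [this, not_true_eq_false, if_false, h, if_true]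
      omega
    · have : ¬ RR c k := h
      simp only [this, not_false_eq_true, if_true, h, if_false]
      omega

section
variable {c : Code} {t : ℕ → ℕ} (hc : ∀ j, Code.eval c j = Part.some (t j))
include hc

theorem val_of_le {k j : ℕ} (h : val c k j ≤ k) : val c k j = t j ∧ t j ≤ k := by
  unfold val at h ⊢
  cases he : Code.evaln k c j with
  | none => rw [he] at h; simp at h
  | some v =>
    rw [he] at h
    have h1 : v ∈ Code.evaln k c j := by rw [he]; rfl
    have h2 := Code.evaln_sound h1
    rw [hc j] at h2
    have h3 : v = t j := by simpa using h2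
    simp only [Option.getD_some] at h ⊢
    exact ⟨h3, h3 ▸ h⟩

theorem exists_val (j : ℕ) : ∃ k0, ∀ k, k0 ≤ k → val c k j ≤ k := by
  have h1 : t j ∈ Code.eval c j := by rw [hc j]; exact Part.mem_some _
  obtain ⟨k0, hk0⟩ := Code.evaln_complete.1 h1
  refine ⟨max k0 (t j), fun k hk => ?_⟩
  have h2 : t j ∈ Code.evaln k c j := Code.evaln_mono (le_trans (le_max_left _ _) hk) hk0
  have h3 : Code.evaln k c j = some (t j) := h2
  unfold val
  rw [h3]
  simp only [Option.getD_some]
  exact le_trans (le_max_right _ _) hk

theorem RR_infinite : {k | RR c k}.Infinite := by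
  apply Set.infinite_of_forall_exists_gt
  intro N
  by_contra hno
  push Not at hno
  have hno' : ∀ k, N < k → ¬ RR c k := fun k hk hR => absurd hk (not_lt.2 (hno k hR))
  have hconst : ∀ i, cnt c (N + 1 + i) = cnt c (N + 1) := by
    intro i
    induction i with
    | zero => rfl
    | succ i ih =>
      have h1 : ¬ val c (N + 1 + i) (cnt c (N + 1 + i)) ≤ N + 1 + i := hno' (N + 1 + i) (by omega)
      rw [← add_assoc, cnt_succ, if_neg h1, ih]
  obtain ⟨k0, hk0⟩ := exists_val hc (cnt c (N + 1))
  refine hno' (N + 1 + k0) (by omega) ?_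
  unfold RR
  rw [hconst]
  exact hk0 _ (by omega)

theorem RR_t {k : ℕ} (h : RR c k) : val c k (cnt c k) = t (cnt c k) ∧ t (cnt c k) ≤ k :=
  val_of_le hc h

theorem not_RR_infinite (ht : ∀ j, 2 * j + 2 ≤ t j) : {k | ¬ RR c k}.Infinite := by
  apply Set.infinite_of_forall_exists_gt
  intro N
  by_contra hno
  push Not at hno
  have hno' : ∀ k, N < k → RR c k := by
    intro k hk
    by_contra hR
    exact absurd hk (not_lt.2 (hno k hR))
  have hgrow : ∀ i, cnt c (N + 1 + i) = cnt c (N + 1) + i := by
    intro i
    induction i with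
    | zero => rfl
    | succ i ih =>
      have h1 : val c (N + 1 + i) (cnt c (N + 1 + i)) ≤ N + 1 + i := hno' (N + 1 + i) (by omega)
      rw [← add_assoc, cnt_succ, if_pos h1, ih]
      omega
  have h2 := (RR_t hc (hno' (N + 1 + (N + 1)) (by omega))).2
  have h3 := ht (cnt c (N + 1 + (N + 1)))
  have h4 := hgrow (N + 1)
  omega

theorem count_RR_le {G : ℕ → ℕ} (ht : ∀ j, G j ≤ t j) (n : ℕ) :
    Nat.count (RR c) (G n) ≤ n := by
  by_contra hlt
  push Not at hlt
  have h1 := Nat.nth_lt_of_lt_count hlt
  have h2 : RR c (Nat.nth (RR c) n) := Nat.nth_mem_of_infinite (RR_infinite hc) n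
  have h3 : Nat.count (RR c) (Nat.nth (RR c) n) = n := Nat.count_nth_of_infinite (RR_infinite hc) n
  rw [count_RR] at h3
  have h4 := (RR_t hc h2).2
  rw [h3] at h4
  have := ht n
  omega

end

/-- **The delayed copy.** -/
theorem exists_delayed (κ : ℕ → ℕ) (hκ : Computable κ) (q : ℕ → Bool) (hq : Computable q)
    (hinf : {x | q x = true}.Infinite) (hinf' : {x | ¬ q x = true}.Infinite)
    (lam : ℕ → ℕ) (hlam : Primrec lam)
    (hκlam : ∀ k, κ (Nat.nth (fun x => ¬ q x = true) k) = lam k)
    (G : ℕ → ℕ) (hG : Computable G) :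
    ∃ (R : ℕ → Prop) (_ : DecidablePred R) (idx : ℕ → ℕ), Primrec idx ∧ {x | R x}.Infinite ∧
      {x | ¬ R x}.Infinite ∧ (∀ x, idx x = κ (phi R (fun x => q x = true) x)) ∧
      (∀ x, ¬ R x → idx x = lam (Nat.count (fun x => ¬ R x) x)) ∧
      ∀ n, Nat.count R (G n) ≤ n := by
  classical
  -- the function to be dominated
  have htc : Computable (fun j : ℕ => Nat.pair (κ (Nat.nth (fun x => q x = true) j))
      (G j + (2 * j + 2))) := by
    have h1 : Computable (fun j : ℕ => κ (Nat.nth (fun x => q x = true) j)) :=
      hκ.comp (computable_nth hq hinf)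
    have h2 : Computable (fun j : ℕ => G j + (2 * j + 2)) := by
      refine Primrec.nat_add.to_comp.comp hG ?_
      exact (Primrec.nat_add.comp (Primrec.nat_mul.comp (Primrec.const 2) Primrec.id)
        (Primrec.const 2)).to_comp
    exact Primrec₂.natPair.to_comp.comp h1 h2
  obtain ⟨c, hc'⟩ := Code.exists_code.1 (Partrec.nat_iff.1 htc)
  set t : ℕ → ℕ := fun j : ℕ => Nat.pair (κ (Nat.nth (fun x => q x = true) j))
      (G j + (2 * j + 2)) with htdef
  have hc : ∀ j, Code.eval c j = Part.some (t j) := by
    intro j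
    rw [hc']
    rfl
  have ht1 : ∀ j, G j + (2 * j + 2) ≤ t j := fun j => Nat.right_le_pair _ _
  have hR := RR_infinite hc
  have hR' := not_RR_infinite hc (fun j => by have := ht1 j; omega)
  refine ⟨RR c, inferInstance, fun x => if RR c x then (val c x (cnt c x)).unpair.1
      else lam (x - cnt c x), ?_, hR, hR', ?_, ?_, ?_⟩
  · refine Primrec.ite (primrec_RR c) ?_ ?_
    · exact Primrec.fst.comp (Primrec.unpair.comp ((primrec_val c).comp Primrec.id (primrec_cnt c)))
    · exact hlam.comp (Primrec.nat_sub.comp Primrec.id (primrec_cnt c))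
  · intro x
    by_cases hx : RR c x
    · have h1 := RR_t hc hx
      have h2 : phi (RR c) (fun x => q x = true) x = Nat.nth (fun x => q x = true) (cnt c x) := by
        unfold phi
        rw [if_pos hx, ← count_RR c x]
        congr
      simp only [hx, if_true]
      rw [h1.1, h2, htdef]
      simp
    · have h2 : phi (RR c) (fun x => q x = true) x =
          Nat.nth (fun x => ¬ q x = true) (x - cnt c x) := by
        have h3 : Nat.count (fun x => ¬ RR c x) x = x - cnt c x := by
          have := count_not_RR c x
          omega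
        unfold phi
        rw [if_neg hx, ← h3]
        congr
      simp only [hx, if_false]
      rw [h2, hκlam]
  · intro x hx
    have h3 : Nat.count (fun x => ¬ RR c x) x = x - cnt c x := by
      have := count_not_RR c x
      omega
    simp only [hx, if_false]
    rw [← h3]
  · intro n
    exact count_RR_le hc (fun j => by have := ht1 j; omega) n

end Fpr62
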