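import Pool.Agent.Lib.MP_36da60_lc.EqB62

/-!
# fpr-degrees of equivalence structures
-/

namespace Fpr62

/-! ## presentations -/

theorem equivalence_of_iso {α : Type*} {E : α → α → Prop} (hE : Equivalence E)
    {B : ℕ → ℕ → Prop} {f : α → ℕ} (hf : Function.Bijective f)
    (hfE : ∀ x y, E x y ↔ B (f x) (f y)) : Equivalence B := by
  constructor
  · intro x
    obtain ⟨a, rfl⟩ := hf.2 x
    exact (hfE a a).1 (hE.refl a)
  · intro x y h
    obtain ⟨a, rfl⟩ := hf.2 x
    obtain ⟨b, rfl⟩ := hf.2 y
    exact (hfE b a).1 (hE.symm ((hfE a b).2 h))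
  · intro x y z h h'
    obtain ⟨a, rfl⟩ := hf.2 x
    obtain ⟨b, rfl⟩ := hf.2 y
    obtain ⟨d, rfl⟩ := hf.2 z
    exact (hfE a d).1 (hE.trans ((hfE a b).2 h) ((hfE b d).2 h'))

/-- two presentations of the same structure are isomorphic -/
theorem exists_iso {α : Type*} {E : α → α → Prop} {B C : ℕ → ℕ → Prop}
    (hB : IsPres E B) (hC : IsPres E C) :
    ∃ h : ℕ → ℕ, Function.Bijective h ∧ ∀ x y, B x y ↔ C (h x) (h y) := by
  obtain ⟨-, f, hf, hfE⟩ := hB
  obtain ⟨-, g, hg, hgE⟩ := hC
  let e := Equiv.ofBijective f hf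
  refine ⟨fun x => g (e.symm x), hg.comp e.symm.bijective, fun x y => ?_⟩
  have hx : f (e.symm x) = x := e.apply_symm_apply x
  have hy : f (e.symm y) = y := e.apply_symm_apply y
  rw [← hgE, hfE, hx, hy]

/-- a primitive recursive copy of a presentation -/
theorem IsPres.copy {α : Type*} {E : α → α → Prop} {B B' : ℕ → ℕ → Prop}
    (hB : IsPres E B) (hB' : PrimrecRel B') {g : ℕ → ℕ} (hg : Function.Bijective g)
    (hgB : ∀ x y, B x y ↔ B' (g x) (g y)) : IsPres E B' := by
  obtain ⟨-, f, hf, hfE⟩ := hB
  exact ⟨hB', g ∘ f, hg.comp hf, fun x y => (hfE x y).trans (hgB _ _)⟩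

/-! ## leaders -/

/-- `y` is not the least element of its class -/
def NL (B : ℕ → ℕ → Prop) (y : ℕ) : Prop := ∃ x < y, B x y

theorem primrec_NL {B : ℕ → ℕ → Prop} (hB : PrimrecRel B) : PrimrecPred (NL B) := by
  have h := PrimrecRel.exists_lt hB
  exact h.comp Primrec.id Primrec.id

/-- a Boolean test for `NL` -/
theorem exists_bool {p : ℕ → Prop} (hp : PrimrecPred p) :
    ∃ q : ℕ → Bool, Primrec q ∧ ∀ x, q x = true ↔ p x := by
  obtain ⟨hd, hp⟩ := hp
  exact ⟨fun x => decide (p x), hp, fun x => by simp⟩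

/-- the leader of the class of `y` -/
theorem exists_lead {B : ℕ → ℕ → Prop} (hB : PrimrecRel B) (hE : Equivalence B) :
    ∃ lead : ℕ → ℕ, Primrec lead ∧ (∀ y, ¬ NL B (lead y)) ∧ (∀ y, B (lead y) y) ∧
      (∀ y, ¬ NL B y → lead y = y) ∧ ∀ x y, lead x = lead y ↔ B x y := by
  classical
  have hrel : PrimrecRel (fun y x : ℕ => ¬ NL B x ∧ B x y) := by
    have h1 : PrimrecRel (fun _ x : ℕ => ¬ NL B x) :=
      PrimrecRel.not (((primrec_NL hB).comp Primrec.snd : PrimrecPred fun p : ℕ × ℕ => NL B p.2))
    have h2 : PrimrecRel (fun y x : ℕ => B x y) := hB.comp Primrec.snd Primrec.fst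
    exact PrimrecPred.and h1 h2
  have huniq : ∀ x x', ¬ NL B x → ¬ NL B x' → B x x' → x = x' := by
    intro x x' hx hx' h
    rcases lt_trichotomy x x' with hlt | heq | hgt
    · exact absurd ⟨x, hlt, h⟩ hx'
    · exact heq
    · exact absurd ⟨x', hgt, hE.symm h⟩ hx
  have hspec : ∀ y, ¬ NL B (Nat.findGreatest (fun x => ¬ NL B x ∧ B x y) y) ∧
      B (Nat.findGreatest (fun x => ¬ NL B x ∧ B x y) y) y := by
    intro y
    have hex : ∃ x, B x y := ⟨y, hE.refl y⟩
    have h1 : B (Nat.find hex) y := Nat.find_spec hex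
    have h2 : Nat.find hex ≤ y := Nat.find_min' hex (hE.refl y)
    have h3 : ¬ NL B (Nat.find hex) := by
      rintro ⟨z, hz, hzB⟩
      exact Nat.find_min hex hz (hE.trans hzB h1)
    exact Nat.findGreatest_spec (P := fun x => ¬ NL B x ∧ B x y) h2 ⟨h3, h1⟩
  refine ⟨fun y => Nat.findGreatest (fun x => ¬ NL B x ∧ B x y) y,
    Primrec.nat_findGreatest Primrec.id hrel, fun y => (hspec y).1, fun y => (hspec y).2, ?_, ?_⟩
  · intro y hy
    exact huniq _ _ (hspec y).1 hy (hspec y).2
  · intro x y
    constructor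
    · intro h
      have h1 := (hspec x).2
      have h2 := (hspec y).2
      simp only at h
      rw [h] at h1
      exact hE.trans (hE.symm h1) h2
    · intro h
      exact huniq _ _ (hspec x).1 (hspec y).1
        (hE.trans (hspec x).2 (hE.trans h (hE.symm (hspec y).2)))

/-! ## case 1: infinitely many classes and infinitely many collisions -/

/-- there are `n` numbers below `s`, each related to a number below `s` outside of this set -/
def Coll (B : ℕ → ℕ → Prop) (n s : ℕ) : Prop :=
  ∃ D : Finset ℕ, D.card = n ∧ (∀ d ∈ D, d < s) ∧ ∀ d ∈ D, ∃ e < s, e ∉ D ∧ B d e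

theorem coll_transfer (B C : ℕ → ℕ → Prop) (h : ℕ → ℕ) (hb : Function.Bijective h)
    (hBC : ∀ x y, B x y ↔ C (h x) (h y)) (n s S : ℕ) (hS : ∀ x < s, h x < S)
    (hc : Coll B n s) : Coll C n S := by
  classical
  obtain ⟨D, hD, hDs, hDe⟩ := hc
  refine ⟨D.image h, ?_, ?_, ?_⟩
  · rw [Finset.card_image_of_injective _ hb.1, hD]
  · intro d hd
    obtain ⟨x, hx, rfl⟩ := Finset.mem_image.1 hd
    exact hS x (hDs x hx)
  · intro d hd
    obtain ⟨x, hx, rfl⟩ := Finset.mem_image.1 hd
    obtain ⟨e, he, heD, hxe⟩ := hDe x hx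
    refine ⟨h e, hS e he, ?_, (hBC _ _).1 hxe⟩
    intro hmem
    obtain ⟨e', he', hee⟩ := Finset.mem_image.1 hmem
    exact heD (hb.1 hee ▸ he')

theorem coll_le {B : ℕ → ℕ → Prop} (hE : Equivalence B) (R : ℕ → Prop) [DecidablePred R]
    (hR : ∀ x y, ¬ R x → ¬ R y → B x y → x = y) {n s : ℕ} (hc : Coll B n s) :
    n ≤ Nat.count R s := by
  classical
  obtain ⟨D, hD, hDs, hDe⟩ := hc
  choose! e he heD hee using hDe
  rw [Nat.count_eq_card_filter_range, ← hD]
  have hRe : ∀ d ∈ D, ¬ R d → R (e d) := by
    intro d hd hRd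
    by_contra hne
    have := hR d (e d) hRd hne (hee d hd)
    exact heD d hd (this ▸ hd)
  refine Finset.card_le_card_of_injOn (fun d => if R d then d else e d) ?_ ?_
  · intro d hd
    have hd' : d ∈ D := hd
    simp only [Finset.coe_filter, Finset.mem_range, Set.mem_ofPred_eq]
    by_cases hRd : R d
    · simp only [hRd, if_true]
      exact ⟨hDs d hd', trivial⟩
    · simp only [hRd, if_false]
      exact ⟨he d hd', hRe d hd' hRd⟩
  · intro d hd d' hd' hdd
    have hd1 : d ∈ D := hd
    have hd2 : d' ∈ D := hd'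
    simp only at hdd
    by_cases hRd : R d <;> by_cases hRd' : R d'
    · simpa [hRd, hRd'] using hdd
    · simp only [hRd, hRd', if_true, if_false] at hdd
      exact absurd (hdd ▸ hd1) (heD d' hd2)
    · simp only [hRd, hRd', if_true, if_false] at hdd
      exact absurd (hdd ▸ hd2) (heD d hd1)
    · simp only [hRd, hRd', if_false] at hdd
      have h1 : B d (e d') := hdd ▸ hee d hd1
      exact hR d d' hRd hRd' (hE.trans h1 (hE.symm (hee d' hd2)))

theorem coll_of_count {B : ℕ → ℕ → Prop} (hE : Equivalence B) [DecidablePred (NL B)] {n s : ℕ}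
    (h : n ≤ Nat.count (NL B) s) : Coll B n s := by
  classical
  rw [Nat.count_eq_card_filter_range] at h
  obtain ⟨D, hD, hDc⟩ := Finset.exists_subset_card_eq h
  refine ⟨D, hDc, fun d hd => ?_, fun d hd => ?_⟩
  · exact Finset.mem_range.1 (Finset.mem_filter.1 (hD hd)).1
  · have hds : d < s := Finset.mem_range.1 (Finset.mem_filter.1 (hD hd)).1
    have hex : ∃ x, B x d := ⟨d, hE.refl d⟩
    have h1 : B (Nat.find hex) d := Nat.find_spec hex
    have h2 : Nat.find hex ≤ d := Nat.find_min' hex (hE.refl d)
    refine ⟨Nat.find hex, by omega, ?_, hE.symm h1⟩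
    intro hmem
    obtain ⟨z, hz, hzB⟩ := (Finset.mem_filter.1 (hD hmem)).2
    exact Nat.find_min hex hz (hE.trans hzB h1)

theorem infinite_case1 {α : Type*} {E : α → α → Prop} (hE : Equivalence E)
    {B : ℕ → ℕ → Prop} (hB : IsPres E B) (h1 : {y | NL B y}.Infinite)
    (h2 : {y | ¬ NL B y}.Infinite) : Infinite (Degrees E) := by
  classical
  have hEq : ∀ C, IsPres E C → Equivalence C := fun C hC => by
    obtain ⟨-, f, hf, hfE⟩ := hC
    exact equivalence_of_iso hE hf hfE
  have hBE := hEq B hB
  refine infinite_of_delay E Coll coll_transfer ?_ ?_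
  · intro C hC
    obtain ⟨h, hh, hBC⟩ := exists_iso hB hC
    obtain ⟨q, hq, hqN⟩ := exists_bool (primrec_NL hC.1)
    have hCE := hEq C hC
    have hinf : {x | q x = true}.Infinite := by
      apply Set.infinite_of_forall_exists_gt
      intro N
      by_contra hno
      push Not at hno
      have hno' : ∀ k, N < k → ¬ NL C k := fun k hk hR =>
        absurd hk (not_lt.2 (hno k ((hqN k).2 hR)))
      -- the count of non-leaders is bounded
      have hbd : ∀ s, Nat.count (NL C) s ≤ N + 1 := by
        intro s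
        rw [Nat.count_eq_card_filter_range]
        have : (Finset.range s).filter (NL C) ⊆ Finset.range (N + 1) := by
          intro x hx
          have hxN := (Finset.mem_filter.1 hx).2
          rw [Finset.mem_range]
          by_contra hlt
          exact hno' x (by omega) hxN
        simpa using Finset.card_le_card this
      have hB1 : Coll B (N + 2) (Nat.nth (NL B) (N + 2)) :=
        coll_of_count hBE (le_of_eq (Nat.count_nth_of_infinite h1 (N + 2)).symm)
      obtain ⟨S, hS⟩ : ∃ S, ∀ x < Nat.nth (NL B) (N + 2), h x < S := by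
        refine ⟨(Finset.range (Nat.nth (NL B) (N + 2))).sup h + 1, fun x hx => ?_⟩
        exact Nat.lt_succ_of_le (Finset.le_sup (f := h) (Finset.mem_range.2 hx))
      have hC1 := coll_transfer B C h hh hBC _ _ S hS hB1
      have hC2 := coll_le hCE (NL C) (fun x y hx hy hxy => by
        rcases lt_trichotomy x y with hlt | heq | hgt
        · exact absurd ⟨x, hlt, hxy⟩ hy
        · exact heq
        · exact absurd ⟨y, hgt, hCE.symm hxy⟩ hx) hC1
      have := hbd S
      omega
    refine ⟨Nat.nth (fun x => q x = true), computable_nth hq.to_comp hinf, fun n => ?_⟩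
    apply coll_of_count hCE
    have h3 : Nat.count (fun x => q x = true) (Nat.nth (fun x => q x = true) n) = n :=
      Nat.count_nth_of_infinite hinf n
    have h4 : (fun x => q x = true) = NL C := by
      funext x; exact propext (hqN x)
    conv_lhs => rw [← h3]
    simp only [h4]
    apply le_of_eq
    congr
  · intro G hG
    obtain ⟨q, hq, hqN⟩ := exists_bool (primrec_NL hB.1)
    have h4 : (fun x => q x = true) = NL B := by
      funext x; exact propext (hqN x)
    have h4' : (fun x => ¬ q x = true) = fun x => ¬ NL B x := by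
      funext x; exact propext (not_congr (hqN x))
    have hinf : {x | q x = true}.Infinite := by
      have : {x | q x = true} = {x | NL B x} := by
        ext x; exact hqN x
      rw [this]; exact h1
    have hinf' : {x | ¬ q x = true}.Infinite := by
      have : {x | ¬ q x = true} = {x | ¬ NL B x} := by
        ext x; exact not_congr (hqN x)
      rw [this]; exact h2
    obtain ⟨lead, hlead, hl1, hl2, hl3, hl4⟩ := exists_lead hB.1 hBE
    -- the number of the class
    have hκ : Computable (fun y => Nat.count (fun x => ¬ q x = true) (lead y)) := by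
      have h5 : Computable (fun n => Nat.count (fun x => (!q x) = true) n) :=
        computable_count (Primrec.not.comp hq).to_comp
      refine (h5.comp hlead.to_comp).of_eq fun y => ?_
      congr 1
      funext x; simp
    have hκl : ∀ k, Nat.count (fun x => ¬ q x = true)
        (lead (Nat.nth (fun x => ¬ q x = true) k)) = k := by
      intro k
      have h6 : ¬ q (Nat.nth (fun x => ¬ q x = true) k) = true :=
        Nat.nth_mem_of_infinite (p := fun x => ¬ q x = true) hinf' k
      rw [hl3 _ (fun h => h6 ((hqN _).2 h))]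
      exact Nat.count_nth_of_infinite (p := fun x => ¬ q x = true) hinf' k
    obtain ⟨R, hRd, idx, hidx, hRi, hRi', hR1, hR2, hR3⟩ :=
      exists_delayed _ hκ q hq.to_comp hinf hinf' (fun k => k) Primrec.id hκl G hG
    have hker : ∀ x y, Nat.count (fun x => ¬ q x = true) (lead x) =
        Nat.count (fun x => ¬ q x = true) (lead y) ↔ B x y := by
      intro x y
      rw [← hl4]
      constructor
      · intro h
        exact Nat.count_injective (p := fun x => ¬ q x = true)
          (fun hh => hl1 x ((hqN _).1 hh)) (fun hh => hl1 y ((hqN _).1 hh)) h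
      · intro h; rw [h]
    refine ⟨fun x y => idx x = idx y, ?_, ?_⟩
    · refine hB.copy (Primrec.eq.comp (hidx.comp Primrec.fst) (hidx.comp Primrec.snd))
        (g := phi (fun x => q x = true) R) ?_ ?_
      · refine Function.bijective_iff_has_inverse.2 ⟨phi R (fun x => q x = true), ?_, ?_⟩
        · intro x
          exact phi_phi (fun x => q x = true) R hRi hRi' x
        · intro x
          exact phi_phi R (fun x => q x = true) hinf hinf' x
      · intro x y
        rw [hR1, hR1, phi_phi _ _ hRi hRi', phi_phi _ _ hRi hRi', hker]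
    · intro n hn
      have h7 := coll_le (B := fun x y => idx x = idx y)
        ⟨fun _ => rfl, fun h => h.symm, fun h h' => h.trans h'⟩ R (fun x y hx hy hxy => by
          have hxy' : idx x = idx y := hxy
          rw [hR2 x hx, hR2 y hy] at hxy'
          exact Nat.count_injective (p := fun x => ¬ R x) hx hy hxy') hn
      have := hR3 n
      omega

end Fpr62
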