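import Pool.Agent.Lib.MP_36da60_lc.EqC62

/-!
# fpr-degrees of equivalence structures: two infinite classes, and the trivial structures
-/

namespace Fpr62

/-! ## case 2: two infinite classes -/

/-- there are two sets of `n` numbers below `s` with no relation between them -/
def Mix (B : ℕ → ℕ → Prop) (n s : ℕ) : Prop :=
  ∃ D D' : Finset ℕ, D.card = n ∧ D'.card = n ∧ (∀ d ∈ D, d < s) ∧ (∀ d ∈ D', d < s) ∧
    ∀ d ∈ D, ∀ d' ∈ D', ¬ B d d'

theorem mix_transfer (B C : ℕ → ℕ → Prop) (h : ℕ → ℕ) (hb : Function.Bijective h)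
    (hBC : ∀ x y, B x y ↔ C (h x) (h y)) (n s S : ℕ) (hS : ∀ x < s, h x < S)
    (hc : Mix B n s) : Mix C n S := by
  classical
  obtain ⟨D, D', hD, hD', hDs, hDs', hDD⟩ := hc
  refine ⟨D.image h, D'.image h, ?_, ?_, ?_, ?_, ?_⟩
  · rw [Finset.card_image_of_injective _ hb.1, hD]
  · rw [Finset.card_image_of_injective _ hb.1, hD']
  · intro d hd
    obtain ⟨x, hx, rfl⟩ := Finset.mem_image.1 hd
    exact hS x (hDs x hx)
  · intro d hd
    obtain ⟨x, hx, rfl⟩ := Finset.mem_image.1 hd
    exact hS x (hDs' x hx)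
  · intro d hd d' hd' hdd
    obtain ⟨x, hx, rfl⟩ := Finset.mem_image.1 hd
    obtain ⟨y, hy, rfl⟩ := Finset.mem_image.1 hd'
    exact hDD x hx y hy ((hBC _ _).2 hdd)

theorem mix_le {B : ℕ → ℕ → Prop} (R : ℕ → Prop) [DecidablePred R]
    (hR : ∀ x y, ¬ R x → ¬ R y → B x y) {n s : ℕ} (hc : Mix B n s) (hn : Nat.count R s < n) :
    False := by
  classical
  obtain ⟨D, D', hD, hD', hDs, hDs', hDD⟩ := hc
  have key : ∀ F : Finset ℕ, F.card = n → (∀ d ∈ F, d < s) → ∃ d ∈ F, ¬ R d := by
    intro F hF hFs
    by_contra hno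
    push Not at hno
    have : F ⊆ (Finset.range s).filter R := fun x hx =>
      Finset.mem_filter.2 ⟨Finset.mem_range.2 (hFs x hx), hno x hx⟩
    have h1 := Finset.card_le_card this
    rw [← Nat.count_eq_card_filter_range, hF] at h1
    omega
  obtain ⟨d, hd, hRd⟩ := key D hD hDs
  obtain ⟨d', hd', hRd'⟩ := key D' hD' hDs'
  exact hDD d hd d' hd' (hR d d' hRd hRd')

theorem mix_of_count {B : ℕ → ℕ → Prop} (hE : Equivalence B) {a b : ℕ} (hab : ¬ B a b)
    [DecidablePred (B a)] [DecidablePred (B b)] {n s : ℕ}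
    (h : n ≤ Nat.count (B a) s) (h' : n ≤ Nat.count (B b) s) : Mix B n s := by
  classical
  rw [Nat.count_eq_card_filter_range] at h h'
  obtain ⟨D, hD, hDc⟩ := Finset.exists_subset_card_eq h
  obtain ⟨D', hD', hDc'⟩ := Finset.exists_subset_card_eq h'
  refine ⟨D, D', hDc, hDc', fun d hd => Finset.mem_range.1 (Finset.mem_filter.1 (hD hd)).1,
    fun d hd => Finset.mem_range.1 (Finset.mem_filter.1 (hD' hd)).1, ?_⟩
  intro d hd d' hd' hdd
  have h1 := (Finset.mem_filter.1 (hD hd)).2
  have h2 := (Finset.mem_filter.1 (hD' hd')).2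
  exact hab (hE.trans h1 (hE.trans hdd (hE.symm h2)))

theorem infinite_image_class {B C : ℕ → ℕ → Prop} {h : ℕ → ℕ} (hb : Function.Bijective h)
    (hBC : ∀ x y, B x y ↔ C (h x) (h y)) {a : ℕ} (ha : {x | B a x}.Infinite) :
    {x | C (h a) x}.Infinite := by
  have h1 : (h '' {x | B a x}).Infinite := ha.image hb.1.injOn
  refine h1.mono ?_
  rintro _ ⟨x, hx, rfl⟩
  exact (hBC a x).1 hx

theorem infinite_case2 {α : Type*} {E : α → α → Prop} (hE : Equivalence E)
    {B : ℕ → ℕ → Prop} (hB : IsPres E B) {a b : ℕ} (hab : ¬ B a b)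
    (ha : {x | B a x}.Infinite) (hbi : {x | B b x}.Infinite) : Infinite (Degrees E) := by
  classical
  have hEq : ∀ C, IsPres E C → Equivalence C := fun C hC => by
    obtain ⟨-, f, hf, hfE⟩ := hC
    exact equivalence_of_iso hE hf hfE
  have hBE := hEq B hB
  refine infinite_of_delay E Mix mix_transfer ?_ ?_
  · intro C hC
    obtain ⟨h, hh, hBC⟩ := exists_iso hB hC
    have hCE := hEq C hC
    have hia := infinite_image_class hh hBC ha
    have hib := infinite_image_class hh hBC hbi
    have hpa : PrimrecPred (fun x => C (h a) x) := hC.1.comp (Primrec.const _) Primrec.id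
    have hpb : PrimrecPred (fun x => C (h b) x) := hC.1.comp (Primrec.const _) Primrec.id
    obtain ⟨qa, hqa, hqaN⟩ := exists_bool hpa
    obtain ⟨qb, hqb, hqbN⟩ := exists_bool hpb
    have e1 : (fun x => qa x = true) = C (h a) := by funext x; exact propext (hqaN x)
    have e2 : (fun x => qb x = true) = C (h b) := by funext x; exact propext (hqbN x)
    have hia' : {x | qa x = true}.Infinite := by
      have : {x | qa x = true} = {x | C (h a) x} := by ext x; exact hqaN x
      rw [this]; exact hia
    have hib' : {x | qb x = true}.Infinite := by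
      have : {x | qb x = true} = {x | C (h b) x} := by ext x; exact hqbN x
      rw [this]; exact hib
    refine ⟨fun n => Nat.nth (fun x => qa x = true) n + Nat.nth (fun x => qb x = true) n,
      Primrec.nat_add.to_comp.comp (computable_nth hqa.to_comp hia')
        (computable_nth hqb.to_comp hib'), fun n => ?_⟩
    have c1 : n ≤ Nat.count (C (h a)) (Nat.nth (fun x => qa x = true) n +
        Nat.nth (fun x => qb x = true) n) := by
      have h3 : Nat.count (C (h a)) (Nat.nth (C (h a)) n) = n := Nat.count_nth_of_infinite hia n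
      conv_lhs => rw [← h3]
      apply Nat.count_monotone
      rw [e1]
      exact Nat.le_add_right _ _
    have c2 : n ≤ Nat.count (C (h b)) (Nat.nth (fun x => qa x = true) n +
        Nat.nth (fun x => qb x = true) n) := by
      have h3 : Nat.count (C (h b)) (Nat.nth (C (h b)) n) = n := Nat.count_nth_of_infinite hib n
      conv_lhs => rw [← h3]
      apply Nat.count_monotone
      rw [e2]
      exact Nat.le_add_left _ _
    exact mix_of_count hCE (fun hh' => hab ((hBC a b).2 hh')) c1 c2
  · intro G hG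
    have hp : PrimrecPred (fun x => ¬ B a x) :=
      PrimrecPred.not (hB.1.comp (Primrec.const _) Primrec.id)
    obtain ⟨q, hq, hqN⟩ := exists_bool hp
    have hinf : {x | q x = true}.Infinite := by
      refine hbi.mono ?_
      intro x hx
      refine (hqN x).2 ?_
      intro hax
      exact hab (hBE.trans hax (hBE.symm hx))
    have hinf' : {x | ¬ q x = true}.Infinite := by
      refine ha.mono ?_
      intro x hx hqx
      exact (hqN x).1 hqx hx
    obtain ⟨lead, hlead, hl1, hl2, hl3, hl4⟩ := exists_lead hB.1 hBE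
    have hκl : ∀ k, lead (Nat.nth (fun x => ¬ q x = true) k) = lead a := by
      intro k
      have h6 : ¬ q (Nat.nth (fun x => ¬ q x = true) k) = true :=
        Nat.nth_mem_of_infinite (p := fun x => ¬ q x = true) hinf' k
      rw [hl4]
      by_contra hne
      exact h6 ((hqN _).2 (fun hh => hne (hBE.symm hh)))
    obtain ⟨R, hRd, idx, hidx, hRi, hRi', hR1, hR2, hR3⟩ :=
      exists_delayed _ hlead.to_comp q hq.to_comp hinf hinf' (fun _ => lead a) (Primrec.const _)
        hκl G hG
    refine ⟨fun x y => idx x = idx y, ?_, ?_⟩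
    · refine hB.copy (Primrec.eq.comp (hidx.comp Primrec.fst) (hidx.comp Primrec.snd))
        (g := phi (fun x => q x = true) R) ?_ ?_
      · refine Function.bijective_iff_has_inverse.2 ⟨phi R (fun x => q x = true), ?_, ?_⟩
        · intro x
          exact phi_phi (fun x => q x = true) R hRi hRi' x
        · intro x
          exact phi_phi R (fun x => q x = true) hinf hinf' x
      · intro x y
        rw [hR1, hR1, phi_phi _ _ hRi hRi', phi_phi _ _ hRi hRi', hl4]
    · intro n hn
      refine mix_le (B := fun x y => idx x = idx y) R (fun x y hx hy => ?_) hn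
        (Nat.lt_succ_of_le (hR3 n))
      show idx x = idx y
      rw [hR2 x hx, hR2 y hy]

/-! ## case 3: trivial off a finite set -/

/-- a permutation with finite support extending an injection on a finite set -/
theorem exists_perm (f : ℕ → ℕ) (hf : Function.Injective f) (K : Finset ℕ) :
    ∃ σ : Equiv.Perm ℕ, Primrec σ ∧ Primrec σ.symm ∧ ∀ x ∈ K, σ x = f x := by
  classical
  have hswap : ∀ p r : ℕ, Primrec (Equiv.swap p r) := by
    intro p r
    have h : Primrec (fun x : ℕ => if x = p then r else if x = r then p else x) := by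
      refine Primrec.ite (Primrec.eq.comp Primrec.id (Primrec.const _)) (Primrec.const _) ?_
      exact Primrec.ite (Primrec.eq.comp Primrec.id (Primrec.const _)) (Primrec.const _) Primrec.id
    refine h.of_eq fun x => ?_
    rw [Equiv.swap_apply_def]
  induction K using Finset.induction_on with
  | empty => exact ⟨Equiv.refl ℕ, Primrec.id, Primrec.id, by simp⟩
  | insert a K ha ih =>
    obtain ⟨σ, hσ, hσ', hK⟩ := ih
    refine ⟨σ.trans (Equiv.swap (σ a) (f a)), (hswap _ _).comp hσ, hσ'.comp (hswap _ _), ?_⟩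
    intro x hx
    rcases Finset.mem_insert.1 hx with rfl | hx
    · simp
    · have hxa : x ≠ a := fun h => ha (h ▸ hx)
      have h1 : σ x ≠ σ a := fun h => hxa (σ.injective h)
      have h2 : σ x ≠ f a := by
        rw [hK x hx]; exact fun h => hxa (hf h)
      simp only [Equiv.trans_apply]
      rw [Equiv.swap_apply_of_ne_of_ne h1 h2, hK x hx]

/-- off the finite set `K` the relation is equality (`P` false) or complete (`P` true) -/
def Triv (B : ℕ → ℕ → Prop) : Prop :=
  ∃ (K : Finset ℕ) (P : Prop), ∀ x ∉ K, ∀ y, B x y ↔ (x = y ∨ (P ∧ y ∉ K))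

theorem fpr_iso_of_triv {B C : ℕ → ℕ → Prop} (hE : Equivalence B) (hBt : Triv B)
    {f : ℕ → ℕ} (hf : Function.Bijective f) (hfBC : ∀ x y, B x y ↔ C (f x) (f y)) :
    ∃ σ : Equiv.Perm ℕ, Primrec σ ∧ Primrec σ.symm ∧ ∀ x y, B x y ↔ C (σ x) (σ y) := by
  classical
  obtain ⟨K, P, hK⟩ := hBt
  obtain ⟨σ, hσ, hσ', hσK⟩ := exists_perm f hf.1 K
  refine ⟨σ, hσ, hσ', ?_⟩
  -- τ = f⁻¹ ∘ σ
  let e := Equiv.ofBijective f hf
  have hτ : ∀ x, f (e.symm (σ x)) = σ x := fun x => e.apply_symm_apply _
  have hτK : ∀ x ∈ K, e.symm (σ x) = x := by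
    intro x hx
    apply hf.1
    rw [hτ, hσK x hx]
  have hτinj : ∀ x y, e.symm (σ x) = e.symm (σ y) ↔ x = y := by
    intro x y
    constructor
    · intro h; exact σ.injective (e.symm.injective h)
    · rintro rfl; rfl
  have hτmem : ∀ x, e.symm (σ x) ∈ K ↔ x ∈ K := by
    intro x
    constructor
    · intro h
      have h1 := hτK _ h
      have h2 : e.symm (σ x) = x := (hτinj _ _).1 h1
      rw [← h2]; exact h
    · intro h; rw [hτK x h]; exact h
  have main : ∀ x y, x ∉ K → (B x y ↔ C (σ x) (σ y)) := by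
    intro x y hx
    have hx' : e.symm (σ x) ∉ K := fun h => hx ((hτmem x).1 h)
    rw [← hτ x, ← hτ y, ← hfBC, hK x hx, hK _ hx', hτinj, hτmem]
  intro x y
  by_cases hx : x ∈ K
  · by_cases hy : y ∈ K
    · rw [hσK x hx, hσK y hy, hfBC]
    · have h1 := main y x hy
      have hCs : ∀ u v, C u v → C v u := by
        intro u v huv
        obtain ⟨u', rfl⟩ := hf.2 u
        obtain ⟨v', rfl⟩ := hf.2 v
        exact (hfBC _ _).1 (hE.symm ((hfBC _ _).2 huv))
      constructor
      · intro h; exact hCs _ _ (h1.1 (hE.symm h))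
      · intro h; exact hE.symm (h1.2 (hCs _ _ h))
  · exact main x y hx

/-- an equivalence relation with finitely many collisions is trivial off a finite set -/
theorem triv_of_finite_NL {B : ℕ → ℕ → Prop} (hB : PrimrecRel B) (hE : Equivalence B)
    (h : ¬ {y | NL B y}.Infinite) : Triv B := by
  classical
  rw [Set.not_infinite] at h
  obtain ⟨lead, hlead, hl1, hl2, hl3, hl4⟩ := exists_lead hB hE
  refine ⟨h.toFinset ∪ h.toFinset.image lead, False, ?_⟩
  intro x hx y
  simp only [Finset.mem_union, Set.Finite.mem_toFinset, Finset.mem_image, not_or] at hx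
  obtain ⟨hx1, hx2⟩ := hx
  simp only [false_and, or_false]
  constructor
  · intro hxy
    by_contra hne
    by_cases hy : NL B y
    · apply hx2
      refine ⟨y, hy, ?_⟩
      rw [← (hl4 x y).2 hxy]
      exact hl3 x hx1
    · rcases lt_trichotomy x y with hlt | heq | hgt
      · exact hy ⟨x, hlt, hxy⟩
      · exact hne heq
      · exact hx1 ⟨y, hgt, hE.symm hxy⟩
  · rintro rfl; exact hE.refl _

/-- finitely many classes, no two of them infinite -/
theorem triv_of_finite_classes {B : ℕ → ℕ → Prop} (hB : PrimrecRel B) (hE : Equivalence B)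
    (h : ¬ {y | ¬ NL B y}.Infinite)
    (h2 : ∀ a b, {x | B a x}.Infinite → {x | B b x}.Infinite → B a b) : Triv B := by
  classical
  rw [Set.not_infinite] at h
  obtain ⟨lead, hlead, hl1, hl2, hl3, hl4⟩ := exists_lead hB hE
  have hcover : (Set.univ : Set ℕ) ⊆ ⋃ l ∈ {y | ¬ NL B y}, {x | B l x} := by
    intro x _
    simp only [Set.mem_iUnion]
    exact ⟨lead x, hl1 x, hl2 x⟩
  -- some class is infinite
  have hex : ∃ l, {x | B l x}.Infinite := by
    by_contra hno
    push Not at hno
    have hfin : (⋃ l ∈ {y | ¬ NL B y}, {x | B l x}).Finite :=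
      h.biUnion fun l _ => (hno l)
    exact Set.infinite_univ (hfin.subset hcover)
  obtain ⟨l, hl⟩ := hex
  have hfin : {x | ¬ B l x}.Finite := by
    have hsub : {x | ¬ B l x} ⊆ ⋃ l' ∈ {y | ¬ NL B y ∧ ¬ B l y}, {x | B l' x} := by
      intro x hx
      simp only [Set.mem_iUnion]
      refine ⟨lead x, ⟨hl1 x, fun hh => hx (hE.trans hh (hl2 x))⟩, hl2 x⟩
    refine Set.Finite.subset ?_ hsub
    refine Set.Finite.biUnion (h.subset fun y hy => hy.1) ?_
    intro l' hl'
    by_contra hinf
    exact hl'.2 (h2 l l' hl hinf)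
  refine ⟨hfin.toFinset, True, ?_⟩
  intro x hx y
  have hx' : B l x := by
    by_contra hh
    exact hx (hfin.mem_toFinset.2 hh)
  simp only [Set.Finite.mem_toFinset, true_and]
  constructor
  · intro hxy
    right
    intro hy
    exact hy (hE.trans hx' hxy)
  · rintro (rfl | hy)
    · exact hE.refl _
    · have hy' : B l y := by
        by_contra hh
        exact hy hh
      exact hE.trans (hE.symm hx') hy'

end Fpr62
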