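import Pool.Agent.Lib.MP_36da60_lc.EqD62

/-!
# fpr-degrees of equivalence structures: the dichotomy
-/

namespace Fpr62

/-- Any two fpr presentations of `(α, E)` are isomorphic by a bijection of `ℕ` which is primitive
recursive together with its inverse. -/
def FprCategorical {α : Type*} (E : α → α → Prop) : Prop :=
  ∀ B C : ℕ → ℕ → Prop, IsPres E B → IsPres E C →
    ∃ f : Equiv.Perm ℕ, Primrec f ∧ Primrec f.symm ∧ ∀ x y, B x y ↔ C (f x) (f y)

theorem subsingleton_of_categorical {α : Type*} {E : α → α → Prop} (h : FprCategorical E) :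
    Subsingleton (Degrees E) := by
  constructor
  intro a b
  induction a using Quotient.inductionOn with
  | h B =>
    induction b using Quotient.inductionOn with
    | h C =>
      apply Quotient.sound
      obtain ⟨f, hf, hf', he⟩ := h B.1 C.1 B.2 C.2
      refine ⟨⟨f, hf, f.bijective, he⟩, ⟨f.symm, hf', f.symm.bijective, fun x y => ?_⟩⟩
      rw [he, f.apply_symm_apply, f.apply_symm_apply]

/-- All but finitely many elements form singleton classes, or all but finitely many elements form
one class. -/
def AlmostTrivial {α : Type*} (E : α → α → Prop) : Prop :=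
  ∃ K : Set α, K.Finite ∧
    ((∀ x ∉ K, ∀ y, E x y ↔ x = y) ∨ (∀ x ∉ K, ∀ y, E x y ↔ y ∉ K))

theorem almostTrivial_of_triv {α : Type*} {E : α → α → Prop} {B : ℕ → ℕ → Prop}
    (hB : IsPres E B) (h : Triv B) : AlmostTrivial E := by
  obtain ⟨-, f, hf, hfE⟩ := hB
  obtain ⟨K, P, hK⟩ := h
  refine ⟨f ⁻¹' (K : Set ℕ), (K.finite_toSet).preimage hf.1.injOn, ?_⟩
  by_cases hP : P
  · right
    intro x hx y
    have hx' : f x ∉ K := hx
    have hP' : P ↔ True := iff_true_intro hP
    rw [hfE, hK _ hx', hP']
    constructor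
    · rintro (h | h)
      · rw [← hf.1 h]; exact hx
      · exact h.2
    · intro h
      exact Or.inr ⟨trivial, h⟩
  · left
    intro x hx y
    have hx' : f x ∉ K := hx
    have hP' : P ↔ False := iff_false_intro hP
    rw [hfE, hK _ hx', hP']
    constructor
    · rintro (h | h)
      · exact hf.1 h
      · exact h.1.elim
    · rintro rfl; exact Or.inl rfl

theorem triv_of_almostTrivial {α : Type*} {E : α → α → Prop} {B : ℕ → ℕ → Prop}
    (hB : IsPres E B) (h : AlmostTrivial E) : Triv B := by
  classical
  obtain ⟨-, f, hf, hfE⟩ := hB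
  obtain ⟨K, hKf, hK⟩ := h
  have hmem : ∀ a, f a ∈ (hKf.image f).toFinset ↔ a ∈ K := by
    intro a
    rw [Set.Finite.mem_toFinset]
    exact hf.1.mem_set_image
  rcases hK with hK | hK
  · refine ⟨(hKf.image f).toFinset, False, ?_⟩
    intro x hx y
    obtain ⟨a, rfl⟩ := hf.2 x
    obtain ⟨b, rfl⟩ := hf.2 y
    rw [← hfE, hK a (fun h => hx ((hmem a).2 h))]
    simp only [false_and, or_false]
    exact ⟨fun h => h ▸ rfl, fun h => hf.1 h⟩
  · refine ⟨(hKf.image f).toFinset, True, ?_⟩
    intro x hx y
    obtain ⟨a, rfl⟩ := hf.2 x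
    obtain ⟨b, rfl⟩ := hf.2 y
    have ha : a ∉ K := fun h => hx ((hmem a).2 h)
    rw [← hfE, hK a ha, hmem]
    simp only [true_and]
    constructor
    · intro h; exact Or.inr h
    · rintro (h | h)
      · rw [← hf.1 h]; exact ha
      · exact h

/-- **The fpr-degrees of equivalence structures.** -/
theorem equivalence_dichotomy {α : Type*} (E : α → α → Prop) (hE : Equivalence E) :
    (¬ ∃ B, IsPres E B) ∨ (AlmostTrivial E ∧ FprCategorical E) ∨
      (¬ AlmostTrivial E ∧ ¬ FprCategorical E ∧ Infinite (Degrees E)) := by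
  classical
  by_cases hex : ∃ B, IsPres E B
  swap
  · exact Or.inl hex
  right
  obtain ⟨B, hB⟩ := hex
  have hEq : ∀ C, IsPres E C → Equivalence C := fun C hC => by
    obtain ⟨-, f, hf, hfE⟩ := hC
    exact equivalence_of_iso hE hf hfE
  have hBE := hEq B hB
  by_cases ht : AlmostTrivial E
  · left
    refine ⟨ht, fun C D hC hD => ?_⟩
    obtain ⟨h, hh, hCD⟩ := exists_iso hC hD
    exact fpr_iso_of_triv (hEq C hC) (triv_of_almostTrivial hC ht) hh hCD
  · right
    have hinf : Infinite (Degrees E) := by
      by_cases h1 : {y | NL B y}.Infinite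
      · by_cases h2 : {y | ¬ NL B y}.Infinite
        · exact infinite_case1 hE hB h1 h2
        · by_cases h3 : ∃ a b, {x | B a x}.Infinite ∧ {x | B b x}.Infinite ∧ ¬ B a b
          · obtain ⟨a, b, ha, hb, hab⟩ := h3
            exact infinite_case2 hE hB hab ha hb
          · exfalso
            push Not at h3
            exact ht (almostTrivial_of_triv hB (triv_of_finite_classes hB.1 hBE h2
              (fun a b ha hb => h3 a b ha hb)))
      · exact absurd (almostTrivial_of_triv hB (triv_of_finite_NL hB.1 hBE h1)) ht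
    refine ⟨ht, fun hc => ?_, hinf⟩
    haveI := subsingleton_of_categorical hc
    exact not_finite (Degrees E)

end Fpr62
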