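import Pool.Agent.Lib.MP_36da60_lc.DomC62

/-!
# fpr-degrees: structures with a primitive recursive generic type (I): listing and delayed copy
-/

namespace Fpr62

open Nat.Partrec (Code)

/-- `a` realises the generic type `(q1, q2)` over the list `L` -/
def Gen (c0 c : Prop) (q1 q2 : ℕ → Prop) (B : ℕ → ℕ → Prop) (L : List ℕ) (a : ℕ) : Prop :=
  (∀ y ∈ L, y ≠ a ∧ (B a y ↔ q1 y) ∧ (B y a ↔ q2 y)) ∧ (B a a ↔ c0) ∧ (q1 a ↔ c) ∧ (q2 a ↔ c)

theorem primrecPred_iff' {β : Type*} [Primcodable β] {p r : β → Prop} (hp : PrimrecPred p)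
    (hr : PrimrecPred r) : PrimrecPred (fun b => (p b ↔ r b)) := by
  have h : PrimrecPred (fun b => (p b ∧ r b) ∨ (¬ p b ∧ ¬ r b)) :=
    PrimrecPred.or (PrimrecPred.and hp hr) (PrimrecPred.and (PrimrecPred.not hp) (PrimrecPred.not hr))
  refine h.of_eq fun b => ?_
  tauto

theorem primrec_Gen (c0 c : Prop) {q1 q2 : ℕ → Prop} (hq1 : PrimrecPred q1) (hq2 : PrimrecPred q2)
    {B : ℕ → ℕ → Prop} (hB : PrimrecRel B) : PrimrecRel (Gen c0 c q1 q2 B) := by
  have h1 : PrimrecRel (fun y a : ℕ => y ≠ a ∧ (B a y ↔ q1 y) ∧ (B y a ↔ q2 y)) := by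
    refine PrimrecPred.and ?_ (PrimrecPred.and ?_ ?_)
    · exact PrimrecPred.not (Primrec.eq.comp Primrec.fst Primrec.snd)
    · exact primrecPred_iff' (hB.comp Primrec.snd Primrec.fst) (hq1.comp Primrec.fst)
    · exact primrecPred_iff' (hB.comp Primrec.fst Primrec.snd) (hq2.comp Primrec.fst)
  have h2 : PrimrecRel (fun (L : List ℕ) (a : ℕ) =>
      ∀ y ∈ L, y ≠ a ∧ (B a y ↔ q1 y) ∧ (B y a ↔ q2 y)) := PrimrecRel.forall_mem_list h1
  have h3 : PrimrecRel (fun (_ : List ℕ) (a : ℕ) => (B a a ↔ c0)) :=
    primrecPred_iff (hB.comp Primrec.snd Primrec.snd) c0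
  have h4 : PrimrecRel (fun (_ : List ℕ) (a : ℕ) => (q1 a ↔ c)) :=
    primrecPred_iff (hq1.comp Primrec.snd) c
  have h5 : PrimrecRel (fun (_ : List ℕ) (a : ℕ) => (q2 a ↔ c)) :=
    primrecPred_iff (hq2.comp Primrec.snd) c
  exact PrimrecPred.and h2 (PrimrecPred.and h3 (PrimrecPred.and h4 h5))

/-- **The listing.**  `p (2k)` realises the generic type over all earlier values. -/
theorem exists_listing_gen (c0 c : Prop) {q1 q2 : ℕ → Prop} (hq1 : PrimrecPred q1)
    (hq2 : PrimrecPred q2) {B : ℕ → ℕ → Prop} (hB : PrimrecRel B)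
    (hgen : ∀ L : List ℕ, ∃ a, Gen c0 c q1 q2 B L a) :
    ∃ p : ℕ → ℕ, Computable p ∧ Function.Bijective p ∧
      (∀ k, (B (p (2 * k)) (p (2 * k)) ↔ c0)) ∧
      (∀ k, (q1 (p (2 * k)) ↔ c) ∧ (q2 (p (2 * k)) ↔ c)) ∧
      ∀ k, ∀ i < 2 * k, (B (p (2 * k)) (p i) ↔ q1 (p i)) ∧ (B (p i) (p (2 * k)) ↔ q2 (p i)) := by
  classical
  obtain ⟨s1, hs1, hs1P, -⟩ := computable_find (primrec_Gen c0 c hq1 hq2 hB) hgen
  obtain ⟨s2, hs2, hs2P, hs2m⟩ := computable_find primrec_notMem
    (fun L => by
      obtain ⟨a, ha⟩ := Infinite.exists_notMem_finset L.toFinset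
      exact ⟨a, fun h => ha (List.mem_toFinset.2 h)⟩)
  let st : ℕ → List ℕ := fun n => Nat.rec (motive := fun _ => List ℕ) []
    (fun _ L => s2 (s1 L :: L) :: s1 L :: L) n
  have hst0 : st 0 = [] := rfl
  have hsts : ∀ k, st (k + 1) = s2 (s1 (st k) :: st k) :: s1 (st k) :: st k := fun k => rfl
  have hcons : Computable (fun L : List ℕ => s1 L :: L) :=
    Computable.list_cons.comp hs1 Computable.id
  have hstep : Computable (fun L : List ℕ => s2 (s1 L :: L) :: s1 L :: L) :=
    Computable.list_cons.comp (hs2.comp hcons) hcons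
  have hst : Computable st := by
    refine Computable.nat_rec (f := fun n : ℕ => n) (g := fun _ : ℕ => ([] : List ℕ))
      (h := fun _ q => s2 (s1 q.2 :: q.2) :: s1 q.2 :: q.2) Computable.id (Computable.const _) ?_
    exact hstep.comp (Computable.snd.comp Computable.snd)
  let p : ℕ → ℕ := fun n => if n % 2 = 0 then s1 (st (n / 2)) else s2 (s1 (st (n / 2)) :: st (n / 2))
  have hp0 : ∀ k, p (2 * k) = s1 (st k) := by
    intro k
    have h1 : (2 * k) % 2 = 0 := by omega
    have h2 : (2 * k) / 2 = k := by omega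
    simp only [p, h1, h2, if_true]
  have hp1 : ∀ k, p (2 * k + 1) = s2 (s1 (st k) :: st k) := by
    intro k
    have h1 : ¬ (2 * k + 1) % 2 = 0 := by omega
    have h2 : (2 * k + 1) / 2 = k := by omega
    simp only [p, h1, h2, if_false]
  have hhalf : Computable (fun n : ℕ => n / 2) :=
    (Primrec.nat_div.comp Primrec.id (Primrec.const 2)).to_comp
  have hp : Computable p := by
    have hpar : Computable (fun n : ℕ => decide (n % 2 = 0)) := by
      have : PrimrecPred (fun n : ℕ => n % 2 = 0) :=
        Primrec.eq.comp (Primrec.nat_mod.comp Primrec.id (Primrec.const 2)) (Primrec.const 0)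
      exact this.decide.to_comp
    refine (Computable.cond hpar (hs1.comp (hst.comp hhalf))
      (hs2.comp (hcons.comp (hst.comp hhalf)))).of_eq fun n => ?_
    by_cases h : n % 2 = 0 <;> simp [p, h]
  have hmem : ∀ k y, y ∈ st k ↔ ∃ i < 2 * k, p i = y := by
    intro k
    induction k with
    | zero => intro y; simp [hst0]
    | succ k ih =>
      intro y
      rw [hsts, List.mem_cons, List.mem_cons, ih, ← hp1, ← hp0]
      constructor
      · rintro (h | h | ⟨i, hi, h⟩)
        · exact ⟨2 * k + 1, by omega, h.symm⟩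
        · exact ⟨2 * k, by omega, h.symm⟩
        · exact ⟨i, by omega, h⟩
      · rintro ⟨i, hi, h⟩
        rcases (by omega : i = 2 * k + 1 ∨ i = 2 * k ∨ i < 2 * k) with h' | h' | h'
        · left; rw [← h, h']
        · right; left; rw [← h, h']
        · right; right; exact ⟨i, h', h⟩
  have hnew : ∀ n i, i < n → p i ≠ p n := by
    intro n i hi heq
    rcases (by omega : n = 2 * (n / 2) ∨ n = 2 * (n / 2) + 1) with h | h
    · set k := n / 2
      have h1 : p i ∈ st k := (hmem k _).2 ⟨i, by omega, rfl⟩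
      have h2 := ((hs1P (st k)).1 _ h1).1
      apply h2
      rw [heq, h, hp0]
    · set k := n / 2
      have h2 := hs2P (s1 (st k) :: st k)
      apply h2
      rw [← hp1, ← h, ← heq, List.mem_cons, hmem, ← hp0]
      rcases (by omega : i = 2 * k ∨ i < 2 * k) with h' | h'
      · left; rw [h']
      · right; exact ⟨i, h', rfl⟩
  have hinj : Function.Injective p := by
    intro a b hab
    rcases lt_trichotomy a b with h | h | h
    · exact absurd hab (hnew b a h)
    · exact h
    · exact absurd hab.symm (hnew a b h)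
  have hall : ∀ k, ∀ b < k, b ∈ st k := by
    intro k
    induction k with
    | zero => intro b hb; omega
    | succ k ih =>
      intro b hb
      rw [hsts, List.mem_cons, List.mem_cons]
      by_cases hbk : b < k
      · exact Or.inr (Or.inr (ih b hbk))
      · have hbk' : b = k := by omega
        subst hbk'
        by_cases hm : b ∈ s1 (st b) :: st b
        · exact Or.inr (List.mem_cons.1 hm)
        · left
          have h1 : s2 (s1 (st b) :: st b) ≤ b := by
            by_contra hlt
            exact hs2m _ b (by omega) hm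
          have h2 := hs2P (s1 (st b) :: st b)
          by_contra hne
          have h3 : s2 (s1 (st b) :: st b) < b := by omega
          exact h2 (List.mem_cons_of_mem _ (ih _ h3))
  have hsurj : Function.Surjective p := by
    intro b
    obtain ⟨i, -, hi⟩ := (hmem (b + 1) b).1 (hall (b + 1) b (by omega))
    exact ⟨i, hi⟩
  refine ⟨p, hp, ⟨hinj, hsurj⟩, fun k => ?_, fun k => ?_, fun k i hi => ?_⟩
  · rw [hp0]; exact (hs1P (st k)).2.1
  · rw [hp0]; exact (hs1P (st k)).2.2
  · have h1 : p i ∈ st k := (hmem k _).2 ⟨i, hi, rfl⟩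
    rw [hp0]
    exact ((hs1P (st k)).1 _ h1).2

/-- **The delayed copy with generic elements.** -/
theorem exists_delayed_gen (c0 c : Prop) {q1 q2 : ℕ → Prop} (hq1 : PrimrecPred q1)
    (hq2 : PrimrecPred q2) {B : ℕ → ℕ → Prop} (hB : PrimrecRel B)
    (hgen : ∀ L : List ℕ, ∃ a, Gen c0 c q1 q2 B L a) (G : ℕ → ℕ) (hG : Computable G) :
    ∃ (B' : ℕ → ℕ → Prop) (g : ℕ → ℕ) (R : ℕ → Prop) (_ : DecidablePred R), PrimrecRel B' ∧
      Function.Bijective g ∧ (∀ x y, B x y ↔ B' (g x) (g y)) ∧
      (∀ x y, ¬ R x → ¬ R y → (B' x y ↔ Pat c0 c x y)) ∧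
      ∀ n, Nat.count R (G n) ≤ n := by
  classical
  obtain ⟨p, hp, hpb, hp0, hpq, hp1⟩ := exists_listing_gen c0 c hq1 hq2 hB hgen
  -- the table
  have hw : ∃ w : ℕ → ℕ, Computable w ∧ ∀ z, w z = 1 ↔ B (p z.unpair.1) (p z.unpair.2) := by
    obtain ⟨hd, hBp⟩ := hB
    refine ⟨fun z => cond (@decide (B (p z.unpair.1) (p z.unpair.2)) (Classical.propDecidable _))
      1 0, ?_, ?_⟩
    · refine Computable.cond ?_ (Computable.const 1) (Computable.const 0)
      have h1 : Computable (fun z : ℕ => (p z.unpair.1, p z.unpair.2)) :=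
        (hp.comp (Computable.fst.comp Primrec.unpair.to_comp)).pair
          (hp.comp (Computable.snd.comp Primrec.unpair.to_comp))
      refine (hBp.to_comp.comp h1).of_eq fun z => ?_
      by_cases h : B (p z.unpair.1) (p z.unpair.2) <;> simp [h]
    · intro z
      by_cases h : B (p z.unpair.1) (p z.unpair.2) <;> simp [h]
  obtain ⟨w, hwc, hwB⟩ := hw
  obtain ⟨d, hd⟩ := Code.exists_code.1 (Partrec.nat_iff.1 hwc)
  have hdw : ∀ z, Code.eval d z = Part.some (w z) := by
    intro z; rw [hd]; rfl
  have hP : PrimrecRel (fun z k : ℕ => (Code.evaln k d z).isSome = true) := by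
    have h1 : Primrec (fun q : ℕ × ℕ => Code.evaln q.2 d q.1) :=
      Code.primrec_evaln.comp ((Primrec.snd.pair (Primrec.const d)).pair Primrec.fst)
    have h2 : Primrec (fun q : ℕ × ℕ => (Code.evaln q.2 d q.1).isSome) :=
      Primrec.option_isSome.comp h1
    exact Primrec.eq.comp h2 (Primrec.const true)
  obtain ⟨u, hu, huP, -⟩ := computable_find hP (fun z => by
    have h1 : w z ∈ Code.eval d z := by rw [hdw]; exact Part.mem_some _
    obtain ⟨k, hk⟩ := Code.evaln_complete.1 h1
    have h2 : Code.evaln k d z = some (w z) := hk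
    exact ⟨k, by rw [h2]; rfl⟩)
  have hval : ∀ z k, u z ≤ k → val d k z = w z := by
    intro z k hk
    obtain ⟨v, hv⟩ := Option.isSome_iff_exists.1 (huP z)
    have h1 : v ∈ Code.evaln (u z) d z := hv
    have h2 := Code.evaln_mono hk h1
    have h3 := Code.evaln_sound h1
    rw [hdw] at h3
    have h4 : v = w z := by simpa using h3
    have h5 : Code.evaln k d z = some v := h2
    unfold val
    rw [h5, h4]
    rfl
  let cum : ℕ → ℕ := fun n => Nat.rec (motive := fun _ => ℕ) 0 (fun i s => s + u i) n
  have hcum : Computable cum := by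
    refine Computable.nat_rec (f := fun n : ℕ => n) (g := fun _ : ℕ => (0 : ℕ))
      (h := fun _ q => q.2 + u q.1) Computable.id (Computable.const _) ?_
    exact Primrec.nat_add.to_comp.comp (Computable.snd.comp Computable.snd)
      (hu.comp (Computable.fst.comp Computable.snd))
  have hcums : ∀ n, cum (n + 1) = cum n + u n := fun n => rfl
  have hcumu : ∀ n i, i < n → u i ≤ cum n := by
    intro n
    induction n with
    | zero => intro i hi; omega
    | succ n ih =>
      intro i hi
      rw [hcums]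
      rcases (by omega : i < n ∨ i = n) with h | h
      · have := ih i h; omega
      · rw [h]; omega
  have hsq : Computable (fun j : ℕ => (2 * j + 3) * (2 * j + 3)) := by
    have h1 : Primrec (fun j : ℕ => 2 * j + 3) :=
      Primrec.nat_add.comp (Primrec.nat_mul.comp (Primrec.const 2) Primrec.id) (Primrec.const 3)
    exact (Primrec.nat_mul.comp h1 h1).to_comp
  have hlin : Computable (fun j : ℕ => 2 * j + 2) :=
    (Primrec.nat_add.comp (Primrec.nat_mul.comp (Primrec.const 2) Primrec.id)
      (Primrec.const 2)).to_comp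
  let t : ℕ → ℕ := fun j => cum ((2 * j + 3) * (2 * j + 3)) + (G j + (2 * j + 2))
  have ht : Computable t :=
    Primrec.nat_add.to_comp.comp (hcum.comp hsq) (Primrec.nat_add.to_comp.comp hG hlin)
  obtain ⟨e, he⟩ := Code.exists_code.1 (Partrec.nat_iff.1 ht)
  have het : ∀ j, Code.eval e j = Part.some (t j) := by
    intro j; rw [he]; rfl
  have ht1 : ∀ j, 2 * j + 2 ≤ t j := fun j => by simp only [t]; omega
  have ht2 : ∀ j, G j ≤ t j := fun j => by simp only [t]; omega
  have ht3 : ∀ j, cum ((2 * j + 3) * (2 * j + 3)) ≤ t j := fun j => by simp only [t]; omega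
  have hR := RR_infinite het
  have hR' := not_RR_infinite het ht1
  have hpb' := pos_bijective hR hR'
  -- the halting bound: entries with both indices at most `2j+2`, where the position of `2j+1` is
  -- at most `M`
  have hhalt : ∀ x0 j M a b, pos e x0 = 2 * j + 1 → x0 ≤ M → a ≤ 2 * j + 2 → b ≤ 2 * j + 2 →
      (val d M (Nat.pair a b) = 1 ↔ B (p a) (p b)) := by
    intro x0 j M a b hx0 hM ha hb
    have h1 : Nat.pair a b < (2 * j + 3) * (2 * j + 3) := by
      have h2 := Nat.pair_lt_max_add_one_sq a b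
      have h3 : max a b + 1 ≤ 2 * j + 3 := by
        have := max_le ha hb
        omega
      calc Nat.pair a b < (max a b + 1) ^ 2 := h2
        _ = (max a b + 1) * (max a b + 1) := sq _
        _ ≤ (2 * j + 3) * (2 * j + 3) := Nat.mul_le_mul h3 h3
    have h2 := hcumu _ _ h1
    have h3 := ht3 j
    obtain ⟨hr, hc⟩ := pos_odd hx0
    have h4 := (RR_t het hr).2
    rw [hc] at h4
    rw [hval _ _ (by omega : u (Nat.pair a b) ≤ M)]
    have h5 := hwB (Nat.pair a b)
    rw [Nat.unpair_pair] at h5
    exact h5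
  -- the copy
  let B' : ℕ → ℕ → Prop := fun x y =>
    (¬ (max (pos e x) (pos e y)) % 2 = 0 ∧ val d (max x y) (Nat.pair (pos e x) (pos e y)) = 1) ∨
    ((max (pos e x) (pos e y)) % 2 = 0 ∧
      ((pos e x % 2 = 0 ∧ pos e y % 2 = 0 ∧ Pat c0 c (pos e x) (pos e y)) ∨
       (pos e x % 2 = 0 ∧ ¬ pos e y % 2 = 0 ∧
          val d (max x y) (Nat.pair (pos e y + 1) (pos e y)) = 1) ∨
       (¬ pos e x % 2 = 0 ∧ pos e y % 2 = 0 ∧
          val d (max x y) (Nat.pair (pos e x) (pos e x + 1)) = 1)))
  have hB' : PrimrecRel B' := by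
    have hx : Primrec (fun q : ℕ × ℕ => pos e q.1) := (primrec_pos e).comp Primrec.fst
    have hy : Primrec (fun q : ℕ × ℕ => pos e q.2) := (primrec_pos e).comp Primrec.snd
    have hpar : PrimrecPred (fun q : ℕ × ℕ => (max (pos e q.1) (pos e q.2)) % 2 = 0) :=
      Primrec.eq.comp (Primrec.nat_mod.comp (Primrec.nat_max.comp hx hy) (Primrec.const 2))
        (Primrec.const 0)
    have hparx : PrimrecPred (fun q : ℕ × ℕ => pos e q.1 % 2 = 0) :=
      Primrec.eq.comp (Primrec.nat_mod.comp hx (Primrec.const 2)) (Primrec.const 0)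
    have hpary : PrimrecPred (fun q : ℕ × ℕ => pos e q.2 % 2 = 0) :=
      Primrec.eq.comp (Primrec.nat_mod.comp hy (Primrec.const 2)) (Primrec.const 0)
    have hmax : Primrec (fun q : ℕ × ℕ => max q.1 q.2) :=
      Primrec.nat_max.comp Primrec.fst Primrec.snd
    have hv1 : PrimrecPred (fun q : ℕ × ℕ =>
        val d (max q.1 q.2) (Nat.pair (pos e q.1) (pos e q.2)) = 1) :=
      Primrec.eq.comp ((primrec_val d).comp hmax (Primrec₂.natPair.comp hx hy)) (Primrec.const 1)
    have hv2 : PrimrecPred (fun q : ℕ × ℕ =>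
        val d (max q.1 q.2) (Nat.pair (pos e q.2 + 1) (pos e q.2)) = 1) :=
      Primrec.eq.comp ((primrec_val d).comp hmax (Primrec₂.natPair.comp (Primrec.succ.comp hy) hy))
        (Primrec.const 1)
    have hv3 : PrimrecPred (fun q : ℕ × ℕ =>
        val d (max q.1 q.2) (Nat.pair (pos e q.1) (pos e q.1 + 1)) = 1) :=
      Primrec.eq.comp ((primrec_val d).comp hmax (Primrec₂.natPair.comp hx (Primrec.succ.comp hx)))
        (Primrec.const 1)
    exact PrimrecPred.or (PrimrecPred.and (PrimrecPred.not hpar) hv1)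
      (PrimrecPred.and hpar
        (PrimrecPred.or (PrimrecPred.and hparx (PrimrecPred.and hpary (primrec_Pat c0 c hx hy)))
          (PrimrecPred.or (PrimrecPred.and hparx (PrimrecPred.and (PrimrecPred.not hpary) hv2))
            (PrimrecPred.and (PrimrecPred.not hparx) (PrimrecPred.and hpary hv3)))))
  -- two generic elements
  have hgg : ∀ a b, a % 2 = 0 → b % 2 = 0 → (B (p a) (p b) ↔ Pat c0 c a b) := by
    intro a b ha hb
    have h2a : a = 2 * (a / 2) := by omega
    have h2b : b = 2 * (b / 2) := by omega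
    rcases lt_trichotomy a b with h | h | h
    · have h3 := (hp1 (b / 2) a (by omega)).2
      rw [← h2b] at h3
      have h4 := (hpq (a / 2)).2
      rw [← h2a] at h4
      rw [h3, h4]
      unfold Pat
      have h5 : ¬ a = b := by omega
      simp [h5]
    · subst h
      have h3 := hp0 (a / 2)
      rw [← h2a] at h3
      rw [h3]
      unfold Pat
      simp
    · have h3 := (hp1 (a / 2) b (by omega)).1
      rw [← h2a] at h3
      have h4 := (hpq (b / 2)).1
      rw [← h2b] at h4
      rw [h3, h4]
      unfold Pat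
      have h5 : ¬ a = b := by omega
      simp [h5]
  have hB'B : ∀ x y, B' x y ↔ B (p (pos e x)) (p (pos e y)) := by
    intro x y
    by_cases h : (max (pos e x) (pos e y)) % 2 = 0
    · by_cases hx : pos e x % 2 = 0 <;> by_cases hy : pos e y % 2 = 0
      · rw [hgg _ _ hx hy]
        simp only [B', h, hx, hy, not_true_eq_false, false_and, true_and, or_false, false_or]
      · -- `x` generic and later, `y` odd
        obtain ⟨j, hj⟩ : ∃ j, pos e y = 2 * j + 1 := ⟨pos e y / 2, by omega⟩
        have hlt : pos e y < pos e x := by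
          rcases le_or_gt (pos e x) (pos e y) with h' | h'
          · rw [max_eq_right h'] at h; exact absurd h hy
          · exact h'
        have h1 := hhalt y j (max x y) (pos e y + 1) (pos e y) hj (le_max_right _ _)
          (by omega) (by omega)
        simp only [B', h, hx, hy, not_true_eq_false, not_false_eq_true, false_and, true_and,
          or_false, false_or]
        rw [h1]
        have h2 := (hp1 (j + 1) (pos e y) (by omega)).1
        have h3 : 2 * (j + 1) = pos e y + 1 := by omega
        rw [h3] at h2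
        have h4 := (hp1 (pos e x / 2) (pos e y) (by omega)).1
        have h5 : 2 * (pos e x / 2) = pos e x := by omega
        rw [h5] at h4
        rw [h2, h4]
      · obtain ⟨j, hj⟩ : ∃ j, pos e x = 2 * j + 1 := ⟨pos e x / 2, by omega⟩
        have hlt : pos e x < pos e y := by
          rcases le_or_gt (pos e y) (pos e x) with h' | h'
          · rw [max_eq_left h'] at h; exact absurd h hx
          · exact h'
        have h1 := hhalt x j (max x y) (pos e x) (pos e x + 1) hj (le_max_left _ _)
          (by omega) (by omega)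
        simp only [B', h, hx, hy, not_true_eq_false, not_false_eq_true, false_and, true_and,
          or_false, false_or]
        rw [h1]
        have h2 := (hp1 (j + 1) (pos e x) (by omega)).2
        have h3 : 2 * (j + 1) = pos e x + 1 := by omega
        rw [h3] at h2
        have h4 := (hp1 (pos e y / 2) (pos e x) (by omega)).2
        have h5 : 2 * (pos e y / 2) = pos e y := by omega
        rw [h5] at h4
        rw [h2, h4]
      · exfalso
        rcases max_choice (pos e x) (pos e y) with h' | h'
        · rw [h'] at h; exact hx h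
        · rw [h'] at h; exact hy h
    · obtain ⟨j, hj⟩ : ∃ j, max (pos e x) (pos e y) = 2 * j + 1 :=
        ⟨max (pos e x) (pos e y) / 2, by omega⟩
      have hxl : pos e x ≤ 2 * j + 2 := by
        have := le_max_left (pos e x) (pos e y)
        omega
      have hyl : pos e y ≤ 2 * j + 2 := by
        have := le_max_right (pos e x) (pos e y)
        omega
      have h1 : val d (max x y) (Nat.pair (pos e x) (pos e y)) = 1 ↔
          B (p (pos e x)) (p (pos e y)) := by
        rcases max_choice (pos e x) (pos e y) with h' | h'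
        · rw [h'] at hj
          exact hhalt x j _ _ _ hj (le_max_left _ _) hxl hyl
        · rw [h'] at hj
          exact hhalt y j _ _ _ hj (le_max_right _ _) hxl hyl
      simp only [B', h, not_false_eq_true, true_and, false_and, or_false]
      exact h1
  let φ : ℕ ≃ ℕ := (Equiv.ofBijective (pos e) hpb').trans (Equiv.ofBijective p hpb)
  have hφ : ∀ x, φ x = p (pos e x) := fun x => rfl
  refine ⟨B', φ.symm, RR e, inferInstance, hB', φ.symm.bijective, fun x y => ?_,
    fun x y hx hy => ?_, fun n => count_RR_le het ht2 n⟩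
  · rw [hB'B, ← hφ, ← hφ, φ.apply_symm_apply, φ.apply_symm_apply]
  · have hpx : pos e x % 2 = 0 := by unfold pos; rw [if_neg hx]; omega
    have hpy : pos e y % 2 = 0 := by unfold pos; rw [if_neg hy]; omega
    rw [hB'B, hgg _ _ hpx hpy]
    exact pat_map c0 c hpb'.1 x y

end Fpr62
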