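import Pool.Agent.Lib.MP_36da60_lc.GenA62

/-!
# fpr-degrees: structures with a primitive recursive generic type (II): infinite matchings
-/

namespace Fpr62

/-- `n` pairwise disjoint exceptional pairs below `s` -/
def Match (c0 c : Prop) (B : ℕ → ℕ → Prop) (n s : ℕ) : Prop :=
  ∃ u v : ℕ → ℕ, (∀ i < n, u i < s ∧ v i < s ∧ Exc c0 c B (u i) (v i)) ∧
    ∀ i < n, ∀ j < n, i ≠ j → u i ≠ u j ∧ u i ≠ v j ∧ v i ≠ v j

theorem match_transfer (c0 c : Prop) (B C : ℕ → ℕ → Prop) (h : ℕ → ℕ) (hb : Function.Bijective h)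
    (hBC : ∀ x y, B x y ↔ C (h x) (h y)) (n s S : ℕ) (hS : ∀ x < s, h x < S)
    (hc : Match c0 c B n s) : Match c0 c C n S := by
  obtain ⟨u, v, h1, h2⟩ := hc
  refine ⟨fun i => h (u i), fun i => h (v i), fun i hi => ?_, fun i hi j hj hij => ?_⟩
  · obtain ⟨ha, hb', hc'⟩ := h1 i hi
    exact ⟨hS _ ha, hS _ hb', (exc_map c0 c hb.1 hBC _ _).2 hc'⟩
  · obtain ⟨ha, hb', hc'⟩ := h2 i hi j hj hij
    exact ⟨fun h' => ha (hb.1 h'), fun h' => hb' (hb.1 h'), fun h' => hc' (hb.1 h')⟩

theorem match_le (c0 c : Prop) {B : ℕ → ℕ → Prop} (R : ℕ → Prop) [DecidablePred R]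
    (hR : ∀ x y, ¬ R x → ¬ R y → (B x y ↔ Pat c0 c x y)) {n s : ℕ} (hc : Match c0 c B n s) :
    n ≤ Nat.count R s := by
  classical
  obtain ⟨u, v, h1, h2⟩ := hc
  have hor : ∀ i < n, R (u i) ∨ R (v i) := by
    intro i hi
    by_contra hno
    push Not at hno
    exact (h1 i hi).2.2 (hR _ _ hno.1 hno.2)
  rw [Nat.count_eq_card_filter_range]
  calc n = (Finset.range n).card := (Finset.card_range n).symm
    _ ≤ _ := ?_
  refine Finset.card_le_card_of_injOn (fun i => if R (u i) then u i else v i) ?_ ?_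
  · intro i hi
    have hi' : i < n := by simpa using hi
    simp only [Finset.coe_filter, Finset.mem_range, Set.mem_ofPred_eq]
    by_cases hu : R (u i)
    · simp only [hu, if_true]; exact ⟨(h1 i hi').1, trivial⟩
    · simp only [hu, if_false]
      exact ⟨(h1 i hi').2.1, (hor i hi').resolve_left hu⟩
  · intro i hi j hj hij
    have hi' : i < n := by simpa using hi
    have hj' : j < n := by simpa using hj
    by_contra hne
    obtain ⟨ha, hb, hc⟩ := h2 i hi' j hj' hne
    obtain ⟨-, hb', -⟩ := h2 j hj' i hi' (Ne.symm hne)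
    simp only at hij
    by_cases hu : R (u i) <;> by_cases hv : R (u j)
    · rw [if_pos hu, if_pos hv] at hij; exact ha hij
    · rw [if_pos hu, if_neg hv] at hij; exact hb hij
    · rw [if_neg hu, if_pos hv] at hij; exact hb' hij.symm
    · rw [if_neg hu, if_neg hv] at hij; exact hc hij

/-- the stage at which `n` disjoint exceptional pairs have appeared is computable -/
theorem exists_match_time (c0 c : Prop) {C : ℕ → ℕ → Prop} (hC : PrimrecRel C)
    (hM : ∀ N, ∃ x y, N ≤ x ∧ N ≤ y ∧ Exc c0 c C x y) :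
    ∃ T : ℕ → ℕ, Computable T ∧ ∀ n, Match c0 c C n (T n) := by
  classical
  have hP : PrimrecRel (fun N z : ℕ => N ≤ z.unpair.1 ∧ N ≤ z.unpair.2 ∧
      Exc c0 c C z.unpair.1 z.unpair.2) := by
    refine PrimrecPred.and ?_ (PrimrecPred.and ?_ ?_)
    · exact Primrec.nat_le.comp Primrec.fst (Primrec.fst.comp (Primrec.unpair.comp Primrec.snd))
    · exact Primrec.nat_le.comp Primrec.fst (Primrec.snd.comp (Primrec.unpair.comp Primrec.snd))
    · exact (primrec_Exc c0 c hC).comp Primrec.snd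
  obtain ⟨z, hz, hzP, -⟩ := computable_find hP (fun N => by
    obtain ⟨x, y, hx, hy, hxy⟩ := hM N
    exact ⟨Nat.pair x y, by rw [Nat.unpair_pair]; exact ⟨hx, hy, hxy⟩⟩)
  let T : ℕ → ℕ := fun n => Nat.rec (motive := fun _ => ℕ) 0 (fun _ N => z N + 1) n
  have hTs : ∀ n, T (n + 1) = z (T n) + 1 := fun n => rfl
  have hT : Computable T := by
    refine Computable.nat_rec (f := fun n : ℕ => n) (g := fun _ : ℕ => (0 : ℕ))
      (h := fun _ q => z q.2 + 1) Computable.id (Computable.const _) ?_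
    exact Computable.succ.comp (hz.comp (Computable.snd.comp Computable.snd))
  have hint : ∀ i, T i ≤ (z (T i)).unpair.1 ∧ (z (T i)).unpair.1 < T (i + 1) ∧
      T i ≤ (z (T i)).unpair.2 ∧ (z (T i)).unpair.2 < T (i + 1) := by
    intro i
    obtain ⟨h1, h2, -⟩ := hzP (T i)
    have h3 := Nat.unpair_left_le (z (T i))
    have h4 := Nat.unpair_right_le (z (T i))
    rw [hTs]
    exact ⟨h1, by omega, h2, by omega⟩
  have hmono : Monotone T := monotone_nat_of_le_succ fun i => by
    obtain ⟨h1, h2, -⟩ := hint i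
    omega
  refine ⟨T, hT, fun n => ⟨fun i => (z (T i)).unpair.1, fun i => (z (T i)).unpair.2, ?_, ?_⟩⟩
  · intro i hi
    obtain ⟨h1, h2, h3, h4⟩ := hint i
    have h5 : T (i + 1) ≤ T n := hmono (show i + 1 ≤ n by omega)
    exact ⟨h2.trans_le h5, h4.trans_le h5, (hzP (T i)).2.2⟩
  · intro i hi j hj hij
    obtain ⟨h1, h2, h3, h4⟩ := hint i
    obtain ⟨h1', h2', h3', h4'⟩ := hint j
    simp only
    rcases lt_or_gt_of_ne hij with h | h
    · have h5 : T (i + 1) ≤ T j := hmono (show i + 1 ≤ j by omega)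
      omega
    · have h5 : T (j + 1) ≤ T i := hmono (show j + 1 ≤ i by omega)
      omega

/-- **Infinitely many disjoint exceptional pairs: infinitely many degrees.** -/
theorem infinite_of_matching {α : Type*} {E : α → α → Prop} {B : ℕ → ℕ → Prop} (hB : IsPres E B)
    (c0 c : Prop) {q1 q2 : ℕ → Prop} (hq1 : PrimrecPred q1) (hq2 : PrimrecPred q2)
    (hgen : ∀ L : List ℕ, ∃ a, Gen c0 c q1 q2 B L a)
    (hM : ∀ N, ∃ x y, N ≤ x ∧ N ≤ y ∧ Exc c0 c B x y) : Infinite (Degrees E) := by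
  classical
  refine infinite_of_delay E (Match c0 c) (match_transfer c0 c) ?_ ?_
  · intro C hC
    apply exists_match_time c0 c hC.1
    intro N
    obtain ⟨h, hh, hBC⟩ := exists_iso hB hC
    let e := Equiv.ofBijective h hh
    obtain ⟨x, y, hx, hy, hxy⟩ := hM ((Finset.range N).sup (fun z => e.symm z) + 1)
    have key : ∀ x, (Finset.range N).sup (fun z => e.symm z) + 1 ≤ x → N ≤ h x := by
      intro x hx
      by_contra hlt
      push Not at hlt
      have h1 : e.symm (h x) ≤ (Finset.range N).sup (fun z => e.symm z) :=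
        Finset.le_sup (f := fun z => e.symm z) (Finset.mem_range.2 hlt)
      have h2 : e.symm (h x) = x := e.symm_apply_apply x
      omega
    exact ⟨h x, h y, key x hx, key y hy, (exc_map c0 c hh.1 hBC x y).2 hxy⟩
  · intro G hG
    obtain ⟨B', g, R, hRd, hB', hg, hgB, hR, hn⟩ := exists_delayed_gen c0 c hq1 hq2 hB.1 hgen G hG
    refine ⟨B', hB.copy hB' hg hgB, fun n hm => ?_⟩
    have h1 := match_le c0 c R hR hm
    have h2 := hn n
    omega

end Fpr62
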