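import Pool.Agent.Lib.MP_36da60_lc.GenB62

/-!
# fpr-degrees: structures with a primitive recursive generic type (III): finite matchings
-/

namespace Fpr62

open Nat.Partrec (Code)

theorem phi_mem {R P : ℕ → Prop} (hP : {y | P y}.Infinite) (hP' : {y | ¬ P y}.Infinite) (x : ℕ) :
    P (phi R P x) ↔ R x := by
  classical
  by_cases hx : R x
  · have h1 : phi R P x = Nat.nth P (Nat.count R x) := by simp [phi, hx]
    have h2 : P (Nat.nth P (Nat.count R x)) := Nat.nth_mem_of_infinite hP _
    rw [h1]
    exact iff_of_true h2 hx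
  · have h1 : phi R P x = Nat.nth (fun y => ¬ P y) (Nat.count (fun y => ¬ R y) x) := by
      simp [phi, hx]
    have h2 : ¬ P (Nat.nth (fun y => ¬ P y) (Nat.count (fun y => ¬ R y) x)) :=
      Nat.nth_mem_of_infinite (p := fun y => ¬ P y) hP' _
    rw [h1]
    exact iff_of_false h2 hx

/-- as `exists_delayed`, with a primitive recursive sparse set -/
theorem exists_delayed2 (κ : ℕ → ℕ) (hκ : Computable κ) (q : ℕ → Bool) (hq : Computable q)
    (hinf : {x | q x = true}.Infinite)
    (lam : ℕ → ℕ) (hlam : Primrec lam)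
    (hκlam : ∀ k, κ (Nat.nth (fun x => ¬ q x = true) k) = lam k)
    (G : ℕ → ℕ) (hG : Computable G) :
    ∃ (R : ℕ → Prop) (_ : DecidablePred R) (idx : ℕ → ℕ), PrimrecPred R ∧ Primrec idx ∧
      {x | R x}.Infinite ∧ {x | ¬ R x}.Infinite ∧
      (∀ x, idx x = κ (phi R (fun x => q x = true) x)) ∧
      ∀ n, Nat.count R (G n) ≤ n := by
  classical
  have htc : Computable (fun j : ℕ => Nat.pair (κ (Nat.nth (fun x => q x = true) j))
      (G j + (2 * j + 2))) := by
    have h1 : Computable (fun j : ℕ => κ (Nat.nth (fun x => q x = true) j)) :=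
      hκ.comp (computable_nth hq hinf)
    have h2 : Computable (fun j : ℕ => G j + (2 * j + 2)) := by
      refine Primrec.nat_add.to_comp.comp hG ?_
      exact (Primrec.nat_add.comp (Primrec.nat_mul.comp (Primrec.const 2) Primrec.id)
        (Primrec.const 2)).to_comp
    exact Primrec₂.natPair.to_comp.comp h1 h2
  obtain ⟨c, hc'⟩ := Code.exists_code.1 (Partrec.nat_iff.1 htc)
  set t : ℕ → ℕ := fun j : ℕ => Nat.pair (κ (Nat.nth (fun x => q x = true) j))
      (G j + (2 * j + 2)) with htdef
  have hc : ∀ j, Code.eval c j = Part.some (t j) := by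
    intro j
    rw [hc']
    rfl
  have ht1 : ∀ j, G j + (2 * j + 2) ≤ t j := fun j => Nat.right_le_pair _ _
  have hR := RR_infinite hc
  have hR' := not_RR_infinite hc (fun j => by have := ht1 j; omega)
  refine ⟨RR c, inferInstance, fun x => if RR c x then (val c x (cnt c x)).unpair.1
      else lam (x - cnt c x), primrec_RR c, ?_, hR, hR', ?_, ?_⟩
  · refine Primrec.ite (primrec_RR c) ?_ ?_
    · exact Primrec.fst.comp (Primrec.unpair.comp ((primrec_val c).comp Primrec.id (primrec_cnt c)))
    · exact hlam.comp (Primrec.nat_sub.comp Primrec.id (primrec_cnt c))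
  · intro x
    by_cases hx : RR c x
    · have h1 := RR_t hc hx
      have h2 : phi (RR c) (fun x => q x = true) x = Nat.nth (fun x => q x = true) (cnt c x) := by
        unfold phi
        rw [if_pos hx, ← count_RR c x]
        congr
      simp only [hx, if_true]
      rw [h1.1, h2, htdef]
      simp
    · have h2 : phi (RR c) (fun x => q x = true) x =
          Nat.nth (fun x => ¬ q x = true) (x - cnt c x) := by
        have h3 : Nat.count (fun x => ¬ RR c x) x = x - cnt c x := by
          have := count_not_RR c x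
          omega
        unfold phi
        rw [if_neg hx, ← h3]
        congr
      simp only [hx, if_false]
      rw [h2, hκlam]
  · intro n
    exact count_RR_le hc (fun j => by have := ht1 j; omega) n

/-- isomorphism by a finitely supported permutation: all elements off `K` are interchangeable -/
theorem fpr_iso_of_twin (c0 c : Prop) {B C : ℕ → ℕ → Prop} (K : Finset ℕ)
    (h1 : ∀ x y, x ∉ K → y ∉ K → (B x y ↔ Pat c0 c x y))
    (h2 : ∀ y ∈ K, ∀ x x', x ∉ K → x' ∉ K → (B x y ↔ B x' y) ∧ (B y x ↔ B y x'))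
    {f : ℕ → ℕ} (hf : Function.Bijective f) (hfBC : ∀ x y, B x y ↔ C (f x) (f y)) :
    ∃ σ : Equiv.Perm ℕ, Primrec σ ∧ Primrec σ.symm ∧ ∀ x y, B x y ↔ C (σ x) (σ y) := by
  classical
  obtain ⟨σ, hσ, hσ', hσK⟩ := exists_perm f hf.1 K
  refine ⟨σ, hσ, hσ', ?_⟩
  let e := Equiv.ofBijective f hf
  have hτ : ∀ x, f (e.symm (σ x)) = σ x := fun x => e.apply_symm_apply _
  have hτK : ∀ x ∈ K, e.symm (σ x) = x := by
    intro x hx
    apply hf.1
    rw [hτ, hσK x hx]
  have hτinj : ∀ x y, e.symm (σ x) = e.symm (σ y) ↔ x = y := by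
    intro x y
    constructor
    · intro h; exact σ.injective (e.symm.injective h)
    · rintro rfl; rfl
  have hτmem : ∀ x, e.symm (σ x) ∈ K ↔ x ∈ K := by
    intro x
    constructor
    · intro h
      have h1 := hτK _ h
      have h2 : e.symm (σ x) = x := (hτinj _ _).1 h1
      rw [← h2]; exact h
    · intro h; rw [hτK x h]; exact h
  have hpat : ∀ x y, Pat c0 c (e.symm (σ x)) (e.symm (σ y)) ↔ Pat c0 c x y := by
    intro x y
    unfold Pat
    rw [ne_eq, hτinj]
  intro x y
  rw [← hτ x, ← hτ y, ← hfBC]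
  by_cases hx : x ∈ K <;> by_cases hy : y ∈ K
  · rw [hτK x hx, hτK y hy]
  · rw [hτK x hx]
    exact (h2 x hx y _ hy (fun h => hy ((hτmem y).1 h))).2
  · rw [hτK y hy]
    exact (h2 y hy x _ hx (fun h => hx ((hτmem x).1 h))).1
  · rw [h1 x y hx hy, h1 _ _ (fun h => hx ((hτmem x).1 h)) (fun h => hy ((hτmem y).1 h)), hpat]

/-- the relation to `k` read from the side `b` -/
def Sd (b : Bool) (B : ℕ → ℕ → Prop) (k z : ℕ) : Prop :=
  (b = true ∧ B z k) ∨ (b = false ∧ B k z)

/-- two sets of `n` numbers below `s` separated by their relation to some `k < s` -/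
def TypeFeat (b : Bool) (B : ℕ → ℕ → Prop) (n s : ℕ) : Prop :=
  ∃ (k : ℕ) (D D' : Finset ℕ), k < s ∧ D.card = n ∧ D'.card = n ∧
    (∀ d ∈ D, d < s ∧ d ≠ k ∧ Sd b B k d) ∧ (∀ d ∈ D', d < s ∧ d ≠ k ∧ ¬ Sd b B k d)

theorem sd_map (b : Bool) {B C : ℕ → ℕ → Prop} {h : ℕ → ℕ}
    (hBC : ∀ x y, B x y ↔ C (h x) (h y)) (k z : ℕ) : Sd b C (h k) (h z) ↔ Sd b B k z := by
  unfold Sd
  rw [← hBC, ← hBC]

theorem typeFeat_transfer (b : Bool) (B C : ℕ → ℕ → Prop) (h : ℕ → ℕ) (hb : Function.Bijective h)
    (hBC : ∀ x y, B x y ↔ C (h x) (h y)) (n s S : ℕ) (hS : ∀ x < s, h x < S)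
    (hc : TypeFeat b B n s) : TypeFeat b C n S := by
  classical
  obtain ⟨k, D, D', hk, hD, hD', hDs, hDs'⟩ := hc
  refine ⟨h k, D.image h, D'.image h, hS k hk, ?_, ?_, ?_, ?_⟩
  · rw [Finset.card_image_of_injective _ hb.1, hD]
  · rw [Finset.card_image_of_injective _ hb.1, hD']
  · intro d hd
    obtain ⟨x, hx, rfl⟩ := Finset.mem_image.1 hd
    obtain ⟨h1, h2, h3⟩ := hDs x hx
    exact ⟨hS x h1, fun h' => h2 (hb.1 h'), (sd_map b hBC k x).2 h3⟩
  · intro d hd
    obtain ⟨x, hx, rfl⟩ := Finset.mem_image.1 hd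
    obtain ⟨h1, h2, h3⟩ := hDs' x hx
    exact ⟨hS x h1, fun h' => h2 (hb.1 h'), fun h' => h3 ((sd_map b hBC k x).1 h')⟩

theorem primrec_Sd (b : Bool) {B : ℕ → ℕ → Prop} (hB : PrimrecRel B) (k : ℕ) :
    PrimrecPred (Sd b B k) := by
  have h1 : PrimrecPred (fun z => B z k) := hB.comp Primrec.id (Primrec.const k)
  have h2 : PrimrecPred (fun z => B k z) := hB.comp (Primrec.const k) Primrec.id
  exact PrimrecPred.or (PrimrecPred.and (primrec_const_pred _) h1)
    (PrimrecPred.and (primrec_const_pred _) h2)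

/-- first `n` elements of a primitive recursive infinite set, computably -/
theorem exists_enum {p : ℕ → Prop} (hp : PrimrecPred p) (hinf : {x | p x}.Infinite) :
    ∃ T : ℕ → ℕ, Computable T ∧ ∀ n s, T n ≤ s →
      ∃ D : Finset ℕ, D.card = n ∧ ∀ d ∈ D, d < s ∧ p d := by
  classical
  obtain ⟨q, hq, hqp⟩ := exists_bool hp
  have hinf' : {x | q x = true}.Infinite := by
    have : {x | q x = true} = {x | p x} := by ext x; exact hqp x
    rw [this]; exact hinf
  refine ⟨Nat.nth (fun x => q x = true), computable_nth hq.to_comp hinf', fun n s hs => ?_⟩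
  have h1 : n ≤ Nat.count (fun x => q x = true) s := by
    have h3 : Nat.count (fun x => q x = true) (Nat.nth (fun x => q x = true) n) = n :=
      Nat.count_nth_of_infinite hinf' n
    conv_lhs => rw [← h3]
    exact Nat.count_monotone _ hs
  rw [Nat.count_eq_card_filter_range] at h1
  obtain ⟨D, hD, hDc⟩ := Finset.exists_subset_card_eq h1
  exact ⟨D, hDc, fun d hd => ⟨Finset.mem_range.1 (Finset.mem_filter.1 (hD hd)).1,
    (hqp d).1 (Finset.mem_filter.1 (hD hd)).2⟩⟩

/-- **Two infinite types over a finite set: infinitely many degrees.** -/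
theorem infinite_of_types {α : Type*} {E : α → α → Prop} {B : ℕ → ℕ → Prop} (hB : IsPres E B)
    (c0 c : Prop) (N : ℕ) (hN : ∀ x y, N ≤ x → N ≤ y → (B x y ↔ Pat c0 c x y))
    (b : Bool) (k : ℕ) (hk : k < N) (h1 : {z | Sd b B k z}.Infinite)
    (h0 : {z | ¬ Sd b B k z}.Infinite) : Infinite (Degrees E) := by
  classical
  refine infinite_of_delay E (TypeFeat b) (typeFeat_transfer b) ?_ ?_
  · intro C hC
    obtain ⟨h, hh, hBC⟩ := exists_iso hB hC
    have hinf : ∀ (s : Set ℕ), s.Infinite → (s \ {k}).Infinite := fun s hs =>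
      hs.sdiff (Set.finite_singleton k)
    have hp1 : PrimrecPred (fun d => d ≠ h k ∧ Sd b C (h k) d) :=
      PrimrecPred.and (PrimrecPred.not (Primrec.eq.comp Primrec.id (Primrec.const _)))
        (primrec_Sd b hC.1 _)
    have hp0 : PrimrecPred (fun d => d ≠ h k ∧ ¬ Sd b C (h k) d) :=
      PrimrecPred.and (PrimrecPred.not (Primrec.eq.comp Primrec.id (Primrec.const _)))
        (PrimrecPred.not (primrec_Sd b hC.1 _))
    have hi1 : {d | d ≠ h k ∧ Sd b C (h k) d}.Infinite := by
      refine ((hinf _ h1).image (f := h) hh.1.injOn).mono ?_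
      rintro _ ⟨x, ⟨hx, hxk⟩, rfl⟩
      exact ⟨fun h' => hxk (hh.1 h'), (sd_map b hBC k x).2 hx⟩
    have hi0 : {d | d ≠ h k ∧ ¬ Sd b C (h k) d}.Infinite := by
      refine ((hinf _ h0).image (f := h) hh.1.injOn).mono ?_
      rintro _ ⟨x, ⟨hx, hxk⟩, rfl⟩
      exact ⟨fun h' => hxk (hh.1 h'), fun h' => hx ((sd_map b hBC k x).1 h')⟩
    obtain ⟨T1, hT1, hT1D⟩ := exists_enum hp1 hi1
    obtain ⟨T0, hT0, hT0D⟩ := exists_enum hp0 hi0
    refine ⟨fun n => T1 n + T0 n + (h k + 1), ?_, fun n => ?_⟩
    · exact Primrec.nat_add.to_comp.comp (Primrec.nat_add.to_comp.comp hT1 hT0)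
        (Computable.const _)
    · obtain ⟨D, hD, hDs⟩ := hT1D n (T1 n + T0 n + (h k + 1)) (by omega)
      obtain ⟨D', hD', hDs'⟩ := hT0D n (T1 n + T0 n + (h k + 1)) (by omega)
      exact ⟨h k, D, D', show h k < T1 n + T0 n + (h k + 1) by omega, hD, hD',
        fun d hd => ⟨(hDs d hd).1, (hDs d hd).2.1, (hDs d hd).2.2⟩,
        fun d hd => ⟨(hDs' d hd).1, (hDs' d hd).2.1, (hDs' d hd).2.2⟩⟩
  · intro G hG
    -- the infinite type class
    obtain ⟨a, haN, haX⟩ : ∃ a, N ≤ a ∧ {z | N ≤ z ∧ ∀ i < N, (B z i ↔ B a i) ∧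
        (B i z ↔ B i a)}.Infinite := by
      let ty : {z : ℕ // N ≤ z} → (Fin N → Prop × Prop) := fun z i => (B z i, B i z)
      have hinfsub : Infinite {z : ℕ // N ≤ z} := Set.infinite_coe_iff.2 (Set.Ici_infinite N)
      obtain ⟨y, hy⟩ := Finite.exists_infinite_fiber ty
      obtain ⟨⟨⟨a, ha⟩, haty⟩⟩ := hy.nonempty
      refine ⟨a, ha, ?_⟩
      have h2 : (ty ⁻¹' {y}).Infinite := Set.infinite_coe_iff.1 hy
      refine (h2.image (f := fun z : {z : ℕ // N ≤ z} => (z : ℕ))
        Subtype.val_injective.injOn).mono ?_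
      rintro _ ⟨⟨z, hz⟩, hzty, rfl⟩
      refine ⟨hz, fun i hi => ?_⟩
      have e1 : ty ⟨z, hz⟩ = ty ⟨a, ha⟩ := by
        have e2 : ty ⟨z, hz⟩ = y := hzty
        have e3 : ty ⟨a, ha⟩ = y := haty
        rw [e2, e3]
      have e4 := congrFun e1 ⟨i, hi⟩
      have e5 := (Prod.ext_iff.1 e4)
      exact ⟨iff_of_eq e5.1, iff_of_eq e5.2⟩
    set X : ℕ → Prop := fun z => N ≤ z ∧ ∀ i < N, (B z i ↔ B a i) ∧ (B i z ↔ B i a) with hX
    have hXa : X a := ⟨haN, fun i _ => ⟨Iff.rfl, Iff.rfl⟩⟩
    have hXp : PrimrecPred X := by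
      have hr : PrimrecRel (fun i z : ℕ => (B z i ↔ B a i) ∧ (B i z ↔ B i a)) := by
        refine PrimrecPred.and ?_ ?_
        · exact primrecPred_iff' (hB.1.comp Primrec.snd Primrec.fst)
            (hB.1.comp (Primrec.const a) Primrec.fst)
        · exact primrecPred_iff' (hB.1.comp Primrec.fst Primrec.snd)
            (hB.1.comp Primrec.fst (Primrec.const a))
      have hr2 : PrimrecPred (fun z : ℕ => ∀ i < N, (B z i ↔ B a i) ∧ (B i z ↔ B i a)) :=
        (PrimrecRel.forall_lt hr).comp (Primrec.const N) Primrec.id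
      exact PrimrecPred.and (Primrec.nat_le.comp (Primrec.const N) Primrec.id) hr2
    -- twins
    have tw : ∀ z z' w, X z → X z' → w ≠ z → w ≠ z' → (B z w ↔ B z' w) ∧ (B w z ↔ B w z') := by
      intro z z' w hz hz' hw hw'
      by_cases hwN : w < N
      · exact ⟨((hz.2 w hwN).1).trans ((hz'.2 w hwN).1).symm,
          ((hz.2 w hwN).2).trans ((hz'.2 w hwN).2).symm⟩
      · have hwN' : N ≤ w := by omega
        rw [hN z w hz.1 hwN', hN z' w hz'.1 hwN', hN w z hwN' hz.1, hN w z' hwN' hz'.1]
        unfold Pat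
        simp [hw, hw', Ne.symm hw, Ne.symm hw']
    obtain ⟨q, hq, hqX⟩ := exists_bool (PrimrecPred.not hXp)
    have hinf' : {x | ¬ q x = true}.Infinite := by
      refine haX.mono ?_
      intro x hx hqx
      exact (hqX x).1 hqx hx
    have hinf : {x | q x = true}.Infinite := by
      -- the class lies on one side of `k`
      have hside : ∀ z, X z → (Sd b B k z ↔ Sd b B k a) := by
        intro z hz
        have hz1 : k ≠ z := by have := hz.1; omega
        have hz2 : k ≠ a := by omega
        have h3 := tw z a k hz hXa hz1 hz2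
        unfold Sd
        rw [h3.1, h3.2]
      by_cases ha1 : Sd b B k a
      · refine h0.mono ?_
        intro x hx
        refine (hqX x).2 (fun hxX => hx ((hside x hxX).2 ha1))
      · refine h1.mono ?_
        intro x hx
        refine (hqX x).2 (fun hxX => ha1 ((hside x hxX).1 hx))
    have hlab : Primrec (fun y => if q y = true then y else a) :=
      Primrec.ite (Primrec.eq.comp hq (Primrec.const true)) Primrec.id (Primrec.const a)
    obtain ⟨R, hRd, idx, hRp, hidx, hRi, hRi', hR1, hR3⟩ :=
      exists_delayed2 (fun y => if q y = true then y else a) hlab.to_comp q hq.to_comp hinf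
        (fun _ => a) (Primrec.const _) (fun k => by
          have h6 : ¬ q (Nat.nth (fun x => ¬ q x = true) k) = true :=
            Nat.nth_mem_of_infinite (p := fun x => ¬ q x = true) hinf' k
          rw [if_neg h6]) G hG
    have hmem : ∀ x, q (phi R (fun x => q x = true) x) = true ↔ R x :=
      fun x => phi_mem (R := R) (P := fun x => q x = true) hinf hinf' x
    have hbij : Function.Bijective (phi R (fun x => q x = true)) := by
      refine Function.bijective_iff_has_inverse.2 ⟨phi (fun x => q x = true) R, ?_, ?_⟩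
      · intro x
        exact phi_phi R (fun x => q x = true) hinf hinf' x
      · intro x
        exact phi_phi (fun x => q x = true) R hRi hRi' x
    have hXn : ∀ x, ¬ R x → X (phi R (fun x => q x = true) x) := by
      intro x hx
      by_contra hh
      exact hx ((hmem x).1 ((hqX _).2 hh))
    have hnX : ∀ x, R x → ¬ X (phi R (fun x => q x = true) x) := by
      intro x hx
      exact (hqX _).1 ((hmem x).2 hx)
    have hidR : ∀ x, R x → idx x = phi R (fun x => q x = true) x := by
      intro x hx
      rw [hR1, if_pos ((hmem x).2 hx)]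
    have hidn : ∀ x, ¬ R x → idx x = a := by
      intro x hx
      rw [hR1, if_neg (fun hh => hx ((hmem x).1 hh))]
    let B' : ℕ → ℕ → Prop := fun x y =>
      (¬ R x ∧ ¬ R y ∧ Pat c0 c x y) ∨ ((R x ∨ R y) ∧ B (idx x) (idx y))
    have hB' : PrimrecRel B' := by
      have hx : PrimrecPred (fun r : ℕ × ℕ => R r.1) := hRp.comp Primrec.fst
      have hy : PrimrecPred (fun r : ℕ × ℕ => R r.2) := hRp.comp Primrec.snd
      exact PrimrecPred.or (PrimrecPred.and (PrimrecPred.not hx) (PrimrecPred.and
        (PrimrecPred.not hy) (primrec_Pat c0 c Primrec.fst Primrec.snd)))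
        (PrimrecPred.and (PrimrecPred.or hx hy)
          (hB.1.comp (hidx.comp Primrec.fst) (hidx.comp Primrec.snd)))
    have hB'B : ∀ x y, B' x y ↔ B (phi R (fun x => q x = true) x) (phi R (fun x => q x = true) y) := by
      intro x y
      by_cases hx : R x <;> by_cases hy : R y
      · simp only [B', hx, hy, not_true_eq_false, false_and, true_or, true_and, false_or]
        rw [hidR x hx, hidR y hy]
      · simp only [B', hx, hy, not_true_eq_false, false_and, true_or, true_and, false_or]
        rw [hidR x hx, hidn y hy]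
        have h3 := tw a (phi R (fun x => q x = true) y) (phi R (fun x => q x = true) x) hXa
          (hXn y hy) (fun hh => hnX x hx (hh ▸ hXa)) (fun hh => hnX x hx (hh ▸ hXn y hy))
        exact h3.2
      · simp only [B', hx, hy, not_true_eq_false, not_false_eq_true, false_and, true_and,
          or_true, false_or]
        rw [hidR y hy, hidn x hx]
        have h3 := tw a (phi R (fun x => q x = true) x) (phi R (fun x => q x = true) y) hXa
          (hXn x hx) (fun hh => hnX y hy (hh ▸ hXa)) (fun hh => hnX y hy (hh ▸ hXn x hx))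
        exact h3.1
      · simp only [B', hx, hy, not_false_eq_true, true_and, or_self, false_and, or_false]
        rw [hN _ _ (hXn x hx).1 (hXn y hy).1]
        exact (pat_map c0 c hbij.1 x y).symm
    let φ := Equiv.ofBijective _ hbij
    have hφ : ∀ x, φ x = phi R (fun x => q x = true) x := fun x => rfl
    refine ⟨B', hB.copy hB' (g := φ.symm) φ.symm.bijective ?_, ?_⟩
    · intro x y
      rw [hB'B, ← hφ, ← hφ, φ.apply_symm_apply, φ.apply_symm_apply]
    · rintro n ⟨k0, D, D', hk0, hD, hD', hDs, hDs'⟩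
      have key : ∀ F : Finset ℕ, F.card = n + 1 → (∀ d ∈ F, d < G n) → ∃ d ∈ F, ¬ R d := by
        intro F hF hFs
        by_contra hno
        push Not at hno
        have : F ⊆ (Finset.range (G n)).filter R := fun x hx =>
          Finset.mem_filter.2 ⟨Finset.mem_range.2 (hFs x hx), hno x hx⟩
        have h1 := Finset.card_le_card this
        rw [← Nat.count_eq_card_filter_range, hF] at h1
        have := hR3 n
        omega
      obtain ⟨d, hd, hRd1⟩ := key D hD (fun d hd => (hDs d hd).1)
      obtain ⟨d', hd', hRd2⟩ := key D' hD' (fun d hd => (hDs' d hd).1)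
      obtain ⟨-, hne, hs⟩ := hDs d hd
      obtain ⟨-, hne', hs'⟩ := hDs' d' hd'
      apply hs'
      have h3 := tw _ _ (phi R (fun x => q x = true) k0) (hXn d hRd1) (hXn d' hRd2)
        (fun hh => hne (hbij.1 hh).symm) (fun hh => hne' (hbij.1 hh).symm)
      unfold Sd at hs ⊢
      rw [hB'B, hB'B] at hs ⊢
      rw [← h3.1, ← h3.2]
      exact hs

/-- **Structures with a primitive recursive generic type.** -/
theorem generic_dichotomy {α : Type*} {E : α → α → Prop} {B : ℕ → ℕ → Prop} (hB : IsPres E B)
    (c0 c : Prop) {q1 q2 : ℕ → Prop} (hq1 : PrimrecPred q1) (hq2 : PrimrecPred q2)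
    (hgen : ∀ L : List ℕ, ∃ a, Gen c0 c q1 q2 B L a) :
    FprCategorical E ∨ Infinite (Degrees E) := by
  classical
  by_cases hM : ∀ N, ∃ x y, N ≤ x ∧ N ≤ y ∧ Exc c0 c B x y
  · exact Or.inr (infinite_of_matching hB c0 c hq1 hq2 hgen hM)
  push Not at hM
  obtain ⟨N, hN'⟩ := hM
  have hN : ∀ x y, N ≤ x → N ≤ y → (B x y ↔ Pat c0 c x y) := by
    intro x y hx hy
    have := hN' x y hx hy
    unfold Exc at this
    push Not at this
    exact this
  by_cases hT : ∃ (b : Bool) (k : ℕ), k < N ∧ {z | Sd b B k z}.Infinite ∧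
      {z | ¬ Sd b B k z}.Infinite
  · obtain ⟨b, k, hk, h1, h0⟩ := hT
    exact Or.inr (infinite_of_types hB c0 c N hN b k hk h1 h0)
  · left
    push Not at hT
    -- beyond a bound the type is constant
    have hbd : ∀ (b : Bool) (k : ℕ), k < N → ∃ M, ∀ z z', M ≤ z → M ≤ z' →
        (Sd b B k z ↔ Sd b B k z') := by
      intro b k hk
      by_cases h1 : {z | Sd b B k z}.Infinite
      · have h2 : {z | ¬ Sd b B k z}.Finite := Set.not_infinite.1 (fun h => by
          have := hT b k hk h1
          exact absurd h (by simpa using this))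
        obtain ⟨M, hM⟩ := h2.bddAbove
        refine ⟨M + 1, fun z z' hz hz' => ?_⟩
        have a1 : Sd b B k z := by
          by_contra hh
          have : z ≤ M := hM hh
          omega
        have a2 : Sd b B k z' := by
          by_contra hh
          have : z' ≤ M := hM hh
          omega
        exact iff_of_true a1 a2
      · obtain ⟨M, hM⟩ := (Set.not_infinite.1 h1).bddAbove
        refine ⟨M + 1, fun z z' hz hz' => ?_⟩
        have a1 : ¬ Sd b B k z := by
          intro hh
          have : z ≤ M := hM hh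
          omega
        have a2 : ¬ Sd b B k z' := by
          intro hh
          have : z' ≤ M := hM hh
          omega
        exact iff_of_false a1 a2
    choose! M hM using hbd
    let N' := N + (Finset.range N).sup (M true) + (Finset.range N).sup (M false)
    have hMt : ∀ k < N, M true k ≤ N' := by
      intro k hk
      have := Finset.le_sup (f := M true) (Finset.mem_range.2 hk)
      simp only [N']; omega
    have hMf : ∀ k < N, M false k ≤ N' := by
      intro k hk
      have := Finset.le_sup (f := M false) (Finset.mem_range.2 hk)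
      simp only [N']; omega
    have hNN' : N ≤ N' := by simp only [N']; omega
    have hiso : ∀ C, IsPres E C → ∃ σ : Equiv.Perm ℕ, Primrec σ ∧ Primrec σ.symm ∧
        ∀ x y, B x y ↔ C (σ x) (σ y) := by
      intro C hC
      obtain ⟨h, hh, hBC⟩ := exists_iso hB hC
      refine fpr_iso_of_twin c0 c (Finset.range N') ?_ ?_ hh hBC
      · intro x y hx hy
        rw [Finset.mem_range] at hx hy
        exact hN x y (by omega) (by omega)
      · intro y _ x x' hx hx'
        rw [Finset.mem_range] at hx hx'
        by_cases hyN : y < N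
        · have h1 := hM true y hyN x x' (by have := hMt y hyN; omega)
            (by have := hMt y hyN; omega)
          have h2 := hM false y hyN x x' (by have := hMf y hyN; omega)
            (by have := hMf y hyN; omega)
          unfold Sd at h1 h2
          simp only [true_and, false_and, or_false, reduceCtorEq, false_or] at h1 h2
          exact ⟨h1, h2⟩
        · have hyN' : y < N' := by
            have : y ∈ Finset.range N' := by assumption
            exact Finset.mem_range.1 this
          rw [hN x y (by omega) (by omega), hN x' y (by omega) (by omega),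
            hN y x (by omega) (by omega), hN y x' (by omega) (by omega)]
          unfold Pat
          have e1 : ¬ x = y := by omega
          have e2 : ¬ x' = y := by omega
          have e3 : ¬ y = x := by omega
          have e4 : ¬ y = x' := by omega
          simp [e1, e2, e3, e4]
    intro C D hC hD
    obtain ⟨σ, hσ, hσ', hσC⟩ := hiso C hC
    obtain ⟨ρ, hρ, hρ', hρD⟩ := hiso D hD
    refine ⟨σ.symm.trans ρ, hρ.comp hσ', hσ.comp hρ', fun x y => ?_⟩
    have h1 := hσC (σ.symm x) (σ.symm y)
    rw [σ.apply_symm_apply, σ.apply_symm_apply] at h1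
    rw [← h1]
    exact hρD _ _

end Fpr62
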