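import Mathlib

/-!
# Primitive recursive listings of `ℕ` which delay a set (for invariant colourings)
-/

set_option autoImplicit false

namespace Inv27

/-! ### the graph of the Ackermann function -/

theorem getD_map_range (f : ℕ → ℕ) (x n d : ℕ) :
    (((List.range (x + 1)).map f)[n]?).getD d = if n < x + 1 then f n else d := by
  rw [List.getElem?_map]
  split_ifs with h
  · rw [List.getElem?_range h]; rfl
  · rw [List.getElem?_eq_none (by simpa using h)]; rfl

def rowStep (x : ℕ) (L : List ℕ) : List ℕ :=
  (List.range (x + 1)).map (fun n => (fun a => (L[a]?).getD x)^[n + 1] 1)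

def row (x k : ℕ) : List ℕ :=
  Nat.rec (motive := fun _ => List ℕ) ((List.range (x + 1)).map (fun n => min (n + 1) x))
    (fun _ L => rowStep x L) k

theorem row_getD (x k : ℕ) : ∀ n, ((row x k)[n]?).getD x = min (ack k n) x := by
  induction k with
  | zero =>
    intro n
    show (((List.range (x + 1)).map (fun n => min (n + 1) x))[n]?).getD x = _
    rw [getD_map_range, ack_zero]
    split_ifs with h
    · rfl
    · omega
  | succ k ih =>
    intro n
    show ((rowStep x (row x k))[n]?).getD x = _
    unfold rowStep
    rw [getD_map_range]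
    have hg : (fun a => ((row x k)[a]?).getD x) = fun a => min (ack k a) x := funext ih
    rw [hg]
    split_ifs with h
    · clear h
      induction n with
      | zero => simp [ack_succ_zero]
      | succ n ihn =>
        rw [Function.iterate_succ_apply', ihn, ack_succ_succ]
        by_cases hle : ack (k + 1) n ≤ x
        · rw [min_eq_left hle]
        · have h1 : min (ack (k + 1) n) x = x := min_eq_right (by omega)
          have h2 : x < ack k x := lt_ack_right k x
          have h3 : ack (k + 1) n < ack k (ack (k + 1) n) := lt_ack_right k _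
          rw [h1]
          omega
    · have := lt_ack_right (k + 1) n
      omega

theorem primrec_row : Primrec₂ row := by
  have hmin : Primrec₂ (fun x n : ℕ => min (n + 1) x) :=
    Primrec.nat_min.comp (Primrec.succ.comp Primrec.snd) Primrec.fst
  have hbase : Primrec (fun x : ℕ => (List.range (x + 1)).map (fun n => min (n + 1) x)) :=
    Primrec.list_map (Primrec.list_range.comp Primrec.succ) hmin
  have hit : Primrec₂ (fun (a : ℕ × (ℕ × List ℕ)) (n : ℕ) =>
      (fun b => (a.2.2[b]?).getD a.1)^[n + 1] 1) := by
    have hh : Primrec₂ (fun (c : (ℕ × (ℕ × List ℕ)) × ℕ) (b : ℕ) =>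
        (c.1.2.2[b]?).getD c.1.1) := by
      refine Primrec.option_getD.comp (Primrec.list_getElem?.comp ?_ Primrec.snd) ?_
      · exact Primrec.snd.comp (Primrec.snd.comp (Primrec.fst.comp Primrec.fst))
      · exact Primrec.fst.comp (Primrec.fst.comp Primrec.fst)
    exact Primrec.nat_iterate (Primrec.succ.comp Primrec.snd) (Primrec.const 1) hh
  have hstep : Primrec₂ (fun (x : ℕ) (p : ℕ × List ℕ) => rowStep x p.2) := by
    refine Primrec.list_map (Primrec.list_range.comp (Primrec.succ.comp Primrec.fst)) ?_
    exact hit
  exact Primrec.nat_rec hbase hstep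

theorem ack_le_iff (k n x : ℕ) :
    ack k n ≤ x ↔ ((row (x + 1) k)[n]?).getD (x + 1) ≤ x := by
  rw [row_getD]
  omega

theorem primrec_ack_le {β : Type*} [Primcodable β] {k n x : β → ℕ} (hk : Primrec k)
    (hn : Primrec n) (hx : Primrec x) : PrimrecPred (fun b => ack (k b) (n b) ≤ x b) := by
  refine (Primrec.nat_le.comp (Primrec.option_getD.comp (Primrec.list_getElem?.comp
    (primrec_row.comp (Primrec.succ.comp hx) hk) hn) (Primrec.succ.comp hx)) hx).of_eq ?_
  intro b
  exact (ack_le_iff _ _ _).symm

/-- each row of the Ackermann function is primitive recursive -/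
theorem primrec_ack (k : ℕ) : Primrec (ack k) := by
  induction k with
  | zero => exact Primrec.succ.of_eq fun n => by simp
  | succ k ih =>
    have h : ∀ n, (ack k)^[n + 1] 1 = ack (k + 1) n := by
      intro n
      induction n with
      | zero => simp
      | succ n ihn => rw [Function.iterate_succ_apply', ihn, ack_succ_succ]
    exact (Primrec.nat_iterate Primrec.succ (Primrec.const 1) (ih.comp₂ Primrec₂.right)).of_eq h

end Inv27
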