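import Pool.Agent.Lib.MP_36da60_lc.InvA27

/-!
# A primitive recursive listing which holds back one element at a time
-/

set_option autoImplicit false

namespace Inv27

/-- release condition: the element `z` may be released at time `x` at stage `k` -/
def Rel (q : ℕ → Bool) (z k x : ℕ) : Prop :=
  ∃ s < x + 1, z ≤ s ∧ ack k (2 * s + 2) ≤ x ∧ ∀ y < x + 1, s < y → q y = true

theorem primrec_Rel {q : ℕ → Bool} (hq : Primrec q) {β : Type*} [Primcodable β] {z k x : β → ℕ}
    (hz : Primrec z) (hk : Primrec k) (hx : Primrec x) :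
    PrimrecPred (fun b => Rel q (z b) (k b) (x b)) := by
  have h1 : PrimrecRel (fun (y : ℕ) (s : ℕ) => s < y → q y = true) := by
    have e1 : PrimrecRel (fun (y : ℕ) (s : ℕ) => ¬ s < y ∨ q y = true) :=
      PrimrecPred.or (PrimrecPred.not (Primrec.nat_lt.comp Primrec.snd Primrec.fst))
        (Primrec.eq.comp (hq.comp Primrec.fst) (Primrec.const true))
    refine e1.of_eq fun y s => ?_
    tauto
  have h2 := PrimrecRel.forall_lt h1
  have h3 : PrimrecRel (fun (s : ℕ) (p : ℕ × ℕ × ℕ) =>
      p.1 ≤ s ∧ ack p.2.1 (2 * s + 2) ≤ p.2.2 ∧ ∀ y < p.2.2 + 1, s < y → q y = true) := by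
    refine PrimrecPred.and ?_ (PrimrecPred.and ?_ ?_)
    · exact Primrec.nat_le.comp (Primrec.fst.comp Primrec.snd) Primrec.fst
    · refine primrec_ack_le (Primrec.fst.comp (Primrec.snd.comp Primrec.snd)) ?_
        (Primrec.snd.comp (Primrec.snd.comp Primrec.snd))
      exact Primrec.nat_add.comp (Primrec.nat_mul.comp (Primrec.const 2) Primrec.fst)
        (Primrec.const 2)
    · exact h2.comp (Primrec.succ.comp (Primrec.snd.comp (Primrec.snd.comp Primrec.snd)))
        Primrec.fst
  have h4 := PrimrecRel.exists_mem_list h3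
  have h5 : PrimrecPred (fun b => ∃ s ∈ List.range (x b + 1), z b ≤ s ∧
      ack (k b) (2 * s + 2) ≤ x b ∧ ∀ y < x b + 1, s < y → q y = true) :=
    h4.comp (Primrec.list_range.comp (Primrec.succ.comp hx)) (hz.pair (hk.pair hx))
  refine h5.of_eq fun b => ?_
  unfold Rel
  simp only [List.mem_range]

/-- one step of the state: `(stage, 0)` nothing is held, `(stage, z + 1)`: `z` is held -/
noncomputable def stp (q : ℕ → Bool) (x : ℕ) (st : ℕ × ℕ) : ℕ × ℕ :=
  open Classical in
  if st.2 = 0 then (if q x = true then st else (st.1, x + 1))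
  else (if Rel q (st.2 - 1) st.1 x then (st.1 + 1, 0) else st)

noncomputable def out (q : ℕ → Bool) (x : ℕ) (st : ℕ × ℕ) : ℕ :=
  open Classical in
  if st.2 = 0 then (if q x = true then x else x + 1)
  else (if Rel q (st.2 - 1) st.1 x then st.2 - 1 else x + 1)

noncomputable def sta (q : ℕ → Bool) (x : ℕ) : ℕ × ℕ :=
  Nat.rec (motive := fun _ => ℕ × ℕ) (0, 0) (fun x st => stp q x st) x

/-- the listing -/
noncomputable def lst (q : ℕ → Bool) (x : ℕ) : ℕ := out q x (sta q x)

theorem primrec_ite {β σ : Type*} [Primcodable β] [Primcodable σ] {c : β → Prop}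
    (hc : PrimrecPred c) {f g : β → σ} (hf : Primrec f) (hg : Primrec g)
    (inst : ∀ b, Decidable (c b)) : Primrec (fun b => @ite σ (c b) (inst b) (f b) (g b)) := by
  obtain ⟨hd, hc⟩ := hc
  refine (Primrec.cond hc hf hg).of_eq fun b => ?_
  by_cases h : c b <;> simp [h]

theorem primrec_stp {q : ℕ → Bool} (hq : Primrec q) : Primrec₂ (stp q) := by
  unfold stp
  have c1 : PrimrecPred (fun p : ℕ × (ℕ × ℕ) => p.2.2 = 0) :=
    Primrec.eq.comp (Primrec.snd.comp Primrec.snd) (Primrec.const 0)
  have c2 : PrimrecPred (fun p : ℕ × (ℕ × ℕ) => q p.1 = true) :=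
    Primrec.eq.comp (hq.comp Primrec.fst) (Primrec.const true)
  have c3 : PrimrecPred (fun p : ℕ × (ℕ × ℕ) => Rel q (p.2.2 - 1) p.2.1 p.1) :=
    primrec_Rel hq (Primrec.nat_sub.comp (Primrec.snd.comp Primrec.snd) (Primrec.const 1))
      (Primrec.fst.comp Primrec.snd) Primrec.fst
  refine primrec_ite c1 (primrec_ite c2 Primrec.snd ?_ _) (primrec_ite c3 ?_ Primrec.snd _) _
  · exact (Primrec.fst.comp Primrec.snd).pair (Primrec.succ.comp Primrec.fst)
  · exact (Primrec.succ.comp (Primrec.fst.comp Primrec.snd)).pair (Primrec.const 0)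

theorem primrec_out {q : ℕ → Bool} (hq : Primrec q) : Primrec₂ (out q) := by
  unfold out
  have c1 : PrimrecPred (fun p : ℕ × (ℕ × ℕ) => p.2.2 = 0) :=
    Primrec.eq.comp (Primrec.snd.comp Primrec.snd) (Primrec.const 0)
  have c2 : PrimrecPred (fun p : ℕ × (ℕ × ℕ) => q p.1 = true) :=
    Primrec.eq.comp (hq.comp Primrec.fst) (Primrec.const true)
  have c3 : PrimrecPred (fun p : ℕ × (ℕ × ℕ) => Rel q (p.2.2 - 1) p.2.1 p.1) :=
    primrec_Rel hq (Primrec.nat_sub.comp (Primrec.snd.comp Primrec.snd) (Primrec.const 1))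
      (Primrec.fst.comp Primrec.snd) Primrec.fst
  refine primrec_ite c1 (primrec_ite c2 Primrec.fst (Primrec.succ.comp Primrec.fst) _)
    (primrec_ite c3 ?_ (Primrec.succ.comp Primrec.fst) _) _
  exact Primrec.nat_sub.comp (Primrec.snd.comp Primrec.snd) (Primrec.const 1)

theorem primrec_sta {q : ℕ → Bool} (hq : Primrec q) : Primrec (sta q) := by
  unfold sta
  exact Primrec.nat_rec₁ (0, 0) (primrec_stp hq)

theorem primrec_lst {q : ℕ → Bool} (hq : Primrec q) : Primrec (lst q) :=
  (primrec_out hq).comp Primrec.id (primrec_sta hq)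

theorem sta_succ (q : ℕ → Bool) (x : ℕ) : sta q (x + 1) = stp q x (sta q x) := rfl

/-- the invariant -/
def Inv (q : ℕ → Bool) (x : ℕ) : Prop :=
  ((sta q x).2 = 0 → ∀ y, (∃ i < x, lst q i = y) ↔ y < x) ∧
  ∀ z, (sta q x).2 = z + 1 → z < x ∧ q z = false ∧ ∀ y, (∃ i < x, lst q i = y) ↔ (y ≤ x ∧ y ≠ z)

theorem inv (q : ℕ → Bool) (x : ℕ) : Inv q x := by
  induction x with
  | zero =>
    refine ⟨fun _ y => by simp, fun z hz => ?_⟩
    simp [sta] at hz
  | succ x ih =>
    obtain ⟨h0, h1⟩ := ih
    have hl : ∀ y, (∃ i < x + 1, lst q i = y) ↔ ((∃ i < x, lst q i = y) ∨ lst q x = y) := by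
      intro y
      constructor
      · rintro ⟨i, hi, h⟩
        rcases Nat.lt_succ_iff_lt_or_eq.1 hi with h' | h'
        · exact Or.inl ⟨i, h', h⟩
        · exact Or.inr (h' ▸ h)
      · rintro (⟨i, hi, h⟩ | h)
        · exact ⟨i, by omega, h⟩
        · exact ⟨x, by omega, h⟩
    by_cases hs : (sta q x).2 = 0
    · have h0' := h0 hs
      by_cases hq : q x = true
      · have e1 : sta q (x + 1) = sta q x := by rw [sta_succ]; unfold stp; simp [hs, hq]
        have e2 : lst q x = x := by unfold lst out; simp [hs, hq]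
        refine ⟨fun _ y => ?_, fun z hz => ?_⟩
        · rw [hl, h0', e2]; omega
        · rw [e1, hs] at hz; omega
      · have e1 : sta q (x + 1) = ((sta q x).1, x + 1) := by
          rw [sta_succ]; unfold stp; simp [hs, hq]
        have e2 : lst q x = x + 1 := by unfold lst out; simp [hs, hq]
        refine ⟨fun h => ?_, fun z hz => ?_⟩
        · rw [e1] at h; simp at h
        · rw [e1] at hz
          have hzx : z = x := by simpa using hz.symm
          subst hzx
          refine ⟨by omega, by simpa using hq, fun y => ?_⟩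
          rw [hl, h0', e2]; omega
    · obtain ⟨z, hz⟩ := Nat.exists_eq_succ_of_ne_zero hs
      obtain ⟨hzx, hqz, h1'⟩ := h1 z hz
      have hz1 : (sta q x).2 - 1 = z := by omega
      by_cases hr : Rel q z (sta q x).1 x
      · have e1 : sta q (x + 1) = ((sta q x).1 + 1, 0) := by
          rw [sta_succ]; unfold stp; rw [if_neg hs, hz1, if_pos hr]
        have e2 : lst q x = z := by unfold lst out; rw [if_neg hs, hz1, if_pos hr]
        refine ⟨fun _ y => ?_, fun z' hz' => ?_⟩
        · rw [hl, h1', e2]; omega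
        · rw [e1] at hz'; simp at hz'
      · have e1 : sta q (x + 1) = sta q x := by
          rw [sta_succ]; unfold stp; rw [if_neg hs, hz1, if_neg hr]
        have e2 : lst q x = x + 1 := by unfold lst out; rw [if_neg hs, hz1, if_neg hr]
        refine ⟨fun h => ?_, fun z' hz' => ?_⟩
        · rw [e1] at h; exact absurd h hs
        · rw [e1, hz] at hz'
          have : z' = z := by omega
          subst this
          refine ⟨by omega, hqz, fun y => ?_⟩
          rw [hl, h1', e2]; omega

end Inv27
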