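import Pool.Agent.Lib.MP_36da60_lc.InvB27

/-!
# The listing is bijective and wins at every stage
-/

set_option autoImplicit false

namespace Inv27

section
variable {q : ℕ → Bool}

theorem lst_new (q : ℕ → Bool) (x : ℕ) : ∀ i < x, lst q i ≠ lst q x := by
  intro i hi heq
  obtain ⟨h0, h1⟩ := inv q x
  by_cases hs : (sta q x).2 = 0
  · have h2 := (h0 hs (lst q x)).1 ⟨i, hi, heq⟩
    have h3 : x ≤ lst q x := by
      unfold lst out
      rw [if_pos hs]
      split_ifs <;> omega
    omega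
  · obtain ⟨z, hz⟩ := Nat.exists_eq_succ_of_ne_zero hs
    obtain ⟨-, -, h1'⟩ := h1 z hz
    have hz1 : (sta q x).2 - 1 = z := by omega
    have h2 := (h1' (lst q x)).1 ⟨i, hi, heq⟩
    by_cases hr : Rel q z (sta q x).1 x
    · have e2 : lst q x = z := by unfold lst out; rw [if_neg hs, hz1, if_pos hr]
      exact h2.2 e2
    · have e2 : lst q x = x + 1 := by unfold lst out; rw [if_neg hs, hz1, if_neg hr]
      omega

theorem lst_injective (q : ℕ → Bool) : Function.Injective (lst q) := by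
  intro a b hab
  rcases lt_trichotomy a b with h | h | h
  · exact absurd hab (lst_new q b a h)
  · exact h
  · exact absurd hab.symm (lst_new q a b h)

theorem exists_release (hblk : ∀ k N, ∃ s, N ≤ s ∧ ∀ y, s < y → y ≤ ack k (2 * s + 2) → q y = true)
    {x k z : ℕ} (hx : sta q x = (k, z + 1)) :
    ∃ r, x ≤ r ∧ sta q r = (k, z + 1) ∧ Rel q z k r := by
  by_contra hcon
  push Not at hcon
  have hall : ∀ d, sta q (x + d) = (k, z + 1) := by
    intro d
    induction d with
    | zero => exact hx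
    | succ d ih =>
      have hr := hcon (x + d) (by omega) ih
      show sta q ((x + d) + 1) = _
      rw [sta_succ, ih]
      unfold stp
      simp [hr]
  obtain ⟨s, hs, hb⟩ := hblk k (max z x)
  have h1 : s < ack k (2 * s + 2) := by
    have := lt_ack_right k (2 * s + 2)
    omega
  obtain ⟨d, hd⟩ := Nat.exists_eq_add_of_le (show x ≤ ack k (2 * s + 2) by omega)
  refine hcon (ack k (2 * s + 2)) (by omega) (by rw [hd]; exact hall d) ?_
  exact ⟨s, by omega, by omega, le_refl _, fun y hy hsy => hb y hsy (by omega)⟩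

theorem lst_release {r k z : ℕ} (hs : sta q r = (k, z + 1)) (hr : Rel q z k r) :
    lst q r = z ∧ sta q (r + 1) = (k + 1, 0) := by
  constructor
  · unfold lst out
    rw [hs]
    simp [hr]
  · rw [sta_succ, hs]
    unfold stp
    simp [hr]

theorem lst_bijective (hblk : ∀ k N, ∃ s, N ≤ s ∧ ∀ y, s < y → y ≤ ack k (2 * s + 2) → q y = true) :
    Function.Bijective (lst q) := by
  refine ⟨lst_injective q, fun y => ?_⟩
  obtain ⟨h0, h1⟩ := inv q (y + 1)
  by_cases hs : (sta q (y + 1)).2 = 0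
  · obtain ⟨i, -, hi⟩ := (h0 hs y).2 (by omega)
    exact ⟨i, hi⟩
  · obtain ⟨z, hz⟩ := Nat.exists_eq_succ_of_ne_zero hs
    obtain ⟨-, -, h1'⟩ := h1 z hz
    by_cases hzy : y = z
    · subst hzy
      obtain ⟨r, -, hr, hrel⟩ := exists_release hblk (x := y + 1) (k := (sta q (y + 1)).1) (z := y)
        (Prod.ext rfl hz)
      exact ⟨r, (lst_release hr hrel).1⟩
    · obtain ⟨i, -, hi⟩ := (h1' y).2 ⟨by omega, hzy⟩
      exact ⟨i, hi⟩

theorem exists_hold (hinf : {x | q x = false}.Infinite) {x k : ℕ} (hx : sta q x = (k, 0)) :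
    ∃ y z, sta q y = (k, z + 1) := by
  by_contra hcon
  push Not at hcon
  have hall : ∀ d, sta q (x + d) = (k, 0) := by
    intro d
    induction d with
    | zero => exact hx
    | succ d ih =>
      by_cases hq : q (x + d) = true
      · show sta q ((x + d) + 1) = _
        rw [sta_succ, ih]
        unfold stp
        simp [hq]
      · exfalso
        refine hcon (x + d + 1) (x + d) ?_
        rw [sta_succ, ih]
        unfold stp
        simp [hq]
  obtain ⟨y, hy, hxy⟩ := hinf.exists_gt x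
  obtain ⟨d, hd⟩ := Nat.exists_eq_add_of_le hxy.le
  refine hcon (y + 1) y ?_
  rw [sta_succ, hd, hall d]
  have hqy : q (x + d) = false := by rw [← hd]; exact hy
  unfold stp
  simp [hqy]

theorem exists_stage (hinf : {x | q x = false}.Infinite)
    (hblk : ∀ k N, ∃ s, N ≤ s ∧ ∀ y, s < y → y ≤ ack k (2 * s + 2) → q y = true) (k : ℕ) :
    ∃ x, sta q x = (k, 0) := by
  induction k with
  | zero => exact ⟨0, rfl⟩
  | succ k ih =>
    obtain ⟨x, hx⟩ := ih
    obtain ⟨y, z, hy⟩ := exists_hold hinf hx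
    obtain ⟨r, -, hr, hrel⟩ := exists_release hblk hy
    exact ⟨r + 1, (lst_release hr hrel).2⟩

/-- **Every stage wins.** -/
theorem exists_win (hinf : {x | q x = false}.Infinite)
    (hblk : ∀ k N, ∃ s, N ≤ s ∧ ∀ y, s < y → y ≤ ack k (2 * s + 2) → q y = true) (k : ℕ) :
    ∃ z r s, z ≤ s ∧ ack k (2 * s + 2) ≤ r ∧ (∀ y, s < y → y ≤ r → q y = true) ∧ q z = false ∧
      ∀ i < r, lst q i ≤ r ∧ lst q i ≠ z := by
  obtain ⟨x, hx⟩ := exists_stage hinf hblk k
  obtain ⟨y, z, hy⟩ := exists_hold hinf hx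
  obtain ⟨r, -, hr, hrel⟩ := exists_release hblk hy
  obtain ⟨s, hs1, hs2, hs3, hs4⟩ := hrel
  obtain ⟨-, h1⟩ := inv q r
  obtain ⟨-, hqz, h1'⟩ := h1 z (by rw [hr])
  refine ⟨z, r, s, hs2, hs3, fun y hy1 hy2 => hs4 y (by omega) hy1, hqz, fun i hi => ?_⟩
  exact (h1' (lst q i)).1 ⟨i, hi, rfl⟩

end

end Inv27
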