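import Pool.Agent.Lib.MP_36da60_lc.InvC27
import Pool.Agent.Lib.MP_36da60_lc.EqA62

/-!
# Enumerations of primitive recursive sets; the two cases
-/

set_option autoImplicit false

namespace Inv27

open Classical in
/-- the `i`-th element of `Q` if it is at most `s` -/
noncomputable def en (Q : ℕ → Prop) (s i : ℕ) : ℕ :=
  (List.range (s + 1)).findIdx (fun y => decide (Q y ∧ Nat.count Q y = i))

open Classical in
theorem en_eq {Q : ℕ → Prop} (hQ : {x | Q x}.Infinite) {s i : ℕ} (h : Nat.nth Q i ≤ s) :
    en Q s i = Nat.nth Q i := by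
  have hlen : Nat.nth Q i < (List.range (s + 1)).length := by rw [List.length_range]; omega
  refine (List.findIdx_eq hlen).2 ⟨?_, ?_⟩
  · simp only [List.getElem_range, decide_eq_true_eq]
    exact ⟨Nat.nth_mem_of_infinite hQ i, Nat.count_nth_of_infinite hQ i⟩
  · intro j hj
    simp only [List.getElem_range, decide_eq_false_iff_not]
    rintro ⟨h1, h2⟩
    have h3 := Nat.nth_count h1
    rw [h2] at h3
    omega

open Classical in
theorem primrec_count {Q : ℕ → Prop} (hQ : PrimrecPred Q) : Primrec (Nat.count Q) := by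
  obtain ⟨hd, hp⟩ := hQ
  have h : Primrec (fun n : ℕ => (Nat.rec (motive := fun _ => ℕ) 0
      (fun k c => c + cond (decide (Q k)) 1 0) n : ℕ)) := by
    refine Primrec.nat_rec₁ 0 ?_
    exact Primrec.nat_add.comp Primrec.snd
      (Primrec.cond (hp.comp Primrec.fst) (Primrec.const 1) (Primrec.const 0))
  refine h.of_eq fun n => ?_
  induction n with
  | zero => simp
  | succ k ih =>
    rw [Nat.count_succ]
    simp only
    rw [ih]
    by_cases hk : Q k <;> simp [hk]

open Classical in
theorem primrec_en {Q : ℕ → Prop} (hQ : PrimrecPred Q) : Primrec₂ (en Q) := by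
  unfold en
  refine Primrec.list_findIdx (Primrec.list_range.comp (Primrec.succ.comp Primrec.fst)) ?_
  have h1 : PrimrecPred (fun p : (ℕ × ℕ) × ℕ => Q p.2 ∧ Nat.count Q p.2 = p.1.2) := by
    refine PrimrecPred.and ?_ ?_
    · obtain ⟨hd, hp⟩ := hQ
      exact ⟨fun _ => inferInstance, (hp.comp Primrec.snd).of_eq fun b => by simp⟩
    · exact Primrec.eq.comp ((primrec_count hQ).comp Primrec.snd)
        (Primrec.snd.comp Primrec.fst)
  obtain ⟨hd, hp⟩ := h1
  refine hp.of_eq fun b => ?_
  congr

/-- the element with number `n`: even numbers go to `Q`, odd numbers to the complement -/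
noncomputable def psi (Q : ℕ → Prop) (n : ℕ) : ℕ :=
  if n % 2 = 0 then Nat.nth Q (n / 2) else Nat.nth (fun x => ¬ Q x) (n / 2)

open Classical in
theorem psi_bijective {Q : ℕ → Prop} (hQ : {x | Q x}.Infinite) (hS : {x | ¬ Q x}.Infinite) :
    Function.Bijective (psi Q) := by
  constructor
  · intro a b hab
    have ha : a % 2 = 0 → Q (psi Q a) := fun h => by
      unfold psi; rw [if_pos h]; exact Nat.nth_mem_of_infinite hQ _
    have ha' : ¬ a % 2 = 0 → ¬ Q (psi Q a) := fun h => by
      unfold psi; rw [if_neg h]; exact Nat.nth_mem_of_infinite (p := fun x => ¬ Q x) hS _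
    have hb : b % 2 = 0 → Q (psi Q b) := fun h => by
      unfold psi; rw [if_pos h]; exact Nat.nth_mem_of_infinite hQ _
    have hb' : ¬ b % 2 = 0 → ¬ Q (psi Q b) := fun h => by
      unfold psi; rw [if_neg h]; exact Nat.nth_mem_of_infinite (p := fun x => ¬ Q x) hS _
    by_cases h1 : a % 2 = 0
    · by_cases h2 : b % 2 = 0
      · unfold psi at hab
        rw [if_pos h1, if_pos h2] at hab
        have := Nat.nth_injective hQ hab
        omega
      · exact absurd (hab ▸ ha h1) (hb' h2)
    · by_cases h2 : b % 2 = 0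
      · exact absurd (hb h2) (hab ▸ ha' h1)
      · unfold psi at hab
        rw [if_neg h1, if_neg h2] at hab
        have := Nat.nth_injective hS hab
        omega
  · intro y
    by_cases hy : Q y
    · refine ⟨2 * Nat.count Q y, ?_⟩
      unfold psi
      have h1 : (2 * Nat.count Q y) % 2 = 0 := by omega
      have h2 : (2 * Nat.count Q y) / 2 = Nat.count Q y := by omega
      rw [if_pos h1, h2]
      exact Nat.nth_count hy
    · refine ⟨2 * Nat.count (fun x => ¬ Q x) y + 1, ?_⟩
      unfold psi
      have h1 : ¬ (2 * Nat.count (fun x => ¬ Q x) y + 1) % 2 = 0 := by omega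
      have h2 : (2 * Nat.count (fun x => ¬ Q x) y + 1) / 2 = Nat.count (fun x => ¬ Q x) y := by
        omega
      rw [if_neg h1, h2]
      exact Nat.nth_count (p := fun x => ¬ Q x) hy

/-- **The listing of case 1.** -/
theorem primrec_psi {Q : ℕ → Prop} (hQp : PrimrecPred Q) (hQ : {x | Q x}.Infinite)
    (hS : {x | ¬ Q x}.Infinite) {β : ℕ → ℕ} (hβ : Primrec β)
    (hb : ∀ i, Nat.nth (fun x => ¬ Q x) i ≤ β i) {h : ℕ → ℕ} (hh : Primrec h)
    (hT : ∀ s i, h s = 2 * i → Nat.nth Q i ≤ s) : Primrec (fun s => psi Q (h s)) := by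
  have h1 : Primrec (fun s => if (h s) % 2 = 0 then en Q s (h s / 2)
      else en (fun x => ¬ Q x) (β (h s / 2)) (h s / 2)) := by
    have hd : Primrec (fun s => h s / 2) := Primrec.nat_div.comp hh (Primrec.const 2)
    refine Primrec.ite ?_ ?_ ?_
    · exact Primrec.eq.comp (Primrec.nat_mod.comp hh (Primrec.const 2)) (Primrec.const 0)
    · exact (primrec_en hQp).comp Primrec.id hd
    · exact (primrec_en hQp.not).comp (hβ.comp hd) hd
  refine h1.of_eq fun s => ?_
  unfold psi
  by_cases he : (h s) % 2 = 0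
  · rw [if_pos he, if_pos he]
    exact en_eq hQ (hT s _ (by omega))
  · rw [if_neg he, if_neg he]
    exact en_eq hS (hb _)

/-- **The dichotomy.** -/
theorem dense_or_blocks {Q : ℕ → Prop} (hS : {x | ¬ Q x}.Infinite) :
    (∃ β : ℕ → ℕ, Primrec β ∧ ∀ i, Nat.nth (fun x => ¬ Q x) i ≤ β i) ∨
    ∀ k N, ∃ s, N ≤ s ∧ ∀ y, s < y → y ≤ ack k (2 * s + 2) → Q y := by
  classical
  by_contra hcon
  push Not at hcon
  obtain ⟨h1, k, N, h2⟩ := hcon
  let β : ℕ → ℕ := fun n => Nat.rec (motive := fun _ => ℕ) (Nat.nth (fun x => ¬ Q x) 0 + N)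
    (fun _ b => ack k (2 * b + 2)) n
  have hβ : Primrec β := by
    refine Primrec.nat_rec₁ _ ?_
    exact (primrec_ack k).comp (Primrec.nat_add.comp (Primrec.nat_mul.comp (Primrec.const 2)
      Primrec.snd) (Primrec.const 2))
  obtain ⟨i, hi⟩ := h1 β hβ
  have hall : ∀ i, Nat.nth (fun x => ¬ Q x) i ≤ β i ∧ N ≤ β i := by
    intro i
    induction i with
    | zero => exact ⟨Nat.le_add_right _ _, Nat.le_add_left _ _⟩
    | succ i ih =>
      have hs : β (i + 1) = ack k (2 * β i + 2) := rfl
      obtain ⟨y, hy1, hy2, hy3⟩ := h2 (β i) ih.2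
      refine ⟨?_, ?_⟩
      · have h3 : Nat.nth (fun x => ¬ Q x) (Nat.count (fun x => ¬ Q x) y) = y :=
          Nat.nth_count (p := fun x => ¬ Q x) hy3
        have h4 : i < Nat.count (fun x => ¬ Q x) y := by
          by_contra hle
          have h5 := (Nat.nth_strictMono (p := fun x => ¬ Q x) hS).monotone (not_lt.1 hle)
          rw [h3] at h5
          have := ih.1
          omega
        have h6 := (Nat.nth_strictMono (p := fun x => ¬ Q x) hS).monotone (Nat.succ_le_of_lt h4)
        rw [h3] at h6
        rw [hs]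
        exact h6.trans hy2
      · rw [hs]
        have := lt_ack_right k (2 * β i + 2)
        omega
  exact absurd (hall i).1 (not_le.2 hi)

/-- sums of computable functions -/
theorem computable_sum {ι : Type*} (A : Finset ι) (F : ι → ℕ → ℕ) (hF : ∀ a ∈ A, Computable (F a)) :
    Computable (fun n => ∑ a ∈ A, F a n) := by
  classical
  induction A using Finset.induction_on with
  | empty => simpa using Computable.const 0
  | insert a A ha ih =>
    have h1 := hF a (Finset.mem_insert_self a A)
    have h2 := ih fun b hb => hF b (Finset.mem_insert_of_mem hb)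
    refine (Primrec.nat_add.to_comp.comp h1 h2).of_eq fun n => ?_
    rw [Finset.sum_insert ha]

theorem computable_nth_pred {Q : ℕ → Prop} (hQ : PrimrecPred Q) (hinf : {x | Q x}.Infinite) :
    Computable (Nat.nth Q) := by
  classical
  obtain ⟨hd, hp⟩ := hQ
  have hset : {x | (fun x => decide (Q x)) x = true} = {x | Q x} := by ext x; simp
  have hc := Fpr62.computable_nth (q := fun x => decide (Q x)) hp.to_comp (by rw [hset]; exact hinf)
  refine hc.of_eq fun n => ?_
  simp

end Inv27
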