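import Pool.Agent.Lib.MP_36da60_lc.InvD27

/-!
# Invariant colourings: a strictly lower listing
-/

set_option autoImplicit false

namespace Inv27

/-- **Invariant colourings.**  `A f` means that `f` is an automorphism. -/
theorem exists_lower (A : (ℕ → ℕ) → Prop)
    (hA : ∀ f, A f → Function.Bijective f ∧ ∃ g, A g ∧ ∀ x, g (f x) = x)
    (slow : ∀ T : ℕ → ℕ, Computable T →
      ∃ h : ℕ → ℕ, Primrec h ∧ Function.Bijective h ∧ ∀ s i, h s = 2 * i → T i ≤ s)
    (χ : ℕ → ℕ) (hχ : Primrec χ) (hfin : (Set.range χ).Finite)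
    (h2 : ∃ a b, a ≠ b ∧ {x | χ x = a}.Infinite ∧ {x | χ x = b}.Infinite)
    (hinv : ∀ f, A f → ∀ x y, χ x = χ y → χ (f x) = χ (f y)) :
    ∃ f : ℕ → ℕ, Primrec f ∧ Function.Bijective f ∧
      ∀ p : ℕ → ℕ, Primrec p → ¬ A (fun x => f (p x)) := by
  classical
  have hP : ∀ a, PrimrecPred (fun x => χ x = a) := fun a =>
    Primrec.eq.comp hχ (Primrec.const a)
  -- the complement of every class is infinite
  have hS : ∀ a, {x | ¬ χ x = a}.Infinite := by
    intro a
    obtain ⟨b, c, hbc, hb, hc⟩ := h2
    by_cases hab : b = a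
    · refine hc.mono fun x hx h => ?_
      have hx' : χ x = c := hx
      exact hbc (by rw [hab, ← h, hx'])
    · refine hb.mono fun x hx h => ?_
      have hx' : χ x = b := hx
      exact hab (by rw [← hx', h])
  by_cases hcase : ∃ a, {x | χ x = a}.Infinite ∧
      ∃ β : ℕ → ℕ, Primrec β ∧ ∀ i, Nat.nth (fun x => ¬ χ x = a) i ≤ β i
  · -- case 1
    obtain ⟨a, ha, β, hβ, hb⟩ := hcase
    let I : Finset ℕ := hfin.toFinset.filter (fun c => {x | χ x = c}.Infinite)
    let qq : ℕ → ℕ := fun i => ∑ c ∈ I, Nat.nth (fun x => χ x = c) i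
    have hI : ∀ c, {x | χ x = c}.Infinite → c ∈ I := by
      intro c hc
      refine Finset.mem_filter.2 ⟨?_, hc⟩
      rw [Set.Finite.mem_toFinset]
      obtain ⟨x, hx⟩ := hc.nonempty
      exact ⟨x, hx⟩
    have hqq : Computable qq :=
      computable_sum I _ fun c hc => computable_nth_pred (hP c) (Finset.mem_filter.1 hc).2
    have hmono : Monotone qq := by
      intro i j hij
      refine Finset.sum_le_sum fun c hc => ?_
      exact (Nat.nth_strictMono (p := fun x => χ x = c) (Finset.mem_filter.1 hc).2).monotone hij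
    let T : ℕ → ℕ := fun i => ack i (qq i) + Nat.nth (fun x => χ x = a) i
    have hT : Computable T :=
      Primrec.nat_add.to_comp.comp (computable₂_ack.comp Computable.id hqq)
        (computable_nth_pred (hP a) ha)
    obtain ⟨h, hh, hhb, hhT⟩ := slow T hT
    refine ⟨fun s => psi (fun x => χ x = a) (h s),
      primrec_psi (hP a) ha (hS a) hβ hb hh (fun s i hs => ?_),
      (psi_bijective ha (hS a)).comp hhb, ?_⟩
    · have := hhT s i hs
      simp only [T] at this
      omega
    intro p hp hAp
    obtain ⟨hσ, g, hg, hgσ⟩ := hA _ hAp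
    have hi1 := hinv _ hAp
    have hi2 := hinv _ hg
    have hpi : Function.Injective p := by
      intro x y hxy
      apply hσ.1
      show psi _ (h (p x)) = psi _ (h (p y))
      rw [hxy]
    obtain ⟨y0, hy0⟩ := ha.nonempty
    obtain ⟨x0, hx0⟩ := hσ.2 y0
    have hx0' : χ (psi (fun x => χ x = a) (h (p x0))) = a := by
      have : psi (fun x => χ x = a) (h (p x0)) = y0 := hx0
      rw [this]; exact hy0
    have hcl : ∀ x, χ x = χ x0 → χ (psi (fun x => χ x = a) (h (p x))) = a := by
      intro x hx
      have := hi1 x x0 hx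
      exact this.trans hx0'
    have hcl' : ∀ x, χ (psi (fun x => χ x = a) (h (p x))) = a → χ x = χ x0 := by
      intro x hx
      have h3 := hi2 (psi (fun x => χ x = a) (h (p x))) (psi (fun x => χ x = a) (h (p x0)))
        (hx.trans hx0'.symm)
      have e1 := hgσ x
      have e2 := hgσ x0
      simp only at e1 e2
      rwa [e1, e2] at h3
    have hcinf : {x | χ x = χ x0}.Infinite := by
      have : {x | χ x = χ x0} = (fun x => psi (fun x => χ x = a) (h (p x))) ⁻¹' {x | χ x = a} := by
        ext x
        exact ⟨fun hx => hcl x hx, fun hx => hcl' x hx⟩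
      rw [this]
      exact ha.preimage (fun y _ => hσ.2 y)
    obtain ⟨m, hm⟩ := exists_lt_ack_of_nat_primrec (Primrec.nat_iff.1 hp)
    let X : ℕ → ℕ := Nat.nth (fun x => χ x = χ x0)
    have hX : StrictMono X := Nat.nth_strictMono (p := fun x => χ x = χ x0) hcinf
    have hXc : ∀ j, χ (X j) = χ x0 := fun j =>
      Nat.nth_mem_of_infinite (p := fun x => χ x = χ x0) hcinf j
    have hXq : X m ≤ qq m :=
      Finset.single_le_sum (f := fun c => Nat.nth (fun x => χ x = c) m)
        (fun _ _ => Nat.zero_le _) (hI _ hcinf)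
    have hev : ∀ j, h (p (X j)) % 2 = 0 := by
      intro j
      by_contra hodd
      have h3 := hcl (X j) (hXc j)
      unfold psi at h3
      rw [if_neg hodd] at h3
      exact Nat.nth_mem_of_infinite (p := fun x => ¬ χ x = a) (hS a) _ h3
    have hbound : ∀ j ≤ m, h (p (X j)) / 2 < m := by
      intro j hj
      by_contra hge
      set i := h (p (X j)) / 2 with hi
      have h3 : h (p (X j)) = 2 * i := by have := hev j; omega
      have h4 := hhT _ _ h3
      have h5 : ack i (qq i) ≤ p (X j) := (Nat.le_add_right _ _).trans h4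
      have h6 : p (X j) < ack m (X j) := hm _
      have h7 : X j ≤ qq i := (hX.monotone hj).trans (hXq.trans (hmono (by omega)))
      have h8 : ack m (X j) ≤ ack i (qq i) := ack_le_ack (by omega) h7
      omega
    obtain ⟨j1, hj1, j2, hj2, hne, heq⟩ :=
      Finset.exists_ne_map_eq_of_card_lt_of_maps_to (s := Finset.range (m + 1))
        (t := Finset.range m) (f := fun j => h (p (X j)) / 2) (by simp) (fun j hj => by
          have := hbound j (by simpa [Nat.lt_succ_iff] using hj)
          simpa using this)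
    apply hne
    apply hX.injective
    apply hpi
    apply hhb.1
    have e1 := hev j1
    have e2 := hev j2
    have e3 : h (p (X j1)) / 2 = h (p (X j2)) / 2 := heq
    omega
  · -- case 2
    push Not at hcase
    obtain ⟨a, -, -, ha, -⟩ := h2
    have hblk : ∀ k N, ∃ s, N ≤ s ∧ ∀ y, s < y → y ≤ ack k (2 * s + 2) → χ y = a := by
      rcases dense_or_blocks (Q := fun x => χ x = a) (hS a) with ⟨β, hβ, hb⟩ | h
      · obtain ⟨i, hi⟩ := hcase a ha β hβ
        exact absurd (hb i) (not_le.2 hi)
      · exact h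
    let q : ℕ → Bool := fun x => decide (χ x = a)
    have hq : Primrec q := by
      obtain ⟨hd, hc⟩ := hP a
      refine hc.of_eq fun x => ?_
      by_cases h : χ x = a <;> simp [q, h]
    have hqt : ∀ x, q x = true ↔ χ x = a := fun x => by simp [q]
    have hqf : ∀ x, q x = false ↔ ¬ χ x = a := fun x => by simp [q]
    have hblk' : ∀ k N, ∃ s, N ≤ s ∧ ∀ y, s < y → y ≤ ack k (2 * s + 2) → q y = true := by
      intro k N
      obtain ⟨s, hs, hb⟩ := hblk k N
      exact ⟨s, hs, fun y h1 h2 => (hqt y).2 (hb y h1 h2)⟩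
    have hinf : {x | q x = false}.Infinite := by
      refine (hS a).mono fun x hx => (hqf x).2 hx
    refine ⟨lst q, primrec_lst hq, lst_bijective hblk', ?_⟩
    intro p hp hAp
    obtain ⟨hσ, g, hg, hgσ⟩ := hA _ hAp
    have hi1 := hinv _ hAp
    have hi2 := hinv _ hg
    obtain ⟨m, hm⟩ := exists_lt_ack_of_nat_primrec (Primrec.nat_iff.1 hp)
    obtain ⟨z, r, s, hzs, hr, hb, hz, hw⟩ := exists_win hinf hblk' m
    have hsr : 2 * s + 2 < r := lt_of_lt_of_le (lt_ack_right m _) hr
    have hσr : ∀ x ≤ 2 * s + 2, lst q (p x) ≤ r ∧ lst q (p x) ≠ z := by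
      intro x hx
      apply hw
      exact (hm x).trans_le ((ack_mono_right m hx).trans hr)
    have hcase2 : ∀ x ≤ 2 * s + 2, χ (lst q (p x)) ≠ a → lst q (p x) ≤ s := by
      intro x hx hne
      by_contra hgt
      exact hne ((hqt _).1 (hb _ (by omega) (hσr x hx).1))
    have hblock : ∀ x, s < x → x ≤ 2 * s + 2 → χ x = a := fun x h1 h2 =>
      (hqt x).1 (hb x h1 (by omega))
    have he : χ (lst q (p (s + 1))) = a := by
      by_contra hne
      have hmaps : ∀ x ∈ Finset.Ioc s (2 * s + 2), lst q (p x) ∈ Finset.range (s + 1) := by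
        intro x hx
        rw [Finset.mem_Ioc] at hx
        have h3 : χ (lst q (p x)) = χ (lst q (p (s + 1))) :=
          hi1 x (s + 1) ((hblock x hx.1 hx.2).trans (hblock (s + 1) (by omega) (by omega)).symm)
        have h4 := hcase2 x hx.2 (by rw [h3]; exact hne)
        rw [Finset.mem_range]
        omega
      obtain ⟨x, -, y, -, hxy, heq⟩ := Finset.exists_ne_map_eq_of_card_lt_of_maps_to
        (s := Finset.Ioc s (2 * s + 2)) (t := Finset.range (s + 1))
        (f := fun x => lst q (p x)) (by rw [Nat.card_Ioc, Finset.card_range]; omega) hmaps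
      exact hxy (hσ.1 heq)
    have hcompl : ∀ x, ¬ χ x = a → ¬ χ (lst q (p x)) = a := by
      intro x hx h
      apply hx
      have h3 := hi2 (lst q (p x)) (lst q (p (s + 1))) (h.trans he.symm)
      have e1 : g (lst q (p x)) = x := hgσ x
      have e2 : g (lst q (p (s + 1))) = s + 1 := hgσ (s + 1)
      rw [e1, e2] at h3
      exact h3.trans (hblock (s + 1) (by omega) (by omega))
    let W : Finset ℕ := (Finset.range (s + 1)).filter (fun x => ¬ χ x = a)
    have hzW : z ∈ W := Finset.mem_filter.2 ⟨Finset.mem_range.2 (by omega), (hqf z).1 hz⟩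
    obtain ⟨x, -, y, -, hxy, heq⟩ := Finset.exists_ne_map_eq_of_card_lt_of_maps_to
      (s := W) (t := W.erase z) (f := fun x => lst q (p x))
      (Finset.card_erase_lt_of_mem hzW) (fun x hx => by
        obtain ⟨hx1, hx2⟩ := Finset.mem_filter.1 hx
        rw [Finset.mem_range] at hx1
        have h3 := hcompl x hx2
        have h4 := hcase2 x (by omega) h3
        have h5 := (hσr x (by omega)).2
        exact Finset.mem_erase.2 ⟨h5, Finset.mem_filter.2 ⟨Finset.mem_range.2 (Nat.lt_succ_of_le h4), h3⟩⟩)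
    exact hxy (hσ.1 heq)

end Inv27
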