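import Pool.Agent.Lib.MP_36da60_lc.InvE27

/-!
# The machine which holds back one element, for an arbitrary release condition; blocks in varying
classes
-/

set_option autoImplicit false

namespace Inv27

section machine

variable (ρ : ℕ → ℕ → ℕ → Prop)

/-- one step of the state: `(stage, 0)` nothing is held, `(stage, z + 1)`: `z` is held -/
noncomputable def stpR (x : ℕ) (st : ℕ × ℕ) : ℕ × ℕ :=
  open Classical in
  if st.2 = 0 then (st.1, x + 1)
  else (if ρ (st.2 - 1) st.1 x then (st.1 + 1, 0) else st)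

noncomputable def outR (x : ℕ) (st : ℕ × ℕ) : ℕ :=
  open Classical in
  if st.2 = 0 then x + 1
  else (if ρ (st.2 - 1) st.1 x then st.2 - 1 else x + 1)

noncomputable def staR (x : ℕ) : ℕ × ℕ :=
  Nat.rec (motive := fun _ => ℕ × ℕ) (0, 0) (fun x st => stpR ρ x st) x

/-- the listing -/
noncomputable def lstR (x : ℕ) : ℕ := outR ρ x (staR ρ x)

variable {ρ}

theorem primrec_lstR (hρ : PrimrecPred (fun p : ℕ × ℕ × ℕ => ρ p.1 p.2.1 p.2.2)) :
    Primrec (lstR ρ) := by
  have c1 : PrimrecPred (fun p : ℕ × (ℕ × ℕ) => p.2.2 = 0) :=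
    Primrec.eq.comp (Primrec.snd.comp Primrec.snd) (Primrec.const 0)
  have c3 : PrimrecPred (fun p : ℕ × (ℕ × ℕ) => ρ (p.2.2 - 1) p.2.1 p.1) :=
    hρ.comp ((Primrec.nat_sub.comp (Primrec.snd.comp Primrec.snd) (Primrec.const 1)).pair
      ((Primrec.fst.comp Primrec.snd).pair Primrec.fst))
  have h1 : Primrec₂ (stpR ρ) := by
    unfold stpR
    refine primrec_ite c1 ?_ (primrec_ite c3 ?_ Primrec.snd _) _
    · exact (Primrec.fst.comp Primrec.snd).pair (Primrec.succ.comp Primrec.fst)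
    · exact (Primrec.succ.comp (Primrec.fst.comp Primrec.snd)).pair (Primrec.const 0)
  have h2 : Primrec₂ (outR ρ) := by
    unfold outR
    refine primrec_ite c1 (Primrec.succ.comp Primrec.fst)
      (primrec_ite c3 ?_ (Primrec.succ.comp Primrec.fst) _) _
    exact Primrec.nat_sub.comp (Primrec.snd.comp Primrec.snd) (Primrec.const 1)
  have h3 : Primrec (staR ρ) := by
    unfold staR
    exact Primrec.nat_rec₁ (0, 0) h1
  exact h2.comp Primrec.id h3

theorem staR_succ (x : ℕ) : staR ρ (x + 1) = stpR ρ x (staR ρ x) := rfl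

/-- the invariant -/
theorem invR (x : ℕ) :
    ((staR ρ x).2 = 0 → ∀ y, (∃ i < x, lstR ρ i = y) ↔ y < x) ∧
    ∀ z, (staR ρ x).2 = z + 1 → z < x ∧ ∀ y, (∃ i < x, lstR ρ i = y) ↔ (y ≤ x ∧ y ≠ z) := by
  induction x with
  | zero =>
    refine ⟨fun _ y => by simp, fun z hz => ?_⟩
    simp [staR] at hz
  | succ x ih =>
    obtain ⟨h0, h1⟩ := ih
    have hl : ∀ y, (∃ i < x + 1, lstR ρ i = y) ↔ ((∃ i < x, lstR ρ i = y) ∨ lstR ρ x = y) := by
      intro y
      constructor
      · rintro ⟨i, hi, h⟩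
        rcases Nat.lt_succ_iff_lt_or_eq.1 hi with h' | h'
        · exact Or.inl ⟨i, h', h⟩
        · exact Or.inr (h' ▸ h)
      · rintro (⟨i, hi, h⟩ | h)
        · exact ⟨i, by omega, h⟩
        · exact ⟨x, by omega, h⟩
    by_cases hs : (staR ρ x).2 = 0
    · have h0' := h0 hs
      have e1 : staR ρ (x + 1) = ((staR ρ x).1, x + 1) := by
        rw [staR_succ]; unfold stpR; simp [hs]
      have e2 : lstR ρ x = x + 1 := by unfold lstR outR; simp [hs]
      refine ⟨fun h => ?_, fun z hz => ?_⟩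
      · rw [e1] at h; simp at h
      · rw [e1] at hz
        have hzx : z = x := by simpa using hz.symm
        subst hzx
        refine ⟨by omega, fun y => ?_⟩
        rw [hl, h0', e2]; omega
    · obtain ⟨z, hz⟩ := Nat.exists_eq_succ_of_ne_zero hs
      obtain ⟨hzx, h1'⟩ := h1 z hz
      have hz1 : (staR ρ x).2 - 1 = z := by omega
      by_cases hr : ρ z (staR ρ x).1 x
      · have e1 : staR ρ (x + 1) = ((staR ρ x).1 + 1, 0) := by
          rw [staR_succ]; unfold stpR; rw [if_neg hs, hz1, if_pos hr]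
        have e2 : lstR ρ x = z := by unfold lstR outR; rw [if_neg hs, hz1, if_pos hr]
        refine ⟨fun _ y => ?_, fun z' hz' => ?_⟩
        · rw [hl, h1', e2]; omega
        · rw [e1] at hz'; simp at hz'
      · have e1 : staR ρ (x + 1) = staR ρ x := by
          rw [staR_succ]; unfold stpR; rw [if_neg hs, hz1, if_neg hr]
        have e2 : lstR ρ x = x + 1 := by unfold lstR outR; rw [if_neg hs, hz1, if_neg hr]
        refine ⟨fun h => ?_, fun z' hz' => ?_⟩
        · rw [e1] at h; exact absurd h hs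
        · rw [e1, hz] at hz'
          have : z' = z := by omega
          subst this
          refine ⟨by omega, fun y => ?_⟩
          rw [hl, h1', e2]; omega

theorem lstR_injective : Function.Injective (lstR ρ) := by
  have key : ∀ x, ∀ i < x, lstR ρ i ≠ lstR ρ x := by
    intro x i hi heq
    obtain ⟨h0, h1⟩ := invR (ρ := ρ) x
    by_cases hs : (staR ρ x).2 = 0
    · have h2 := (h0 hs (lstR ρ x)).1 ⟨i, hi, heq⟩
      have h3 : lstR ρ x = x + 1 := by unfold lstR outR; rw [if_pos hs]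
      omega
    · obtain ⟨z, hz⟩ := Nat.exists_eq_succ_of_ne_zero hs
      obtain ⟨-, h1'⟩ := h1 z hz
      have hz1 : (staR ρ x).2 - 1 = z := by omega
      have h2 := (h1' (lstR ρ x)).1 ⟨i, hi, heq⟩
      by_cases hr : ρ z (staR ρ x).1 x
      · have e2 : lstR ρ x = z := by unfold lstR outR; rw [if_neg hs, hz1, if_pos hr]
        exact h2.2 e2
      · have e2 : lstR ρ x = x + 1 := by unfold lstR outR; rw [if_neg hs, hz1, if_neg hr]
        omega
  intro a b hab
  rcases lt_trichotomy a b with h | h | h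
  · exact absurd hab (key b a h)
  · exact h
  · exact absurd hab.symm (key a b h)

theorem exists_releaseR (hrel : ∀ z k x, ∃ r, x ≤ r ∧ ρ z k r)
    {x k z : ℕ} (hx : staR ρ x = (k, z + 1)) : ∃ r, x ≤ r ∧ staR ρ r = (k, z + 1) ∧ ρ z k r := by
  by_contra hcon
  push Not at hcon
  have hall : ∀ d, staR ρ (x + d) = (k, z + 1) := by
    intro d
    induction d with
    | zero => exact hx
    | succ d ih =>
      have hr := hcon (x + d) (by omega) ih
      show staR ρ ((x + d) + 1) = _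
      rw [staR_succ, ih]
      unfold stpR
      simp [hr]
  obtain ⟨r, hr1, hr2⟩ := hrel z k x
  obtain ⟨d, hd⟩ := Nat.exists_eq_add_of_le hr1
  exact hcon r hr1 (by rw [hd]; exact hall d) hr2

theorem lstR_release {r k z : ℕ} (hs : staR ρ r = (k, z + 1)) (hr : ρ z k r) :
    lstR ρ r = z ∧ staR ρ (r + 1) = (k + 1, 0) := by
  constructor
  · unfold lstR outR
    rw [hs]
    simp [hr]
  · rw [staR_succ, hs]
    unfold stpR
    simp [hr]

theorem lstR_bijective (hrel : ∀ z k x, ∃ r, x ≤ r ∧ ρ z k r) : Function.Bijective (lstR ρ) := by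
  refine ⟨lstR_injective, fun y => ?_⟩
  obtain ⟨h0, h1⟩ := invR (ρ := ρ) (y + 1)
  by_cases hs : (staR ρ (y + 1)).2 = 0
  · obtain ⟨i, -, hi⟩ := (h0 hs y).2 (by omega)
    exact ⟨i, hi⟩
  · obtain ⟨z, hz⟩ := Nat.exists_eq_succ_of_ne_zero hs
    obtain ⟨-, h1'⟩ := h1 z hz
    by_cases hzy : y = z
    · subst hzy
      obtain ⟨r, -, hr, hrel'⟩ := exists_releaseR hrel (x := y + 1) (k := (staR ρ (y + 1)).1)
        (z := y) (Prod.ext rfl hz)
      exact ⟨r, (lstR_release hr hrel').1⟩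
    · obtain ⟨i, -, hi⟩ := (h1' y).2 ⟨by omega, hzy⟩
      exact ⟨i, hi⟩

/-- **Every stage wins.** -/
theorem exists_winR (hrel : ∀ z k x, ∃ r, x ≤ r ∧ ρ z k r) (k : ℕ) :
    ∃ z r, ρ z k r ∧ z < r ∧ ∀ i < r, lstR ρ i ≤ r ∧ lstR ρ i ≠ z := by
  have hst : ∀ k, ∃ x, staR ρ x = (k, 0) := by
    intro k
    induction k with
    | zero => exact ⟨0, rfl⟩
    | succ k ih =>
      obtain ⟨x, hx⟩ := ih
      have hy : staR ρ (x + 1) = (k, x + 1) := by
        rw [staR_succ, hx]; unfold stpR; simp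
      obtain ⟨r, -, hr, hr'⟩ := exists_releaseR hrel hy
      exact ⟨r + 1, (lstR_release hr hr').2⟩
  obtain ⟨x, hx⟩ := hst k
  have hy : staR ρ (x + 1) = (k, x + 1) := by
    rw [staR_succ, hx]; unfold stpR; simp
  obtain ⟨r, -, hr, hr'⟩ := exists_releaseR hrel hy
  obtain ⟨-, h1⟩ := invR (ρ := ρ) r
  obtain ⟨h2, h1'⟩ := h1 x (by rw [hr])
  exact ⟨x, r, hr', h2, fun i hi => (h1' (lstR ρ i)).1 ⟨i, hi, rfl⟩⟩

end machine

/-- **The contradiction from a block.** -/
theorem false_of_block (A : (ℕ → ℕ) → Prop)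
    (hA : ∀ f, A f → Function.Bijective f ∧ ∃ g, A g ∧ ∀ x, g (f x) = x)
    (χ : ℕ → ℕ) (hinv : ∀ f, A f → ∀ x y, χ x = χ y → χ (f x) = χ (f y))
    (f p : ℕ → ℕ) (hAp : A (fun x => f (p x))) (m : ℕ) (hm : ∀ n, p n < ack m n)
    (a z r s : ℕ) (hzs : z ≤ s) (hr : ack m (2 * s + 2) ≤ r)
    (hb : ∀ y, s < y → y ≤ r → χ y = a) (hz : ¬ χ z = a) (hw : ∀ i < r, f i ≤ r ∧ f i ≠ z) :
    False := by
  classical
  obtain ⟨hσ, g, hg, hgσ⟩ := hA _ hAp
  have hi1 := hinv _ hAp
  have hi2 := hinv _ hg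
  have hsr : 2 * s + 2 < r := lt_of_lt_of_le (lt_ack_right m _) hr
  have hσr : ∀ x ≤ 2 * s + 2, f (p x) ≤ r ∧ f (p x) ≠ z := by
    intro x hx
    apply hw
    exact (hm x).trans_le ((ack_mono_right m hx).trans hr)
  have hcase2 : ∀ x ≤ 2 * s + 2, χ (f (p x)) ≠ a → f (p x) ≤ s := by
    intro x hx hne
    by_contra hgt
    exact hne (hb _ (by omega) (hσr x hx).1)
  have hblock : ∀ x, s < x → x ≤ 2 * s + 2 → χ x = a := fun x h1 h2 => hb x h1 (by omega)
  have he : χ (f (p (s + 1))) = a := by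
    by_contra hne
    have hmaps : ∀ x ∈ Finset.Ioc s (2 * s + 2), f (p x) ∈ Finset.range (s + 1) := by
      intro x hx
      rw [Finset.mem_Ioc] at hx
      have h3 : χ (f (p x)) = χ (f (p (s + 1))) :=
        hi1 x (s + 1) ((hblock x hx.1 hx.2).trans (hblock (s + 1) (by omega) (by omega)).symm)
      have h4 := hcase2 x hx.2 (by rw [h3]; exact hne)
      rw [Finset.mem_range]
      omega
    obtain ⟨x, -, y, -, hxy, heq⟩ := Finset.exists_ne_map_eq_of_card_lt_of_maps_to
      (s := Finset.Ioc s (2 * s + 2)) (t := Finset.range (s + 1))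
      (f := fun x => f (p x)) (by rw [Nat.card_Ioc, Finset.card_range]; omega) hmaps
    exact hxy (hσ.1 heq)
  have hcompl : ∀ x, ¬ χ x = a → ¬ χ (f (p x)) = a := by
    intro x hx h
    apply hx
    have h3 := hi2 (f (p x)) (f (p (s + 1))) (h.trans he.symm)
    have e1 : g (f (p x)) = x := hgσ x
    have e2 : g (f (p (s + 1))) = s + 1 := hgσ (s + 1)
    rw [e1, e2] at h3
    exact h3.trans (hblock (s + 1) (by omega) (by omega))
  let W : Finset ℕ := (Finset.range (s + 1)).filter (fun x => ¬ χ x = a)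
  have hzW : z ∈ W := Finset.mem_filter.2 ⟨Finset.mem_range.2 (by omega), hz⟩
  obtain ⟨x, -, y, -, hxy, heq⟩ := Finset.exists_ne_map_eq_of_card_lt_of_maps_to
    (s := W) (t := W.erase z) (f := fun x => f (p x))
    (Finset.card_erase_lt_of_mem hzW) (fun x hx => by
      obtain ⟨hx1, hx2⟩ := Finset.mem_filter.1 hx
      rw [Finset.mem_range] at hx1
      have h3 := hcompl x hx2
      have h4 := hcase2 x (by omega) h3
      have h5 := (hσr x (by omega)).2
      exact Finset.mem_erase.2 ⟨h5, Finset.mem_filter.2 ⟨Finset.mem_range.2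
        (Nat.lt_succ_of_le h4), h3⟩⟩)
  exact hxy (hσ.1 heq)

/-- a block in one class which does not contain `z` -/
def RelB (χ : ℕ → ℕ) (z k x : ℕ) : Prop :=
  ∃ s < x + 1, z ≤ s ∧ ack k (2 * s + 2) ≤ x ∧ ¬ χ z = χ (s + 1) ∧
    ∀ y < x + 1, s < y → χ y = χ (s + 1)

theorem primrec_RelB {χ : ℕ → ℕ} (hχ : Primrec χ) :
    PrimrecPred (fun p : ℕ × ℕ × ℕ => RelB χ p.1 p.2.1 p.2.2) := by
  have h1 : PrimrecRel (fun (y : ℕ) (s : ℕ) => s < y → χ y = χ (s + 1)) := by
    have e1 : PrimrecRel (fun (y : ℕ) (s : ℕ) => ¬ s < y ∨ χ y = χ (s + 1)) :=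
      PrimrecPred.or (PrimrecPred.not (Primrec.nat_lt.comp Primrec.snd Primrec.fst))
        (Primrec.eq.comp (hχ.comp Primrec.fst) (hχ.comp (Primrec.succ.comp Primrec.snd)))
    refine e1.of_eq fun y s => ?_
    tauto
  have h2 := PrimrecRel.forall_lt h1
  have h3 : PrimrecRel (fun (s : ℕ) (p : ℕ × ℕ × ℕ) =>
      p.1 ≤ s ∧ ack p.2.1 (2 * s + 2) ≤ p.2.2 ∧ ¬ χ p.1 = χ (s + 1) ∧
        ∀ y < p.2.2 + 1, s < y → χ y = χ (s + 1)) := by
    refine PrimrecPred.and ?_ (PrimrecPred.and ?_ (PrimrecPred.and ?_ ?_))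
    · exact Primrec.nat_le.comp (Primrec.fst.comp Primrec.snd) Primrec.fst
    · refine primrec_ack_le (Primrec.fst.comp (Primrec.snd.comp Primrec.snd)) ?_
        (Primrec.snd.comp (Primrec.snd.comp Primrec.snd))
      exact Primrec.nat_add.comp (Primrec.nat_mul.comp (Primrec.const 2) Primrec.fst)
        (Primrec.const 2)
    · exact PrimrecPred.not (Primrec.eq.comp (hχ.comp (Primrec.fst.comp Primrec.snd))
        (hχ.comp (Primrec.succ.comp Primrec.fst)))
    · exact h2.comp (Primrec.succ.comp (Primrec.snd.comp (Primrec.snd.comp Primrec.snd)))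
        Primrec.fst
  have h4 := PrimrecRel.exists_mem_list h3
  have h5 : PrimrecPred (fun p : ℕ × ℕ × ℕ => ∃ s ∈ List.range (p.2.2 + 1), p.1 ≤ s ∧
      ack p.2.1 (2 * s + 2) ≤ p.2.2 ∧ ¬ χ p.1 = χ (s + 1) ∧
        ∀ y < p.2.2 + 1, s < y → χ y = χ (s + 1)) :=
    h4.comp (Primrec.list_range.comp (Primrec.succ.comp (Primrec.snd.comp Primrec.snd))) Primrec.id
  refine h5.of_eq fun b => ?_
  unfold RelB
  simp only [List.mem_range]

/-- **Blocks.**  For every stage there are arbitrarily late blocks inside one class, and no class is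
cofinite: there is a strictly lower listing. -/
theorem lower_of_blocks (A : (ℕ → ℕ) → Prop)
    (hA : ∀ f, A f → Function.Bijective f ∧ ∃ g, A g ∧ ∀ x, g (f x) = x)
    (χ : ℕ → ℕ) (hχ : Primrec χ) (hS : ∀ a, {x | ¬ χ x = a}.Infinite)
    (hinv : ∀ f, A f → ∀ x y, χ x = χ y → χ (f x) = χ (f y))
    (hblk : ∀ k N, ∃ s, N ≤ s ∧ ∀ y, s < y → y ≤ ack k (2 * s + 2) → χ y = χ (s + 1)) :
    ∃ f : ℕ → ℕ, Primrec f ∧ Function.Bijective f ∧
      ∀ p : ℕ → ℕ, Primrec p → ¬ A (fun x => f (p x)) := by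
  classical
  by_cases hone : ∃ a, ∀ k N, ∃ s, N ≤ s ∧ ∀ y, s < y → y ≤ ack k (2 * s + 2) → χ y = a
  · -- one class has arbitrarily long blocks
    obtain ⟨a, hblk⟩ := hone
    let q : ℕ → Bool := fun x => decide (χ x = a)
    have hq : Primrec q := by
      have hP : PrimrecPred (fun x => χ x = a) := Primrec.eq.comp hχ (Primrec.const a)
      obtain ⟨hd, hc⟩ := hP
      refine hc.of_eq fun x => ?_
      by_cases h : χ x = a <;> simp [q, h]
    have hqt : ∀ x, q x = true ↔ χ x = a := fun x => by simp [q]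
    have hqf : ∀ x, q x = false ↔ ¬ χ x = a := fun x => by simp [q]
    have hblk' : ∀ k N, ∃ s, N ≤ s ∧ ∀ y, s < y → y ≤ ack k (2 * s + 2) → q y = true := by
      intro k N
      obtain ⟨s, hs, hb⟩ := hblk k N
      exact ⟨s, hs, fun y h1 h2 => (hqt y).2 (hb y h1 h2)⟩
    have hinf : {x | q x = false}.Infinite := (hS a).mono fun x hx => (hqf x).2 hx
    refine ⟨lst q, primrec_lst hq, lst_bijective hblk', ?_⟩
    intro p hp hAp
    obtain ⟨m, hm⟩ := exists_lt_ack_of_nat_primrec (Primrec.nat_iff.1 hp)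
    obtain ⟨z, r, s, hzs, hr, hb, hz, hw⟩ := exists_win hinf hblk' m
    exact false_of_block A hA χ hinv _ p hAp m hm a z r s hzs hr
      (fun y h1 h2 => (hqt y).1 (hb y h1 h2)) ((hqf z).1 hz) hw
  · push Not at hone
    have hrel : ∀ z k x, ∃ r, x ≤ r ∧ RelB χ z k r := by
      intro z k x
      obtain ⟨k', N', hno⟩ := hone (χ z)
      obtain ⟨s, hs, hb⟩ := hblk (max k k') (max (max z x) N')
      have h1 : s < ack k (2 * s + 2) := by
        have := lt_ack_right k (2 * s + 2)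
        omega
      have hmono : ∀ j, j ≤ max k k' → ack j (2 * s + 2) ≤ ack (max k k') (2 * s + 2) := fun j hj =>
        ack_mono_left _ hj
      refine ⟨ack k (2 * s + 2), by omega, s, by omega, by omega, le_refl _, ?_, ?_⟩
      · intro heq
        obtain ⟨y, hy1, hy2, hy3⟩ := hno s (by omega)
        apply hy3
        rw [heq]
        exact hb y hy1 (hy2.trans (hmono k' (le_max_right _ _)))
      · intro y hy hsy
        exact hb y hsy ((Nat.lt_succ_iff.1 hy).trans (hmono k (le_max_left _ _)))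
    refine ⟨lstR (RelB χ), primrec_lstR (primrec_RelB hχ), lstR_bijective hrel, ?_⟩
    intro p hp hAp
    obtain ⟨m, hm⟩ := exists_lt_ack_of_nat_primrec (Primrec.nat_iff.1 hp)
    obtain ⟨z, r, ⟨s, hs1, hs2, hs3, hs4, hs5⟩, hzr, hw⟩ := exists_winR hrel m
    exact false_of_block A hA χ hinv _ p hAp m hm (χ (s + 1)) z r s hs2 hs3
      (fun y h1 h2 => hs5 y (by omega) h1) hs4 hw

end Inv27
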