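import Pool.Agent.Lib.MP_36da60_lc.InvF27

/-!
# Infinitely many classes: new classes are dense
-/

set_option autoImplicit false

namespace Inv27

/-- `x` has the colour of a smaller element -/
def Old (χ : ℕ → ℕ) (x : ℕ) : Prop := ∃ y < x, χ y = χ x

theorem primrec_Old {χ : ℕ → ℕ} (hχ : Primrec χ) : PrimrecPred (Old χ) := by
  have h1 : PrimrecRel (fun y x : ℕ => χ y = χ x) :=
    Primrec.eq.comp (hχ.comp Primrec.fst) (hχ.comp Primrec.snd)
  have h2 := PrimrecRel.exists_lt h1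
  exact (h2.comp Primrec.id Primrec.id).of_eq fun x => Iff.rfl

theorem eq_of_not_old {χ : ℕ → ℕ} {x y : ℕ} (hx : ¬ Old χ x) (hy : ¬ Old χ y) (h : χ x = χ y) :
    x = y := by
  rcases lt_trichotomy x y with h1 | h1 | h1
  · exact absurd ⟨x, h1, h⟩ hy
  · exact h1
  · exact absurd ⟨y, h1, h.symm⟩ hx

open Classical in
/-- the least element of the same colour -/
noncomputable def rep (χ : ℕ → ℕ) (x : ℕ) : ℕ := Nat.find (⟨x, rfl⟩ : ∃ y, χ y = χ x)

theorem rep_spec (χ : ℕ → ℕ) (x : ℕ) : χ (rep χ x) = χ x ∧ rep χ x ≤ x ∧ ¬ Old χ (rep χ x) := by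
  classical
  have h1 : χ (rep χ x) = χ x := Nat.find_spec (⟨x, rfl⟩ : ∃ y, χ y = χ x)
  refine ⟨h1, Nat.find_min' _ rfl, ?_⟩
  rintro ⟨y, hy, hyx⟩
  exact Nat.find_min (⟨x, rfl⟩ : ∃ y, χ y = χ x) hy (hyx.trans h1)

/-- **Case A.** -/
theorem lower_of_dense (A : (ℕ → ℕ) → Prop)
    (hA : ∀ f, A f → Function.Bijective f ∧ ∃ g, A g ∧ ∀ x, g (f x) = x)
    (slow : ∀ T : ℕ → ℕ, Computable T →
      ∃ h : ℕ → ℕ, Primrec h ∧ Function.Bijective h ∧ ∀ s i, h s = 2 * i → T i ≤ s)
    (χ : ℕ → ℕ) (hχ : Primrec χ) (hO : {x | Old χ x}.Infinite) (hN : {x | ¬ Old χ x}.Infinite)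
    (hinv : ∀ f, A f → ∀ x y, χ x = χ y → χ (f x) = χ (f y))
    {β : ℕ → ℕ} (hβ : Primrec β) (hb : ∀ i, Nat.nth (fun x => ¬ Old χ x) i ≤ β i) :
    ∃ f : ℕ → ℕ, Primrec f ∧ Function.Bijective f ∧
      ∀ p : ℕ → ℕ, Primrec p → ¬ A (fun x => f (p x)) := by
  classical
  have hOp := primrec_Old hχ
  have hnc := computable_nth_pred hOp hO
  let T : ℕ → ℕ := fun i => ack i (Nat.nth (Old χ) i) + Nat.nth (Old χ) i
  have hT : Computable T :=
    Primrec.nat_add.to_comp.comp (computable₂_ack.comp Computable.id hnc) hnc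
  obtain ⟨h, hh, hhb, hhT⟩ := slow T hT
  refine ⟨fun s => psi (Old χ) (h s), primrec_psi hOp hO hN hβ hb hh (fun s i hs => ?_),
    (psi_bijective hO hN).comp hhb, ?_⟩
  · have := hhT s i hs
    simp only [T] at this
    omega
  intro p hp hAp
  obtain ⟨hσ, g, hg, hgσ⟩ := hA _ hAp
  have hi1 := hinv _ hAp
  obtain ⟨m, hm⟩ := exists_lt_ack_of_nat_primrec (Primrec.nat_iff.1 hp)
  have hpi : Function.Injective p := by
    intro x y hxy
    apply hσ.1
    show psi _ (h (p x)) = psi _ (h (p y))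
    rw [hxy]
  set X := Nat.nth (Old χ) m with hX
  let σ : ℕ → ℕ := fun x => psi (Old χ) (h (p x))
  let P := Finset.range (X + 1)
  -- the elements with new image
  have e1 : (P.filter (fun x => ¬ Old χ (σ x))).card ≤ (P.filter (fun x => ¬ Old χ x)).card := by
    refine Finset.card_le_card_of_injOn (rep χ) ?_ ?_
    · intro x hx
      obtain ⟨hx1, hx2⟩ := Finset.mem_filter.1 (Finset.mem_coe.1 hx)
      obtain ⟨h1, h2, h3⟩ := rep_spec χ x
      refine Finset.mem_coe.2 (Finset.mem_filter.2 ⟨Finset.mem_range.2 ?_, h3⟩)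
      have := Finset.mem_range.1 hx1
      omega
    · intro x hx y hy hxy
      have hx2 := (Finset.mem_filter.1 (Finset.mem_coe.1 hx)).2
      have hy2 := (Finset.mem_filter.1 (Finset.mem_coe.1 hy)).2
      have h4 : χ x = χ y := by
        rw [← (rep_spec χ x).1, ← (rep_spec χ y).1, hxy]
      exact hσ.1 (eq_of_not_old hx2 hy2 (hi1 x y h4))
  have e2 : (P.filter (fun x => Old χ x)).card = m + 1 := by
    rw [← Nat.count_eq_card_filter_range, hX]
    exact Nat.count_nth_succ_of_infinite hO m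
  have e3 := Finset.card_filter_add_card_filter_not (s := P) (fun x => Old χ x)
  have e4 := Finset.card_filter_add_card_filter_not (s := P) (fun x => Old χ (σ x))
  have e5 : m < (P.filter (fun x => Old χ (σ x))).card := by omega
  have hev : ∀ x, Old χ (σ x) → h (p x) % 2 = 0 := by
    intro x hx
    by_contra hodd
    have h3 : Old χ (psi (Old χ) (h (p x))) := hx
    unfold psi at h3
    rw [if_neg hodd] at h3
    exact Nat.nth_mem_of_infinite (p := fun x => ¬ Old χ x) hN _ h3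
  have hbound : ∀ x ∈ P.filter (fun x => Old χ (σ x)), h (p x) / 2 ∈ Finset.range m := by
    intro x hx
    obtain ⟨hx1, hx2⟩ := Finset.mem_filter.1 hx
    have hx1' : x ≤ X := by
      have := Finset.mem_range.1 hx1
      omega
    rw [Finset.mem_range]
    by_contra hge
    set i := h (p x) / 2 with hi
    have h3 : h (p x) = 2 * i := by have := hev x hx2; omega
    have h4 := hhT _ _ h3
    have h5 : ack i (Nat.nth (Old χ) i) ≤ p x := (Nat.le_add_right _ _).trans h4
    have h6 : p x < ack m x := hm _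
    have h7 : X ≤ Nat.nth (Old χ) i :=
      (Nat.nth_strictMono hO).monotone (by omega)
    have h8 : ack m x ≤ ack i (Nat.nth (Old χ) i) := ack_le_ack (by omega) (hx1'.trans h7)
    omega
  obtain ⟨x, hx, y, hy, hxy, heq⟩ := Finset.exists_ne_map_eq_of_card_lt_of_maps_to
    (s := P.filter (fun x => Old χ (σ x))) (t := Finset.range m) (f := fun x => h (p x) / 2)
    (by rw [Finset.card_range]; exact e5) hbound
  apply hxy
  apply hpi
  apply hhb.1
  have e6 := hev x (Finset.mem_filter.1 hx).2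
  have e7 := hev y (Finset.mem_filter.1 hy).2
  have e8 : h (p x) / 2 = h (p y) / 2 := heq
  omega

/-- **The contradiction from a gap without new classes.** -/
theorem false_of_gap (A : (ℕ → ℕ) → Prop)
    (hA : ∀ f, A f → Function.Bijective f ∧ ∃ g, A g ∧ ∀ x, g (f x) = x)
    (χ : ℕ → ℕ) (hinv : ∀ f, A f → ∀ x y, χ x = χ y → χ (f x) = χ (f y))
    (f p : ℕ → ℕ) (hAp : A (fun x => f (p x))) (m : ℕ) (hm : ∀ n, p n < ack m n)
    (z r s b : ℕ) (hzs : z ≤ s) (hr : ack m (s + 1) ≤ r)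
    (hb : ∀ y, s < y → y ≤ b → Old χ y) (hw : ∀ i < r, f i ≤ b ∧ χ (f i) ≠ χ z) :
    False := by
  classical
  obtain ⟨hσ, g, hg, hgσ⟩ := hA _ hAp
  have hi2 := hinv _ hg
  have hσr : ∀ x ≤ s, f (p x) ≤ b ∧ χ (f (p x)) ≠ χ z := by
    intro x hx
    apply hw
    exact (hm x).trans_le ((ack_mono_right m (by omega)).trans hr)
  let W : Finset ℕ := (Finset.range (s + 1)).filter (fun x => ¬ Old χ x)
  have hrW : ∀ v ≤ b, rep χ v ∈ W := by
    intro v hv
    obtain ⟨h1, h2, h3⟩ := rep_spec χ v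
    refine Finset.mem_filter.2 ⟨Finset.mem_range.2 ?_, h3⟩
    by_contra hgt
    exact h3 (hb _ (by omega) (h2.trans hv))
  have hzW : rep χ z ∈ W := by
    obtain ⟨h1, h2, h3⟩ := rep_spec χ z
    exact Finset.mem_filter.2 ⟨Finset.mem_range.2 (by omega), h3⟩
  obtain ⟨x, hx, y, hy, hxy, heq⟩ := Finset.exists_ne_map_eq_of_card_lt_of_maps_to
    (s := W) (t := W.erase (rep χ z)) (f := fun x => rep χ (f (p x)))
    (Finset.card_erase_lt_of_mem hzW) (fun x hx => by
      obtain ⟨hx1, hx2⟩ := Finset.mem_filter.1 hx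
      rw [Finset.mem_range] at hx1
      obtain ⟨h3, h4⟩ := hσr x (by omega)
      refine Finset.mem_erase.2 ⟨?_, hrW _ h3⟩
      intro h5
      apply h4
      rw [← (rep_spec χ (f (p x))).1, ← (rep_spec χ z).1]
      exact congrArg χ h5)
  apply hxy
  have hx2 := (Finset.mem_filter.1 hx).2
  have hy2 := (Finset.mem_filter.1 hy).2
  apply eq_of_not_old hx2 hy2
  have h5 : χ (f (p x)) = χ (f (p y)) := by
    rw [← (rep_spec χ (f (p x))).1, ← (rep_spec χ (f (p y))).1]
    exact congrArg χ heq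
  have h6 := hi2 _ _ h5
  have e1 : g (f (p x)) = x := hgσ x
  have e2 : g (f (p y)) = y := hgσ y
  rwa [e1, e2] at h6

end Inv27
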