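import Pool.Agent.Lib.MP_36da60_lc.InvG27

/-!
# Infinitely many classes: the machine which holds back one class
-/

set_option autoImplicit false

namespace Inv27

open Classical in
/-- least `u ≤ n` with `c u` (`n + 1` if there is none) -/
noncomputable def idx (c : ℕ → Prop) (n : ℕ) : ℕ :=
  (List.range (n + 1)).findIdx (fun u => decide (c u))

theorem idx_of_le {c : ℕ → Prop} {n : ℕ} (h : idx c n ≤ n) :
    c (idx c n) ∧ ∀ v < idx c n, ¬ c v := by
  classical
  unfold idx at h ⊢
  have hlt : (List.range (n + 1)).findIdx (fun u => decide (c u)) < (List.range (n + 1)).length := by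
    rw [List.length_range]; omega
  constructor
  · have h1 := List.findIdx_getElem (w := hlt)
    simpa using h1
  · intro v hv
    have h2 := List.not_of_lt_findIdx hv
    simpa using h2

theorem idx_le {c : ℕ → Prop} {n u : ℕ} (hu : u ≤ n) (hc : c u) : idx c n ≤ u := by
  classical
  by_contra hgt
  have h2 := List.not_of_lt_findIdx (p := fun u => decide (c u)) (xs := List.range (n + 1))
    (show u < idx c n by omega)
  simp [hc] at h2

theorem primrec_idx {β : Type*} [Primcodable β] {c : β → ℕ → Prop} {n : β → ℕ}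
    (hc : PrimrecPred (fun p : β × ℕ => c p.1 p.2)) (hn : Primrec n) :
    Primrec (fun b => idx (c b) (n b)) := by
  classical
  unfold idx
  refine Primrec.list_findIdx (Primrec.list_range.comp (Primrec.succ.comp hn)) ?_
  obtain ⟨hd, hp⟩ := hc
  refine hp.of_eq fun b => ?_
  congr

/-- the data of the machine -/
structure Par where
  χ : ℕ → ℕ
  bnd : ℕ → ℕ

variable (P : Par)

/-- next element for the list `L` while the class of `z` is held back -/
noncomputable def nx (L : List ℕ) (z : ℕ) : ℕ :=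
  idx (fun u => u ∉ L ∧ P.χ u ≠ P.χ z) (P.bnd L.length)

noncomputable def fr (L : List ℕ) : ℕ := idx (fun u => u ∉ L) L.length

noncomputable def cand (L : List ℕ) : ℕ := idx (fun y => ∀ v ∈ L, P.χ v ≠ P.χ y) L.length

/-- release condition -/
def RelG (z k x : ℕ) : Prop :=
  ∃ s < x + 1, z ≤ s ∧ ack k (s + 1) ≤ x ∧ ∀ y < P.bnd x + 1, s < y → Old P.χ y

open Classical in
noncomputable def outG (S : List ℕ × (ℕ × ℕ)) : ℕ :=
  if S.2.2 = 0 then
    (if cand P S.1 ≤ S.1.length then nx P S.1 (cand P S.1) else fr S.1)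
  else (if RelG P (S.2.2 - 1) S.2.1 S.1.length then S.2.2 - 1 else nx P S.1 (S.2.2 - 1))

open Classical in
noncomputable def nst (S : List ℕ × (ℕ × ℕ)) : ℕ × ℕ :=
  if S.2.2 = 0 then
    (if cand P S.1 ≤ S.1.length then (S.2.1, cand P S.1 + 1) else (S.2.1, 0))
  else (if RelG P (S.2.2 - 1) S.2.1 S.1.length then (S.2.1 + 1, 0) else S.2)

noncomputable def stG (S : List ℕ × (ℕ × ℕ)) : List ℕ × (ℕ × ℕ) := (outG P S :: S.1, nst P S)

noncomputable def stateG (x : ℕ) : List ℕ × (ℕ × ℕ) :=
  Nat.rec (motive := fun _ => List ℕ × (ℕ × ℕ)) ([], (0, 0)) (fun _ S => stG P S) x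

noncomputable def lstG (x : ℕ) : ℕ := outG P (stateG P x)

theorem stateG_succ (x : ℕ) : stateG P (x + 1) = (lstG P x :: (stateG P x).1, nst P (stateG P x)) :=
  rfl

variable {P}

theorem primrec_lstG (hχ : Primrec P.χ) (hb : Primrec P.bnd) : Primrec (lstG P) := by
  classical
  have hnm : PrimrecPred (fun p : List ℕ × ℕ => p.2 ∉ p.1) := by
    have h1 : PrimrecRel (fun v u : ℕ => v = u) := Primrec.eq.comp Primrec.fst Primrec.snd
    have h2 := PrimrecRel.exists_mem_list h1
    have h3 : PrimrecPred (fun p : List ℕ × ℕ => ¬ ∃ a ∈ p.1, a = p.2) :=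
      PrimrecPred.not (h2.comp Primrec.fst Primrec.snd)
    refine h3.of_eq fun p => ?_
    constructor
    · intro h hp; exact h ⟨_, hp, rfl⟩
    · rintro h ⟨a, ha, rfl⟩; exact h ha
  have hcol : PrimrecPred (fun p : List ℕ × ℕ => ∀ v ∈ p.1, P.χ v ≠ P.χ p.2) := by
    have h1 : PrimrecRel (fun v y : ℕ => P.χ v ≠ P.χ y) :=
      PrimrecPred.not (Primrec.eq.comp (hχ.comp Primrec.fst) (hχ.comp Primrec.snd))
    exact (PrimrecRel.forall_mem_list h1).comp Primrec.fst Primrec.snd
  have hlen : Primrec (fun S : List ℕ × (ℕ × ℕ) => S.1.length) :=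
    Primrec.list_length.comp Primrec.fst
  -- the three choices
  have hnx : Primrec (fun q : List ℕ × ℕ => nx P q.1 q.2) := by
    unfold nx
    refine primrec_idx (c := fun (q : List ℕ × ℕ) u => u ∉ q.1 ∧ P.χ u ≠ P.χ q.2)
      (PrimrecPred.and ?_ ?_) (hb.comp (Primrec.list_length.comp Primrec.fst))
    · exact hnm.comp ((Primrec.fst.comp Primrec.fst).pair Primrec.snd)
    · exact PrimrecPred.not (Primrec.eq.comp (hχ.comp Primrec.snd)
        (hχ.comp (Primrec.snd.comp Primrec.fst)))
  have hfr : Primrec fr := by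
    unfold fr
    exact primrec_idx (c := fun (L : List ℕ) u => u ∉ L) hnm Primrec.list_length
  have hcand : Primrec (cand P) := by
    unfold cand
    exact primrec_idx (c := fun (L : List ℕ) y => ∀ v ∈ L, P.χ v ≠ P.χ y) hcol
      Primrec.list_length
  -- the conditions
  have c1 : PrimrecPred (fun S : List ℕ × (ℕ × ℕ) => S.2.2 = 0) :=
    Primrec.eq.comp (Primrec.snd.comp Primrec.snd) (Primrec.const 0)
  have c2 : PrimrecPred (fun S : List ℕ × (ℕ × ℕ) => cand P S.1 ≤ S.1.length) :=
    Primrec.nat_le.comp (hcand.comp Primrec.fst) hlen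
  have hrel : PrimrecPred (fun p : ℕ × ℕ × ℕ => RelG P p.1 p.2.1 p.2.2) := by
    have h1 : PrimrecRel (fun (y : ℕ) (s : ℕ) => s < y → Old P.χ y) := by
      have e1 : PrimrecRel (fun (y : ℕ) (s : ℕ) => ¬ s < y ∨ Old P.χ y) :=
        PrimrecPred.or (PrimrecPred.not (Primrec.nat_lt.comp Primrec.snd Primrec.fst))
          ((primrec_Old hχ).comp Primrec.fst)
      refine e1.of_eq fun y s => ?_
      tauto
    have h2 := PrimrecRel.forall_lt h1
    have h3 : PrimrecRel (fun (s : ℕ) (p : ℕ × ℕ × ℕ) =>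
        p.1 ≤ s ∧ ack p.2.1 (s + 1) ≤ p.2.2 ∧ ∀ y < P.bnd p.2.2 + 1, s < y → Old P.χ y) := by
      refine PrimrecPred.and ?_ (PrimrecPred.and ?_ ?_)
      · exact Primrec.nat_le.comp (Primrec.fst.comp Primrec.snd) Primrec.fst
      · exact primrec_ack_le (Primrec.fst.comp (Primrec.snd.comp Primrec.snd))
          (Primrec.succ.comp Primrec.fst) (Primrec.snd.comp (Primrec.snd.comp Primrec.snd))
      · exact h2.comp (Primrec.succ.comp (hb.comp
          (Primrec.snd.comp (Primrec.snd.comp Primrec.snd)))) Primrec.fst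
    have h4 := PrimrecRel.exists_mem_list h3
    have h5 : PrimrecPred (fun p : ℕ × ℕ × ℕ => ∃ s ∈ List.range (p.2.2 + 1), p.1 ≤ s ∧
        ack p.2.1 (s + 1) ≤ p.2.2 ∧ ∀ y < P.bnd p.2.2 + 1, s < y → Old P.χ y) :=
      h4.comp (Primrec.list_range.comp (Primrec.succ.comp (Primrec.snd.comp Primrec.snd)))
        Primrec.id
    refine h5.of_eq fun b => ?_
    unfold RelG
    simp only [List.mem_range]
  have hz : Primrec (fun S : List ℕ × (ℕ × ℕ) => S.2.2 - 1) :=
    Primrec.nat_sub.comp (Primrec.snd.comp Primrec.snd) (Primrec.const 1)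
  have hk : Primrec (fun S : List ℕ × (ℕ × ℕ) => S.2.1) := Primrec.fst.comp Primrec.snd
  have c3 : PrimrecPred (fun S : List ℕ × (ℕ × ℕ) =>
      RelG P (S.2.2 - 1) S.2.1 S.1.length) := hrel.comp (hz.pair (hk.pair hlen))
  have hout : Primrec (outG P) := by
    unfold outG
    refine primrec_ite c1 (primrec_ite c2 ?_ (hfr.comp Primrec.fst) _)
      (primrec_ite c3 hz ?_ _) _
    · exact hnx.comp (Primrec.fst.pair (hcand.comp Primrec.fst))
    · exact hnx.comp (Primrec.fst.pair hz)
  have hnst : Primrec (nst P) := by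
    unfold nst
    refine primrec_ite c1 (primrec_ite c2 ?_ ?_ _) (primrec_ite c3 ?_ Primrec.snd _) _
    · exact hk.pair (Primrec.succ.comp (hcand.comp Primrec.fst))
    · exact hk.pair (Primrec.const 0)
    · exact (Primrec.succ.comp hk).pair (Primrec.const 0)
  have hst : Primrec (stG P) := by
    unfold stG
    exact (Primrec.list_cons.comp hout Primrec.fst).pair hnst
  have hstate : Primrec (stateG P) := by
    unfold stateG
    exact Primrec.nat_rec₁ ([], (0, 0)) (hst.comp Primrec.snd)
  exact hout.comp hstate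

end Inv27
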