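import Pool.Agent.Lib.MP_36da60_lc.InvH27

/-!
# Infinitely many classes: the machine which holds back one class, correctness
-/

set_option autoImplicit false

namespace Inv27

variable {P : Par}

theorem length_stateG (x : ℕ) : (stateG P x).1.length = x := by
  induction x with
  | zero => rfl
  | succ x ih => rw [stateG_succ]; simp [ih]

theorem mem_stateG (x v : ℕ) : v ∈ (stateG P x).1 ↔ ∃ i < x, lstG P i = v := by
  induction x with
  | zero => simp [stateG]
  | succ x ih =>
    rw [stateG_succ]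
    simp only [List.mem_cons]
    rw [ih]
    constructor
    · rintro (h | ⟨i, hi, h⟩)
      · exact ⟨x, by omega, h.symm⟩
      · exact ⟨i, by omega, h⟩
    · rintro ⟨i, hi, h⟩
      rcases Nat.lt_succ_iff_lt_or_eq.1 hi with h' | h'
      · exact Or.inr ⟨i, h', h⟩
      · subst h'; exact Or.inl h.symm

theorem fr_spec (L : List ℕ) : fr L ≤ L.length ∧ fr L ∉ L ∧ ∀ u, u ∉ L → fr L ≤ u := by
  classical
  have hex : ∃ u ≤ L.length, u ∉ L := by
    by_contra hcon
    push Not at hcon
    have h1 : Finset.range (L.length + 1) ⊆ L.toFinset := by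
      intro u hu
      rw [List.mem_toFinset]
      exact hcon u (by simpa [Nat.lt_succ_iff] using hu)
    have h2 := Finset.card_le_card h1
    have h3 := L.toFinset_card_le
    rw [Finset.card_range] at h2
    omega
  obtain ⟨u, hu, hu'⟩ := hex
  have h1 : fr L ≤ u := idx_le hu hu'
  have h2 : fr L ≤ L.length := h1.trans hu
  refine ⟨h2, (idx_of_le h2).1, fun w hw => ?_⟩
  by_cases hwl : w ≤ L.length
  · exact idx_le hwl hw
  · omega

theorem nx_spec (hfill : ∀ (a x : ℕ) (L : List ℕ), L.length ≤ x → ∃ u ≤ P.bnd x, u ∉ L ∧ P.χ u ≠ a)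
    (L : List ℕ) (z : ℕ) : nx P L z ≤ P.bnd L.length ∧ nx P L z ∉ L ∧ P.χ (nx P L z) ≠ P.χ z ∧
      ∀ u, u ∉ L → P.χ u ≠ P.χ z → nx P L z ≤ u := by
  obtain ⟨u, hu, hu1, hu2⟩ := hfill (P.χ z) L.length L le_rfl
  have h1 : nx P L z ≤ u := idx_le hu ⟨hu1, hu2⟩
  have h2 : nx P L z ≤ P.bnd L.length := h1.trans hu
  have h3 := (idx_of_le h2).1
  refine ⟨h2, h3.1, h3.2, fun w hw1 hw2 => ?_⟩
  by_cases hwl : w ≤ P.bnd L.length
  · exact idx_le hwl ⟨hw1, hw2⟩
  · omega

theorem cand_spec {L : List ℕ} (h : cand P L ≤ L.length) :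
    (∀ v ∈ L, P.χ v ≠ P.χ (cand P L)) ∧ ¬ Old P.χ (cand P L) := by
  obtain ⟨h1, h2⟩ := idx_of_le h
  refine ⟨h1, ?_⟩
  rintro ⟨y, hy, hyc⟩
  apply h2 y hy
  intro v hv
  rw [hyc]
  exact h1 v hv

theorem cand_none {L : List ℕ} (h : ¬ cand P L ≤ L.length) :
    ∀ y ≤ L.length, ∃ v ∈ L, P.χ v = P.χ y := by
  intro y hy
  by_contra hcon
  push Not at hcon
  exact h ((idx_le hy hcon).trans hy)

/-! the four moves -/

theorem move1 {x k : ℕ} (hs : (stateG P x).2 = (k, 0)) (hc : cand P (stateG P x).1 ≤ x) :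
    lstG P x = nx P (stateG P x).1 (cand P (stateG P x).1) ∧
      (stateG P (x + 1)).2 = (k, cand P (stateG P x).1 + 1) := by
  have hc' : cand P (stateG P x).1 ≤ (stateG P x).1.length := by rw [length_stateG]; exact hc
  constructor
  · unfold lstG outG; rw [hs]; simp [hc']
  · rw [stateG_succ]; unfold nst; rw [hs]; simp [hc']

theorem move2 {x k : ℕ} (hs : (stateG P x).2 = (k, 0)) (hc : ¬ cand P (stateG P x).1 ≤ x) :
    lstG P x = fr (stateG P x).1 ∧ (stateG P (x + 1)).2 = (k, 0) := by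
  have hc' : ¬ cand P (stateG P x).1 ≤ (stateG P x).1.length := by rw [length_stateG]; exact hc
  constructor
  · unfold lstG outG; rw [hs]; simp [hc']
  · rw [stateG_succ]; unfold nst; rw [hs]; simp [hc']

theorem move3 {x k z : ℕ} (hs : (stateG P x).2 = (k, z + 1)) (hr : RelG P z k x) :
    lstG P x = z ∧ (stateG P (x + 1)).2 = (k + 1, 0) := by
  have hr' : RelG P z k (stateG P x).1.length := by rw [length_stateG]; exact hr
  constructor
  · unfold lstG outG; rw [hs]; simp [hr']
  · rw [stateG_succ]; unfold nst; rw [hs]; simp [hr']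

theorem move4 {x k z : ℕ} (hs : (stateG P x).2 = (k, z + 1)) (hr : ¬ RelG P z k x) :
    lstG P x = nx P (stateG P x).1 z ∧ (stateG P (x + 1)).2 = (k, z + 1) := by
  have hr' : ¬ RelG P z k (stateG P x).1.length := by rw [length_stateG]; exact hr
  constructor
  · unfold lstG outG; rw [hs]; simp [hr']
  · rw [stateG_succ]; unfold nst; rw [hs]; simp [hr']

section correctness

variable (hfill : ∀ (a x : ℕ) (L : List ℕ), L.length ≤ x → ∃ u ≤ P.bnd x, u ∉ L ∧ P.χ u ≠ a)
  (hmono : Monotone P.bnd) (hge : ∀ x, x ≤ P.bnd x)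

include hfill hmono hge

/-- the invariant -/
theorem invG (x : ℕ) :
    (∀ z, (stateG P x).2.2 = z + 1 → (∀ v ∈ (stateG P x).1, P.χ v ≠ P.χ z) ∧ z ≤ x) ∧
      (∀ v ∈ (stateG P x).1, v ≤ P.bnd x) := by
  induction x with
  | zero => simp [stateG]
  | succ x ih =>
    obtain ⟨h1, h2⟩ := ih
    have hlen := length_stateG (P := P) x
    have hbd : ∀ w ≤ P.bnd x, ∀ v ∈ w :: (stateG P x).1, v ≤ P.bnd (x + 1) := by
      intro w hw v hv
      have h3 := hmono (show x ≤ x + 1 by omega)
      rcases List.mem_cons.1 hv with rfl | hv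
      · exact hw.trans h3
      · exact (h2 v hv).trans h3
    have hS : (stateG P (x + 1)).1 = lstG P x :: (stateG P x).1 := rfl
    rcases hst : (stateG P x).2 with ⟨k, h⟩
    rcases h with _ | z
    · by_cases hc : cand P (stateG P x).1 ≤ x
      · obtain ⟨m1, m2⟩ := move1 hst hc
        obtain ⟨n1, n2, n3, -⟩ := nx_spec hfill (stateG P x).1 (cand P (stateG P x).1)
        rw [hlen] at n1
        rw [hS, m1, m2]
        refine ⟨fun z hz => ?_, hbd _ n1⟩
        have hz' : z = cand P (stateG P x).1 := by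
          have : cand P (stateG P x).1 + 1 = z + 1 := hz
          omega
        subst hz'
        refine ⟨fun v hv => ?_, by omega⟩
        rcases List.mem_cons.1 hv with rfl | hv
        · exact n3
        · exact (cand_spec (by rw [hlen]; exact hc)).1 v hv
      · obtain ⟨m1, m2⟩ := move2 hst hc
        obtain ⟨f1, f2, -⟩ := fr_spec (stateG P x).1
        rw [hlen] at f1
        rw [hS, m1, m2]
        exact ⟨fun z hz => by simp at hz, hbd _ (f1.trans (hge x))⟩
    · obtain ⟨g1, g2⟩ := h1 z (by rw [hst])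
      by_cases hr : RelG P z k x
      · obtain ⟨m1, m2⟩ := move3 hst hr
        rw [hS, m1, m2]
        exact ⟨fun z hz => by simp at hz, hbd _ (g2.trans (hge x))⟩
      · obtain ⟨m1, m2⟩ := move4 hst hr
        obtain ⟨n1, n2, n3, -⟩ := nx_spec hfill (stateG P x).1 z
        rw [hlen] at n1
        rw [hS, m1, m2]
        refine ⟨fun z' hz => ?_, hbd _ n1⟩
        have hz' : z' = z := by
          have : z + 1 = z' + 1 := hz
          omega
        subst hz'
        refine ⟨fun v hv => ?_, by omega⟩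
        rcases List.mem_cons.1 hv with rfl | hv
        · exact n3
        · exact g1 v hv

theorem lstG_new (x : ℕ) : lstG P x ∉ (stateG P x).1 := by
  obtain ⟨h1, h2⟩ := invG hfill hmono hge x
  rcases hst : (stateG P x).2 with ⟨k, h⟩
  rcases h with _ | z
  · by_cases hc : cand P (stateG P x).1 ≤ x
    · rw [(move1 hst hc).1]
      exact (nx_spec hfill _ _).2.1
    · rw [(move2 hst hc).1]
      exact (fr_spec _).2.1
  · obtain ⟨g1, g2⟩ := h1 z (by rw [hst])
    by_cases hr : RelG P z k x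
    · rw [(move3 hst hr).1]
      intro hmem
      exact g1 z hmem rfl
    · rw [(move4 hst hr).1]
      exact (nx_spec hfill _ _).2.1

theorem lstG_injective : Function.Injective (lstG P) := by
  have key : ∀ x, ∀ i < x, lstG P i ≠ lstG P x := fun x i hi heq =>
    lstG_new hfill hmono hge x ((mem_stateG x _).2 ⟨i, hi, heq⟩)
  intro a b hab
  rcases lt_trichotomy a b with h | h | h
  · exact absurd hab (key b a h)
  · exact h
  · exact absurd hab.symm (key a b h)

omit hfill hmono hge in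
theorem exists_releaseG (hrel : ∀ z k x, ∃ r, x ≤ r ∧ RelG P z k r)
    {x k z : ℕ} (hx : (stateG P x).2 = (k, z + 1)) :
    ∃ r, x ≤ r ∧ (stateG P r).2 = (k, z + 1) ∧ RelG P z k r := by
  by_contra hcon
  push Not at hcon
  have hall : ∀ d, (stateG P (x + d)).2 = (k, z + 1) := by
    intro d
    induction d with
    | zero => exact hx
    | succ d ih => exact (move4 ih (hcon (x + d) (by omega) ih)).2
  obtain ⟨r, hr1, hr2⟩ := hrel z k x
  obtain ⟨d, hd⟩ := Nat.exists_eq_add_of_le hr1
  exact hcon r hr1 (by rw [hd]; exact hall d) hr2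

omit hfill hmono hge in
theorem exists_found (hinf : {x | ¬ Old P.χ x}.Infinite) {x k : ℕ}
    (hx : (stateG P x).2 = (k, 0)) :
    ∃ t, x ≤ t ∧ (stateG P t).2 = (k, 0) ∧ cand P (stateG P t).1 ≤ t := by
  by_contra hcon
  push Not at hcon
  have hall : ∀ d, (stateG P (x + d)).2 = (k, 0) := by
    intro d
    induction d with
    | zero => exact hx
    | succ d ih => exact (move2 ih (not_le.2 (hcon (x + d) (by omega) ih))).2
  have hnc : ∀ d, ¬ cand P (stateG P (x + d)).1 ≤ x + d := fun d =>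
    not_le.2 (hcon (x + d) (by omega) (hall d))
  have hcol : ∀ d, ∀ v ∈ (stateG P (x + d)).1, ∃ w ∈ (stateG P x).1, P.χ w = P.χ v := by
    intro d
    induction d with
    | zero => exact fun v hv => ⟨v, hv, rfl⟩
    | succ d ih =>
      intro v hv
      have hS : (stateG P (x + (d + 1))).1 = lstG P (x + d) :: (stateG P (x + d)).1 := rfl
      rw [hS] at hv
      rcases List.mem_cons.1 hv with rfl | hv
      · rw [(move2 (hall d) (hnc d)).1]
        obtain ⟨f1, -, -⟩ := fr_spec (stateG P (x + d)).1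
        obtain ⟨w, hw, hw'⟩ := cand_none (by rw [length_stateG]; exact hnc d) _ f1
        obtain ⟨w', hw1, hw2⟩ := ih w hw
        exact ⟨w', hw1, hw2.trans hw'⟩
      · exact ih v hv
  -- a colour which does not occur in the list at `x`
  obtain ⟨y, hy, hyn⟩ : ∃ y, (¬ Old P.χ y) ∧ ∀ w ∈ (stateG P x).1, P.χ w ≠ P.χ y := by
    by_contra hno
    push Not at hno
    apply hinf
    refine ((stateG P x).1.toFinset.finite_toSet.image (rep P.χ)).subset ?_
    intro y hy
    obtain ⟨w, hw, hwy⟩ := hno y hy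
    refine ⟨w, by simpa using hw, ?_⟩
    obtain ⟨h1, h2, h3⟩ := rep_spec P.χ w
    exact eq_of_not_old h3 hy (h1.trans hwy)
  obtain ⟨v, hv, hvy⟩ := cand_none (L := (stateG P (x + y)).1)
    (by rw [length_stateG]; exact hnc y) y (by rw [length_stateG]; omega)
  obtain ⟨w, hw, hwv⟩ := hcol y v hv
  exact hyn w hw (hwv.trans hvy)

omit hfill hmono hge in
theorem exists_stageG (hinf : {x | ¬ Old P.χ x}.Infinite)
    (hrel : ∀ z k x, ∃ r, x ≤ r ∧ RelG P z k r) (k : ℕ) : ∃ x, (stateG P x).2 = (k, 0) := by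
  induction k with
  | zero => exact ⟨0, rfl⟩
  | succ k ih =>
    obtain ⟨x, hx⟩ := ih
    obtain ⟨t, -, ht, hc⟩ := exists_found hinf hx
    obtain ⟨r, -, hr, hr'⟩ := exists_releaseG hrel (move1 ht hc).2
    exact ⟨r + 1, (move3 hr hr').2⟩

/-- **Every stage wins.** -/
theorem exists_winG (hinf : {x | ¬ Old P.χ x}.Infinite)
    (hrel : ∀ z k x, ∃ r, x ≤ r ∧ RelG P z k r) (k : ℕ) :
    ∃ z r, RelG P z k r ∧ ∀ i < r, lstG P i ≤ P.bnd r ∧ P.χ (lstG P i) ≠ P.χ z := by
  obtain ⟨x, hx⟩ := exists_stageG hinf hrel k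
  obtain ⟨t, -, ht, hc⟩ := exists_found hinf hx
  obtain ⟨r, -, hr, hr'⟩ := exists_releaseG hrel (move1 ht hc).2
  obtain ⟨h1, h2⟩ := invG hfill hmono hge r
  obtain ⟨g1, -⟩ := h1 _ (by rw [hr])
  refine ⟨_, r, hr', fun i hi => ?_⟩
  have hmem : lstG P i ∈ (stateG P r).1 := (mem_stateG r _).2 ⟨i, hi, rfl⟩
  exact ⟨h2 _ hmem, g1 _ hmem⟩

omit hfill hmono hge in
theorem stage_mono : Monotone (fun x => (stateG P x).2.1) := by
  refine monotone_nat_of_le_succ fun x => ?_
  rcases hst : (stateG P x).2 with ⟨k, h⟩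
  rcases h with _ | z
  · by_cases hc : cand P (stateG P x).1 ≤ x
    · rw [(move1 hst hc).2]
    · rw [(move2 hst hc).2]
  · by_cases hr : RelG P z k x
    · rw [(move3 hst hr).2]; simp
    · rw [(move4 hst hr).2]

theorem lstG_surjective (hinf : {x | ¬ Old P.χ x}.Infinite)
    (hrel : ∀ z k x, ∃ r, x ≤ r ∧ RelG P z k r) : Function.Surjective (lstG P) := by
  intro y
  by_contra hy
  push Not at hy
  have hyn : ∀ x, y ∉ (stateG P x).1 := by
    intro x hmem
    obtain ⟨i, -, hi⟩ := (mem_stateG x y).1 hmem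
    exact hy i hi
  have hex : ∀ k, ∃ t, (stateG P t).2 = (k, 0) ∧ cand P (stateG P t).1 ≤ t := by
    intro k
    obtain ⟨x, hx⟩ := exists_stageG hinf hrel k
    obtain ⟨t, -, ht, hc⟩ := exists_found hinf hx
    exact ⟨t, ht, hc⟩
  choose t ht hc using hex
  -- the colour of `y` is held at most once
  have hone : ∀ k k', k < k' → P.χ (cand P (stateG P (t k)).1) = P.χ y →
      P.χ (cand P (stateG P (t k')).1) ≠ P.χ y := by
    intro k k' hkk h1 h2
    obtain ⟨r, hr0, hr, hr'⟩ := exists_releaseG hrel (move1 (ht k) (hc k)).2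
    have hlt : r < t k' := by
      by_contra hle
      have h3 : (stateG P (t k')).2.1 ≤ (stateG P r).2.1 := stage_mono (P := P) (not_lt.1 hle)
      rw [ht k', hr] at h3
      simp at h3
      omega
    have hmem : cand P (stateG P (t k)).1 ∈ (stateG P (t k')).1 :=
      (mem_stateG _ _).2 ⟨r, hlt, (move3 hr hr').1⟩
    exact (cand_spec (by rw [length_stateG]; exact hc k')).1 _ hmem (h1.trans h2.symm)
  let G : Set ℕ := {k | P.χ (cand P (stateG P (t k)).1) ≠ P.χ y}
  have hG : G.Infinite := by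
    intro hfin
    have hc' : (Gᶜ).Infinite := hfin.infinite_compl
    obtain ⟨k, hk⟩ := hc'.nonempty
    obtain ⟨k', hk', hlt⟩ := hc'.exists_gt k
    have e1 : P.χ (cand P (stateG P (t k)).1) = P.χ y := by
      by_contra h; exact hk h
    have e2 : P.χ (cand P (stateG P (t k')).1) = P.χ y := by
      by_contra h; exact hk' h
    exact hone k k' hlt e1 e2
  apply hG
  refine Set.Finite.of_injOn (f := fun k => lstG P (t k)) (t := Set.Iic y) ?_ ?_ (Set.finite_Iic y)
  · intro k hk
    have hk' : P.χ (cand P (stateG P (t k)).1) ≠ P.χ y := hk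
    show lstG P (t k) ≤ y
    rw [(move1 (ht k) (hc k)).1]
    exact (nx_spec hfill _ _).2.2.2 y (hyn _) (fun h => hk' h.symm)
  · intro k hk k' hk' heq
    have h1 : t k = t k' := lstG_injective hfill hmono hge heq
    have h2 := ht k
    rw [h1, ht k'] at h2
    simpa using h2.symm

end correctness

end Inv27
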