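import Pool.Agent.Lib.MP_36da60_lc.LinA57

/-!
# fpr-degrees of linear orders (II): order theory of a presentation
-/

namespace Fpr62

/-- strict linear order -/
structure SLO (B : ℕ → ℕ → Prop) : Prop where
  irr : ∀ x, ¬ B x x
  tr : ∀ x y z, B x y → B y z → B x z
  tot : ∀ x y, x = y ∨ B x y ∨ B y x

theorem SLO.dual {B : ℕ → ℕ → Prop} (h : SLO B) : SLO (fun x y => B y x) :=
  ⟨h.irr, fun x y z h1 h2 => h.tr z y x h2 h1, fun x y => by
    rcases h.tot x y with h1 | h1 | h1
    · exact Or.inl h1
    · exact Or.inr (Or.inr h1)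
    · exact Or.inr (Or.inl h1)⟩

theorem SLO.asymm {B : ℕ → ℕ → Prop} (h : SLO B) {x y : ℕ} (h1 : B x y) : ¬ B y x :=
  fun h2 => h.irr x (h.tr _ _ _ h1 h2)

/-- elements with finitely many predecessors are fixed -/
theorem SLO.fixed {B : ℕ → ℕ → Prop} (h : SLO B) {x : ℕ} (hx : {y | B y x}.Finite)
    {f : ℕ → ℕ} (hf : Function.Bijective f) (hfB : ∀ a b, B a b ↔ B (f a) (f b)) : f x = x := by
  have himg : f '' {y | B y x} = {y | B y (f x)} := by
    ext z
    constructor
    · rintro ⟨y, hy, rfl⟩; exact (hfB _ _).1 hy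
    · intro hz
      obtain ⟨y, rfl⟩ := hf.2 z
      exact ⟨y, (hfB _ _).2 hz, rfl⟩
  have hfin : {y | B y (f x)}.Finite := himg ▸ hx.image f
  have hcard : {y | B y (f x)}.ncard = {y | B y x}.ncard := by
    rw [← himg]; exact Set.ncard_image_of_injective _ hf.1
  have key : ∀ a b, B a b → {y | B y b}.Finite → {y | B y a}.ncard < {y | B y b}.ncard := by
    intro a b hab hb
    refine Set.ncard_lt_ncard ⟨fun y hy => h.tr _ _ _ hy hab, fun hsub => ?_⟩ hb
    exact h.irr a (hsub hab)
  rcases h.tot x (f x) with h1 | h1 | h1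
  · exact h1.symm
  · have := key _ _ h1 hfin; omega
  · have := key _ _ h1 hx; omega

/-- finitely many elements below or above -/
def Ends (B : ℕ → ℕ → Prop) : Set ℕ := {x | {y | B y x}.Finite ∨ {y | B x y}.Finite}

theorem SLO.fixed_ends {B : ℕ → ℕ → Prop} (h : SLO B) {x : ℕ} (hx : x ∈ Ends B)
    {f : ℕ → ℕ} (hf : Function.Bijective f) (hfB : ∀ a b, B a b ↔ B (f a) (f b)) : f x = x := by
  rcases hx with hx | hx
  · exact h.fixed hx hf hfB
  · exact h.dual.fixed hx hf (fun a b => hfB b a)

/-- `Q` is the type of the elements just above a cut -/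
def CutType (B : ℕ → ℕ → Prop) (Q : ℕ → Prop) : Prop :=
  ∀ L : List ℕ, ∃ a, a ∉ L ∧ Q a ∧ ¬ B a a ∧ ∀ y ∈ L, (B a y ↔ Q y) ∧ (B y a ↔ ¬ Q y)

theorem SLO.exists_cut {B : ℕ → ℕ → Prop} (h : SLO B) (hB : PrimrecRel B)
    (hfin : {x | {y | B y x}.Finite}.Finite) : ∃ Q : ℕ → Prop, PrimrecPred Q ∧ CutType B Q := by
  by_cases h1 : ∀ x, ∃ y, B y x
  · refine ⟨fun _ => True, ⟨fun _ => isTrue trivial, Primrec.const true⟩, fun L => ?_⟩
    have h2 : ∃ a, ∀ y ∈ L, B a y := by
      induction L with
      | nil => exact ⟨0, by simp⟩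
      | cons y L ih =>
        obtain ⟨a, ha⟩ := ih
        rcases h.tot a y with h3 | h3 | h3
        · obtain ⟨b, hb⟩ := h1 a
          refine ⟨b, fun z hz => ?_⟩
          rcases List.mem_cons.1 hz with rfl | hz
          · rw [← h3]; exact hb
          · exact h.tr _ _ _ hb (ha z hz)
        · refine ⟨a, fun z hz => ?_⟩
          rcases List.mem_cons.1 hz with rfl | hz
          · exact h3
          · exact ha z hz
        · obtain ⟨b, hb⟩ := h1 y
          refine ⟨b, fun z hz => ?_⟩
          rcases List.mem_cons.1 hz with rfl | hz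
          · exact hb
          · exact h.tr _ _ _ hb (h.tr _ _ _ h3 (ha z hz))
    obtain ⟨a, ha⟩ := h2
    refine ⟨a, fun hmem => h.irr a (ha a hmem), trivial, h.irr a, fun y hy => ⟨?_, ?_⟩⟩
    · exact ⟨fun _ => trivial, fun _ => ha y hy⟩
    · exact ⟨fun h3 => absurd (ha y hy) (h.asymm h3), fun h3 => absurd trivial h3⟩
  · by_cases h2 : ∃ c, (∃ y, B c y) ∧ ∀ y, B c y → ∃ z, B c z ∧ B z y
    · obtain ⟨c, ⟨y0, hy0⟩, hc⟩ := h2
      refine ⟨fun y => B c y, hB.comp (Primrec.const c) Primrec.id, fun L => ?_⟩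
      have h3 : ∃ a, B c a ∧ ∀ y ∈ L, B c y → B a y := by
        induction L with
        | nil => exact ⟨y0, hy0, by simp⟩
        | cons y L ih =>
          obtain ⟨a, hca, ha⟩ := ih
          by_cases h4 : B a y ∨ ¬ B c y
          · refine ⟨a, hca, fun z hz hcz => ?_⟩
            rcases List.mem_cons.1 hz with rfl | hz
            · exact h4.resolve_right (not_not.2 hcz)
            · exact ha z hz hcz
          · push Not at h4
            obtain ⟨b, hcb, hby⟩ := hc y h4.2
            refine ⟨b, hcb, fun z hz hcz => ?_⟩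
            rcases List.mem_cons.1 hz with rfl | hz
            · exact hby
            · have h5 := ha z hz hcz
              rcases h.tot a y with h6 | h6 | h6
              · rw [← h6] at hby; exact h.tr _ _ _ hby h5
              · exact absurd h6 h4.1
              · exact h.tr _ _ _ hby (h.tr _ _ _ h6 h5)
      obtain ⟨a, hca, ha⟩ := h3
      refine ⟨a, fun hmem => h.irr a (ha a hmem hca), hca, h.irr a, fun y hy => ⟨?_, ?_⟩⟩
      · exact ⟨fun h4 => h.tr _ _ _ hca h4, fun h4 => ha y hy h4⟩
      · constructor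
        · intro h4 h5; exact h.asymm h4 (ha y hy h5)
        · intro h4
          rcases h.tot c y with h5 | h5 | h5
          · rw [← h5]; exact hca
          · exact absurd h5 h4
          · exact h.tr _ _ _ h5 hca
    · exfalso
      push Not at h1 h2
      obtain ⟨m0, hm0⟩ := h1
      set W := {x | {y | B y x}.Finite} with hW
      have hm0W : m0 ∈ W := by
        have : {y | B y m0} = ∅ := Set.eq_empty_of_forall_notMem fun y hy => hm0 y hy
        show {y | B y m0}.Finite
        rw [this]; exact Set.finite_empty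
      -- a maximal element of `W`
      have hmax : ∃ w ∈ W, ∀ x ∈ W, ¬ B w x := by
        by_contra hcon
        push Not at hcon
        have hstep : ∀ n : ℕ, ∃ w ∈ W, n ≤ {y | B y w}.ncard := by
          intro n
          induction n with
          | zero => exact ⟨m0, hm0W, Nat.zero_le _⟩
          | succ n ih =>
            obtain ⟨w, hw, hn⟩ := ih
            obtain ⟨x, hx, hwx⟩ := hcon w hw
            refine ⟨x, hx, ?_⟩
            have h3 : {y | B y w}.ncard < {y | B y x}.ncard :=
              Set.ncard_lt_ncard ⟨fun y hy => h.tr _ _ _ hy hwx, fun hsub => h.irr w (hsub hwx)⟩ hx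
            omega
        obtain ⟨w, hw, hn⟩ := hstep (W.ncard + 1)
        have h4 : {y | B y w} ⊆ W := fun y hy =>
          Set.Finite.subset hw fun z hz => h.tr _ _ _ hz hy
        have h5 := Set.ncard_le_ncard h4 hfin
        omega
      obtain ⟨w, hw, hmx⟩ := hmax
      have hw' : {y | B y w}.Finite := hw
      obtain ⟨y0, hy0⟩ : ∃ y0, B w y0 := by
        obtain ⟨y0, hy0⟩ := (hw'.union (Set.finite_singleton w)).exists_notMem
        rcases h.tot w y0 with h3 | h3 | h3
        · exact absurd (Or.inr h3.symm) hy0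
        · exact ⟨y0, h3⟩
        · exact absurd (Or.inl h3) hy0
      obtain ⟨y, hwy, hy⟩ := h2 w ⟨y0, hy0⟩
      refine hmx y ?_ hwy
      refine (hw'.union (Set.finite_singleton w)).subset fun z hz => ?_
      rcases h.tot w z with h3 | h3 | h3
      · exact Or.inr h3.symm
      · exact absurd hz (hy z h3)
      · exact Or.inl h3

end Fpr62
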