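import Pool.Agent.Lib.MP_36da60_lc.LinB57

/-!
# fpr-degrees of linear orders (III): assembly, with the splitting theorem as a hypothesis
-/

namespace Fpr62

theorem slo_of_pres {α : Type*} [LinearOrder α] {B : ℕ → ℕ → Prop}
    (hB : IsPres (fun x y : α => x < y) B) : SLO B := by
  obtain ⟨-, f, hf, hfE⟩ := hB
  refine ⟨fun x hx => ?_, fun x y z hxy hyz => ?_, fun x y => ?_⟩
  · obtain ⟨a, rfl⟩ := hf.2 x
    exact lt_irrefl a ((hfE a a).2 hx)
  · obtain ⟨a, rfl⟩ := hf.2 x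
    obtain ⟨b, rfl⟩ := hf.2 y
    obtain ⟨c, rfl⟩ := hf.2 z
    exact (hfE a c).1 (((hfE a b).2 hxy).trans ((hfE b c).2 hyz))
  · obtain ⟨a, rfl⟩ := hf.2 x
    obtain ⟨b, rfl⟩ := hf.2 y
    rcases lt_trichotomy a b with h | h | h
    · exact Or.inr (Or.inl ((hfE a b).1 h))
    · exact Or.inl (by rw [h])
    · exact Or.inr (Or.inr ((hfE b a).1 h))

theorem linear_order_infinite {α : Type*} [LinearOrder α]
    (hS : ∀ (B : ℕ → ℕ → Prop) (Q : ℕ → Prop), IsPres (fun x y : α => x < y) B →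
      PrimrecPred Q → CutType B Q → ∀ v, {y | B y v}.Infinite → {y | B v y}.Infinite →
      Infinite (Degrees (fun x y : α => x < y)))
    (hex : ∃ B, IsPres (fun x y : α => x < y) B) :
    Infinite (Degrees (fun x y : α => x < y)) := by
  by_cases hF : ∀ B, IsPres (fun x y : α => x < y) B → (Ends B).Infinite
  · refine infinite_of_step _ hex fun B hB => ?_
    have hs := slo_of_pres hB
    obtain ⟨C, hC, h1, h2⟩ := step_of_fixed hB.1 (hF B hB)
      (fun x hx f hf hfB => hs.fixed_ends hx hf hfB)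
    obtain ⟨p, hp, hpb, hpi⟩ := h1
    obtain ⟨-, f, hf, hfE⟩ := hB
    refine ⟨C, ⟨hC, (Equiv.ofBijective p hpb).symm ∘ f,
      (Equiv.ofBijective p hpb).symm.bijective.comp hf, fun x y => ?_⟩, ⟨p, hp, hpb, hpi⟩, h2⟩
    rw [hfE]
    show _ ↔ C ((Equiv.ofBijective p hpb).symm (f x)) ((Equiv.ofBijective p hpb).symm (f y))
    rw [hpi]
    have h3 : ∀ z, p ((Equiv.ofBijective p hpb).symm z) = z :=
      fun z => (Equiv.ofBijective p hpb).apply_symm_apply z
    rw [h3, h3]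
  · push Not at hF
    obtain ⟨B, hB, hfin⟩ := hF
    have hs := slo_of_pres hB
    have hfin' : (Ends B).Finite := hfin
    obtain ⟨Q, hQ, hQc⟩ := hs.exists_cut hB.1 (hfin'.subset fun x hx => Or.inl hx)
    obtain ⟨v, hv⟩ := hfin'.exists_notMem
    have h1 : {y | B y v}.Infinite := fun h => hv (Or.inl h)
    have h2 : {y | B v y}.Infinite := fun h => hv (Or.inr h)
    exact hS B Q hB hQ hQc v h1 h2

end Fpr62
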