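import Pool.Agent.Lib.MP_36da60_lc.TypB27
import Pool.Agent.Lib.MP_36da60_lc.LinA57

/-!
# fpr-degrees: a primitive recursive type and a splitting element
-/

set_option autoImplicit false

namespace Typ27

open Fpr62 Nat.Partrec

/-- below `s` there are `2 n` elements on both sides of `v` -/
def SFeat (B : ℕ → ℕ → Prop) (v n s : ℕ) : Prop :=
  (∃ F : Finset ℕ, 2 * n ≤ F.card ∧ ∀ x ∈ F, x < s ∧ B v x) ∧
    ∃ F : Finset ℕ, 2 * n ≤ F.card ∧ ∀ x ∈ F, x < s ∧ ¬ B v x

theorem sFeat_transfer (B C : ℕ → ℕ → Prop) (h : ℕ → ℕ) (hb : Function.Bijective h)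
    (hi : ∀ x y, B x y ↔ C (h x) (h y)) (v n s S : ℕ) (hs : ∀ x < s, h x < S)
    (hf : SFeat B v n s) : SFeat C (h v) n S := by
  classical
  obtain ⟨⟨F, hF, hF'⟩, ⟨K, hK, hK'⟩⟩ := hf
  refine ⟨⟨F.image h, ?_, ?_⟩, ⟨K.image h, ?_, ?_⟩⟩
  · rw [Finset.card_image_of_injective _ hb.1]; exact hF
  · intro x hx
    obtain ⟨y, hy, rfl⟩ := Finset.mem_image.1 hx
    exact ⟨hs y (hF' y hy).1, (hi v y).1 (hF' y hy).2⟩
  · rw [Finset.card_image_of_injective _ hb.1]; exact hK
  · intro x hx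
    obtain ⟨y, hy, rfl⟩ := Finset.mem_image.1 hx
    exact ⟨hs y (hK' y hy).1, fun hc => (hK' y hy).2 ((hi v y).2 hc)⟩

theorem exists_T_pred {P : ℕ → Prop} (hP : PrimrecPred P) (hinf : {x | P x}.Infinite) :
    ∃ T : ℕ → ℕ, Computable T ∧ ∀ n, ∃ F : Finset ℕ, 2 * n ≤ F.card ∧ ∀ x ∈ F, x < T n ∧ P x := by
  classical
  obtain ⟨hd, hp⟩ := hP
  have hq : Computable (fun x => decide (P x)) := hp.to_comp
  have hset : {x | (fun x => decide (P x)) x = true} = {x | P x} := by
    ext x; simp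
  have hinf' : {x | (fun x => decide (P x)) x = true}.Infinite := by rw [hset]; exact hinf
  have hc := computable_nth hq hinf'
  have h2 : Computable (fun n : ℕ => 2 * n) :=
    (Primrec.nat_mul.comp (Primrec.const 2) Primrec.id).to_comp
  refine ⟨fun n => Nat.nth (fun x => decide (P x) = true) (2 * n), hc.comp h2, ?_⟩
  intro n
  have hmono := Nat.nth_strictMono (p := fun x => decide (P x) = true) hinf'
  refine ⟨(Finset.range (2 * n)).image (Nat.nth (fun x => decide (P x) = true)), ?_, ?_⟩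
  · rw [Finset.card_image_of_injective _ hmono.injective, Finset.card_range]
  · intro x hx
    obtain ⟨i, hi, rfl⟩ := Finset.mem_image.1 hx
    refine ⟨hmono (Finset.mem_range.1 hi), ?_⟩
    have := Nat.nth_mem_of_infinite (p := fun x => decide (P x) = true) hinf' i
    simpa using this

theorem exists_T {B : ℕ → ℕ → Prop} (hB : PrimrecRel B) (v : ℕ) (h1 : {x | B v x}.Infinite)
    (h2 : {x | ¬ B v x}.Infinite) : ∃ T : ℕ → ℕ, Computable T ∧ ∀ n, SFeat B v n (T n) := by
  have hP : PrimrecPred (fun x => B v x) := hB.comp (Primrec.const v) Primrec.id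
  obtain ⟨T1, hT1, h1'⟩ := exists_T_pred hP h1
  obtain ⟨T2, hT2, h2'⟩ := exists_T_pred hP.not h2
  refine ⟨fun n => T1 n + T2 n, Primrec.nat_add.to_comp.comp hT1 hT2, ?_⟩
  intro n
  obtain ⟨F, hF, hF'⟩ := h1' n
  obtain ⟨K, hK, hK'⟩ := h2' n
  exact ⟨⟨F, hF, fun x hx => ⟨(hF' x hx).1.trans_le (Nat.le_add_right _ _), (hF' x hx).2⟩⟩,
    ⟨K, hK, fun x hx => ⟨(hK' x hx).1.trans_le (Nat.le_add_left _ _), (hK' x hx).2⟩⟩⟩

/-- **A computable type and a splitting element.** -/
theorem infinite_of_split_find {α : Type*} (E : α → α → Prop) (c0 c1 c2 : Prop)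
    {D1 D2 : ℕ → Prop} {B : ℕ → ℕ → Prop} (hB : IsPres E B) (hfind : Find c0 c1 c2 D1 D2 B)
    (v : ℕ) (h1 : {x | B v x}.Infinite) (h2 : {x | ¬ B v x}.Infinite) :
    Infinite (Degrees E) := by
  classical
  refine infinite_of_marked E SFeat sFeat_transfer ?_ ?_
  · rintro C ⟨hC, g, hg, hgi⟩
    obtain ⟨-, f, hf, hfi⟩ := hB
    obtain ⟨a, ha⟩ := hf.2 v
    have key : ∀ x, B v (f x) ↔ C (g a) (g x) := by
      intro x
      rw [← ha, ← hfi, hgi]
    have e1 : {y | C (g a) y}.Infinite := by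
      have : {y | C (g a) y} = g '' (f ⁻¹' {x | B v x}) := by
        ext y
        obtain ⟨x, rfl⟩ := hg.2 y
        simp only [Set.mem_ofPred_eq, Set.mem_image, Set.mem_preimage]
        rw [← key]
        exact ⟨fun h => ⟨x, h, rfl⟩, fun ⟨z, hz, hzx⟩ => by rw [← hg.1 hzx]; exact hz⟩
      rw [this]
      exact (h1.preimage (fun y _ => hf.2 y)).image hg.1.injOn
    have e2 : {y | ¬ C (g a) y}.Infinite := by
      have : {y | ¬ C (g a) y} = g '' (f ⁻¹' {x | ¬ B v x}) := by
        ext y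
        obtain ⟨x, rfl⟩ := hg.2 y
        simp only [Set.mem_ofPred_eq, Set.mem_image, Set.mem_preimage]
        rw [← key]
        exact ⟨fun h => ⟨x, h, rfl⟩, fun ⟨z, hz, hzx⟩ => by rw [← hg.1 hzx]; exact hz⟩
      rw [this]
      exact (h2.preimage (fun y _ => hf.2 y)).image hg.1.injOn
    exact ⟨g a, exists_T hC (g a) e1 e2⟩
  · intro G hG
    obtain ⟨B', φ, ind, R, hB', hiso, hind, hind1, hind2, hfast, hslow⟩ :=
      exists_delayed_of_find c0 c1 c2 hB.1 hfind G hG
    obtain ⟨-, f, hf, hfi⟩ := hB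
    refine ⟨B', ⟨hB', fun x => φ.symm (f x), φ.symm.bijective.comp hf, fun x y => ?_⟩, ?_⟩
    · rw [hfi, hiso, Equiv.apply_symm_apply, Equiv.apply_symm_apply]
    intro v n hvn hfeat
    obtain ⟨⟨F, hF, hF'⟩, ⟨K, hK, hK'⟩⟩ := hfeat
    have key : ∀ S : Finset ℕ, (∀ x ∈ S, x < G n ∧ ¬ (B' v x ↔ D2 (φ v))) →
        S.card < 2 * (n + 1) := by
      intro S hS
      obtain ⟨X, hX, hX'⟩ := hslow n
      have e1 : (S.filter (fun x => R x)).card ≤ n := by
        refine (Finset.card_le_card ?_).trans hX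
        intro x hx
        obtain ⟨hx1, hx2⟩ := Finset.mem_filter.1 hx
        exact hX' x (hS x hx1).1 hx2
      have e2 : (S.filter (fun x => ¬ R x)).card ≤ v + 1 := by
        have e3 : ((S.filter (fun x => ¬ R x)).image (fun x => ind x / 2)).card ≤ v + 1 := by
          refine (Finset.card_le_card ?_).trans (Finset.card_range (v + 1)).le
          intro z hz
          obtain ⟨x, hx, rfl⟩ := Finset.mem_image.1 hz
          obtain ⟨hx1, hx2⟩ := Finset.mem_filter.1 hx
          rw [Finset.mem_range]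
          by_contra hcon
          have h3 := hind1 v
          have h4 : ind v < ind x := by omega
          exact (hS x hx1).2 ((hfast x hx2).2.2.2 v h4).2
        rwa [Finset.card_image_of_injOn] at e3
        intro x hx y hy hxy
        have hx2 := (Finset.mem_filter.1 (Finset.mem_coe.1 hx)).2
        have hy2 := (Finset.mem_filter.1 (Finset.mem_coe.1 hy)).2
        have h3 := hind2 x hx2
        have h4 := hind2 y hy2
        have h5 : ind x / 2 = ind y / 2 := hxy
        exact hind (by omega)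
      have e4 := Finset.card_filter_add_card_filter_not (s := S) (fun x => R x)
      omega
    by_cases hd : D2 (φ v)
    · have := key K (fun x hx => ⟨(hK' x hx).1, fun hc => (hK' x hx).2 (hc.2 hd)⟩)
      omega
    · have := key F (fun x hx => ⟨(hF' x hx).1, fun hc => hd (hc.1 (hF' x hx).2)⟩)
      omega

/-- **A primitive recursive type and a splitting element.** -/
theorem infinite_of_split {α : Type*} (E : α → α → Prop) (c0 c1 c2 : Prop) {D1 D2 : ℕ → Prop}
    (h1D : PrimrecPred D1) (h2D : PrimrecPred D2) {B : ℕ → ℕ → Prop} (hB : IsPres E B)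
    (hfree : ∀ L : List ℕ, ∃ a, Gen c0 c1 c2 D1 D2 B L a)
    (v : ℕ) (h1 : {x | B v x}.Infinite) (h2 : {x | ¬ B v x}.Infinite) :
    Infinite (Degrees E) :=
  infinite_of_split_find E c0 c1 c2 hB (find_of_primrec c0 c1 c2 h1D h2D hB.1 hfree) v h1 h2

end Typ27
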