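import Pool.Agent.Lib.MP_36da60_lc.LinC57
import Pool.Agent.Lib.MP_36da60_lc.TypC27

/-!
# fpr-degrees of linear orders (IV): the theorem
-/

namespace Fpr62

/-- every linear order with an fpr presentation has infinitely many fpr-degrees -/
theorem linear_order_degrees {α : Type*} [LinearOrder α]
    (hex : ∃ B, IsPres (fun x y : α => x < y) B) :
    Infinite (Degrees (fun x y : α => x < y)) := by
  refine linear_order_infinite (fun B Q hB hQ hQc v h1 h2 => ?_) hex
  refine Typ27.infinite_of_split (fun x y : α => x < y) False True False hQ (PrimrecPred.not hQ)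
    hB (fun L => ?_) v h2 (h1.mono fun y hy => (slo_of_pres hB).asymm hy)
  obtain ⟨a, haL, hQa, haa, ha⟩ := hQc L
  exact ⟨a, fun y hy => ⟨fun h => haL (h ▸ hy), ha y hy⟩, by simp [haa], by simp [hQa],
    by simp [hQa]⟩

end Fpr62
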