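import Pool.Agent.Lib.MP_36da60_lc.Test27

set_option autoImplicit false

namespace Pool.Agent.MP_36da60_lc

variable {k : ℕ} {ar : Fin k → ℕ}

theorem exists_bound {ι : Type} (l : List ι) (t : ι → ℕ) : ∃ m, ∀ C ∈ l, t C ≤ m := by
  induction l with
  | nil => exact ⟨0, by simp⟩
  | cons a l ih =>
    obtain ⟨m, hm⟩ := ih
    refine ⟨max (t a) m, ?_⟩
    intro C hC
    rcases List.mem_cons.1 hC with h | h
    · rw [h]; exact le_max_left _ _
    · exact le_trans (hm C h) (le_max_right _ _)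

/-- Above no member of a finite list of presentations: the delayed copy. -/
theorem exists_delay {B : Str ar ℕ} (hB : IsFpr B) {X : Set ℕ} (hX : Twin B X)
    (hXinf : X.Infinite) (l : List (Str ar ℕ))
    (hl : ∀ C ∈ l, IsFpr C ∧ ∀ y, (NonT C y).Infinite) :
    ∃ D : Str ar ℕ, IsFpr D ∧ (∃ θ : ℕ → ℕ, IsIso θ D B) ∧ ∀ C ∈ l, ¬ PrLe C D := by
  classical
  obtain ⟨T, hT, hTs, hTev⟩ := exists_ack_test
  have hP : ∀ C : Str ar ℕ, ∃ P : ℕ → ℕ → Prop, PrimrecRel P ∧ (∀ n, ∃ s, P n s) ∧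
      (C ∈ l → ∀ n s, P n s → ∀ y ≤ n, ∃ F : Finset ℕ, n + 2 ≤ F.card ∧
        ∀ z ∈ F, z < s ∧ z ∈ NonT C y) := by
    intro C
    by_cases hC : C ∈ l
    · obtain ⟨P, h1, h2, h3⟩ := exists_P (hl C hC).1 (hl C hC).2
      exact ⟨P, h1, h2, fun _ => h3⟩
    · refine ⟨fun _ _ => True, ?_, fun _ => ⟨0, trivial⟩, fun h => absurd h hC⟩
      exact ⟨inferInstance, (Primrec.const true).of_eq (by simp)⟩
  choose P hP1 hP2 hP3 using hP
  let cond : ℕ → ℕ → Prop := fun n s =>
    ∃ s' < s + 1, (∀ C ∈ l, ∃ t < s' + 1, P C n t) ∧ T (s' + n) s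
  have hcond : PrimrecRel cond := by
    have h1 : PrimrecRel (fun (s' : ℕ) (q : ℕ × ℕ) =>
        (∀ C ∈ l, ∃ t < s' + 1, P C q.1 t) ∧ T (s' + q.1) q.2) := by
      have h2 : ∀ C : Str ar ℕ, PrimrecPred (fun q : ℕ × (ℕ × ℕ) =>
          ∃ t < q.1 + 1, P C q.2.1 t) := by
        intro C
        have h3 : PrimrecRel (fun (t : ℕ) (q : ℕ × (ℕ × ℕ)) => P C q.2.1 t) :=
          (hP1 C).comp (Primrec.fst.comp (Primrec.snd.comp Primrec.snd)) Primrec.fst
        exact pp_exists_lt h3 (Primrec.succ.comp Primrec.fst)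
      have h4 := pp_forall_list _ h2 l
      have h5 : PrimrecPred (fun q : ℕ × (ℕ × ℕ) => T (q.1 + q.2.1) q.2.2) :=
        hT.comp (Primrec.nat_add.comp Primrec.fst (Primrec.fst.comp Primrec.snd))
          (Primrec.snd.comp Primrec.snd)
      exact h4.and h5
    exact pp_exists_lt h1 (Primrec.succ.comp Primrec.snd)
  have hcev : ∀ n, ∃ s0, ∀ s, s0 ≤ s → cond n s := by
    intro n
    choose t ht using fun C => hP2 C n
    obtain ⟨m, hm⟩ := exists_bound l t
    obtain ⟨s0, h0⟩ := hTev (m + n)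
    refine ⟨max m s0, fun s hs => ⟨m, ?_, ?_, ?_⟩⟩
    · have := le_max_left m s0; omega
    · intro C hC
      exact ⟨t C, by have := hm C hC; omega, ht C⟩
    · exact h0 s (le_trans (le_max_right _ _) hs)
  obtain ⟨c, hc, inc, mono, step, c0⟩ := exists_slow cond hcond hcev
  let x : ℕ → ℕ := fun n => (Set.Infinite.natEmbedding X hXinf n : ℕ)
  have hx : Function.Injective x := fun a b h =>
    (Set.Infinite.natEmbedding X hXinf).injective (Subtype.ext h)
  have hxX : ∀ n, x n ∈ X := fun n => (Set.Infinite.natEmbedding X hXinf n).2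
  have step' : ∀ s, c (s + 1) ≠ c s → c (s + 1) = c s + 1 := fun s h =>
    ((step s).resolve_left h).1
  obtain ⟨θ, hθ, hθX, s1, hs1⟩ := delay_iso hX hXinf inc mono step' x hx hxX
    (Finset.univ.sup ar) (fun i => Finset.le_sup (Finset.mem_univ i))
  refine ⟨_, delay_fpr hB hc _ x, ⟨θ, hθ⟩, ?_⟩
  rintro C hC ⟨h, hprim, hiso⟩
  have hψ : IsIso (θ ∘ h) C B := hθ.comp hiso
  obtain ⟨y, hy⟩ := hiso.1.2 s1
  have hyX : (θ ∘ h) y ∈ X := by
    simp only [Function.comp_apply]; rw [hy]; exact hs1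
  have hTw : Twin C ((θ ∘ h) ⁻¹' X) := Twin.preimage hψ hX
  obtain ⟨m, hm⟩ := exists_lt_ack_of_nat_primrec (Primrec.nat_iff.1 hprim)
  obtain ⟨s, hsn, hsn1⟩ := inc (max y m)
  have hcs : cond (c s) s := by
    rcases step s with h1 | h1
    · omega
    · exact h1.2
  rw [hsn] at hcs
  obtain ⟨s', hs', hPC, hTt⟩ := hcs
  obtain ⟨t, ht, hPt⟩ := hPC C hC
  obtain ⟨F, hF1, hF2⟩ := hP3 C hC _ _ hPt y (le_max_left _ _)
  have hack := hTs _ _ hTt
  have hmap : ∀ z ∈ F, c (h z) ∈ Finset.range (max y m + 1) := by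
    intro z hz
    have hz1 := (hF2 z hz).1
    have h1 : h z < ack m z := hm z
    have h2 : ack m z ≤ ack (s' + max y m) (s' + max y m) := by
      apply ack_le_ack
      · have := le_max_right y m; omega
      · omega
    have h3 : c (h z) ≤ c s := mono _ _ (by omega)
    rw [Finset.mem_range]
    omega
  have hout : ∀ z ∈ F, θ (h z) = c (h z) := by
    intro z hz
    refine (hθX (h z) ?_).2
    intro hzX
    exact (hF2 z hz).2 (fun i v => hTw.app (x := y) (y := z) hyX hzX i v)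
  have hinj : Set.InjOn (fun z => c (h z)) (F : Set ℕ) := by
    intro z hz z' hz' hzz
    simp only at hzz
    rw [← hout z hz, ← hout z' hz'] at hzz
    exact hψ.1.1 hzz
  have := Finset.card_le_card_of_injOn (fun z => c (h z)) hmap hinj
  rw [Finset.card_range] at this
  omega

/-- The set of elements interchangeable with `y` is a set of interchangeable elements. -/
theorem twin_class {α : Type} [DecidableEq α] (C : Str ar α) (y : α) :
    Twin C {z | ∀ (i : Fin k) (v : Fin (ar i) → α), C i v ↔ C i (Equiv.swap y z ∘ v)} := by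
  intro a ha b hb
  refine ⟨(Equiv.swap a b).bijective, fun i v => ?_⟩
  have ha' : ∀ v : Fin (ar i) → α, C i v ↔ C i (Equiv.swap y a ∘ v) := ha i
  have hb' : ∀ v : Fin (ar i) → α, C i v ↔ C i (Equiv.swap y b ∘ v) := hb i
  by_cases hab : a = b
  · subst hab
    have : (Equiv.swap a a : α → α) ∘ v = v := by
      funext u; simp
    rw [this]
  by_cases hby : b = y
  · subst hby
    rw [Equiv.swap_comm]
    exact ha' v
  · rw [ha' v, hb' (Equiv.swap y a ∘ v), ha' (Equiv.swap y b ∘ Equiv.swap y a ∘ v)]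
    have : (Equiv.swap y a : α → α) ∘ Equiv.swap y b ∘ Equiv.swap y a ∘ v =
        Equiv.swap a b ∘ v := by
      funext u
      simp only [Function.comp_apply]
      have h1 := Equiv.swap_apply_apply (Equiv.swap y a) y b
      rw [Equiv.swap_apply_left, Equiv.swap_apply_of_ne_of_ne hby (Ne.symm hab)] at h1
      rw [h1]
      simp
    rw [this]

/-- Two presentations with a cofinite set of interchangeable elements. -/
theorem prLe_of_cofinite {B C : Str ar ℕ} {σ : ℕ → ℕ} (hσ : IsIso σ B C) {X : Set ℕ}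
    (hX : Twin C X) (hfin : Xᶜ.Finite) : PrLe B C := by
  classical
  have hfin1 : (σ ⁻¹' Xᶜ).Finite := hfin.preimage hσ.1.1.injOn
  obtain ⟨m1, hm1⟩ := hfin.bddAbove
  obtain ⟨m2, hm2⟩ := hfin1.bddAbove
  set m := max m1 m2 + 1 with hm
  have h1 : ∀ n, n ∉ X → n < m := fun n hn => by
    have : n ≤ m1 := hm1 hn
    have := le_max_left m1 m2
    omega
  have h2 : ∀ n, σ n ∉ X → n < m := fun n hn => by
    have : n ≤ m2 := hm2 hn
    have := le_max_right m1 m2
    omega
  let e : {a : Fin m // σ a ∉ X} ≃ {a : Fin m // (a : ℕ) ∉ X} :=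
    Equiv.ofBijective (fun a => ⟨⟨σ a.1, h1 _ a.2⟩, a.2⟩) (by
      constructor
      · intro a b hab
        have : σ a.1 = σ b.1 := by
          have := congrArg (fun q : {a : Fin m // (a : ℕ) ∉ X} => (q.1 : ℕ)) hab
          exact this
        exact Subtype.ext (Fin.ext (hσ.1.1 this))
      · rintro ⟨b, hb⟩
        obtain ⟨n, hn⟩ := hσ.1.2 b
        have hn' : σ n ∉ X := by rw [hn]; exact hb
        refine ⟨⟨⟨n, h2 n hn'⟩, hn'⟩, ?_⟩
        exact Subtype.ext (Fin.ext hn))
  let e' : Equiv.Perm (Fin m) := e.extendSubtype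
  have he1 : ∀ a : Fin m, σ a ∉ X → ((e' a : Fin m) : ℕ) = σ a := by
    intro a ha
    have := Equiv.extendSubtype_apply_of_mem e a ha
    show ((e.extendSubtype a : Fin m) : ℕ) = σ a
    rw [this]
    rfl
  have he2 : ∀ a : Fin m, σ a ∈ X → ((e' a : Fin m) : ℕ) ∈ X := by
    intro a ha
    have := Equiv.extendSubtype_not_mem e a (by simpa using ha)
    simpa using this
  let L : List ℕ := List.ofFn (fun a : Fin m => ((e' a : Fin m) : ℕ))
  let f : ℕ → ℕ := fun n => if n < m then L.getD n 0 else n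
  have hf1 : ∀ n (h : n < m), f n = ((e' ⟨n, h⟩ : Fin m) : ℕ) := by
    intro n h
    show (if n < m then L.getD n 0 else n) = _
    rw [if_pos h]
    have hlen : n < L.length := by
      show n < (List.ofFn (fun a : Fin m => ((e' a : Fin m) : ℕ))).length
      rw [List.length_ofFn]; exact h
    rw [List.getD_eq_getElem L 0 hlen]
    exact List.getElem_ofFn _
  have hf2 : ∀ n, ¬ n < m → f n = n := fun n h => if_neg h
  have hfprim : Primrec f := by
    refine Primrec.ite (Primrec.nat_lt.comp Primrec.id (Primrec.const m)) ?_ Primrec.id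
    exact (Primrec.list_getD 0).comp (Primrec.const L) Primrec.id
  have hfm : ∀ n, n < m → f n < m := fun n h => by rw [hf1 n h]; exact (e' ⟨n, h⟩).2
  have hfinj : Function.Injective f := by
    intro a b hab
    by_cases ha : a < m
    · by_cases hb : b < m
      · rw [hf1 a ha, hf1 b hb] at hab
        have := e'.injective (Fin.ext hab)
        exact congrArg Fin.val this
      · rw [hf2 b hb] at hab
        have := hfm a ha
        omega
    · by_cases hb : b < m
      · rw [hf2 a ha] at hab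
        have := hfm b hb
        omega
      · rw [hf2 a ha, hf2 b hb] at hab
        exact hab
  have hfsurj : Function.Surjective f := by
    intro b
    by_cases hb : b < m
    · refine ⟨(e'.symm ⟨b, hb⟩ : ℕ), ?_⟩
      rw [hf1 _ (e'.symm ⟨b, hb⟩).2]
      simp
    · exact ⟨b, hf2 b hb⟩
  refine ⟨f, hfprim, ⟨hfinj, hfsurj⟩, fun i v => ?_⟩
  rw [hσ.2 i v]
  refine twin_key' hX i _ _ ?_ ?_
  · intro a
    simp only [Function.comp_apply]
    by_cases hv : σ (v a) ∈ X
    · right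
      refine ⟨hv, ?_⟩
      by_cases hvm : v a < m
      · rw [hf1 _ hvm]
        exact he2 ⟨v a, hvm⟩ hv
      · rw [hf2 _ hvm]
        by_contra hn
        exact hvm (h1 _ hn)
    · left
      have hvm := h2 _ hv
      rw [hf1 _ hvm]
      exact (he1 ⟨v a, hvm⟩ hv).symm
  · intro a b
    simp only [Function.comp_apply]
    rw [hσ.1.1.eq_iff, hfinj.eq_iff]

theorem subsingleton_of_cofinite {α : Type} [DecidableEq α] (A : Str ar α)
    (hcof : ∃ Y : Set α, Yᶜ.Finite ∧ Twin A Y) : Subsingleton (Degrees A) := by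
  obtain ⟨Y, hYf, hY⟩ := hcof
  have key : ∀ B C : FPR A, PrLe B.1 C.1 := by
    intro B C
    obtain ⟨f, hf⟩ := B.2.2
    obtain ⟨g, hg⟩ := C.2.2
    obtain ⟨g', hg', _⟩ := hg.symm
    refine prLe_of_cofinite (hg'.comp hf) (Twin.preimage hg hY) ?_
    have : (g ⁻¹' Y)ᶜ = g ⁻¹' Yᶜ := rfl
    rw [this]
    exact hYf.preimage hg.1.1.injOn
  constructor
  intro a b
  induction a using Quotient.inductionOn with
  | h B =>
    induction b using Quotient.inductionOn with
    | h C => exact Quotient.sound ⟨key B C, key C B⟩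

theorem exists_not_above {α : Type} [DecidableEq α] (A : Str ar α) (X : Set α)
    (hinf : X.Infinite) (hX : Twin A X) (hcof : ¬ ∃ Y : Set α, Yᶜ.Finite ∧ Twin A Y)
    (B : FPR A) (l : List (FPR A)) : ∃ D : FPR A, ∀ C ∈ l, ¬ PrLe C.1 D.1 := by
  classical
  obtain ⟨f, hf⟩ := B.2.2
  have hNon : ∀ C : FPR A, ∀ y, (NonT C.1 y).Infinite := by
    intro C y hfin2
    apply hcof
    obtain ⟨g, hg⟩ := C.2.2
    obtain ⟨g', hg', hgg⟩ := hg.symm
    refine ⟨g' ⁻¹' {z | ∀ (i : Fin k) (v : Fin (ar i) → ℕ),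
      C.1 i v ↔ C.1 i (Equiv.swap y z ∘ v)}, ?_, Twin.preimage hg' (twin_class C.1 y)⟩
    exact hfin2.preimage hg'.1.1.injOn
  have hXB : Twin B.1 (f ⁻¹' X) := Twin.preimage hf hX
  have hXBinf : (f ⁻¹' X).Infinite := hinf.preimage (fun z _ => hf.1.2 z)
  obtain ⟨D, hD, ⟨θ, hθ⟩, hno⟩ := exists_delay B.2.1 hXB hXBinf (l.map (fun C => C.1)) (by
    intro C hC
    obtain ⟨C', _, rfl⟩ := List.mem_map.1 hC
    exact ⟨C'.2.1, hNon C'⟩)
  refine ⟨⟨D, hD, ⟨f ∘ θ, hf.comp hθ⟩⟩, fun C hC => ?_⟩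
  exact hno C.1 (List.mem_map.2 ⟨C, hC, rfl⟩)

theorem infinite_of_not_cofinite {α : Type} [DecidableEq α] (A : Str ar α) (X : Set α)
    (hinf : X.Infinite) (hX : Twin A X) (hcof : ¬ ∃ Y : Set α, Yᶜ.Finite ∧ Twin A Y)
    (hne : Nonempty (FPR A)) : Infinite (Degrees A) := by
  classical
  by_contra hni
  have hfin : Finite (Degrees A) := not_infinite_iff_finite.1 hni
  obtain ⟨B⟩ := hne
  have hft : Fintype (Degrees A) := Fintype.ofFinite _
  obtain ⟨D, hD⟩ := exists_not_above A X hinf hX hcof B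
    ((Finset.univ : Finset (Degrees A)).toList.map (fun d => Quotient.out d))
  let d : Degrees A := Quotient.mk (fprSetoid A) D
  have h1 : (fprSetoid A).r (Quotient.out d) D := Quotient.exact (Quotient.out_eq d)
  exact hD _ (List.mem_map.2 ⟨d, Finset.mem_toList.2 (Finset.mem_univ d), rfl⟩) h1.1

end Pool.Agent.MP_36da60_lc
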