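import Mathlib

/-!
# Stable relations: a type over the whole structure is a majority vote
-/

namespace Fpr62

open Filter

/-- `E` has a half graph of length `k`: `E (a i) (b j)` iff `i < j` -/
def HalfGraph {α : Type*} (E : α → α → Prop) (k : ℕ) : Prop :=
  ∃ a b : ℕ → α, ∀ i < k, ∀ j < k, (E (a i) (b j) ↔ i < j)

/-- no arbitrarily large half graphs -/
def StableRel {α : Type*} (E : α → α → Prop) : Prop := ∃ k, ¬ HalfGraph E k

theorem no_gt {α : Type*} {E : α → α → Prop} {k : ℕ} (h : ¬ HalfGraph E k) :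
    ¬ ∃ a b : ℕ → α, ∀ i < k, ∀ j < k, (E (a i) (b j) ↔ j < i) := by
  rintro ⟨a, b, hab⟩
  apply h
  refine ⟨fun i => a (k - 1 - i), fun j => b (k - 1 - j), fun i hi j hj => ?_⟩
  simp only
  rw [hab (k - 1 - i) (by omega) (k - 1 - j) (by omega)]
  omega

theorem no_le {α : Type*} {E : α → α → Prop} {k : ℕ} (h : ¬ HalfGraph E k) :
    ¬ ∃ a b : ℕ → α, ∀ i < k + 1, ∀ j < k + 1, (E (a i) (b j) ↔ i ≤ j) := by
  rintro ⟨a, b, hab⟩
  apply h
  refine ⟨fun i => a (i + 1), b, fun i hi j hj => ?_⟩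
  simp only
  rw [hab (i + 1) (by omega) j (by omega)]
  omega

theorem no_gt' {α : Type*} {E : α → α → Prop} {k : ℕ} (h : ¬ HalfGraph E k) :
    ¬ ∃ a b : ℕ → α, ∀ i < k + 1, ∀ j < k + 1, (E (a i) (b j) ↔ j < i) := by
  rintro ⟨a, b, hab⟩
  exact no_gt h ⟨a, b, fun i hi j hj => hab i (by omega) j (by omega)⟩

theorem flip_half {α : Type*} {E : α → α → Prop} {k : ℕ} (h : ¬ HalfGraph E k) :
    ¬ HalfGraph (fun x y => E y x) k := by
  rintro ⟨a, b, hab⟩
  apply no_gt h
  exact ⟨b, a, fun i hi j hj => hab j hj i hi⟩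

/-- finitely many witnesses -/
theorem exists_wit (q : ℕ → Prop) (φ : ℕ → ℕ → Prop) (A : Finset ℕ) :
    ∃ W : Finset ℕ,
      (∀ V ⊆ A, (∃ y, q y ∧ ∀ a ∈ V, ¬ φ a y) → ∃ y ∈ W, q y ∧ ∀ a ∈ V, ¬ φ a y) ∧
      (∀ V ⊆ A, (∃ y, ¬ q y ∧ ∀ a ∈ V, φ a y) → ∃ y ∈ W, ¬ q y ∧ ∀ a ∈ V, φ a y) := by
  classical
  let f : Finset ℕ → ℕ := fun V => if h : ∃ y, q y ∧ ∀ a ∈ V, ¬ φ a y then h.choose else 0
  let g : Finset ℕ → ℕ := fun V => if h : ∃ y, ¬ q y ∧ ∀ a ∈ V, φ a y then h.choose else 0
  refine ⟨A.powerset.image f ∪ A.powerset.image g, fun V hV h => ?_, fun V hV h => ?_⟩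
  · refine ⟨f V, Finset.mem_union_left _ (Finset.mem_image_of_mem f (Finset.mem_powerset.2 hV)), ?_⟩
    simp only [f]
    rw [dif_pos h]
    exact h.choose_spec
  · refine ⟨g V, Finset.mem_union_right _ (Finset.mem_image_of_mem g (Finset.mem_powerset.2 hV)), ?_⟩
    simp only [g]
    rw [dif_pos h]
    exact h.choose_spec

theorem ultra_iff (U : Ultrafilter ℕ) (p : ℕ → Prop) :
    ∀ᶠ x in (U : Filter ℕ), (p x ↔ ∀ᶠ x in (U : Filter ℕ), p x) := by
  by_cases h : ∀ᶠ x in (U : Filter ℕ), p x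
  · filter_upwards [h] with x hx
    exact iff_of_true hx h
  · have h' : ∀ᶠ x in (U : Filter ℕ), ¬ p x := Ultrafilter.eventually_not.2 h
    filter_upwards [h'] with x hx
    exact iff_of_false hx h

/-- increasing enumeration of `K` elements of a finite set of size at least `K` -/
theorem exists_increasing (s : Finset ℕ) (K : ℕ) (h : K ≤ s.card) :
    ∃ idx : ℕ → ℕ, (∀ i < K, idx i ∈ s) ∧ ∀ i j, i < j → j < K → idx i < idx j := by
  obtain ⟨s', hs', hc⟩ := Finset.exists_subset_card_eq h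
  refine ⟨fun i => if h : i < K then s'.orderEmbOfFin hc ⟨i, h⟩ else 0, fun i hi => ?_,
    fun i j hij hj => ?_⟩
  · simp only [hi, dif_pos]
    exact hs' (Finset.orderEmbOfFin_mem s' hc _)
  · have hi : i < K := by omega
    simp only [hi, hj, dif_pos]
    exact (s'.orderEmbOfFin hc).strictMono (by exact hij)

/-- **Majority vote.** -/
theorem exists_majority (U : Ultrafilter ℕ) (φ : ℕ → ℕ → Prop) (K : ℕ)
    (hgt : ¬ ∃ a b : ℕ → ℕ, ∀ i < K, ∀ j < K, (φ (a i) (b j) ↔ j < i))
    (hle : ¬ ∃ a b : ℕ → ℕ, ∀ i < K, ∀ j < K, (φ (a i) (b j) ↔ i ≤ j)) :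
    ∃ a : ℕ → ℕ, ∀ (n y : ℕ) [DecidablePred fun i => φ (a i) y],
      ((∀ᶠ x in (U : Filter ℕ), φ x y) →
        ((Finset.range n).filter fun i => ¬ φ (a i) y).card < K) ∧
      ((¬ ∀ᶠ x in (U : Filter ℕ), φ x y) →
        ((Finset.range n).filter fun i => φ (a i) y).card < K) := by
  classical
  let q : ℕ → Prop := fun y => ∀ᶠ x in (U : Filter ℕ), φ x y
  choose W hW1 hW2 using exists_wit q φ
  have hg : ∀ Y : Finset ℕ, ∃ x, ∀ y ∈ Y, (φ x y ↔ q y) := by
    intro Y
    have : ∀ᶠ x in (U : Filter ℕ), ∀ y ∈ Y, (φ x y ↔ q y) := by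
      rw [Filter.eventually_all_finset]
      intro y _
      exact ultra_iff U (fun x => φ x y)
    exact this.exists
  choose g hg using hg
  let st : ℕ → Finset ℕ × Finset ℕ := fun n => Nat.rec (motive := fun _ => Finset ℕ × Finset ℕ)
    (∅, W ∅) (fun _ p => (insert (g p.2) p.1, p.2 ∪ W (insert (g p.2) p.1))) n
  have hst : ∀ n, st (n + 1) = (insert (g (st n).2) (st n).1,
      (st n).2 ∪ W (insert (g (st n).2) (st n).1)) := fun n => rfl
  let a : ℕ → ℕ := fun n => g (st n).2
  have hA : ∀ n, (st n).1 = (Finset.range n).image a := by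
    intro n
    induction n with
    | zero => rfl
    | succ n ih =>
      rw [hst, Finset.range_add_one, Finset.image_insert, ← ih]
  have hWn : ∀ n, W ((Finset.range n).image a) ⊆ (st n).2 := by
    intro n
    rw [← hA]
    cases n with
    | zero => exact Finset.Subset.refl _
    | succ n =>
      rw [hst]
      exact Finset.subset_union_right
  have hYs : ∀ n, (st n).2 ⊆ (st (n + 1)).2 := by
    intro n
    rw [hst]
    exact Finset.subset_union_left
  have hYm : ∀ n m, n ≤ m → (st n).2 ⊆ (st m).2 := by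
    intro n m hnm
    induction hnm with
    | refl => exact Finset.Subset.refl _
    | step _ ih => exact ih.trans (hYs _)
  have ha : ∀ n m y, n ≤ m → y ∈ W ((Finset.range n).image a) → (φ (a m) y ↔ q y) := by
    intro n m y hnm hy
    exact hg _ y (hYm n m hnm (hWn n hy))
  refine ⟨a, fun n y _ => ⟨fun hq => ?_, fun hq => ?_⟩⟩
  · by_contra hcard
    push Not at hcard
    obtain ⟨idx, hidx, hinc⟩ := exists_increasing _ K hcard
    have hwit : ∀ j < K, ∃ z ∈ W ((Finset.range (idx j + 1)).image a), q z ∧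
        ∀ l ≤ j, ¬ φ (a (idx l)) z := by
      intro j hj
      have hV : (Finset.range (j + 1)).image (fun l => a (idx l)) ⊆
          (Finset.range (idx j + 1)).image a := by
        intro v hv
        obtain ⟨l, hl, rfl⟩ := Finset.mem_image.1 hv
        rw [Finset.mem_range] at hl
        refine Finset.mem_image.2 ⟨idx l, Finset.mem_range.2 ?_, rfl⟩
        rcases (by omega : l < j ∨ l = j) with h | h
        · have := hinc l j h hj; omega
        · rw [h]; omega
      obtain ⟨z, hz, hqz, hzV⟩ := hW1 _ _ hV ⟨y, hq, by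
        intro v hv
        obtain ⟨l, hl, rfl⟩ := Finset.mem_image.1 hv
        rw [Finset.mem_range] at hl
        exact (Finset.mem_filter.1 (hidx l (by omega))).2⟩
      exact ⟨z, hz, hqz, fun l hl => hzV _ (Finset.mem_image.2
        ⟨l, Finset.mem_range.2 (by omega), rfl⟩)⟩
    choose! z hz hqz hzl using hwit
    refine hgt ⟨fun l => a (idx l), z, fun l hl j hj => ?_⟩
    constructor
    · intro h
      by_contra hlt
      exact hzl j hj l (by omega) h
    · intro h
      have h1 := hinc j l h hl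
      exact (ha (idx j + 1) (idx l) (z j) (by omega) (hz j hj)).2 (hqz j hj)
  · by_contra hcard
    push Not at hcard
    obtain ⟨idx, hidx, hinc⟩ := exists_increasing _ K hcard
    have hwit : ∀ j < K, ∃ z ∈ W ((Finset.range (idx j + 1)).image a), ¬ q z ∧
        ∀ l ≤ j, φ (a (idx l)) z := by
      intro j hj
      have hV : (Finset.range (j + 1)).image (fun l => a (idx l)) ⊆
          (Finset.range (idx j + 1)).image a := by
        intro v hv
        obtain ⟨l, hl, rfl⟩ := Finset.mem_image.1 hv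
        rw [Finset.mem_range] at hl
        refine Finset.mem_image.2 ⟨idx l, Finset.mem_range.2 ?_, rfl⟩
        rcases (by omega : l < j ∨ l = j) with h | h
        · have := hinc l j h hj; omega
        · rw [h]; omega
      obtain ⟨z, hz, hqz, hzV⟩ := hW2 _ _ hV ⟨y, hq, by
        intro v hv
        obtain ⟨l, hl, rfl⟩ := Finset.mem_image.1 hv
        rw [Finset.mem_range] at hl
        exact (Finset.mem_filter.1 (hidx l (by omega))).2⟩
      exact ⟨z, hz, hqz, fun l hl => hzV _ (Finset.mem_image.2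
        ⟨l, Finset.mem_range.2 (by omega), rfl⟩)⟩
    choose! z hz hqz hzl using hwit
    refine hle ⟨fun l => a (idx l), z, fun l hl j hj => ?_⟩
    constructor
    · intro h
      by_contra hlt
      have h1 := hinc j l (by omega) hl
      exact hqz j hj ((ha (idx j + 1) (idx l) (z j) (by omega) (hz j hj)).1 h)
    · intro h
      exact hzl j hj l h

/-- the type is decided by `2K` votes -/
theorem type_iff_majority (U : Ultrafilter ℕ) (φ : ℕ → ℕ → Prop) (K : ℕ)
    (hgt : ¬ ∃ a b : ℕ → ℕ, ∀ i < K, ∀ j < K, (φ (a i) (b j) ↔ j < i))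
    (hle : ¬ ∃ a b : ℕ → ℕ, ∀ i < K, ∀ j < K, (φ (a i) (b j) ↔ i ≤ j)) :
    ∃ a : ℕ → ℕ, ∀ (y : ℕ) [DecidablePred fun i => φ (a i) y],
      (∀ᶠ x in (U : Filter ℕ), φ x y) ↔
        K ≤ ((Finset.range (2 * K)).filter fun i => φ (a i) y).card := by
  classical
  obtain ⟨a, ha⟩ := exists_majority U φ K hgt hle
  refine ⟨a, fun y _ => ?_⟩
  have h := ha (2 * K) y
  have hsum := Finset.card_filter_add_card_filter_not (s := Finset.range (2 * K))
    (fun i => φ (a i) y)
  rw [Finset.card_range] at hsum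
  constructor
  · intro hq
    have := h.1 hq
    omega
  · intro hK
    by_contra hq
    have := h.2 hq
    omega

end Fpr62
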