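import Pool.Agent.Lib.MP_36da60_lc.GenC62
import Pool.Agent.Lib.MP_36da60_lc.StabA62

/-!
# fpr-degrees of structures with one stable binary relation
-/

namespace Fpr62

open Filter

theorem primrec_vote {B : ℕ → ℕ → Prop} (hB : PrimrecRel B) (a : ℕ → ℕ) (n : ℕ) :
    ∃ f : ℕ → ℕ, Primrec f ∧ ∀ (y : ℕ) [DecidablePred fun i => B (a i) y],
      f y = ((Finset.range n).filter fun i => B (a i) y).card := by
  classical
  induction n with
  | zero => exact ⟨fun _ => 0, Primrec.const 0, fun y _ => by simp⟩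
  | succ n ih =>
    obtain ⟨f, hf, hfy⟩ := ih
    have hp : PrimrecPred (fun y => B (a n) y) := hB.comp (Primrec.const _) Primrec.id
    refine ⟨fun y => f y + if B (a n) y then 1 else 0,
      Primrec.nat_add.comp hf (Primrec.ite hp (Primrec.const 1) (Primrec.const 0)), fun y _ => ?_⟩
    rw [Finset.range_add_one, Finset.filter_insert]
    beta_reduce
    by_cases h : B (a n) y
    · rw [if_pos h, if_pos h, Finset.card_insert_of_notMem (by simp), hfy y]
    · rw [if_neg h, if_neg h, hfy y, Nat.add_zero]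

theorem primrec_type {B : ℕ → ℕ → Prop} (hB : PrimrecRel B) (U : Ultrafilter ℕ) {k : ℕ}
    (hk : ¬ HalfGraph B k) : PrimrecPred (fun y => ∀ᶠ x in (U : Filter ℕ), B x y) := by
  classical
  obtain ⟨a, ha⟩ := type_iff_majority U B (k + 1) (no_gt' hk) (no_le hk)
  obtain ⟨f, hf, hfy⟩ := primrec_vote hB a (2 * (k + 1))
  have h1 : PrimrecPred (fun y => k + 1 ≤ f y) := Primrec.nat_le.comp (Primrec.const _) hf
  refine h1.of_eq fun y => ?_
  rw [ha y, hfy y]

theorem same_pattern {B : ℕ → ℕ → Prop} (U : Ultrafilter ℕ) {k : ℕ} (hk : ¬ HalfGraph B k) :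
    ((∀ᶠ a in (U : Filter ℕ), ∀ᶠ x in (U : Filter ℕ), B x a) ↔
      (∀ᶠ a in (U : Filter ℕ), ∀ᶠ x in (U : Filter ℕ), B a x)) := by
  classical
  let q1 : ℕ → Prop := fun y => ∀ᶠ x in (U : Filter ℕ), B x y
  let q2 : ℕ → Prop := fun y => ∀ᶠ x in (U : Filter ℕ), B y x
  have hg : ∀ Y : Finset ℕ, ∃ x, (∀ y ∈ Y, (B x y ↔ q1 y) ∧ (B y x ↔ q2 y)) ∧
      (q1 x ↔ ∀ᶠ a in (U : Filter ℕ), q1 a) ∧ (q2 x ↔ ∀ᶠ a in (U : Filter ℕ), q2 a) := by
    intro Y
    have h1 : ∀ᶠ x in (U : Filter ℕ), ∀ y ∈ Y, (B x y ↔ q1 y) ∧ (B y x ↔ q2 y) := by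
      rw [Filter.eventually_all_finset]
      intro y _
      exact (ultra_iff U (fun x => B x y)).and (ultra_iff U (fun x => B y x))
    exact (h1.and ((ultra_iff U q1).and (ultra_iff U q2))).exists
  choose g hg1 hg2 hg3 using hg
  let st : ℕ → Finset ℕ := fun n => Nat.rec (motive := fun _ => Finset ℕ) ∅
    (fun _ A => insert (g A) A) n
  have hst : ∀ n, st (n + 1) = insert (g (st n)) (st n) := fun n => rfl
  let a : ℕ → ℕ := fun n => g (st n)
  have hmem : ∀ n i, i < n → a i ∈ st n := by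
    intro n
    induction n with
    | zero => intro i hi; omega
    | succ n ih =>
      intro i hi
      rw [hst]
      rcases (by omega : i < n ∨ i = n) with h | h
      · exact Finset.mem_insert_of_mem (ih i h)
      · rw [h]; exact Finset.mem_insert_self _ _
  have hB1 : ∀ i n, i < n → (B (a n) (a i) ↔ ∀ᶠ a in (U : Filter ℕ), q1 a) := by
    intro i n hin
    rw [((hg1 (st n)) (a i) (hmem n i hin)).1]
    exact hg2 (st i)
  have hB2 : ∀ i n, i < n → (B (a i) (a n) ↔ ∀ᶠ a in (U : Filter ℕ), q2 a) := by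
    intro i n hin
    rw [((hg1 (st n)) (a i) (hmem n i hin)).2]
    exact hg3 (st i)
  show (∀ᶠ a in (U : Filter ℕ), q1 a) ↔ (∀ᶠ a in (U : Filter ℕ), q2 a)
  constructor
  · intro h1
    by_contra h2
    apply no_gt hk
    refine ⟨fun i => a (2 * i), fun j => a (2 * j + 1), fun i _ j _ => ?_⟩
    simp only
    rcases lt_or_ge j i with h | h
    · rw [hB1 (2 * j + 1) (2 * i) (by omega)]
      exact iff_of_true h1 h
    · rw [hB2 (2 * i) (2 * j + 1) (by omega)]
      exact iff_of_false h2 (by omega)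
  · intro h2
    by_contra h1
    apply hk
    refine ⟨fun i => a (2 * i + 1), fun j => a (2 * j), fun i _ j _ => ?_⟩
    simp only
    rcases lt_or_ge i j with h | h
    · rw [hB2 (2 * i + 1) (2 * j) (by omega)]
      exact iff_of_true h2 h
    · rw [hB1 (2 * j) (2 * i + 1) (by omega)]
      exact iff_of_false h1 (by omega)

theorem stable_pres {α : Type*} {E : α → α → Prop} (hE : StableRel E) {B : ℕ → ℕ → Prop}
    (hB : IsPres E B) : FprCategorical E ∨ Infinite (Degrees E) := by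
  classical
  obtain ⟨k, hk⟩ := hE
  have hkB : ¬ HalfGraph B k := by
    rintro ⟨a, b, hab⟩
    obtain ⟨-, f, hf, hfE⟩ := hB
    apply hk
    let e := Equiv.ofBijective f hf
    have he : ∀ x, f (e.symm x) = x := fun x => e.apply_symm_apply x
    refine ⟨fun i => e.symm (a i), fun j => e.symm (b j), fun i hi j hj => ?_⟩
    rw [hfE, he, he]
    exact hab i hi j hj
  let U : Ultrafilter ℕ := Filter.hyperfilter ℕ
  have hq1 : PrimrecPred (fun y => ∀ᶠ x in (U : Filter ℕ), B x y) := primrec_type hB.1 U hkB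
  have hBf : PrimrecRel (fun x y => B y x) := hB.1.comp Primrec.snd Primrec.fst
  have hq2 : PrimrecPred (fun y => ∀ᶠ x in (U : Filter ℕ), B y x) :=
    primrec_type hBf U (flip_half hkB)
  have hsame := same_pattern U hkB
  refine generic_dichotomy hB (∀ᶠ x in (U : Filter ℕ), B x x)
    (∀ᶠ a in (U : Filter ℕ), ∀ᶠ x in (U : Filter ℕ), B x a) hq1 hq2 ?_
  intro L
  have hne : ∀ y : ℕ, ∀ᶠ x in (U : Filter ℕ), y ≠ x := by
    intro y
    have h1 : ∀ᶠ x in Filter.cofinite, x ≠ y := Filter.eventually_cofinite_ne y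
    have h2 := h1.filter_mono (Filter.hyperfilter_le_cofinite (α := ℕ))
    exact h2.mono fun x hx => hx.symm
  have h1 : ∀ᶠ a in (U : Filter ℕ), ∀ y ∈ L.toFinset, y ≠ a ∧
      (B a y ↔ ∀ᶠ x in (U : Filter ℕ), B x y) ∧ (B y a ↔ ∀ᶠ x in (U : Filter ℕ), B y x) := by
    rw [Filter.eventually_all_finset]
    intro y _
    exact (hne y).and ((ultra_iff U (fun x => B x y)).and (ultra_iff U (fun x => B y x)))
  have h2 := ultra_iff U (fun x => B x x)
  have h3 := ultra_iff U (fun a => ∀ᶠ x in (U : Filter ℕ), B x a)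
  have h4 := ultra_iff U (fun a => ∀ᶠ x in (U : Filter ℕ), B a x)
  obtain ⟨a, ha1, ha2, ha3, ha4⟩ := (h1.and (h2.and (h3.and h4))).exists
  refine ⟨a, fun y hy => ha1 y (List.mem_toFinset.2 hy), ha2, ha3, ?_⟩
  rw [hsame]
  exact ha4

/-- **Stable relations.** -/
theorem stable_dichotomy {α : Type*} (E : α → α → Prop) (hE : StableRel E) :
    (¬ ∃ B, IsPres E B) ∨ (FprCategorical E ∧ Subsingleton (Degrees E)) ∨
      (¬ FprCategorical E ∧ Infinite (Degrees E)) := by
  by_cases hex : ∃ B, IsPres E B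
  swap
  · exact Or.inl hex
  right
  obtain ⟨B, hB⟩ := hex
  rcases stable_pres hE hB with h | h
  · exact Or.inl ⟨h, subsingleton_of_categorical h⟩
  · refine Or.inr ⟨fun hc => ?_, h⟩
    have := subsingleton_of_categorical hc
    exact not_finite (Degrees E)

end Fpr62
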