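import Pool.Agent.Lib.MP_36da60_lc.StabB62

/-!
# fpr-degrees of structures with a primitive recursive generic type: the final form
-/

namespace Fpr62

open Filter

/-- `(ℕ, B)` has a tame type: some nonprincipal ultrafilter `U` on `ℕ` for which the sets
`{y | B x y for U-almost all x}` and `{y | B y x for U-almost all x}` are primitive recursive and
are both in `U` or both not in `U`. -/
def TameType (B : ℕ → ℕ → Prop) : Prop :=
  ∃ U : Ultrafilter ℕ, (∀ n : ℕ, ∀ᶠ x in (U : Filter ℕ), x ≠ n) ∧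
    PrimrecPred (fun y => ∀ᶠ x in (U : Filter ℕ), B x y) ∧
    PrimrecPred (fun y => ∀ᶠ x in (U : Filter ℕ), B y x) ∧
    ((∀ᶠ y in (U : Filter ℕ), ∀ᶠ x in (U : Filter ℕ), B x y) ↔
      (∀ᶠ y in (U : Filter ℕ), ∀ᶠ x in (U : Filter ℕ), B y x))

/-- `(α, E)` has free new elements: for some truth values `c0`, `c`, over every finite set `F` there
is a new element `a` with `E a a = c0` and `E a y = E y a = c` for all `y ∈ F`. -/
def FreeNew {α : Type*} (E : α → α → Prop) : Prop :=
  ∃ c0 c : Prop, ∀ F : Finset α, ∃ a, a ∉ F ∧ (E a a ↔ c0) ∧ ∀ y ∈ F, (E a y ↔ c) ∧ (E y a ↔ c)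

theorem dichotomy_of_tame {α : Type*} {E : α → α → Prop} {B : ℕ → ℕ → Prop} (hB : IsPres E B)
    (hT : TameType B) : FprCategorical E ∨ Infinite (Degrees E) := by
  classical
  obtain ⟨U, hne, hq1, hq2, hsame⟩ := hT
  refine generic_dichotomy hB (∀ᶠ x in (U : Filter ℕ), B x x)
    (∀ᶠ a in (U : Filter ℕ), ∀ᶠ x in (U : Filter ℕ), B x a) hq1 hq2 ?_
  intro L
  have h1 : ∀ᶠ a in (U : Filter ℕ), ∀ y ∈ L.toFinset, y ≠ a ∧
      (B a y ↔ ∀ᶠ x in (U : Filter ℕ), B x y) ∧ (B y a ↔ ∀ᶠ x in (U : Filter ℕ), B y x) := by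
    rw [Filter.eventually_all_finset]
    intro y _
    exact ((hne y).mono fun x hx => hx.symm).and
      ((ultra_iff U (fun x => B x y)).and (ultra_iff U (fun x => B y x)))
  have h2 := ultra_iff U (fun x => B x x)
  have h3 := ultra_iff U (fun a => ∀ᶠ x in (U : Filter ℕ), B x a)
  have h4 := ultra_iff U (fun a => ∀ᶠ x in (U : Filter ℕ), B a x)
  obtain ⟨a, ha1, ha2, ha3, ha4⟩ := (h1.and (h2.and (h3.and h4))).exists
  refine ⟨a, fun y hy => ha1 y (List.mem_toFinset.2 hy), ha2, ha3, ?_⟩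
  rw [hsame]
  exact ha4

theorem tame_of_stable {α : Type*} {E : α → α → Prop} (hE : StableRel E) {B : ℕ → ℕ → Prop}
    (hB : IsPres E B) : TameType B := by
  classical
  obtain ⟨k, hk⟩ := hE
  have hkB : ¬ HalfGraph B k := by
    rintro ⟨a, b, hab⟩
    obtain ⟨-, f, hf, hfE⟩ := hB
    apply hk
    let e := Equiv.ofBijective f hf
    have he : ∀ x, f (e.symm x) = x := fun x => e.apply_symm_apply x
    refine ⟨fun i => e.symm (a i), fun j => e.symm (b j), fun i hi j hj => ?_⟩
    rw [hfE, he, he]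
    exact hab i hi j hj
  have hBf : PrimrecRel (fun x y => B y x) := hB.1.comp Primrec.snd Primrec.fst
  refine ⟨Filter.hyperfilter ℕ, fun n => ?_, primrec_type hB.1 _ hkB,
    primrec_type hBf _ (flip_half hkB), same_pattern _ hkB⟩
  exact (Filter.eventually_cofinite_ne n).filter_mono (Filter.hyperfilter_le_cofinite (α := ℕ))

theorem tame_of_free {α : Type*} {E : α → α → Prop} (hE : FreeNew E) {B : ℕ → ℕ → Prop}
    (hB : IsPres E B) : TameType B := by
  classical
  obtain ⟨c0, c, hfree⟩ := hE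
  obtain ⟨-, f, hf, hfE⟩ := hB
  let e := Equiv.ofBijective f hf
  -- the sets of free elements over finite sets
  let S : Finset ℕ → Set ℕ := fun F => {a | a ∉ F ∧ ∀ y ∈ F, (B a y ↔ c) ∧ (B y a ↔ c)}
  have hS : ∀ F, (S F).Nonempty := by
    intro F
    obtain ⟨a, ha, -, haF⟩ := hfree (F.image e.symm)
    refine ⟨f a, ?_, fun y hy => ?_⟩
    · intro h
      apply ha
      refine Finset.mem_image.2 ⟨f a, h, e.symm_apply_apply a⟩
    · have hy' : e.symm y ∈ F.image e.symm := Finset.mem_image_of_mem _ hy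
      have hey : f (e.symm y) = y := e.apply_symm_apply y
      obtain ⟨h1, h2⟩ := haF _ hy'
      rw [hfE, hey] at h1 h2
      exact ⟨h1, h2⟩
  have hdir : Directed (· ≥ ·) (fun F : Finset ℕ => Filter.principal (S F)) := by
    intro F F'
    refine ⟨F ∪ F', ?_, ?_⟩
    · simp only [ge_iff_le, Filter.le_principal_iff, Filter.mem_principal]
      intro a ha
      exact ⟨fun h => ha.1 (Finset.mem_union_left _ h),
        fun y hy => ha.2 y (Finset.mem_union_left _ hy)⟩
    · simp only [ge_iff_le, Filter.le_principal_iff, Filter.mem_principal]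
      intro a ha
      exact ⟨fun h => ha.1 (Finset.mem_union_right _ h),
        fun y hy => ha.2 y (Finset.mem_union_right _ hy)⟩
  have hne : (⨅ F : Finset ℕ, Filter.principal (S F)).NeBot :=
    Filter.iInf_neBot_of_directed' hdir (fun F => Filter.principal_neBot_iff.2 (hS F))
  let U : Ultrafilter ℕ := Ultrafilter.of (⨅ F : Finset ℕ, Filter.principal (S F))
  have hU : ∀ F, ∀ᶠ a in (U : Filter ℕ), a ∈ S F := by
    intro F
    have h1 : (U : Filter ℕ) ≤ ⨅ F : Finset ℕ, Filter.principal (S F) := Ultrafilter.of_le _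
    have h2 : (U : Filter ℕ) ≤ Filter.principal (S F) := h1.trans (iInf_le _ F)
    exact h2 (Filter.mem_principal_self _)
  have hq1 : ∀ y, (∀ᶠ x in (U : Filter ℕ), B x y) ↔ c := by
    intro y
    have h1 : ∀ᶠ x in (U : Filter ℕ), (B x y ↔ c) :=
      (hU {y}).mono fun x hx => (hx.2 y (Finset.mem_singleton_self y)).1
    constructor
    · intro h
      obtain ⟨x, hx1, hx2⟩ := (h.and h1).exists
      exact hx2.1 hx1
    · intro h
      exact h1.mono fun x hx => hx.2 h
  have hq2 : ∀ y, (∀ᶠ x in (U : Filter ℕ), B y x) ↔ c := by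
    intro y
    have h1 : ∀ᶠ x in (U : Filter ℕ), (B y x ↔ c) :=
      (hU {y}).mono fun x hx => (hx.2 y (Finset.mem_singleton_self y)).2
    constructor
    · intro h
      obtain ⟨x, hx1, hx2⟩ := (h.and h1).exists
      exact hx2.1 hx1
    · intro h
      exact h1.mono fun x hx => hx.2 h
  refine ⟨U, fun n => ?_, ?_, ?_, ?_⟩
  · exact (hU {n}).mono fun x hx h => hx.1 (by rw [h]; exact Finset.mem_singleton_self n)
  · exact (primrec_const_pred c).of_eq fun y => (hq1 y).symm
  · exact (primrec_const_pred c).of_eq fun y => (hq2 y).symm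
  · simp only [hq1, hq2]

end Fpr62
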