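import Pool.Agent.Lib.MP_36da60_lc.TameA62
import Pool.Agent.Lib.MP_36da60_lc.SplA62
import Pool.Agent.Lib.MP_36da60_lc.TypC27

/-!
# fpr-degrees of structures with a primitive recursive type: every self pattern
-/

namespace Fpr62

open Filter

/-- `(ℕ, B)` has a primitive recursive type: some nonprincipal ultrafilter `U` on `ℕ` for which the
sets `{y | B x y for U-almost all x}` and `{y | B y x for U-almost all x}` are primitive
recursive. -/
def HasType (B : ℕ → ℕ → Prop) : Prop :=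
  ∃ U : Ultrafilter ℕ, (∀ n : ℕ, ∀ᶠ x in (U : Filter ℕ), x ≠ n) ∧
    PrimrecPred (fun y => ∀ᶠ x in (U : Filter ℕ), B x y) ∧
    PrimrecPred (fun y => ∀ᶠ x in (U : Filter ℕ), B y x)

/-- No element splits the structure: for every `z` both `E x z` and `E z x` are constant for all
but finitely many `x`. -/
def NoSplitting {α : Type*} (E : α → α → Prop) : Prop :=
  ∀ z, ∃ d1 d2 : Prop, {x | ¬ ((E x z ↔ d1) ∧ (E z x ↔ d2))}.Finite

/-- `(α, E)` has free new elements: for some truth values `c0`, `c1`, `c2`, over every finite set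
`F` there is a new element `a` with `E a a = c0`, `E a y = c1` and `E y a = c2` for all
`y ∈ F`. -/
def FreeElements {α : Type*} (E : α → α → Prop) : Prop :=
  ∃ c0 c1 c2 : Prop, ∀ F : Finset α, ∃ a, a ∉ F ∧ (E a a ↔ c0) ∧
    ∀ y ∈ F, (E a y ↔ c1) ∧ (E y a ↔ c2)

theorem isPres_flip {α : Type*} {E : α → α → Prop} {B : ℕ → ℕ → Prop} (hB : IsPres E B) :
    IsPres (fun x y => E y x) (fun x y => B y x) := by
  obtain ⟨hp, f, hf, hfE⟩ := hB
  exact ⟨hp.comp Primrec.snd Primrec.fst, f, hf, fun x y => hfE y x⟩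

theorem lePr_flip {B C : ℕ → ℕ → Prop} (h : LePr B C) :
    LePr (fun x y => B y x) (fun x y => C y x) := by
  obtain ⟨f, hf, hb, he⟩ := h
  exact ⟨f, hf, hb, fun x y => he y x⟩

theorem infinite_flip {α : Type*} {E : α → α → Prop}
    (h : Infinite (Degrees (fun x y => E y x))) : Infinite (Degrees E) := by
  let F : {B : ℕ → ℕ → Prop // IsPres (fun x y => E y x) B} → {B : ℕ → ℕ → Prop // IsPres E B} :=
    fun B => ⟨fun x y => B.1 y x, isPres_flip B.2⟩
  have hF : ∀ B C, (prSetoid (fun x y => E y x)).r B C → (prSetoid E).r (F B) (F C) :=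
    fun B C hBC => ⟨lePr_flip hBC.1, lePr_flip hBC.2⟩
  have hF' : ∀ B C, (prSetoid E).r (F B) (F C) → (prSetoid (fun x y => E y x)).r B C :=
    fun B C hBC => ⟨lePr_flip hBC.1, lePr_flip hBC.2⟩
  refine @Infinite.of_injective _ _ h (Quotient.map' (s₁ := prSetoid (fun x y => E y x))
    (s₂ := prSetoid E) F hF) ?_
  intro a b hab
  induction a using Quotient.inductionOn' with
  | h B =>
    induction b using Quotient.inductionOn' with
    | h C =>
      apply Quotient.sound'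
      exact hF' B C (Quotient.exact' hab)

theorem split_of_not {B : ℕ → ℕ → Prop} (h : ¬ NoSplit B) :
    ∃ v, ({x | B v x}.Infinite ∧ {x | ¬ B v x}.Infinite) ∨
      ({x | B x v}.Infinite ∧ {x | ¬ B x v}.Infinite) := by
  classical
  by_contra hno
  push Not at hno
  apply h
  intro z
  obtain ⟨h1, h2⟩ := hno z
  have key : ∀ p : ℕ → Prop, ({x | p x}.Infinite → ¬ {x | ¬ p x}.Infinite) →
      ∃ d : Prop, {x | ¬ (p x ↔ d)}.Finite := by
    intro p hp
    by_cases hi : {x | p x}.Infinite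
    · refine ⟨True, ?_⟩
      have := Set.not_infinite.1 (hp hi)
      simpa using this
    · refine ⟨False, ?_⟩
      have := Set.not_infinite.1 hi
      simpa using this
  obtain ⟨d2, hd2⟩ := key (fun x => B z x) (fun hi => by simpa using h1 hi)
  obtain ⟨d1, hd1⟩ := key (fun x => B x z) (fun hi => by simpa using h2 hi)
  refine ⟨d1, d2, (hd1.union hd2).subset ?_⟩
  intro x hx
  by_contra hh
  simp only [Set.mem_union, Set.mem_ofPred_eq, not_or, not_not] at hh
  exact hx hh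

/-- **Every primitive recursive type.** -/
theorem dichotomy_of_type {α : Type*} {E : α → α → Prop} {B : ℕ → ℕ → Prop} (hB : IsPres E B)
    (hT : HasType B) : FprCategorical E ∨ Infinite (Degrees E) := by
  classical
  by_cases hns : NoSplit B
  · exact noSplit_dichotomy hB hns
  right
  obtain ⟨U, hne, hq1, hq2⟩ := hT
  have hfree : ∀ L : List ℕ, ∃ a, (∀ y ∈ L, y ≠ a ∧ (B a y ↔ ∀ᶠ x in (U : Filter ℕ), B x y) ∧
      (B y a ↔ ∀ᶠ x in (U : Filter ℕ), B y x)) ∧
      ((B a a ↔ ∀ᶠ x in (U : Filter ℕ), B x x) ∧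
      ((∀ᶠ x in (U : Filter ℕ), B x a) ↔ ∀ᶠ a in (U : Filter ℕ), ∀ᶠ x in (U : Filter ℕ), B x a) ∧
      ((∀ᶠ x in (U : Filter ℕ), B a x) ↔
        ∀ᶠ a in (U : Filter ℕ), ∀ᶠ x in (U : Filter ℕ), B a x)) := by
    intro L
    have h1 : ∀ᶠ a in (U : Filter ℕ), ∀ y ∈ L.toFinset, y ≠ a ∧
        (B a y ↔ ∀ᶠ x in (U : Filter ℕ), B x y) ∧ (B y a ↔ ∀ᶠ x in (U : Filter ℕ), B y x) := by
      rw [Filter.eventually_all_finset]
      intro y _
      exact ((hne y).mono fun x hx => hx.symm).and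
        ((ultra_iff U (fun x => B x y)).and (ultra_iff U (fun x => B y x)))
    have h2 := ultra_iff U (fun x => B x x)
    have h3 := ultra_iff U (fun a => ∀ᶠ x in (U : Filter ℕ), B x a)
    have h4 := ultra_iff U (fun a => ∀ᶠ x in (U : Filter ℕ), B a x)
    obtain ⟨a, ha1, ha2, ha3, ha4⟩ := (h1.and (h2.and (h3.and h4))).exists
    exact ⟨a, fun y hy => ha1 y (List.mem_toFinset.2 hy), ha2, ha3, ha4⟩
  obtain ⟨v, hv | hv⟩ := split_of_not hns
  · exact Typ27.infinite_of_split E _ _ _ hq1 hq2 hB hfree v hv.1 hv.2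
  · refine infinite_flip (Typ27.infinite_of_split (fun x y => E y x)
      (∀ᶠ x in (U : Filter ℕ), B x x)
      (∀ᶠ a in (U : Filter ℕ), ∀ᶠ x in (U : Filter ℕ), B a x)
      (∀ᶠ a in (U : Filter ℕ), ∀ᶠ x in (U : Filter ℕ), B x a) hq2 hq1
      (isPres_flip hB) (fun L => ?_) v hv.1 hv.2)
    obtain ⟨a, ha1, ha2, ha3, ha4⟩ := hfree L
    exact ⟨a, fun y hy => ⟨(ha1 y hy).1, (ha1 y hy).2.2, (ha1 y hy).2.1⟩, ha2, ha4, ha3⟩

theorem noSplit_of_noSplitting {α : Type*} {E : α → α → Prop} (hE : NoSplitting E)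
    {B : ℕ → ℕ → Prop} (hB : IsPres E B) : NoSplit B := by
  obtain ⟨-, f, hf, hfE⟩ := hB
  intro z
  obtain ⟨a, rfl⟩ := hf.2 z
  obtain ⟨d1, d2, hd⟩ := hE a
  refine ⟨d1, d2, (hd.image f).subset ?_⟩
  intro x hx
  obtain ⟨b, rfl⟩ := hf.2 x
  refine ⟨b, ?_, rfl⟩
  intro h
  apply hx
  rw [← hfE, ← hfE]
  exact h

theorem type_of_stable {α : Type*} {E : α → α → Prop} (hE : StableRel E) {B : ℕ → ℕ → Prop}
    (hB : IsPres E B) : HasType B := by
  obtain ⟨U, h1, h2, h3, -⟩ := tame_of_stable hE hB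
  exact ⟨U, h1, h2, h3⟩

theorem type_of_free {α : Type*} {E : α → α → Prop} (hE : FreeElements E) {B : ℕ → ℕ → Prop}
    (hB : IsPres E B) : HasType B := by
  classical
  obtain ⟨c0, c1, c2, hfree⟩ := hE
  obtain ⟨-, f, hf, hfE⟩ := hB
  let e := Equiv.ofBijective f hf
  let S : Finset ℕ → Set ℕ := fun F => {a | a ∉ F ∧ ∀ y ∈ F, (B a y ↔ c1) ∧ (B y a ↔ c2)}
  have hS : ∀ F, (S F).Nonempty := by
    intro F
    obtain ⟨a, ha, -, haF⟩ := hfree (F.image e.symm)
    refine ⟨f a, ?_, fun y hy => ?_⟩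
    · intro h
      apply ha
      refine Finset.mem_image.2 ⟨f a, h, e.symm_apply_apply a⟩
    · have hy' : e.symm y ∈ F.image e.symm := Finset.mem_image_of_mem _ hy
      have hey : f (e.symm y) = y := e.apply_symm_apply y
      obtain ⟨h1, h2⟩ := haF _ hy'
      rw [hfE, hey] at h1 h2
      exact ⟨h1, h2⟩
  have hdir : Directed (· ≥ ·) (fun F : Finset ℕ => Filter.principal (S F)) := by
    intro F F'
    refine ⟨F ∪ F', ?_, ?_⟩
    · simp only [ge_iff_le, Filter.le_principal_iff, Filter.mem_principal]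
      intro a ha
      exact ⟨fun h => ha.1 (Finset.mem_union_left _ h),
        fun y hy => ha.2 y (Finset.mem_union_left _ hy)⟩
    · simp only [ge_iff_le, Filter.le_principal_iff, Filter.mem_principal]
      intro a ha
      exact ⟨fun h => ha.1 (Finset.mem_union_right _ h),
        fun y hy => ha.2 y (Finset.mem_union_right _ hy)⟩
  have hne : (⨅ F : Finset ℕ, Filter.principal (S F)).NeBot :=
    Filter.iInf_neBot_of_directed' hdir (fun F => Filter.principal_neBot_iff.2 (hS F))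
  let U : Ultrafilter ℕ := Ultrafilter.of (⨅ F : Finset ℕ, Filter.principal (S F))
  have hU : ∀ F, ∀ᶠ a in (U : Filter ℕ), a ∈ S F := by
    intro F
    have h1 : (U : Filter ℕ) ≤ ⨅ F : Finset ℕ, Filter.principal (S F) := Ultrafilter.of_le _
    have h2 : (U : Filter ℕ) ≤ Filter.principal (S F) := h1.trans (iInf_le _ F)
    exact h2 (Filter.mem_principal_self _)
  have hq1 : ∀ y, (∀ᶠ x in (U : Filter ℕ), B x y) ↔ c1 := by
    intro y
    have h1 : ∀ᶠ x in (U : Filter ℕ), (B x y ↔ c1) :=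
      (hU {y}).mono fun x hx => (hx.2 y (Finset.mem_singleton_self y)).1
    constructor
    · intro h
      obtain ⟨x, hx1, hx2⟩ := (h.and h1).exists
      exact hx2.1 hx1
    · intro h
      exact h1.mono fun x hx => hx.2 h
  have hq2 : ∀ y, (∀ᶠ x in (U : Filter ℕ), B y x) ↔ c2 := by
    intro y
    have h1 : ∀ᶠ x in (U : Filter ℕ), (B y x ↔ c2) :=
      (hU {y}).mono fun x hx => (hx.2 y (Finset.mem_singleton_self y)).2
    constructor
    · intro h
      obtain ⟨x, hx1, hx2⟩ := (h.and h1).exists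
      exact hx2.1 hx1
    · intro h
      exact h1.mono fun x hx => hx.2 h
  refine ⟨U, fun n => ?_, ?_, ?_⟩
  · exact (hU {n}).mono fun x hx h => hx.1 (by rw [h]; exact Finset.mem_singleton_self n)
  · exact (primrec_const_pred c1).of_eq fun y => (hq1 y).symm
  · exact (primrec_const_pred c2).of_eq fun y => (hq2 y).symm

end Fpr62
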