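import Pool.Agent.Lib.MP_36da60_lc.TameB62
import Pool.Agent.Lib.MP_36da60_lc.CompB25

/-!
# fpr-degrees of structures with a computable type in a computable presentation
-/

namespace Fpr62

open Filter

/-- `B` is a computable presentation of `(α, E)`. -/
def IsCompPres {α : Type*} (E : α → α → Prop) (B : ℕ → ℕ → Prop) : Prop :=
  ComputablePred (fun p : ℕ × ℕ => B p.1 p.2) ∧
    ∃ f : α → ℕ, Function.Bijective f ∧ ∀ x y, E x y ↔ B (f x) (f y)

/-- `(ℕ, B)` has a computable type: some nonprincipal ultrafilter `U` on `ℕ` for which the sets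
`{y | B x y for U-almost all x}` and `{y | B y x for U-almost all x}` are computable. -/
def HasCompType (B : ℕ → ℕ → Prop) : Prop :=
  ∃ U : Ultrafilter ℕ, (∀ n : ℕ, ∀ᶠ x in (U : Filter ℕ), x ≠ n) ∧
    ComputablePred (fun y => ∀ᶠ x in (U : Filter ℕ), B x y) ∧
    ComputablePred (fun y => ∀ᶠ x in (U : Filter ℕ), B y x)

theorem IsPres.comp {α : Type*} {E : α → α → Prop} {B : ℕ → ℕ → Prop} (hB : IsPres E B) :
    IsCompPres E B := by
  obtain ⟨⟨hd, hp⟩, h⟩ := hB
  exact ⟨⟨hd, hp.to_comp⟩, h⟩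

/-- **A computable type and a splitting element.** -/
theorem infinite_of_split_comp {α : Type*} (E : α → α → Prop) (c0 c1 c2 : Prop)
    {q1 q2 : ℕ → Bool} (hq1 : Computable q1) (hq2 : Computable q2) {b : ℕ → ℕ → Bool}
    (hb : Computable₂ b) {f : α → ℕ} (hf : Function.Bijective f)
    (hfb : ∀ x y, E x y ↔ b (f x) (f y) = true)
    (hgen : ∀ L : List ℕ, ∃ a, GenC c0 c1 c2 q1 q2 b L a)
    (a : α) (h1 : {x | E a x}.Infinite) (h2 : {x | ¬ E a x}.Infinite) :
    Infinite (Degrees E) := by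
  classical
  refine infinite_of_marked E Typ27.SFeat Typ27.sFeat_transfer ?_ ?_
  · rintro C ⟨hC, g, hg, hgi⟩
    refine ⟨g a, Typ27.exists_T hC (g a) ?_ ?_⟩
    · refine (h1.image (f := g) hg.1.injOn).mono ?_
      rintro _ ⟨x, hx, rfl⟩
      exact (hgi a x).1 hx
    · refine (h2.image (f := g) hg.1.injOn).mono ?_
      rintro _ ⟨x, hx, rfl⟩
      exact fun h => hx ((hgi a x).2 h)
  · intro G hG
    obtain ⟨B', g, idx, R, hRd, D1, D2, hB', hgb, hiso, hidx, -, hfast, hodd, heven, hslow⟩ :=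
      exists_delayed_comp c0 c1 c2 hq1 hq2 hb hgen G hG
    refine ⟨B', ⟨hB', fun x => g (f x), hgb.comp hf, fun x y => ?_⟩, ?_⟩
    · rw [hfb, hiso]
    intro v n hvn hfeat
    obtain ⟨⟨F, hF, hF'⟩, ⟨K, hK, hK'⟩⟩ := hfeat
    have hidxv : idx v ≤ 2 * v + 1 := by
      by_cases hv : R v
      · rw [hodd v hv]
        have := Nat.count_le (p := R) (n := v)
        omega
      · rw [heven v hv]; omega
    have key : ∀ S : Finset ℕ, (∀ x ∈ S, x < G n ∧ ¬ (B' v x ↔ D2 v)) →
        S.card < 2 * (n + 1) := by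
      intro S hS
      have e1 : (S.filter (fun x => R x)).card ≤ n := by
        have h6 := hslow n
        rw [Nat.count_eq_card_filter_range] at h6
        refine (Finset.card_le_card ?_).trans h6
        intro x hx
        obtain ⟨hx1, hx2⟩ := Finset.mem_filter.1 hx
        exact Finset.mem_filter.2 ⟨Finset.mem_range.2 (hS x hx1).1, hx2⟩
      have e2 : (S.filter (fun x => ¬ R x)).card ≤ v + 1 := by
        have e3 : ((S.filter (fun x => ¬ R x)).image (fun x => idx x / 2)).card ≤ v + 1 := by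
          refine (Finset.card_le_card ?_).trans (Finset.card_range (v + 1)).le
          intro z hz
          obtain ⟨x, hx, rfl⟩ := Finset.mem_image.1 hz
          obtain ⟨hx1, hx2⟩ := Finset.mem_filter.1 hx
          rw [Finset.mem_range]
          by_contra hcon
          have h4 : idx v < idx x := by omega
          exact (hS x hx1).2 ((hfast x v hx2 h4).2)
        rwa [Finset.card_image_of_injOn] at e3
        intro x hx y hy hxy
        have hx2 := (Finset.mem_filter.1 (Finset.mem_coe.1 hx)).2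
        have hy2 := (Finset.mem_filter.1 (Finset.mem_coe.1 hy)).2
        have h3 := heven x hx2
        have h4 := heven y hy2
        have h5 : idx x / 2 = idx y / 2 := hxy
        exact hidx.1 (by omega)
      have e4 := Finset.card_filter_add_card_filter_not (s := S) (fun x => R x)
      omega
    by_cases hd : D2 v
    · have := key K (fun x hx => ⟨(hK' x hx).1, fun hc => (hK' x hx).2 (hc.2 hd)⟩)
      omega
    · have := key F (fun x hx => ⟨(hF' x hx).1, fun hc => hd (hc.1 (hF' x hx).2)⟩)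
      omega

/-- a Boolean test for a computable predicate -/
theorem exists_bool_comp {β : Type*} [Primcodable β] {p : β → Prop} (hp : ComputablePred p) :
    ∃ q : β → Bool, Computable q ∧ ∀ x, q x = true ↔ p x := by
  obtain ⟨q, hq, rfl⟩ := ComputablePred.computable_iff.1 hp
  exact ⟨q, hq, fun x => Iff.rfl⟩

/-- **Computable types.**  A structure with one binary relation which has a computable type in some
computable presentation has an fpr presentation, and is fpr-categorical or has infinitely many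
fpr-degrees. -/
theorem dichotomy_of_compType {α : Type*} {E : α → α → Prop} {B : ℕ → ℕ → Prop}
    (hB : IsCompPres E B) (hT : HasCompType B) :
    (∃ C, IsPres E C) ∧ (FprCategorical E ∨ Infinite (Degrees E)) := by
  classical
  obtain ⟨hBc, f, hf, hfE⟩ := hB
  obtain ⟨U, hne, hq1, hq2⟩ := hT
  obtain ⟨b0, hb0, hb0B⟩ := exists_bool_comp hBc
  obtain ⟨r1, hr1, hr1q⟩ := exists_bool_comp hq1
  obtain ⟨r2, hr2, hr2q⟩ := exists_bool_comp hq2
  let b : ℕ → ℕ → Bool := fun x y => b0 (x, y)
  have hb : Computable₂ b := hb0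
  have hbB : ∀ x y, b x y = true ↔ B x y := fun x y => hb0B (x, y)
  let b' : ℕ → ℕ → Bool := fun x y => b y x
  have hb' : Computable₂ b' := hb.comp Computable.snd Computable.fst
  have hgen0 : ∀ L : List ℕ, ∃ a, (∀ y ∈ L, y ≠ a ∧ b a y = r1 y ∧ b y a = r2 y) ∧
      (b a a = true ↔ ∀ᶠ x in (U : Filter ℕ), B x x) ∧
      (r1 a = true ↔ ∀ᶠ a in (U : Filter ℕ), ∀ᶠ x in (U : Filter ℕ), B x a) ∧
      (r2 a = true ↔ ∀ᶠ a in (U : Filter ℕ), ∀ᶠ x in (U : Filter ℕ), B a x) := by
    intro L
    have h1 : ∀ᶠ a in (U : Filter ℕ), ∀ y ∈ L.toFinset, y ≠ a ∧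
        (B a y ↔ ∀ᶠ x in (U : Filter ℕ), B x y) ∧ (B y a ↔ ∀ᶠ x in (U : Filter ℕ), B y x) := by
      rw [Filter.eventually_all_finset]
      intro y _
      exact ((hne y).mono fun x hx => hx.symm).and
        ((ultra_iff U (fun x => B x y)).and (ultra_iff U (fun x => B y x)))
    have h2 := ultra_iff U (fun x => B x x)
    have h3 := ultra_iff U (fun a => ∀ᶠ x in (U : Filter ℕ), B x a)
    have h4 := ultra_iff U (fun a => ∀ᶠ x in (U : Filter ℕ), B a x)
    obtain ⟨a, ha1, ha2, ha3, ha4⟩ := (h1.and (h2.and (h3.and h4))).exists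
    refine ⟨a, fun y hy => ?_, ?_, ?_, ?_⟩
    · obtain ⟨e1, e2, e3⟩ := ha1 y (List.mem_toFinset.2 hy)
      refine ⟨e1, ?_, ?_⟩
      · rw [Bool.eq_iff_iff, hbB, hr1q]; exact e2
      · rw [Bool.eq_iff_iff, hbB, hr2q]; exact e3
    · rw [hbB]; exact ha2
    · rw [hr1q]; exact ha3
    · rw [hr2q]; exact ha4
  have hgen : ∀ L : List ℕ, ∃ a, GenC (∀ᶠ x in (U : Filter ℕ), B x x)
      (∀ᶠ a in (U : Filter ℕ), ∀ᶠ x in (U : Filter ℕ), B x a)
      (∀ᶠ a in (U : Filter ℕ), ∀ᶠ x in (U : Filter ℕ), B a x) r1 r2 b L a := hgen0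
  have hgen' : ∀ L : List ℕ, ∃ a, GenC (∀ᶠ x in (U : Filter ℕ), B x x)
      (∀ᶠ a in (U : Filter ℕ), ∀ᶠ x in (U : Filter ℕ), B a x)
      (∀ᶠ a in (U : Filter ℕ), ∀ᶠ x in (U : Filter ℕ), B x a) r2 r1 b' L a := by
    intro L
    obtain ⟨a, ha1, ha2, ha3, ha4⟩ := hgen0 L
    exact ⟨a, fun y hy => ⟨(ha1 y hy).1, (ha1 y hy).2.2, (ha1 y hy).2.1⟩, ha2, ha4, ha3⟩
  have hfb : ∀ x y, E x y ↔ b (f x) (f y) = true := fun x y => by rw [hbB, hfE]
  -- an fpr presentation
  have hex : ∃ C, IsPres E C := by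
    obtain ⟨B', g, idx, R, hRd, D1, D2, hB', hgb, hiso, -⟩ :=
      exists_delayed_comp _ _ _ hr1 hr2 hb hgen (fun _ => 0) (Computable.const 0)
    exact ⟨B', hB', fun x => g (f x), hgb.comp hf, fun x y => by rw [hfb, hiso]⟩
  refine ⟨hex, ?_⟩
  obtain ⟨C, hC⟩ := hex
  by_cases hns : NoSplit C
  · exact noSplit_dichotomy hC hns
  right
  obtain ⟨v, hv⟩ := split_of_not hns
  obtain ⟨-, g, hg, hgE⟩ := id hC
  obtain ⟨a, rfl⟩ := hg.2 v
  have himg : ∀ p : ℕ → Prop, {x | p x}.Infinite → {x | p (g x)}.Infinite := by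
    intro p hp
    have h1 : {x | p (g x)} = g ⁻¹' {x | p x} := rfl
    rw [h1]
    exact hp.preimage (fun y _ => hg.2 y)
  rcases hv with hv | hv
  · refine infinite_of_split_comp E _ _ _ hr1 hr2 hb hf hfb hgen a ?_ ?_
    · refine (himg (fun y => C (g a) y) hv.1).mono fun x hx => ?_
      exact (hgE a x).2 hx
    · refine (himg (fun y => ¬ C (g a) y) hv.2).mono fun x hx => ?_
      exact fun h => hx ((hgE a x).1 h)
  · refine infinite_flip (infinite_of_split_comp (fun x y => E y x) _ _ _ hr2 hr1 hb' hf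
      (fun x y => hfb y x) hgen' a ?_ ?_)
    · refine (himg (fun y => C y (g a)) hv.1).mono fun x hx => ?_
      exact (hgE x a).2 hx
    · refine (himg (fun y => ¬ C y (g a)) hv.2).mono fun x hx => ?_
      exact fun h => hx ((hgE x a).1 h)

/-! ## stable relations in computable presentations -/

theorem comp_vote {B : ℕ → ℕ → Prop} (hB : ComputablePred (fun p : ℕ × ℕ => B p.1 p.2))
    (a : ℕ → ℕ) (n : ℕ) :
    ∃ f : ℕ → ℕ, Computable f ∧ ∀ (y : ℕ) [DecidablePred fun i => B (a i) y],
      f y = ((Finset.range n).filter fun i => B (a i) y).card := by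
  classical
  obtain ⟨b, hb, hbB⟩ := exists_bool_comp hB
  induction n with
  | zero => exact ⟨fun _ => 0, Computable.const 0, fun y _ => by simp⟩
  | succ n ih =>
    obtain ⟨f, hf, hfy⟩ := ih
    have hp : Computable (fun y : ℕ => b (a n, y)) :=
      hb.comp ((Computable.const (a n)).pair Computable.id)
    refine ⟨fun y => f y + cond (b (a n, y)) 1 0,
      Primrec.nat_add.to_comp.comp hf (Computable.cond hp (Computable.const 1)
        (Computable.const 0)), fun y _ => ?_⟩
    rw [Finset.range_add_one, Finset.filter_insert]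
    beta_reduce
    by_cases h : B (a n) y
    · have h' : b (a n, y) = true := (hbB (a n, y)).2 h
      rw [if_pos h, h', Finset.card_insert_of_notMem (by simp), hfy y]
      rfl
    · have h' : b (a n, y) = false := by
        rw [← Bool.not_eq_true]
        exact fun hh => h ((hbB (a n, y)).1 hh)
      rw [if_neg h, h', hfy y]
      rfl

theorem comp_type {B : ℕ → ℕ → Prop} (hB : ComputablePred (fun p : ℕ × ℕ => B p.1 p.2))
    (U : Ultrafilter ℕ) {k : ℕ} (hk : ¬ HalfGraph B k) :
    ComputablePred (fun y => ∀ᶠ x in (U : Filter ℕ), B x y) := by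
  classical
  obtain ⟨a, ha⟩ := type_iff_majority U B (k + 1) (no_gt' hk) (no_le hk)
  obtain ⟨f, hf, hfy⟩ := comp_vote hB a (2 * (k + 1))
  have h1 : Computable (fun y => decide (k + 1 ≤ f y)) :=
    (Primrec.nat_le.decide.to_comp).comp (Computable.const _) hf
  refine ComputablePred.computable_iff.2 ⟨_, h1, ?_⟩
  funext y
  have h2 := ha y
  rw [hfy y, decide_eq_true_eq]
  exact propext h2

theorem compType_of_stable {α : Type*} {E : α → α → Prop} (hE : StableRel E)
    {B : ℕ → ℕ → Prop} (hB : IsCompPres E B) : HasCompType B := by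
  classical
  obtain ⟨k, hk⟩ := hE
  have hkB : ¬ HalfGraph B k := by
    rintro ⟨a, b, hab⟩
    obtain ⟨-, f, hf, hfE⟩ := hB
    apply hk
    let e := Equiv.ofBijective f hf
    have he : ∀ x, f (e.symm x) = x := fun x => e.apply_symm_apply x
    refine ⟨fun i => e.symm (a i), fun j => e.symm (b j), fun i hi j hj => ?_⟩
    rw [hfE, he, he]
    exact hab i hi j hj
  have hBf : ComputablePred (fun p : ℕ × ℕ => B p.2 p.1) := by
    obtain ⟨b, hb, hbB⟩ := exists_bool_comp hB.1
    refine ComputablePred.computable_iff.2 ⟨fun p => b (p.2, p.1),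
      hb.comp (Computable.snd.pair Computable.fst), ?_⟩
    funext p
    exact propext (hbB (p.2, p.1)).symm
  refine ⟨Filter.hyperfilter ℕ, fun n => ?_, comp_type hB.1 _ hkB,
    comp_type (B := fun x y => B y x) hBf _ (flip_half hkB)⟩
  exact (Filter.eventually_cofinite_ne n).filter_mono (Filter.hyperfilter_le_cofinite (α := ℕ))

theorem compType_of_free {α : Type*} {E : α → α → Prop} (hE : FreeElements E)
    {B : ℕ → ℕ → Prop} (hB : IsCompPres E B) : HasCompType B := by
  classical
  obtain ⟨c0, c1, c2, hfree⟩ := hE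
  obtain ⟨-, f, hf, hfE⟩ := hB
  let e := Equiv.ofBijective f hf
  let S : Finset ℕ → Set ℕ := fun F => {a | a ∉ F ∧ ∀ y ∈ F, (B a y ↔ c1) ∧ (B y a ↔ c2)}
  have hS : ∀ F, (S F).Nonempty := by
    intro F
    obtain ⟨a, ha, -, haF⟩ := hfree (F.image e.symm)
    refine ⟨f a, ?_, fun y hy => ?_⟩
    · intro h
      apply ha
      refine Finset.mem_image.2 ⟨f a, h, e.symm_apply_apply a⟩
    · have hy' : e.symm y ∈ F.image e.symm := Finset.mem_image_of_mem _ hy
      have hey : f (e.symm y) = y := e.apply_symm_apply y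
      obtain ⟨h1, h2⟩ := haF _ hy'
      rw [hfE, hey] at h1 h2
      exact ⟨h1, h2⟩
  have hdir : Directed (· ≥ ·) (fun F : Finset ℕ => Filter.principal (S F)) := by
    intro F F'
    refine ⟨F ∪ F', ?_, ?_⟩
    · simp only [ge_iff_le, Filter.le_principal_iff, Filter.mem_principal]
      intro a ha
      exact ⟨fun h => ha.1 (Finset.mem_union_left _ h),
        fun y hy => ha.2 y (Finset.mem_union_left _ hy)⟩
    · simp only [ge_iff_le, Filter.le_principal_iff, Filter.mem_principal]
      intro a ha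
      exact ⟨fun h => ha.1 (Finset.mem_union_right _ h),
        fun y hy => ha.2 y (Finset.mem_union_right _ hy)⟩
  have hne : (⨅ F : Finset ℕ, Filter.principal (S F)).NeBot :=
    Filter.iInf_neBot_of_directed' hdir (fun F => Filter.principal_neBot_iff.2 (hS F))
  let U : Ultrafilter ℕ := Ultrafilter.of (⨅ F : Finset ℕ, Filter.principal (S F))
  have hU : ∀ F, ∀ᶠ a in (U : Filter ℕ), a ∈ S F := by
    intro F
    have h1 : (U : Filter ℕ) ≤ ⨅ F : Finset ℕ, Filter.principal (S F) := Ultrafilter.of_le _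
    have h2 : (U : Filter ℕ) ≤ Filter.principal (S F) := h1.trans (iInf_le _ F)
    exact h2 (Filter.mem_principal_self _)
  have hq1 : ∀ y, (∀ᶠ x in (U : Filter ℕ), B x y) ↔ c1 := by
    intro y
    have h1 : ∀ᶠ x in (U : Filter ℕ), (B x y ↔ c1) :=
      (hU {y}).mono fun x hx => (hx.2 y (Finset.mem_singleton_self y)).1
    constructor
    · intro h
      obtain ⟨x, hx1, hx2⟩ := (h.and h1).exists
      exact hx2.1 hx1
    · intro h
      exact h1.mono fun x hx => hx.2 h
  have hq2 : ∀ y, (∀ᶠ x in (U : Filter ℕ), B y x) ↔ c2 := by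
    intro y
    have h1 : ∀ᶠ x in (U : Filter ℕ), (B y x ↔ c2) :=
      (hU {y}).mono fun x hx => (hx.2 y (Finset.mem_singleton_self y)).2
    constructor
    · intro h
      obtain ⟨x, hx1, hx2⟩ := (h.and h1).exists
      exact hx2.1 hx1
    · intro h
      exact h1.mono fun x hx => hx.2 h
  have hcp : ∀ c : Prop, ComputablePred (fun _ : ℕ => c) := fun c =>
    ⟨fun _ => Classical.propDecidable c, Computable.const _⟩
  refine ⟨U, fun n => ?_, ?_, ?_⟩
  · exact (hU {n}).mono fun x hx h => hx.1 (by rw [h]; exact Finset.mem_singleton_self n)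
  · have h1 : (fun y => ∀ᶠ x in (U : Filter ℕ), B x y) = fun _ => c1 :=
      funext fun y => propext (hq1 y)
    rw [h1]; exact hcp c1
  · have h1 : (fun y => ∀ᶠ x in (U : Filter ℕ), B y x) = fun _ => c2 :=
      funext fun y => propext (hq2 y)
    rw [h1]; exact hcp c2

end Fpr62
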