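import Pool.Agent.Lib.MP_36da60_lc.Delay27

set_option autoImplicit false

namespace Pool.Agent.MP_36da60_lc

variable {k : ℕ} {ar : Fin k → ℕ}

/-- Total decoding of tuples. -/
def dec (r : ℕ) (w : ℕ) : Fin r → ℕ :=
  (@Encodable.decode (Fin r → ℕ) Primcodable.toEncodable w).getD (fun _ => 0)

theorem dec_prim (r : ℕ) : Primrec (dec r) :=
  Primrec.option_getD.comp Primrec.decode (Primrec.const _)

theorem dec_encode {r : ℕ} (v : Fin r → ℕ) :
    dec r (@Encodable.encode (Fin r → ℕ) Primcodable.toEncodable v) = v := by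
  unfold dec
  rw [@Encodable.encodek (Fin r → ℕ) Primcodable.toEncodable v]
  rfl

/-- `w` witnesses that the transposition of `y` and `z` is not an automorphism. -/
def Wit (B : Str ar ℕ) (w : ℕ) (p : ℕ × (ℕ × ℕ)) : Prop :=
  ∃ i ∈ List.finRange k, ¬ (B i (dec (ar i) w) ↔ B i (Equiv.swap p.2.1 p.1 ∘ dec (ar i) w))

theorem wit_prim {B : Str ar ℕ} (hB : IsFpr B) : PrimrecRel (Wit B) := by
  have h : ∀ i : Fin k, PrimrecPred (fun q : ℕ × (ℕ × (ℕ × ℕ)) =>
      ¬ (B i (dec (ar i) q.1) ↔ B i (Equiv.swap q.2.2.1 q.2.1 ∘ dec (ar i) q.1))) := by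
    intro i
    have h1 : PrimrecPred (fun q : ℕ × (ℕ × (ℕ × ℕ)) => B i (dec (ar i) q.1)) :=
      (hB i).comp ((dec_prim (ar i)).comp Primrec.fst)
    have h2 : Primrec (fun q : ℕ × (ℕ × (ℕ × ℕ)) =>
        (Equiv.swap q.2.2.1 q.2.1 ∘ dec (ar i) q.1 : Fin (ar i) → ℕ)) := by
      have h3 : Primrec₂ (fun (a : Fin (ar i)) (q : ℕ × (ℕ × (ℕ × ℕ))) =>
          Equiv.swap q.2.2.1 q.2.1 (dec (ar i) q.1 a)) := by
        refine Primrec.fin_curry₁.2 fun a => ?_
        have hv : Primrec (fun q : ℕ × (ℕ × (ℕ × ℕ)) => dec (ar i) q.1 a) :=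
          (ev_prim a).comp ((dec_prim (ar i)).comp Primrec.fst)
        have hy : Primrec (fun q : ℕ × (ℕ × (ℕ × ℕ)) => q.2.2.1) :=
          Primrec.fst.comp (Primrec.snd.comp Primrec.snd)
        have hz : Primrec (fun q : ℕ × (ℕ × (ℕ × ℕ)) => q.2.1) :=
          Primrec.fst.comp Primrec.snd
        refine (Primrec.ite (Primrec.eq.comp hv hy) hz
          (Primrec.ite (Primrec.eq.comp hv hz) hy hv)).of_eq ?_
        intro q
        exact (Equiv.swap_apply_def _ _ _).symm
      exact Primrec.fin_curry.2 h3.swap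
    have h4 : PrimrecPred (fun q : ℕ × (ℕ × (ℕ × ℕ)) =>
        B i (Equiv.swap q.2.2.1 q.2.1 ∘ dec (ar i) q.1)) := (hB i).comp h2
    have h5 := ((h1.and h4).or (h1.not.and h4.not)).not
    refine h5.of_eq ?_
    intro q
    tauto
  exact pp_exists_list _ h (List.finRange k)

/-- The elements that are not interchangeable with `y`. -/
def NonT (B : Str ar ℕ) (y : ℕ) : Set ℕ :=
  {z | ¬ ∀ (i : Fin k) (v : Fin (ar i) → ℕ), B i v ↔ B i (Equiv.swap y z ∘ v)}

theorem wit_sound {B : Str ar ℕ} {w y z s : ℕ} (h : Wit B w (z, (y, s))) : z ∈ NonT B y := by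
  obtain ⟨i, _, hi⟩ := h
  intro hall
  exact hi (hall i _)

theorem wit_complete {B : Str ar ℕ} {y z : ℕ} (h : z ∈ NonT B y) : ∃ w, ∀ s, Wit B w (z, (y, s)) := by
  have h' : ∃ (i : Fin k) (v : Fin (ar i) → ℕ), ¬ (B i v ↔ B i (Equiv.swap y z ∘ v)) := by
    by_contra hc
    apply h
    intro i v
    by_contra hiv
    exact hc ⟨i, v, hiv⟩
  obtain ⟨i, v, hiv⟩ := h'
  refine ⟨@Encodable.encode (Fin (ar i) → ℕ) Primcodable.toEncodable v, fun s => ⟨i, List.mem_finRange i, ?_⟩⟩
  simp only [dec_encode]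
  exact hiv

theorem exists_P {B : Str ar ℕ} (hB : IsFpr B) (hco : ∀ y, (NonT B y).Infinite) :
    ∃ P : ℕ → ℕ → Prop, PrimrecRel P ∧ (∀ n, ∃ s, P n s) ∧
      (∀ n s, P n s → ∀ y ≤ n, ∃ F : Finset ℕ, n + 2 ≤ F.card ∧
        ∀ z ∈ F, z < s ∧ z ∈ NonT B y) := by
  classical
  let R1 : ℕ → ℕ × ℕ → Prop := fun z p => ∃ w < p.2, Wit B w (z, p)
  have hR1 : PrimrecRel R1 :=
    pp_exists_lt (wit_prim hB) (Primrec.snd.comp Primrec.snd)
  let cnt : ℕ × ℕ → ℕ := fun p => ((List.range p.2).filter (fun z => R1 z p)).length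
  have hcnt : Primrec cnt := by
    have h1 := hR1.listFilter
    exact Primrec.list_length.comp (h1.comp (Primrec.list_range.comp Primrec.snd) Primrec.id)
  have hR2 : PrimrecRel (fun (y : ℕ) (q : ℕ × ℕ) => q.1 + 2 ≤ cnt (y, q.2)) := by
    refine Primrec.nat_le.comp ?_ ?_
    · exact Primrec.nat_add.comp (Primrec.fst.comp Primrec.snd) (Primrec.const 2)
    · exact hcnt.comp (Primrec.fst.pair (Primrec.snd.comp Primrec.snd))
  refine ⟨fun n s => ∀ y < n + 1, n + 2 ≤ cnt (y, s), ?_, ?_, ?_⟩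
  · exact pp_forall_lt hR2 (Primrec.succ.comp Primrec.fst)
  · intro n
    have h1 : ∀ y, ∃ s0, ∀ s, s0 ≤ s → n + 2 ≤ cnt (y, s) := by
      intro y
      obtain ⟨F, hF1, hF2⟩ := (hco y).exists_subset_card_eq (n + 2)
      have h2 : ∀ z ∈ F, ∃ w, ∀ s, Wit B w (z, (y, s)) := fun z hz =>
        wit_complete (hF1 (Finset.mem_coe.2 hz))
      choose! g hg using h2
      refine ⟨F.sup (fun z => z + g z + 1), fun s hs => ?_⟩
      have h3 : F ⊆ ((List.range s).filter (fun z => R1 z (y, s))).toFinset := by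
        intro z hz
        have h4 : z + g z + 1 ≤ s := le_trans (Finset.le_sup (f := fun z => z + g z + 1) hz) hs
        rw [List.mem_toFinset, List.mem_filter]
        refine ⟨List.mem_range.2 (by omega), ?_⟩
        rw [decide_eq_true_eq]
        exact ⟨g z, by show g z < s; omega, hg z hz s⟩
      calc n + 2 = F.card := hF2.symm
        _ ≤ _ := Finset.card_le_card h3
        _ ≤ _ := List.toFinset_card_le _
    choose g hg using h1
    refine ⟨(Finset.range (n + 1)).sup g, fun y hy => hg y _ ?_⟩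
    exact Finset.le_sup (f := g) (Finset.mem_range.2 hy)
  · intro n s h y hy
    refine ⟨((List.range s).filter (fun z => R1 z (y, s))).toFinset, ?_, ?_⟩
    · have h1 := h y (by omega)
      have h2 : (((List.range s).filter (fun z => R1 z (y, s))).toFinset).card =
          ((List.range s).filter (fun z => R1 z (y, s))).length := by
        apply List.toFinset_card_of_nodup
        exact List.nodup_range.filter _
      rw [h2]
      exact h1
    · intro z hz
      rw [List.mem_toFinset, List.mem_filter] at hz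
      refine ⟨List.mem_range.1 hz.1, ?_⟩
      have h3 := hz.2
      rw [decide_eq_true_eq] at h3
      obtain ⟨w, _, hw⟩ := h3
      exact wit_sound hw

end Pool.Agent.MP_36da60_lc
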