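import Pool.Agent.Lib.MP_36da60_lc.DomB62

/-!
# fpr-degrees: binary structures with a primitive recursive type (I): the listing
-/

set_option autoImplicit false

namespace Typ27

open Fpr62 Nat.Partrec

theorem pp_const {β : Type*} [Primcodable β] (c : Prop) : PrimrecPred (fun _ : β => c) := by
  classical
  by_cases hc : c
  · exact ⟨inferInstance, (Primrec.const true).of_eq (by simp [hc])⟩
  · exact ⟨inferInstance, (Primrec.const false).of_eq (by simp [hc])⟩

theorem pp_iff {β : Type*} [Primcodable β] {p q : β → Prop} (hp : PrimrecPred p)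
    (hq : PrimrecPred q) : PrimrecPred (fun b => (p b ↔ q b)) := by
  refine ((hp.and hq).or (hp.not.and hq.not)).of_eq ?_
  intro b
  tauto

/-- `a` is generic over the list `L` for the type `D1, D2` with constants `c0, c1, c2`. -/
def Gen (c0 c1 c2 : Prop) (D1 D2 : ℕ → Prop) (B : ℕ → ℕ → Prop) (L : List ℕ) (a : ℕ) : Prop :=
  (∀ y ∈ L, y ≠ a ∧ (B a y ↔ D1 y) ∧ (B y a ↔ D2 y)) ∧
    ((B a a ↔ c0) ∧ (D1 a ↔ c1) ∧ (D2 a ↔ c2))

theorem primrec_Gen (c0 c1 c2 : Prop) {D1 D2 : ℕ → Prop} (h1 : PrimrecPred D1)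
    (h2 : PrimrecPred D2) {B : ℕ → ℕ → Prop} (hB : PrimrecRel B) :
    PrimrecRel (Gen c0 c1 c2 D1 D2 B) := by
  have e1 : PrimrecRel (fun y a : ℕ => y ≠ a ∧ (B a y ↔ D1 y) ∧ (B y a ↔ D2 y)) := by
    refine PrimrecPred.and ?_ (PrimrecPred.and ?_ ?_)
    · exact PrimrecPred.not (Primrec.eq.comp Primrec.fst Primrec.snd)
    · exact pp_iff (hB.comp Primrec.snd Primrec.fst) (h1.comp Primrec.fst)
    · exact pp_iff (hB.comp Primrec.fst Primrec.snd) (h2.comp Primrec.fst)
  have e2 : PrimrecRel (fun (L : List ℕ) (a : ℕ) =>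
      ∀ y ∈ L, y ≠ a ∧ (B a y ↔ D1 y) ∧ (B y a ↔ D2 y)) := PrimrecRel.forall_mem_list e1
  have e3 : PrimrecRel (fun (_ : List ℕ) (a : ℕ) =>
      ((B a a ↔ c0) ∧ (D1 a ↔ c1) ∧ (D2 a ↔ c2))) := by
    refine PrimrecPred.and ?_ (PrimrecPred.and ?_ ?_)
    · exact pp_iff (hB.comp Primrec.snd Primrec.snd) (pp_const c0)
    · exact pp_iff (h1.comp Primrec.snd) (pp_const c1)
    · exact pp_iff (h2.comp Primrec.snd) (pp_const c2)
  exact PrimrecPred.and e2 e3

/-- generic elements can be found by a computable function -/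
def Find (c0 c1 c2 : Prop) (D1 D2 : ℕ → Prop) (B : ℕ → ℕ → Prop) : Prop :=
  ∃ s1 : List ℕ → ℕ, Computable s1 ∧ ∀ L, Gen c0 c1 c2 D1 D2 B L (s1 L)

theorem find_of_primrec (c0 c1 c2 : Prop) {D1 D2 : ℕ → Prop} (h1D : PrimrecPred D1)
    (h2D : PrimrecPred D2) {B : ℕ → ℕ → Prop} (hB : PrimrecRel B)
    (hfree : ∀ L : List ℕ, ∃ a, Gen c0 c1 c2 D1 D2 B L a) : Find c0 c1 c2 D1 D2 B := by
  obtain ⟨s1, hs1, hs1P, -⟩ := computable_find (primrec_Gen c0 c1 c2 h1D h2D hB) hfree
  exact ⟨s1, hs1, hs1P⟩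

/-- a stage at which the code `d` has answered on `y` -/
theorem val_sound {d : Code} {D : ℕ → Prop} (g : ℕ → ℕ) (hg : ∀ y, g y = 1 ↔ D y)
    (hg' : ∀ y, g y ≤ 1)
    (hd : ∀ z, Code.eval d z = Part.some (g z)) {k y : ℕ} (hk : 1 ≤ k) :
    (val d k y = 1 → D y) ∧ (val d k y = 0 → ¬ D y) := by
  unfold val
  cases h : Code.evaln k d y with
  | none => simp; omega
  | some v =>
    have h3 := Code.evaln_sound (show v ∈ Code.evaln k d y from h)
    rw [hd] at h3
    have h4 : v = g y := by simpa using h3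
    simp only [Option.getD_some]
    rw [h4, ← hg]
    exact ⟨fun h => h, fun h => by omega⟩

theorem val_complete {d : Code} (g : ℕ → ℕ) (hd : ∀ z, Code.eval d z = Part.some (g z)) (y : ℕ) :
    ∃ k0, ∀ k, k0 ≤ k → val d k y = g y := by
  have h1 : g y ∈ Code.eval d y := by rw [hd]; exact Part.mem_some _
  obtain ⟨k0, hk0⟩ := Code.evaln_complete.1 h1
  refine ⟨k0, fun k hk => ?_⟩
  have h2 := Code.evaln_mono hk hk0
  have h3 : Code.evaln k d y = some (g y) := h2
  unfold val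
  rw [h3]
  rfl

theorem exists_code_pred {D : ℕ → Prop} (hD : ComputablePred D) :
    ∃ (d : Code) (g : ℕ → ℕ), (∀ y, g y = 1 ↔ D y) ∧ (∀ y, g y ≤ 1) ∧
      ∀ z, Code.eval d z = Part.some (g z) := by
  classical
  obtain ⟨hdec, hc⟩ := hD
  have h1 : Computable (fun y : ℕ => cond (decide (D y)) 1 0) :=
    Computable.cond hc (Computable.const 1) (Computable.const 0)
  obtain ⟨d, hd⟩ := Code.exists_code.1 (Partrec.nat_iff.1 h1)
  refine ⟨d, fun y => cond (decide (D y)) 1 0, ?_, ?_, ?_⟩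
  · intro y
    by_cases h : D y <;> simp [h]
  · intro y
    by_cases h : D y <;> simp [h]
  · intro z; rw [hd]; rfl

/-- **Computable types.** -/
theorem find_of_computable (c0 c1 c2 : Prop) {D1 D2 : ℕ → Prop} (h1D : ComputablePred D1)
    (h2D : ComputablePred D2) {B : ℕ → ℕ → Prop} (hB : PrimrecRel B)
    (hfree : ∀ L : List ℕ, ∃ a, Gen c0 c1 c2 D1 D2 B L a) : Find c0 c1 c2 D1 D2 B := by
  classical
  obtain ⟨d1, g1, hg1, hg1', hd1⟩ := exists_code_pred h1D
  obtain ⟨d2, g2, hg2, hg2', hd2⟩ := exists_code_pred h2D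
  -- the answer of the code agrees with a truth value
  let Ag : Code → ℕ → ℕ → Prop → Prop := fun d k y t => (val d k y = 1 ∧ t) ∨ (val d k y = 0 ∧ ¬ t)
  let P : List ℕ → ℕ → Prop := fun L z =>
    (∀ y ∈ L, y ≠ z.unpair.1 ∧ Ag d1 z.unpair.2 y (B z.unpair.1 y) ∧
      Ag d2 z.unpair.2 y (B y z.unpair.1)) ∧
    (1 ≤ z.unpair.2 ∧ (B z.unpair.1 z.unpair.1 ↔ c0) ∧ Ag d1 z.unpair.2 z.unpair.1 c1 ∧
      Ag d2 z.unpair.2 z.unpair.1 c2)
  have hAg : ∀ {β : Type} [Primcodable β] (d : Code) {k y : β → ℕ} {t : β → Prop},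
      Primrec k → Primrec y → PrimrecPred t → PrimrecPred (fun b => Ag d (k b) (y b) (t b)) := by
    intro β _ d k y t hk hy ht
    refine PrimrecPred.or (PrimrecPred.and ?_ ht) (PrimrecPred.and ?_ ht.not)
    · exact Primrec.eq.comp ((primrec_val d).comp hk hy) (Primrec.const 1)
    · exact Primrec.eq.comp ((primrec_val d).comp hk hy) (Primrec.const 0)
  have u1 : Primrec (fun p : ℕ × ℕ => p.2.unpair.1) :=
    Primrec.fst.comp (Primrec.unpair.comp Primrec.snd)
  have u2 : Primrec (fun p : ℕ × ℕ => p.2.unpair.2) :=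
    Primrec.snd.comp (Primrec.unpair.comp Primrec.snd)
  have v1 : Primrec (fun p : List ℕ × ℕ => p.2.unpair.1) :=
    Primrec.fst.comp (Primrec.unpair.comp Primrec.snd)
  have v2 : Primrec (fun p : List ℕ × ℕ => p.2.unpair.2) :=
    Primrec.snd.comp (Primrec.unpair.comp Primrec.snd)
  have e1 : PrimrecRel (fun y z : ℕ => y ≠ z.unpair.1 ∧ Ag d1 z.unpair.2 y (B z.unpair.1 y) ∧
      Ag d2 z.unpair.2 y (B y z.unpair.1)) := by
    refine PrimrecPred.and ?_ (PrimrecPred.and ?_ ?_)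
    · exact PrimrecPred.not (Primrec.eq.comp Primrec.fst u1)
    · exact hAg d1 u2 Primrec.fst (hB.comp u1 Primrec.fst)
    · exact hAg d2 u2 Primrec.fst (hB.comp Primrec.fst u1)
  have e2 : PrimrecRel P := by
    refine PrimrecPred.and (PrimrecRel.forall_mem_list e1) ?_
    refine PrimrecPred.and ?_ (PrimrecPred.and ?_ (PrimrecPred.and ?_ ?_))
    · exact Primrec.nat_le.comp (Primrec.const 1) v2
    · exact pp_iff (hB.comp v1 v1) (pp_const c0)
    · exact hAg d1 v2 v1 (pp_const c1)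
    · exact hAg d2 v2 v1 (pp_const c2)
  have hex : ∀ L, ∃ z, P L z := by
    intro L
    obtain ⟨a, haL, ha0, ha1, ha2⟩ := hfree L
    choose k1 hk1 using val_complete g1 hd1
    choose k2 hk2 using val_complete g2 hd2
    -- a common stage
    have hst : ∀ M : List ℕ, ∃ K, ∀ y ∈ M, k1 y ≤ K ∧ k2 y ≤ K := by
      intro M
      induction M with
      | nil => exact ⟨0, by simp⟩
      | cons x M ih =>
        obtain ⟨K, hK⟩ := ih
        refine ⟨K + k1 x + k2 x, ?_⟩
        intro y hy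
        rcases List.mem_cons.1 hy with rfl | hy
        · omega
        · have := hK y hy
          omega
    obtain ⟨K, hK⟩ := hst (a :: L)
    have hval : ∀ y ∈ a :: L, ∀ t1 t2 : Prop, (D1 y ↔ t1) → (D2 y ↔ t2) →
        Ag d1 (K + 1) y t1 ∧ Ag d2 (K + 1) y t2 := by
      intro y hy t1 t2 h1 h2
      have e1 := hk1 y (K + 1) (by have := (hK y hy).1; omega)
      have e2 := hk2 y (K + 1) (by have := (hK y hy).2; omega)
      refine ⟨?_, ?_⟩
      · show (val d1 (K + 1) y = 1 ∧ t1) ∨ (val d1 (K + 1) y = 0 ∧ ¬ t1)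
        rw [e1]
        by_cases hD : D1 y
        · exact Or.inl ⟨(hg1 y).2 hD, h1.1 hD⟩
        · refine Or.inr ⟨?_, fun h => hD (h1.2 h)⟩
          have h3 : g1 y ≠ 1 := fun h => hD ((hg1 y).1 h)
          have := hg1' y
          omega
      · show (val d2 (K + 1) y = 1 ∧ t2) ∨ (val d2 (K + 1) y = 0 ∧ ¬ t2)
        rw [e2]
        by_cases hD : D2 y
        · exact Or.inl ⟨(hg2 y).2 hD, h2.1 hD⟩
        · refine Or.inr ⟨?_, fun h => hD (h2.2 h)⟩
          have h3 : g2 y ≠ 1 := fun h => hD ((hg2 y).1 h)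
          have := hg2' y
          omega
    refine ⟨Nat.pair a (K + 1), ?_⟩
    show (∀ y ∈ L, y ≠ (Nat.pair a (K + 1)).unpair.1 ∧ _) ∧ _
    rw [Nat.unpair_pair]
    refine ⟨fun y hy => ⟨(haL y hy).1, ?_⟩, by simp, ha0, ?_⟩
    · exact hval y (List.mem_cons_of_mem _ hy) _ _ (haL y hy).2.1.symm (haL y hy).2.2.symm
    · exact hval a List.mem_cons_self _ _ ha1 ha2
  obtain ⟨s, hs, hsP, -⟩ := computable_find e2 hex
  refine ⟨fun L => (s L).unpair.1, (Computable.fst.comp Primrec.unpair.to_comp).comp hs, ?_⟩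
  intro L
  obtain ⟨h1, h2, h3, h4, h5⟩ := hsP L
  have hag1 : ∀ y (t : Prop), Ag d1 (s L).unpair.2 y t → (D1 y ↔ t) := by
    intro y t h
    have hv := val_sound g1 hg1 hg1' hd1 (y := y) h2
    rcases h with ⟨h, ht⟩ | ⟨h, ht⟩
    · exact ⟨fun _ => ht, fun _ => hv.1 h⟩
    · exact ⟨fun hD => absurd hD (hv.2 h), fun h' => absurd h' ht⟩
  have hag2 : ∀ y (t : Prop), Ag d2 (s L).unpair.2 y t → (D2 y ↔ t) := by
    intro y t h
    have hv := val_sound g2 hg2 hg2' hd2 (y := y) h2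
    rcases h with ⟨h, ht⟩ | ⟨h, ht⟩
    · exact ⟨fun _ => ht, fun _ => hv.1 h⟩
    · exact ⟨fun hD => absurd hD (hv.2 h), fun h' => absurd h' ht⟩
  exact ⟨fun y hy => ⟨(h1 y hy).1, (hag1 y _ (h1 y hy).2.1).symm, (hag2 y _ (h1 y hy).2.2).symm⟩,
    h3, hag1 _ _ h4, hag2 _ _ h5⟩

/-- **The listing.** -/
theorem listing_of_find (c0 c1 c2 : Prop) {D1 D2 : ℕ → Prop} {B : ℕ → ℕ → Prop}
    (hfind : Find c0 c1 c2 D1 D2 B) :
    ∃ p : ℕ → ℕ, Computable p ∧ Function.Bijective p ∧
      (∀ k, (B (p (2 * k)) (p (2 * k)) ↔ c0) ∧ (D1 (p (2 * k)) ↔ c1) ∧ (D2 (p (2 * k)) ↔ c2)) ∧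
      ∀ k, ∀ i < 2 * k, (B (p (2 * k)) (p i) ↔ D1 (p i)) ∧ (B (p i) (p (2 * k)) ↔ D2 (p i)) := by
  classical
  obtain ⟨s1, hs1, hs1P⟩ := hfind
  obtain ⟨s2, hs2, hs2P, hs2m⟩ := computable_find primrec_notMem
    (fun L => by
      obtain ⟨a, ha⟩ := Infinite.exists_notMem_finset L.toFinset
      exact ⟨a, fun h => ha (List.mem_toFinset.2 h)⟩)
  let st : ℕ → List ℕ := fun n => Nat.rec (motive := fun _ => List ℕ) []
    (fun _ L => s2 (s1 L :: L) :: s1 L :: L) n
  have hst0 : st 0 = [] := rfl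
  have hsts : ∀ k, st (k + 1) = s2 (s1 (st k) :: st k) :: s1 (st k) :: st k := fun k => rfl
  have hcons : Computable (fun L : List ℕ => s1 L :: L) :=
    Computable.list_cons.comp hs1 Computable.id
  have hstep : Computable (fun L : List ℕ => s2 (s1 L :: L) :: s1 L :: L) :=
    Computable.list_cons.comp (hs2.comp hcons) hcons
  have hst : Computable st := by
    refine Computable.nat_rec (f := fun n : ℕ => n) (g := fun _ : ℕ => ([] : List ℕ))
      (h := fun _ q => s2 (s1 q.2 :: q.2) :: s1 q.2 :: q.2) Computable.id (Computable.const _) ?_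
    exact hstep.comp (Computable.snd.comp Computable.snd)
  let p : ℕ → ℕ := fun n => if n % 2 = 0 then s1 (st (n / 2)) else s2 (s1 (st (n / 2)) :: st (n / 2))
  have hp0 : ∀ k, p (2 * k) = s1 (st k) := by
    intro k
    have h1 : (2 * k) % 2 = 0 := by omega
    have h2 : (2 * k) / 2 = k := by omega
    simp only [p, h1, h2, if_true]
  have hp1 : ∀ k, p (2 * k + 1) = s2 (s1 (st k) :: st k) := by
    intro k
    have h1 : ¬ (2 * k + 1) % 2 = 0 := by omega
    have h2 : (2 * k + 1) / 2 = k := by omega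
    simp only [p, h1, h2, if_false]
  have hhalf : Computable (fun n : ℕ => n / 2) :=
    (Primrec.nat_div.comp Primrec.id (Primrec.const 2)).to_comp
  have hp : Computable p := by
    have hpar : Computable (fun n : ℕ => decide (n % 2 = 0)) := by
      have : PrimrecPred (fun n : ℕ => n % 2 = 0) :=
        Primrec.eq.comp (Primrec.nat_mod.comp Primrec.id (Primrec.const 2)) (Primrec.const 0)
      exact this.decide.to_comp
    refine (Computable.cond hpar (hs1.comp (hst.comp hhalf))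
      (hs2.comp (hcons.comp (hst.comp hhalf)))).of_eq fun n => ?_
    by_cases h : n % 2 = 0 <;> simp [p, h]
  have hmem : ∀ k y, y ∈ st k ↔ ∃ i < 2 * k, p i = y := by
    intro k
    induction k with
    | zero => intro y; simp [hst0]
    | succ k ih =>
      intro y
      rw [hsts, List.mem_cons, List.mem_cons, ih, ← hp1, ← hp0]
      constructor
      · rintro (h | h | ⟨i, hi, h⟩)
        · exact ⟨2 * k + 1, by omega, h.symm⟩
        · exact ⟨2 * k, by omega, h.symm⟩
        · exact ⟨i, by omega, h⟩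
      · rintro ⟨i, hi, h⟩
        rcases (by omega : i = 2 * k + 1 ∨ i = 2 * k ∨ i < 2 * k) with h' | h' | h'
        · left; rw [← h, h']
        · right; left; rw [← h, h']
        · right; right; exact ⟨i, h', h⟩
  have hnew : ∀ n i, i < n → p i ≠ p n := by
    intro n i hi heq
    rcases (by omega : n = 2 * (n / 2) ∨ n = 2 * (n / 2) + 1) with h | h
    · set k := n / 2
      have h1 : p i ∈ st k := (hmem k _).2 ⟨i, by omega, rfl⟩
      have h2 := ((hs1P (st k)).1 _ h1).1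
      apply h2
      rw [heq, h, hp0]
    · set k := n / 2
      have h2 := hs2P (s1 (st k) :: st k)
      apply h2
      rw [← hp1, ← h, ← heq, List.mem_cons, hmem, ← hp0]
      rcases (by omega : i = 2 * k ∨ i < 2 * k) with h' | h'
      · left; rw [h']
      · right; exact ⟨i, h', rfl⟩
  have hinj : Function.Injective p := by
    intro a b hab
    rcases lt_trichotomy a b with h | h | h
    · exact absurd hab (hnew b a h)
    · exact h
    · exact absurd hab.symm (hnew a b h)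
  have hall : ∀ k, ∀ b < k, b ∈ st k := by
    intro k
    induction k with
    | zero => intro b hb; omega
    | succ k ih =>
      intro b hb
      rw [hsts, List.mem_cons, List.mem_cons]
      by_cases hbk : b < k
      · exact Or.inr (Or.inr (ih b hbk))
      · have hbk' : b = k := by omega
        subst hbk'
        by_cases hm : b ∈ s1 (st b) :: st b
        · exact Or.inr (List.mem_cons.1 hm)
        · left
          have h1 : s2 (s1 (st b) :: st b) ≤ b := by
            by_contra hlt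
            exact hs2m _ b (by omega) hm
          have h2 := hs2P (s1 (st b) :: st b)
          by_contra hne
          have h3 : s2 (s1 (st b) :: st b) < b := by omega
          exact h2 (List.mem_cons_of_mem _ (ih _ h3))
  have hsurj : Function.Surjective p := by
    intro b
    obtain ⟨i, -, hi⟩ := (hmem (b + 1) b).1 (hall (b + 1) b (by omega))
    exact ⟨i, hi⟩
  refine ⟨p, hp, ⟨hinj, hsurj⟩, fun k => ?_, fun k i hi => ?_⟩
  · rw [hp0]; exact (hs1P (st k)).2
  · have h1 : p i ∈ st k := (hmem k _).2 ⟨i, hi, rfl⟩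
    rw [hp0]
    exact ((hs1P (st k)).1 _ h1).2

theorem exists_listing (c0 c1 c2 : Prop) {D1 D2 : ℕ → Prop} (h1D : PrimrecPred D1)
    (h2D : PrimrecPred D2) {B : ℕ → ℕ → Prop} (hB : PrimrecRel B)
    (hfree : ∀ L : List ℕ, ∃ a, Gen c0 c1 c2 D1 D2 B L a) :
    ∃ p : ℕ → ℕ, Computable p ∧ Function.Bijective p ∧
      (∀ k, (B (p (2 * k)) (p (2 * k)) ↔ c0) ∧ (D1 (p (2 * k)) ↔ c1) ∧ (D2 (p (2 * k)) ↔ c2)) ∧
      ∀ k, ∀ i < 2 * k, (B (p (2 * k)) (p i) ↔ D1 (p i)) ∧ (B (p i) (p (2 * k)) ↔ D2 (p i)) :=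
  listing_of_find c0 c1 c2 (find_of_primrec c0 c1 c2 h1D h2D hB hfree)

end Typ27
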