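import Pool.Agent.Lib.MP_36da60_lc.TypA27

/-!
# fpr-degrees: binary structures with a primitive recursive type (II): the delayed copy
-/

set_option autoImplicit false

namespace Typ27

open Fpr62 Nat.Partrec

/-- The relation between the elements with indices `i` and `j`, read from the table at stage `K`. -/
def Q (c0 c1 c2 : Prop) (d : Code) (K i j : ℕ) : Prop :=
  ((i < j ∧ j % 2 = 0) ∧ ((i % 2 = 0 ∧ c2) ∨ (¬ i % 2 = 0 ∧ val d K (Nat.pair i (i + 1)) = 1))) ∨
  ((j < i ∧ i % 2 = 0) ∧ ((j % 2 = 0 ∧ c1) ∨ (¬ j % 2 = 0 ∧ val d K (Nat.pair (j + 1) j) = 1))) ∨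
  ((i = j ∧ i % 2 = 0) ∧ c0) ∨
  (¬ (max i j) % 2 = 0 ∧ val d K (Nat.pair i j) = 1)

theorem primrec_Q {β : Type*} [Primcodable β] (c0 c1 c2 : Prop) (d : Code) {K i j : β → ℕ}
    (hK : Primrec K) (hi : Primrec i) (hj : Primrec j) :
    PrimrecPred (fun b => Q c0 c1 c2 d (K b) (i b) (j b)) := by
  have pi : PrimrecPred (fun b => (i b) % 2 = 0) :=
    Primrec.eq.comp (Primrec.nat_mod.comp hi (Primrec.const 2)) (Primrec.const 0)
  have pj : PrimrecPred (fun b => (j b) % 2 = 0) :=
    Primrec.eq.comp (Primrec.nat_mod.comp hj (Primrec.const 2)) (Primrec.const 0)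
  have pm : PrimrecPred (fun b => (max (i b) (j b)) % 2 = 0) :=
    Primrec.eq.comp (Primrec.nat_mod.comp (Primrec.nat_max.comp hi hj) (Primrec.const 2))
      (Primrec.const 0)
  have v1 : PrimrecPred (fun b => val d (K b) (Nat.pair (i b) (i b + 1)) = 1) :=
    Primrec.eq.comp ((primrec_val d).comp hK (Primrec₂.natPair.comp hi (Primrec.succ.comp hi)))
      (Primrec.const 1)
  have v2 : PrimrecPred (fun b => val d (K b) (Nat.pair (j b + 1) (j b)) = 1) :=
    Primrec.eq.comp ((primrec_val d).comp hK (Primrec₂.natPair.comp (Primrec.succ.comp hj) hj))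
      (Primrec.const 1)
  have v3 : PrimrecPred (fun b => val d (K b) (Nat.pair (i b) (j b)) = 1) :=
    Primrec.eq.comp ((primrec_val d).comp hK (Primrec₂.natPair.comp hi hj)) (Primrec.const 1)
  have l1 : PrimrecPred (fun b => i b < j b) := Primrec.nat_lt.comp hi hj
  have l2 : PrimrecPred (fun b => j b < i b) := Primrec.nat_lt.comp hj hi
  have l3 : PrimrecPred (fun b => i b = j b) := Primrec.eq.comp hi hj
  exact ((l1.and pj).and ((pi.and (pp_const c2)).or (pi.not.and v1))).or
    (((l2.and pi).and ((pj.and (pp_const c1)).or (pj.not.and v2))).or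
      (((l3.and pi).and (pp_const c0)).or (pm.not.and v3)))

theorem Q_iff {c0 c1 c2 : Prop} {D1 D2 : ℕ → Prop} {B : ℕ → ℕ → Prop} {p : ℕ → ℕ}
    (hp0 : ∀ k, (B (p (2 * k)) (p (2 * k)) ↔ c0) ∧ (D1 (p (2 * k)) ↔ c1) ∧
      (D2 (p (2 * k)) ↔ c2))
    (hp1 : ∀ k, ∀ i < 2 * k, (B (p (2 * k)) (p i) ↔ D1 (p i)) ∧ (B (p i) (p (2 * k)) ↔ D2 (p i)))
    {w : ℕ → ℕ} (hwB : ∀ z, w z = 1 ↔ B (p z.unpair.1) (p z.unpair.2)) {d : Code} {K i j : ℕ}
    (hv : ∀ z i', (i' = i ∨ i' = j) → ¬ i' % 2 = 0 → z < (i' + 2) * (i' + 2) → val d K z = w z) :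
    Q c0 c1 c2 d K i j ↔ B (p i) (p j) := by
  have hw' : ∀ a b, w (Nat.pair a b) = 1 ↔ B (p a) (p b) := by
    intro a b
    rw [hwB, Nat.unpair_pair]
  have hlt : ∀ a b, Nat.pair a b < (max a b + 1) * (max a b + 1) := by
    intro a b
    have := Nat.pair_lt_max_add_one_sq a b
    rwa [sq] at this
  unfold Q
  rcases lt_trichotomy i j with h | h | h
  · have hmax : max i j = j := max_eq_right h.le
    by_cases hj : j % 2 = 0
    · have e1 := (hp1 (j / 2) i (by omega)).2
      have e2 : 2 * (j / 2) = j := by omega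
      rw [e2] at e1
      rw [e1]
      have n1 : ¬ j < i := by omega
      have n2 : ¬ i = j := by omega
      rw [hmax]
      simp only [h, hj, n1, n2, true_and, false_and, not_true_eq_false, or_false, false_or]
      by_cases hi : i % 2 = 0
      · have e3 := (hp0 (i / 2)).2.2
        have e4 : 2 * (i / 2) = i := by omega
        rw [e4] at e3
        rw [e3]
        simp [hi]
      · have e3 := (hp1 ((i + 1) / 2) i (by omega)).2
        have e4 : 2 * ((i + 1) / 2) = i + 1 := by omega
        rw [e4] at e3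
        have e5 : val d K (Nat.pair i (i + 1)) = w (Nat.pair i (i + 1)) := by
          refine hv _ i (Or.inl rfl) hi ?_
          have := hlt i (i + 1)
          have e6 : max i (i + 1) = i + 1 := by omega
          rw [e6] at this
          exact this
        rw [e5, hw', e3]
        simp [hi]
    · rw [hmax]
      have n1 : ¬ j < i := by omega
      have n2 : ¬ i = j := by omega
      have e5 : val d K (Nat.pair i j) = w (Nat.pair i j) := by
        refine hv _ j (Or.inr rfl) hj ?_
        have := hlt i j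
        rw [hmax] at this
        nlinarith
      rw [e5, hw']
      simp [hj, n1, n2]
  · subst h
    have hmax : max i i = i := max_self i
    rw [hmax]
    by_cases hi : i % 2 = 0
    · have e3 := (hp0 (i / 2)).1
      have e4 : 2 * (i / 2) = i := by omega
      rw [e4] at e3
      rw [e3]
      simp [hi]
    · have e5 : val d K (Nat.pair i i) = w (Nat.pair i i) := by
        refine hv _ i (Or.inl rfl) hi ?_
        have := hlt i i
        rw [hmax] at this
        nlinarith
      rw [e5, hw']
      simp [hi]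
  · have hmax : max i j = i := max_eq_left h.le
    by_cases hi : i % 2 = 0
    · have e1 := (hp1 (i / 2) j (by omega)).1
      have e2 : 2 * (i / 2) = i := by omega
      rw [e2] at e1
      rw [e1]
      have n1 : ¬ i < j := by omega
      have n2 : ¬ i = j := by omega
      rw [hmax]
      simp only [h, hi, n1, n2, true_and, false_and, not_true_eq_false, or_false, false_or]
      by_cases hj : j % 2 = 0
      · have e3 := (hp0 (j / 2)).2.1
        have e4 : 2 * (j / 2) = j := by omega
        rw [e4] at e3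
        rw [e3]
        simp [hj]
      · have e3 := (hp1 ((j + 1) / 2) j (by omega)).1
        have e4 : 2 * ((j + 1) / 2) = j + 1 := by omega
        rw [e4] at e3
        have e5 : val d K (Nat.pair (j + 1) j) = w (Nat.pair (j + 1) j) := by
          refine hv _ j (Or.inr rfl) hj ?_
          have := hlt (j + 1) j
          have e6 : max (j + 1) j = j + 1 := by omega
          rw [e6] at this
          exact this
        rw [e5, hw', e3]
        simp [hj]
    · rw [hmax]
      have n1 : ¬ i < j := by omega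
      have n2 : ¬ i = j := by omega
      have e5 : val d K (Nat.pair i j) = w (Nat.pair i j) := by
        refine hv _ i (Or.inl rfl) hi ?_
        have := hlt i j
        rw [hmax] at this
        nlinarith
      rw [e5, hw']
      simp [hi, n1, n2]

/-- **The delayed copy.** -/
theorem exists_delayed_of_find (c0 c1 c2 : Prop) {D1 D2 : ℕ → Prop} {B : ℕ → ℕ → Prop}
    (hB : PrimrecRel B) (hfind : Find c0 c1 c2 D1 D2 B) (G : ℕ → ℕ) (hG : Computable G) :
    ∃ (B' : ℕ → ℕ → Prop) (φ : ℕ ≃ ℕ) (ind : ℕ → ℕ) (R : ℕ → Prop), PrimrecRel B' ∧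
      (∀ x y, B' x y ↔ B (φ x) (φ y)) ∧ Function.Injective ind ∧
      (∀ x, ind x ≤ 2 * x + 1) ∧ (∀ x, ¬ R x → ind x % 2 = 0) ∧
      (∀ x, ¬ R x → (B' x x ↔ c0) ∧ (D1 (φ x) ↔ c1) ∧ (D2 (φ x) ↔ c2) ∧
        ∀ y, ind y < ind x → (B' x y ↔ D1 (φ y)) ∧ (B' y x ↔ D2 (φ y))) ∧
      ∀ n, ∃ F : Finset ℕ, F.card ≤ n ∧ ∀ x < G n, R x → x ∈ F := by
  classical
  obtain ⟨p, hp, hpb, hp0, hp1⟩ := listing_of_find c0 c1 c2 hfind
  -- the table
  have hw : ∃ w : ℕ → ℕ, Computable w ∧ ∀ z, w z = 1 ↔ B (p z.unpair.1) (p z.unpair.2) := by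
    obtain ⟨hd, hBp⟩ := hB
    refine ⟨fun z => cond (@decide (B (p z.unpair.1) (p z.unpair.2)) (Classical.propDecidable _))
      1 0, ?_, ?_⟩
    · refine Computable.cond ?_ (Computable.const 1) (Computable.const 0)
      have h1 : Computable (fun z : ℕ => (p z.unpair.1, p z.unpair.2)) :=
        (hp.comp (Computable.fst.comp Primrec.unpair.to_comp)).pair
          (hp.comp (Computable.snd.comp Primrec.unpair.to_comp))
      refine (hBp.to_comp.comp h1).of_eq fun z => ?_
      by_cases h : B (p z.unpair.1) (p z.unpair.2) <;> simp [h]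
    · intro z
      by_cases h : B (p z.unpair.1) (p z.unpair.2) <;> simp [h]
  obtain ⟨w, hwc, hwB⟩ := hw
  obtain ⟨d, hd⟩ := Code.exists_code.1 (Partrec.nat_iff.1 hwc)
  have hdw : ∀ z, Code.eval d z = Part.some (w z) := by
    intro z; rw [hd]; rfl
  -- the time to compute one entry
  have hP : PrimrecRel (fun z k : ℕ => (Code.evaln k d z).isSome = true) := by
    have h1 : Primrec (fun q : ℕ × ℕ => Code.evaln q.2 d q.1) :=
      Code.primrec_evaln.comp ((Primrec.snd.pair (Primrec.const d)).pair Primrec.fst)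
    have h2 : Primrec (fun q : ℕ × ℕ => (Code.evaln q.2 d q.1).isSome) :=
      Primrec.option_isSome.comp h1
    exact Primrec.eq.comp h2 (Primrec.const true)
  obtain ⟨u, hu, huP, -⟩ := computable_find hP (fun z => by
    have h1 : w z ∈ Code.eval d z := by rw [hdw]; exact Part.mem_some _
    obtain ⟨k, hk⟩ := Code.evaln_complete.1 h1
    have h2 : Code.evaln k d z = some (w z) := hk
    exact ⟨k, by rw [h2]; rfl⟩)
  have hval : ∀ z k, u z ≤ k → val d k z = w z := by
    intro z k hk
    obtain ⟨v, hv⟩ := Option.isSome_iff_exists.1 (huP z)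
    have h1 : v ∈ Code.evaln (u z) d z := hv
    have h2 := Code.evaln_mono hk h1
    have h3 := Code.evaln_sound h1
    rw [hdw] at h3
    have h4 : v = w z := by simpa using h3
    have h5 : Code.evaln k d z = some v := h2
    unfold val
    rw [h5, h4]
    rfl
  -- cumulated time
  let cum : ℕ → ℕ := fun n => Nat.rec (motive := fun _ => ℕ) 0 (fun i s => s + u i) n
  have hcum : Computable cum := by
    refine Computable.nat_rec (f := fun n : ℕ => n) (g := fun _ : ℕ => (0 : ℕ))
      (h := fun _ q => q.2 + u q.1) Computable.id (Computable.const _) ?_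
    exact Primrec.nat_add.to_comp.comp (Computable.snd.comp Computable.snd)
      (hu.comp (Computable.fst.comp Computable.snd))
  have hcums : ∀ n, cum (n + 1) = cum n + u n := fun n => rfl
  have hcumu : ∀ n i, i < n → u i ≤ cum n := by
    intro n
    induction n with
    | zero => intro i hi; omega
    | succ n ih =>
      intro i hi
      rw [hcums]
      rcases (by omega : i < n ∨ i = n) with h | h
      · have := ih i h; omega
      · rw [h]; omega
  -- the function to be dominated
  have hsq : Computable (fun j : ℕ => (2 * j + 3) * (2 * j + 3)) := by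
    have h1 : Primrec (fun j : ℕ => 2 * j + 3) :=
      Primrec.nat_add.comp (Primrec.nat_mul.comp (Primrec.const 2) Primrec.id) (Primrec.const 3)
    exact (Primrec.nat_mul.comp h1 h1).to_comp
  have hlin : Computable (fun j : ℕ => 2 * j + 2) :=
    (Primrec.nat_add.comp (Primrec.nat_mul.comp (Primrec.const 2) Primrec.id)
      (Primrec.const 2)).to_comp
  let t : ℕ → ℕ := fun j => cum ((2 * j + 3) * (2 * j + 3)) + (G j + (2 * j + 2))
  have ht : Computable t :=
    Primrec.nat_add.to_comp.comp (hcum.comp hsq) (Primrec.nat_add.to_comp.comp hG hlin)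
  obtain ⟨e, he⟩ := Code.exists_code.1 (Partrec.nat_iff.1 ht)
  have het : ∀ j, Code.eval e j = Part.some (t j) := by
    intro j; rw [he]; rfl
  have ht1 : ∀ j, 2 * j + 2 ≤ t j := fun j => by simp only [t]; omega
  have ht2 : ∀ j, G j ≤ t j := fun j => by simp only [t]; omega
  have ht3 : ∀ j, cum ((2 * j + 3) * (2 * j + 3)) ≤ t j := fun j => by simp only [t]; omega
  have hR := RR_infinite het
  have hR' := not_RR_infinite het ht1
  have hpb' := pos_bijective hR hR'
  have hkey : ∀ x, ¬ (pos e x) % 2 = 0 → ∀ K z, x ≤ K → z < (pos e x + 2) * (pos e x + 2) →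
      val d K z = w z := by
    intro x hx K z hxK hz
    apply hval
    obtain ⟨j, hj⟩ : ∃ j, pos e x = 2 * j + 1 := ⟨pos e x / 2, by omega⟩
    obtain ⟨hr, hc⟩ := pos_odd hj
    have h4 := (RR_t het hr).2
    rw [hc] at h4
    rw [hj] at hz
    have h2 := hcumu _ _ hz
    have h3 := ht3 j
    have h5 : (2 * j + 1 + 2) = 2 * j + 3 := by omega
    rw [h5] at h2
    omega
  have hB'B : ∀ x y, Q c0 c1 c2 d (max x y) (pos e x) (pos e y) ↔
      B (p (pos e x)) (p (pos e y)) := by
    intro x y
    refine Q_iff hp0 hp1 hwB ?_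
    intro z i' hi' hodd hz
    rcases hi' with h | h
    · rw [h] at hodd hz
      exact hkey x hodd _ z (le_max_left _ _) hz
    · rw [h] at hodd hz
      exact hkey y hodd _ z (le_max_right _ _) hz
  let φ : ℕ ≃ ℕ := (Equiv.ofBijective (pos e) hpb').trans (Equiv.ofBijective p hpb)
  have hφ : ∀ x, φ x = p (pos e x) := fun x => rfl
  refine ⟨fun x y => Q c0 c1 c2 d (max x y) (pos e x) (pos e y), φ, pos e, RR e, ?_, ?_,
    hpb'.1, ?_, ?_, ?_, ?_⟩
  · exact primrec_Q c0 c1 c2 d (Primrec.nat_max.comp Primrec.fst Primrec.snd)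
      ((primrec_pos e).comp Primrec.fst) ((primrec_pos e).comp Primrec.snd)
  · intro x y
    rw [hφ, hφ]
    exact hB'B x y
  · intro x
    have h1 : cnt e x ≤ x := by
      rw [← count_RR]
      exact Nat.count_le _
    unfold pos
    split_ifs <;> omega
  · intro x hx
    unfold pos
    rw [if_neg hx]
    omega
  · intro x hx
    have hev : pos e x = 2 * (x - cnt e x) := by
      unfold pos
      rw [if_neg hx]
    have e0 := hp0 (x - cnt e x)
    have e1 := hp1 (x - cnt e x)
    rw [← hev] at e0 e1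
    refine ⟨(hB'B x x).trans e0.1, e0.2.1, e0.2.2, ?_⟩
    intro y hy
    exact ⟨(hB'B x y).trans (e1 _ hy).1, (hB'B y x).trans (e1 _ hy).2⟩
  · intro n
    refine ⟨(Finset.range (G n)).filter (fun x => RR e x), ?_, ?_⟩
    · have h1 := count_RR_le het ht2 n
      rw [Nat.count_eq_card_filter_range] at h1
      exact h1
    · intro x hx hr
      exact Finset.mem_filter.2 ⟨Finset.mem_range.2 hx, hr⟩

end Typ27
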